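import Pool.Agent.H.MP_1693ff_gt.Defs

/-!
# Limits of the slopes
-/

namespace CF

open Real Set Filter Topology

theorem asym1_dist_pos (S : Setup) {q : ℝ} (hq : 1 ≤ q) : 0 < S.dist q := by
  have h1 : 0 < S.R₀ := S.P.R0
  unfold Setup.dist
  positivity

theorem asym1_tendsto_c (c : ℝ) : Tendsto (fun x : ℝ => c / x ^ 2) atTop (𝓝 0) :=
  tendsto_const_nhds.div_atTop (tendsto_pow_atTop (two_ne_zero))

theorem asym1_top {φ φ₁ φ₂ : ℝ → ℝ} {A B R₀ c : ℝ} (P : Prof φ φ₁ φ₂ A B R₀ c) :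
    Tendsto φ₁ atTop (𝓝 A) := by
  rw [tendsto_iff_norm_sub_tendsto_zero]
  refine squeeze_zero' (Eventually.of_forall fun x => norm_nonneg _) ?_ (asym1_tendsto_c c)
  filter_upwards [eventually_ge_atTop 1] with x hx
  simpa [Real.norm_eq_abs] using P.r1 x hx

theorem asym1_bot {φ φ₁ φ₂ : ℝ → ℝ} {A B R₀ c : ℝ} (P : Prof φ φ₁ φ₂ A B R₀ c) :
    Tendsto φ₁ atBot (𝓝 (-A)) := by
  rw [tendsto_iff_norm_sub_tendsto_zero]
  have h : Tendsto (fun x : ℝ => c / x ^ 2) atBot (𝓝 0) := by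
    have := (asym1_tendsto_c c).comp tendsto_neg_atBot_atTop
    refine this.congr fun x => ?_
    simp
  refine squeeze_zero' (Eventually.of_forall fun x => norm_nonneg _) ?_ h
  filter_upwards [eventually_le_atBot (-1)] with x hx
  simpa [Real.norm_eq_abs] using P.l1 x hx

/-- an antitone function bounded below converges at `+∞`. -/
theorem asym1_antitone {s : ℝ → ℝ} (h : Antitone s) {b : ℝ} (hb : ∀ τ, b ≤ s τ) :
    ∃ m, b ≤ m ∧ Tendsto s atTop (𝓝 m) := by
  have hbdd : BddBelow (range s) := ⟨b, by rintro _ ⟨τ, rfl⟩; exact hb τ⟩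
  exact ⟨⨅ τ, s τ, le_ciInf hb, tendsto_atTop_ciInf h hbdd⟩

/-- a monotone function bounded below converges at `-∞`. -/
theorem asym1_monotone {s : ℝ → ℝ} (h : Monotone s) {b : ℝ} (hb : ∀ τ, b ≤ s τ) :
    ∃ m, b ≤ m ∧ Tendsto s atBot (𝓝 m) := by
  have hbdd : BddBelow (range s) := ⟨b, by rintro _ ⟨τ, rfl⟩; exact hb τ⟩
  exact ⟨⨅ τ, s τ, le_ciInf hb, tendsto_atBot_ciInf h hbdd⟩

/-- uniqueness of the positive solution of `1/m = 1/(m + a) + b`. -/
theorem asym1_unique {a m m' b : ℝ} (ha : 0 < a) (hm : 0 < m) (hm' : 0 < m')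
    (h : m⁻¹ = (m + a)⁻¹ + b) (h' : m'⁻¹ = (m' + a)⁻¹ + b) : m = m' := by
  have e1 : m⁻¹ - (m + a)⁻¹ = a / (m * (m + a)) := by
    field_simp
    ring
  have e2 : m'⁻¹ - (m' + a)⁻¹ = a / (m' * (m' + a)) := by
    field_simp
    ring
  have e3 : a / (m * (m + a)) = a / (m' * (m' + a)) := by
    rw [← e1, ← e2]; linarith
  have p1 : 0 < m * (m + a) := by positivity
  have p2 : 0 < m' * (m' + a) := by positivity
  rw [div_eq_div_iff p1.ne' p2.ne'] at e3
  have e4 : m' * (m' + a) = m * (m + a) := mul_left_cancel₀ ha.ne' e3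
  have e5 : (m' - m) * (m' + m + a) = 0 := by ring_nf; ring_nf at e4; linarith
  have e6 : m' + m + a ≠ 0 := by positivity
  have := (mul_eq_zero.1 e5).resolve_right e6
  linarith

/-- `s` is antitone, `s + F'(x)` is monotone, all limits exist (both are positive; `F'(x)` has
limits `± d A`), with the relations of the staircase:
`m = lim_{+∞} s`, `M = lim_{+∞} (s + F' x)`, `M = m + d A`, `1/m = 1/M + d A'`;
`m₋ = lim_{-∞} (s + F' x)`, `M₋ = lim_{-∞} s`, `M₋ = m₋ + d A`, `1/m₋ = 1/M₋ + d A'`; hence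
`m₋ = m`, `M₋ = M` (the positive solution of `1/m = 1/(m + dA) + dA'` is unique).
(`E'(y) → -d A'` for `y → -∞`, `→ d A'` for `y → +∞`.) -/
theorem slopes (S : Setup) {q : ℝ} (hq : 1 ≤ q) {x y s : ℝ → ℝ}
    (C : Curve (S.F q) (S.F₁ q) (S.E q) (S.E₁ q) x y s) : ∃ m M, 0 < m ∧
    M = m + S.dist q * S.A ∧ m⁻¹ = M⁻¹ + S.dist q * S.A' ∧
    Tendsto s atTop (𝓝 m) ∧ Tendsto (fun τ => s τ + S.F₁ q (x τ)) atTop (𝓝 M) ∧
    Tendsto s atBot (𝓝 M) ∧ Tendsto (fun τ => s τ + S.F₁ q (x τ)) atBot (𝓝 m) := by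
  have hd := asym1_dist_pos S hq
  have hA : 0 < S.A := S.P.A0
  have hA' : 0 < S.A' := S.Q.A0
  have hdA : 0 < S.dist q * S.A := by positivity
  have hdA' : 0 < S.dist q * S.A' := by positivity
  have santi : Antitone s := fun a b hab => (C.relG a b hab).2.1
  have sHmono : Monotone (fun τ => s τ + S.F₁ q (x τ)) := fun a b hab => (C.relH a b hab).2.1
  -- limits of F₁ and E₁ along the curve
  have F1top : Tendsto (fun τ => S.F₁ q (x τ)) atTop (𝓝 (S.dist q * S.A)) :=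
    ((asym1_top S.P).comp C.xtop).const_mul _
  have F1bot : Tendsto (fun τ => S.F₁ q (x τ)) atBot (𝓝 (-(S.dist q * S.A))) := by
    have := ((asym1_bot S.P).comp C.xbot).const_mul (S.dist q)
    rw [mul_neg] at this
    exact this
  have yHtop : Tendsto (fun τ => y τ - S.F q (x τ)) atTop atBot := by
    have : Tendsto (fun τ => y (τ + 2)) atTop atBot :=
      C.ytop.comp (tendsto_atTop_add_const_right _ _ tendsto_id)
    exact this.congr fun τ => C.shy τ
  have yHbot : Tendsto (fun τ => y τ - S.F q (x τ)) atBot atTop := by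
    have : Tendsto (fun τ => y (τ + 2)) atBot atTop :=
      C.ybot.comp (tendsto_atBot_add_const_right _ _ tendsto_id)
    exact this.congr fun τ => C.shy τ
  have E1top : Tendsto (fun τ => S.E₁ q (y τ - S.F q (x τ))) atTop
      (𝓝 (-(S.dist q * S.A'))) := by
    have := ((asym1_bot S.Q).comp yHtop).const_mul (S.dist q)
    rw [mul_neg] at this
    exact this
  have E1bot : Tendsto (fun τ => S.E₁ q (y τ - S.F q (x τ))) atBot
      (𝓝 (S.dist q * S.A')) :=
    ((asym1_top S.Q).comp yHbot).const_mul _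
  -- at +∞
  obtain ⟨m, hm0, hm⟩ := asym1_antitone santi (fun τ => (C.s0 τ).le)
  have hM := hm.add F1top
  have hMpos : 0 < m + S.dist q * S.A := by linarith
  have h1 : Tendsto (fun τ => (s (τ + 2))⁻¹) atTop
      (𝓝 ((m + S.dist q * S.A)⁻¹ + S.dist q * S.A')) := by
    have := (hM.inv₀ hMpos.ne').sub E1top
    rw [sub_neg_eq_add] at this
    exact this.congr fun τ => (C.shs τ).symm
  have hp1 : 0 < (m + S.dist q * S.A)⁻¹ + S.dist q * S.A' := by positivity
  have h2 : Tendsto (fun τ => s (τ + 2)) atTop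
      (𝓝 ((m + S.dist q * S.A)⁻¹ + S.dist q * S.A')⁻¹) := by
    have := h1.inv₀ hp1.ne'
    simpa using this
  have h3 : Tendsto (fun τ => s (τ + 2)) atTop (𝓝 m) :=
    hm.comp (tendsto_atTop_add_const_right _ _ tendsto_id)
  have e1 : m = ((m + S.dist q * S.A)⁻¹ + S.dist q * S.A')⁻¹ := tendsto_nhds_unique h3 h2
  have mpos : 0 < m := by rw [e1]; positivity
  have e1' : m⁻¹ = (m + S.dist q * S.A)⁻¹ + S.dist q * S.A' := by
    conv_lhs => rw [e1]
    rw [inv_inv]
  -- at -∞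
  obtain ⟨n, hn0, hn⟩ := asym1_monotone sHmono (fun τ => (C.sH0 τ).le)
  have hN : Tendsto s atBot (𝓝 (n + S.dist q * S.A)) := by
    have := hn.sub F1bot
    rw [sub_neg_eq_add] at this
    refine this.congr fun τ => ?_
    simp
  have hNpos : 0 < n + S.dist q * S.A := by linarith
  have k1 : Tendsto (fun τ => (s τ + S.F₁ q (x τ))⁻¹) atBot
      (𝓝 ((n + S.dist q * S.A)⁻¹ + S.dist q * S.A')) := by
    have k0 : Tendsto (fun τ => s (τ + 2)) atBot (𝓝 (n + S.dist q * S.A)) :=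
      hN.comp (tendsto_atBot_add_const_right _ _ tendsto_id)
    have := (k0.inv₀ hNpos.ne').add E1bot
    refine this.congr fun τ => ?_
    rw [C.shs τ]; ring
  have hp2 : 0 < (n + S.dist q * S.A)⁻¹ + S.dist q * S.A' := by positivity
  have k2 : Tendsto (fun τ => s τ + S.F₁ q (x τ)) atBot
      (𝓝 ((n + S.dist q * S.A)⁻¹ + S.dist q * S.A')⁻¹) := by
    have := k1.inv₀ hp2.ne'
    simpa using this
  have e2 : n = ((n + S.dist q * S.A)⁻¹ + S.dist q * S.A')⁻¹ := tendsto_nhds_unique hn k2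
  have npos : 0 < n := by rw [e2]; positivity
  have e2' : n⁻¹ = (n + S.dist q * S.A)⁻¹ + S.dist q * S.A' := by
    conv_lhs => rw [e2]
    rw [inv_inv]
  have e3 : n = m := asym1_unique hdA npos mpos e2' e1'
  subst e3
  exact ⟨n, n + S.dist q * S.A, npos, rfl, e2', hm, hM, hN, hn⟩

end CF
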