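import Pool.Agent.H.MP_1693ff_gt.Defs

/-!
# The asymptotic lines
-/

namespace CF

open Real Set Filter Topology

theorem asym2_dist_pos (S : Setup) {q : ℝ} (hq : 1 ≤ q) : 0 < S.dist q := by
  have h1 : 0 < S.R₀ := S.P.R0
  unfold Setup.dist
  positivity

theorem asym2_top {φ φ₁ φ₂ : ℝ → ℝ} {A B R₀ c : ℝ} (P : Prof φ φ₁ φ₂ A B R₀ c) (d : ℝ) :
    Tendsto (fun x => d * φ x - d * (A * x + B)) atTop (𝓝 0) := by
  have h : Tendsto (fun x => φ x - (A * x + B)) atTop (𝓝 0) := by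
    rw [tendsto_iff_norm_sub_tendsto_zero]
    have hc : Tendsto (fun x : ℝ => c / x) atTop (𝓝 0) := tendsto_const_nhds.div_atTop tendsto_id
    refine squeeze_zero' (Eventually.of_forall fun x => norm_nonneg _) ?_ hc
    filter_upwards [eventually_ge_atTop 1] with x hx
    simpa [Real.norm_eq_abs] using P.r0 x hx
  have h2 := h.const_mul d
  rw [mul_zero] at h2
  exact h2.congr fun x => by ring

theorem asym2_bot {φ φ₁ φ₂ : ℝ → ℝ} {A B R₀ c : ℝ} (P : Prof φ φ₁ φ₂ A B R₀ c) (d : ℝ) :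
    Tendsto (fun x => d * φ x + d * (A * x + B)) atBot (𝓝 0) := by
  have h : Tendsto (fun x => φ x + (A * x + B)) atBot (𝓝 0) := by
    rw [tendsto_iff_norm_sub_tendsto_zero]
    have hc : Tendsto (fun x : ℝ => c / (-x)) atBot (𝓝 0) :=
      tendsto_const_nhds.div_atTop tendsto_neg_atBot_atTop
    refine squeeze_zero' (Eventually.of_forall fun x => norm_nonneg _) ?_ hc
    filter_upwards [eventually_le_atBot (-1)] with x hx
    simpa [Real.norm_eq_abs] using P.l0 x hx
  have h2 := h.const_mul d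
  rw [mul_zero] at h2
  exact h2.congr fun x => by ring

/-- An antitone and a monotone function whose difference converges at `+∞`. -/
theorem asym2_sandwich {G H : ℝ → ℝ} (hG : Antitone G) (hH : Monotone H) {b : ℝ}
    (hGH : Tendsto (fun τ => G τ - H τ) atTop (𝓝 b)) :
    ∃ κ, Tendsto G atTop (𝓝 κ) ∧ Tendsto H atTop (𝓝 (κ - b)) ∧ (∀ τ, κ ≤ G τ) ∧
      ∀ τ, H τ ≤ κ - b := by
  have hbdd : BddBelow (range G) := by
    have h1 : ∀ᶠ τ in atTop, b - 1 < G τ - H τ := hGH.eventually (lt_mem_nhds (by linarith))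
    obtain ⟨T, hT⟩ := eventually_atTop.1 h1
    refine ⟨H 0 + (b - 1), ?_⟩
    rintro _ ⟨τ, rfl⟩
    have h2 := hT (max τ (max T 0)) (le_trans (le_max_left _ _) (le_max_right _ _))
    have h3 : G (max τ (max T 0)) ≤ G τ := hG (le_max_left _ _)
    have h4 : H 0 ≤ H (max τ (max T 0)) := hH (le_trans (le_max_right _ _) (le_max_right _ _))
    linarith
  have h1 : Tendsto G atTop (𝓝 (⨅ τ, G τ)) := tendsto_atTop_ciInf hG hbdd
  have h2 : Tendsto H atTop (𝓝 ((⨅ τ, G τ) - b)) := by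
    have := h1.sub hGH
    exact this.congr fun τ => by ring
  exact ⟨_, h1, h2, fun τ => ciInf_le hbdd τ, fun τ => hH.ge_of_tendsto h2 τ⟩

/-- An antitone and a monotone function whose difference converges at `-∞`. -/
theorem asym2_sandwich' {G H : ℝ → ℝ} (hG : Monotone G) (hH : Antitone H) {b : ℝ}
    (hGH : Tendsto (fun τ => G τ - H τ) atBot (𝓝 b)) :
    ∃ κ, Tendsto G atBot (𝓝 (κ + b)) ∧ Tendsto H atBot (𝓝 κ) ∧ (∀ τ, κ + b ≤ G τ) ∧
      ∀ τ, H τ ≤ κ := by
  have hG' : Antitone (fun τ => G (-τ)) := fun a b hab => hG (neg_le_neg hab)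
  have hH' : Monotone (fun τ => H (-τ)) := fun a b hab => hH (neg_le_neg hab)
  obtain ⟨κ, h1, h2, h3, h4⟩ := asym2_sandwich hG' hH' (hGH.comp tendsto_neg_atTop_atBot)
  refine ⟨κ - b, ?_, ?_, fun τ => ?_, fun τ => ?_⟩
  · have := h1.comp tendsto_neg_atBot_atTop
    rw [sub_add_cancel]
    exact this.congr fun τ => by simp
  · have := h2.comp tendsto_neg_atBot_atTop
    exact this.congr fun τ => by simp
  · have := h3 (-τ)
    simp only [neg_neg] at this
    linarith
  · have := h4 (-τ)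
    simpa using this

/-- The constants: with `κ := lim_{+∞} (y + m x)`: `y + m x` is antitone in `τ` and
`(y - F x) + M x` is monotone (relations `RelG`, `RelH` and the slope bounds), and
`(y + m x) - ((y - F x) + M x) = F x - d A x → d B` (`x → +∞`), so both converge, to `κ` and
`κ - d B`. At `-∞`: `y + M x` is antitone in `-τ`..., `(y + M x) - ((y - F x) + m x) = F x + dA x
→ -d B`; limits `κ₋ - dB` (of `y + M x`) and `κ₋` (of `(y - F x) + m x`).
Staircase at `+∞`: `x(τ+2) = x τ + E(yH τ)`, `y(τ+2) = yH τ → -∞`,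
`E y = d(-A' y - B') + o(1)`: `κ/m = (κ - dB)/M - d B'`.
At `-∞`: `E y = d (A' y + B') + o(1)`: `(κ₋ - dB)/M = κ₋/m + d B'`.
Both give `κ = κ₋ = -(B/M + B')/A'` (use `1/m - 1/M = d A'`). -/
theorem constants (S : Setup) {q : ℝ} (hq : 1 ≤ q) {x y s : ℝ → ℝ}
    (C : Curve (S.F q) (S.F₁ q) (S.E q) (S.E₁ q) x y s) {m M : ℝ} (hm : 0 < m)
    (hM : M = m + S.dist q * S.A) (hmM : m⁻¹ = M⁻¹ + S.dist q * S.A')
    (l1 : Tendsto s atTop (𝓝 m)) (l2 : Tendsto (fun τ => s τ + S.F₁ q (x τ)) atTop (𝓝 M))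
    (l3 : Tendsto s atBot (𝓝 M)) (l4 : Tendsto (fun τ => s τ + S.F₁ q (x τ)) atBot (𝓝 m)) :
    ∃ κ, ∀ τ, κ ≤ y τ + m * x τ ∧ y τ - S.F q (x τ) + m * x τ ≤ κ ∧
      κ - S.dist q * S.B ≤ y τ + M * x τ ∧
      y τ - S.F q (x τ) + M * x τ ≤ κ - S.dist q * S.B := by
  have hd := asym2_dist_pos S hq
  have hA : 0 < S.A := S.P.A0
  have hA' : 0 < S.A' := S.Q.A0
  have hdA : 0 < S.dist q * S.A := by positivity
  have hdA' : 0 < S.dist q * S.A' := by positivity
  have hMpos : 0 < M := by rw [hM]; linarith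
  have santi : Antitone s := fun a b hab => (C.relG a b hab).2.1
  have sHmono : Monotone (fun τ => s τ + S.F₁ q (x τ)) := fun a b hab => (C.relH a b hab).2.1
  have b1 : ∀ τ, m ≤ s τ := fun τ => santi.le_of_tendsto l1 τ
  have b2 : ∀ τ, s τ + S.F₁ q (x τ) ≤ M := fun τ => sHmono.ge_of_tendsto l2 τ
  have b3 : ∀ τ, s τ ≤ M := fun τ => santi.ge_of_tendsto l3 τ
  have b4 : ∀ τ, m ≤ s τ + S.F₁ q (x τ) := fun τ => sHmono.le_of_tendsto l4 τ
  have yHtop : Tendsto (fun τ => y τ - S.F q (x τ)) atTop atBot := by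
    have : Tendsto (fun τ => y (τ + 2)) atTop atBot :=
      C.ytop.comp (tendsto_atTop_add_const_right _ _ tendsto_id)
    exact this.congr fun τ => C.shy τ
  have yHbot : Tendsto (fun τ => y τ - S.F q (x τ)) atBot atTop := by
    have : Tendsto (fun τ => y (τ + 2)) atBot atTop :=
      C.ybot.comp (tendsto_atBot_add_const_right _ _ tendsto_id)
    exact this.congr fun τ => C.shy τ
  -- monotonicity
  have G1 : Antitone (fun τ => y τ + m * x τ) := by
    intro a b hab
    obtain ⟨h1, -, -, h4⟩ := C.relG a b hab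
    have := mul_le_mul_of_nonneg_right (b1 b) (sub_nonneg.2 h1)
    simp only
    nlinarith
  have H1 : Monotone (fun τ => y τ - S.F q (x τ) + M * x τ) := by
    intro a b hab
    obtain ⟨h1, -, h3, -⟩ := C.relH a b hab
    have := mul_le_mul_of_nonneg_right (b2 b) (sub_nonneg.2 h1)
    simp only
    nlinarith
  have G2 : Monotone (fun τ => y τ + M * x τ) := by
    intro a b hab
    obtain ⟨h1, -, h3, -⟩ := C.relG a b hab
    have := mul_le_mul_of_nonneg_right (b3 a) (sub_nonneg.2 h1)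
    simp only
    nlinarith
  have H2 : Antitone (fun τ => y τ - S.F q (x τ) + m * x τ) := by
    intro a b hab
    obtain ⟨h1, -, -, h4⟩ := C.relH a b hab
    have := mul_le_mul_of_nonneg_right (b4 a) (sub_nonneg.2 h1)
    simp only
    nlinarith
  -- differences
  have D1 : Tendsto (fun τ => (y τ + m * x τ) - (y τ - S.F q (x τ) + M * x τ)) atTop
      (𝓝 (S.dist q * S.B)) := by
    have h := ((asym2_top S.P (S.dist q)).comp C.xtop).add_const (S.dist q * S.B)
    rw [zero_add] at h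
    refine h.congr fun τ => ?_
    simp only [Function.comp, Setup.F]
    rw [hM]; ring
  have D2 : Tendsto (fun τ => (y τ + M * x τ) - (y τ - S.F q (x τ) + m * x τ)) atBot
      (𝓝 (-(S.dist q * S.B))) := by
    have h := ((asym2_bot S.P (S.dist q)).comp C.xbot).sub_const (S.dist q * S.B)
    rw [zero_sub] at h
    refine h.congr fun τ => ?_
    simp only [Function.comp, Setup.F]
    rw [hM]; ring
  obtain ⟨κ, g1, h1, c1, c4⟩ := asym2_sandwich G1 H1 D1
  obtain ⟨κ', g2, h2, c3, c2⟩ := asym2_sandwich' G2 H2 D2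
  -- staircase at `+∞`
  have hmM1 : m * M⁻¹ = 1 - m * (S.dist q * S.A') := by
    have : m * m⁻¹ = 1 := mul_inv_cancel₀ hm.ne'
    rw [hmM] at this
    linarith
  have hmM2 : M * m⁻¹ = 1 + M * (S.dist q * S.A') := by
    rw [hmM, mul_add, mul_inv_cancel₀ hMpos.ne']
  have e1 : κ = m * M⁻¹ * (κ - S.dist q * S.B) - m * (S.dist q * S.B') := by
    have k0 : Tendsto (fun τ => y (τ + 2) + m * x (τ + 2)) atTop (𝓝 κ) :=
      g1.comp (tendsto_atTop_add_const_right _ _ tendsto_id)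
    have k1 := (asym2_bot S.Q (S.dist q)).comp yHtop
    have k2 : Tendsto (fun τ => y (τ + 2) + m * x (τ + 2)) atTop
        (𝓝 (m * M⁻¹ * (κ - S.dist q * S.B) - m * (S.dist q * S.B'))) := by
      have := ((h1.const_mul (m * M⁻¹)).add (k1.const_mul m)).sub_const (m * (S.dist q * S.B'))
      rw [mul_zero, add_zero] at this
      refine this.congr fun τ => ?_
      rw [C.shx τ, C.shy τ]
      simp only [Function.comp, Setup.E]
      have hh : m * M⁻¹ * (M * x τ) = m * x τ := by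
        field_simp
      rw [mul_add, hh, hmM1]
      ring
    exact tendsto_nhds_unique k0 k2
  have e2 : κ' + -(S.dist q * S.B) = M * m⁻¹ * κ' + M * (S.dist q * S.B') := by
    have k0 : Tendsto (fun τ => y (τ + 2) + M * x (τ + 2)) atBot
        (𝓝 (κ' + -(S.dist q * S.B))) :=
      g2.comp (tendsto_atBot_add_const_right _ _ tendsto_id)
    have k1 := (asym2_top S.Q (S.dist q)).comp yHbot
    have k2 : Tendsto (fun τ => y (τ + 2) + M * x (τ + 2)) atBot
        (𝓝 (M * m⁻¹ * κ' + M * (S.dist q * S.B'))) := by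
      have := ((h2.const_mul (M * m⁻¹)).add (k1.const_mul M)).add_const (M * (S.dist q * S.B'))
      rw [mul_zero, add_zero] at this
      refine this.congr fun τ => ?_
      rw [C.shx τ, C.shy τ]
      simp only [Function.comp, Setup.E]
      have hh : M * m⁻¹ * (m * x τ) = M * x τ := by
        field_simp
      rw [mul_add, hh, hmM2]
      ring
    exact tendsto_nhds_unique k0 k2
  -- the two constants agree
  have f1 : κ * (m⁻¹ - M⁻¹) = -(M⁻¹ * (S.dist q * S.B)) - S.dist q * S.B' := by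
    have : m⁻¹ * κ = m⁻¹ * (m * M⁻¹ * (κ - S.dist q * S.B) - m * (S.dist q * S.B')) := by
      rw [← e1]
    have hmm : m⁻¹ * m = 1 := inv_mul_cancel₀ hm.ne'
    have h3 : m⁻¹ * (m * M⁻¹ * (κ - S.dist q * S.B) - m * (S.dist q * S.B')) =
        (m⁻¹ * m) * (M⁻¹ * (κ - S.dist q * S.B)) - (m⁻¹ * m) * (S.dist q * S.B') := by ring
    rw [h3, hmm] at this
    linarith
  have f2 : κ' * (m⁻¹ - M⁻¹) = -(M⁻¹ * (S.dist q * S.B)) - S.dist q * S.B' := by
    have : M⁻¹ * (κ' + -(S.dist q * S.B)) =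
        M⁻¹ * (M * m⁻¹ * κ' + M * (S.dist q * S.B')) := by rw [e2]
    have hmm : M⁻¹ * M = 1 := inv_mul_cancel₀ hMpos.ne'
    have h3 : M⁻¹ * (M * m⁻¹ * κ' + M * (S.dist q * S.B')) =
        (M⁻¹ * M) * (m⁻¹ * κ') + (M⁻¹ * M) * (S.dist q * S.B') := by ring
    rw [h3, hmm] at this
    linarith
  have hne : m⁻¹ - M⁻¹ ≠ 0 := by
    rw [hmM]
    ring_nf
    ring_nf at hdA'
    exact hdA'.ne'
  have hκ : κ = κ' := mul_right_cancel₀ hne (f1.trans f2.symm)
  subst hκ
  refine ⟨κ, fun τ => ⟨c1 τ, c2 τ, ?_, c4 τ⟩⟩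
  have := c3 τ
  linarith

end CF
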