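import Pool.Agent.H.MP_1693ff_gt.Asym1
import Pool.Agent.H.MP_1693ff_gt.Asym2

/-!
# The cross support inequalities
-/

namespace CF

open Real Set Filter Topology

/-- The cross support inequalities and bounds.
`cross1`: for `ξ = x τ' ≥ x τ`: `y τ - s τ (ξ - x τ) ≥ y τ - M (ξ - x τ) ≥ κ - dB - M ξ ≥ yH τ'`;
for `ξ ≤ x τ`: `≥ y τ - m (ξ - x τ) ≥ κ - m ξ ≥ yH τ'`. `cross2` in the same way.
`bdd`: value at abscissa `0` of the support lines: between the values at `0` of the two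
asymptotes and of the other curve.  `m < 1`: `1 ≥ s 1 > ...`, `m ≤ s 1 < 1`; `1 < s (-1) ≤ M`. -/
theorem curve' (S : Setup) {q : ℝ} (hq : 1 ≤ q) {x y s : ℝ → ℝ}
    (C : Curve (S.F q) (S.F₁ q) (S.E q) (S.E₁ q) x y s) : ∃ m M,
    Curve' (S.F q) (S.F₁ q) (S.E q) (S.E₁ q) x y s m M ∧ M - m = S.dist q * S.A ∧
    m⁻¹ - M⁻¹ = S.dist q * S.A' := by
  obtain ⟨m, M, hm, hM, hmM, l1, l2, l3, l4⟩ := slopes S hq C
  obtain ⟨κ, hκ⟩ := constants S hq C hm hM hmM l1 l2 l3 l4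
  have santi : Antitone s := fun a b hab => (C.relG a b hab).2.1
  have sHmono : Monotone (fun τ => s τ + S.F₁ q (x τ)) := fun a b hab => (C.relH a b hab).2.1
  have ms : ∀ τ, m ≤ s τ := fun τ => santi.le_of_tendsto l1 τ
  have sM : ∀ τ, s τ ≤ M := fun τ => santi.ge_of_tendsto l3 τ
  have sHM : ∀ τ, s τ + S.F₁ q (x τ) ≤ M := fun τ => sHmono.ge_of_tendsto l2 τ
  have msH : ∀ τ, m ≤ s τ + S.F₁ q (x τ) := fun τ => sHmono.le_of_tendsto l4 τ
  refine ⟨m, M, ?_, by rw [hM]; ring, by rw [hmM]; ring⟩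
  refine { toCurve := C, m0 := hm, m1 := lt_of_le_of_lt (ms 1) C.s_one,
           M1 := lt_of_lt_of_le C.s_neg_one (sM (-1)), ms := ms, sM := sM, msH := msH,
           sHM := sHM, sm := l1, sM' := l3, cross1 := ?_, cross2 := ?_, bdd := ?_ }
  · intro τ τ'
    obtain ⟨h1, h2, h3, h4⟩ := hκ τ
    obtain ⟨g1, g2, g3, g4⟩ := hκ τ'
    rcases le_total (x τ) (x τ') with h | h
    · nlinarith [mul_nonneg (sub_nonneg.2 (sM τ)) (sub_nonneg.2 h)]
    · nlinarith [mul_nonneg (sub_nonneg.2 (ms τ)) (sub_nonneg.2 h)]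
  · intro τ τ'
    obtain ⟨h1, h2, h3, h4⟩ := hκ τ
    obtain ⟨g1, g2, g3, g4⟩ := hκ τ'
    rcases le_total (x τ) (x τ') with h | h
    · nlinarith [mul_nonneg (sub_nonneg.2 (msH τ)) (sub_nonneg.2 h)]
    · nlinarith [mul_nonneg (sub_nonneg.2 (sHM τ)) (sub_nonneg.2 h)]
  · have hM0 : 0 < M := lt_of_lt_of_le hm ((ms 0).trans (sM 0))
    have key1 : ∀ τ, |s τ * x 0| ≤ M * |x 0| := by
      intro τ
      rw [abs_mul, abs_of_pos (C.s0 τ)]
      exact mul_le_mul_of_nonneg_right (sM τ) (abs_nonneg _)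
    have key2 : ∀ τ, |(s τ + S.F₁ q (x τ)) * x 0| ≤ M * |x 0| := by
      intro τ
      rw [abs_mul, abs_of_pos (C.sH0 τ)]
      exact mul_le_mul_of_nonneg_right (sHM τ) (abs_nonneg _)
    refine ⟨|κ| + |κ - S.dist q * S.B| + |y 0| + |y 0 - S.F q (x 0)| + M * |x 0|, ?_⟩
    intro τ
    obtain ⟨h1, h2, h3, h4⟩ := hκ τ
    have a1 := abs_nonneg κ
    have a2 := abs_nonneg (κ - S.dist q * S.B)
    have a3 := abs_nonneg (y 0)
    have a4 := abs_nonneg (y 0 - S.F q (x 0))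
    have a5 : 0 ≤ M * |x 0| := mul_nonneg hM0.le (abs_nonneg _)
    have b1 := neg_abs_le κ
    have b2 := neg_abs_le (κ - S.dist q * S.B)
    have b3 := neg_abs_le (y 0)
    have b4 := neg_abs_le (y 0 - S.F q (x 0))
    have c1 := le_abs_self κ
    have c2 := le_abs_self (κ - S.dist q * S.B)
    have c3 := le_abs_self (y 0)
    have c4 := le_abs_self (y 0 - S.F q (x 0))
    have k1 := abs_le.1 (key1 τ)
    have k2 := abs_le.1 (key2 τ)
    have up : y τ + s τ * x τ ≤ y 0 + s τ * x 0 := by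
      rcases le_total τ 0 with h | h
      · obtain ⟨r1, r2, r3, r4⟩ := C.relG τ 0 h
        nlinarith
      · obtain ⟨r1, r2, r3, r4⟩ := C.relG 0 τ h
        nlinarith
    have lo : y 0 - S.F q (x 0) + (s τ + S.F₁ q (x τ)) * x 0 ≤
        y τ - S.F q (x τ) + (s τ + S.F₁ q (x τ)) * x τ := by
      rcases le_total τ 0 with h | h
      · obtain ⟨r1, r2, r3, r4⟩ := C.relH τ 0 h
        nlinarith
      · obtain ⟨r1, r2, r3, r4⟩ := C.relH 0 τ h
        nlinarith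
    refine ⟨abs_le.2 ⟨?_, ?_⟩, abs_le.2 ⟨?_, ?_⟩⟩
    · rcases le_total 0 (x τ) with h | h
      · nlinarith [mul_nonneg (sub_nonneg.2 (ms τ)) h]
      · nlinarith [mul_nonneg (sub_nonneg.2 (sM τ)) (neg_nonneg.2 h)]
    · linarith [k1.2]
    · linarith [k2.1]
    · rcases le_total 0 (x τ) with h | h
      · nlinarith [mul_nonneg (sub_nonneg.2 (sHM τ)) h]
      · nlinarith [mul_nonneg (sub_nonneg.2 (msH τ)) (neg_nonneg.2 h)]

end CF
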