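import Pool.Agent.H.MP_1693ff_gt.FinC

/-!
# MP_1693ff_gt: axially symmetric pairs of (-1)-chord functions in all dimensions
-/

open Real Set Filter Topology CF

/-- Let `n ≥ 2`, `e` a unit vector in `ℝⁿ`, and `f₁, f₂` positive functions of the angle, even and
`π`-periodic, of class `C^{2,1}`, with `Rⱼ = fⱼ + fⱼ'' > 0`, which are pinched
(`Rⱼ(s)⁴ < 2 Rⱼ(t)⁴`) or satisfy `Cond fⱼ 0`. Then the following are equivalent: (i) the functions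
`u ↦ fⱼ(∠(e,u))` are the `(-1)`-chord functions of a convex body in `ℝⁿ` at interior points `p₁`,
`p₂ = p₁ + d e` for some `d > 0`; (ii) for all large `d`; (iii) `R₁(0) = R₂(0)`. -/
theorem CF.axial_pairs_result
    (n : ℕ) (hn : 2 ≤ n) (e : EuclideanSpace ℝ (Fin n)) (he : ‖e‖ = 1)
    (f₁ f₂ : ℝ → ℝ) (h₁ : Smooth f₁) (h₂ : Smooth f₂)
    (s₁ : ∀ θ, f₁ (-θ) = f₁ θ) (s₂ : ∀ θ, f₂ (-θ) = f₂ θ)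
    (r₁ : ∀ θ, 0 < curv f₁ θ) (r₂ : ∀ θ, 0 < curv f₂ θ)
    (c₁ : Cond f₁ 0 ∨ ∀ s t, curv f₁ s ^ 4 < 2 * curv f₁ t ^ 4)
    (c₂ : Cond f₂ 0 ∨ ∀ s t, curv f₂ s ^ 4 < 2 * curv f₂ t ^ 4) :
    ((∃ (K : Set (EuclideanSpace ℝ (Fin n))) (p₁ p₂ : EuclideanSpace ℝ (Fin n)) (d : ℝ), 0 < d ∧
      p₂ = p₁ + d • e ∧ PairAx f₁ f₂ e K p₁ p₂) ↔ curv f₁ 0 = curv f₂ 0) ∧
    ((∃ D : ℝ, 0 < D ∧ ∀ d : ℝ, D ≤ d → ∃ K, PairAx f₁ f₂ e K 0 (d • e)) ↔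
      curv f₁ 0 = curv f₂ 0) := by
  have key : curv f₁ 0 = curv f₂ 0 →
      ∃ D : ℝ, 0 < D ∧ ∀ d : ℝ, D ≤ d → ∃ K, PairAx f₁ f₂ e K 0 (d • e) := fun hR => by
    obtain ⟨D, hD, H⟩ := partD_exists (n := n) h₁ h₂ s₁ s₂ r₁ r₂ hR (adm_cond h₁ r₁ c₁)
      (adm_cond h₂ r₂ c₂)
    exact ⟨D, hD, fun d hd => H d hd _ he⟩
  refine ⟨⟨axial_nec hn he h₁ h₂ s₁ s₂, fun hR => ?_⟩, ⟨fun h => ?_, key⟩⟩
  · obtain ⟨D, hD, H⟩ := key hR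
    obtain ⟨K, hK⟩ := H D le_rfl
    exact ⟨K, 0, D • e, D, hD, by rw [zero_add], hK⟩
  · obtain ⟨D, hD, H⟩ := h
    obtain ⟨K, hK⟩ := H D le_rfl
    exact axial_nec hn he h₁ h₂ s₁ s₂ ⟨K, 0, D • e, D, hD, by rw [zero_add], hK⟩
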