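import Pool.Agent.H.MP_1693ff_gt.HalfD

/-!
# The fundamental arc, second half
-/

namespace CF

open Real Set Filter Topology

/-- Curvature bounds from the model inequalities. -/
theorem basea2_curv {D p p1 p2 q R η : ℝ} (hD : 0 < D) (hp1 : 0 < p1) (hη : 0 < η)
    (hR : 0 < R) (hq : 1 ≤ q) (hqη : 7 * R / η ≤ q) (hqp : q ≤ D * p)
    (h1 : η * p1 ^ 3 ≤ p2 * p ^ 3) (h2 : p2 * p ^ 3 ≤ (R - η) * p1 ^ 3) :
    η / 2 ≤ p2 * √(1 + (D * p) ^ 2) ^ 3 / (D * p1) ^ 3 ∧
      p2 * √(1 + (D * p) ^ 2) ^ 3 / (D * p1) ^ 3 ≤ R - η / 2 := by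
  have hY : 0 < D * p := by linarith
  have hp : 0 < p := by
    by_contra h
    push Not at h
    nlinarith
  have hp3 : 0 < p ^ 3 := by positivity
  have hp13 : 0 < p1 ^ 3 := by positivity
  have hp2 : 0 < p2 := by
    have : 0 < p2 * p ^ 3 := lt_of_lt_of_le (by positivity) h1
    by_contra h
    push Not at h
    nlinarith [mul_nonneg (neg_nonneg.2 h) hp3.le]
  have hRη : 0 ≤ R - η := by
    have : η * p1 ^ 3 ≤ (R - η) * p1 ^ 3 := h1.trans h2
    have := le_of_mul_le_mul_right this hp13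
    linarith
  have hden : 0 < (D * p1) ^ 3 := by positivity
  have hlow : D * p ≤ √(1 + (D * p) ^ 2) := by
    apply Real.le_sqrt_of_sq_le
    linarith
  have hq2 : q ≤ q ^ 2 := by nlinarith
  have hε0 : 0 < 1 / (2 * q ^ 2) := by positivity
  have hε1 : 1 / (2 * q ^ 2) ≤ 1 / 2 := by
    apply one_div_le_one_div_of_le (by norm_num)
    nlinarith
  have hupp : √(1 + (D * p) ^ 2) ≤ D * p * (1 + 1 / (2 * q ^ 2)) := by
    apply Real.sqrt_le_iff.2
    refine ⟨by positivity, ?_⟩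
    have hsq : q ^ 2 ≤ (D * p) ^ 2 := by
      apply pow_le_pow_left₀ (by linarith) hqp
    have h3 : 1 ≤ (D * p) ^ 2 * (1 / q ^ 2) := by
      rw [mul_one_div, le_div_iff₀ (by positivity)]
      linarith
    have h4 : (D * p * (1 + 1 / (2 * q ^ 2))) ^ 2 =
        (D * p) ^ 2 + (D * p) ^ 2 * (1 / q ^ 2) + (D * p) ^ 2 * (1 / (2 * q ^ 2)) ^ 2 := by
      field_simp
      ring
    rw [h4]
    have : 0 ≤ (D * p) ^ 2 * (1 / (2 * q ^ 2)) ^ 2 := by positivity
    linarith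
  constructor
  · have h5 : (D * p) ^ 3 ≤ √(1 + (D * p) ^ 2) ^ 3 := pow_le_pow_left₀ hY.le hlow 3
    rw [le_div_iff₀ hden]
    have h6 : p2 * (D * p) ^ 3 ≤ p2 * √(1 + (D * p) ^ 2) ^ 3 :=
      mul_le_mul_of_nonneg_left h5 hp2.le
    have h7 : η * (D * p1) ^ 3 ≤ p2 * (D * p) ^ 3 := by
      have : D ^ 3 * (η * p1 ^ 3) ≤ D ^ 3 * (p2 * p ^ 3) :=
        mul_le_mul_of_nonneg_left h1 (by positivity)
      nlinarith [this]
    have h8 : 0 ≤ η * (D * p1) ^ 3 := by positivity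
    linarith
  · rw [div_le_iff₀ hden]
    have h5 : √(1 + (D * p) ^ 2) ^ 3 ≤ (D * p * (1 + 1 / (2 * q ^ 2))) ^ 3 :=
      pow_le_pow_left₀ (Real.sqrt_nonneg _) hupp 3
    have h6 : (1 + 1 / (2 * q ^ 2)) ^ 3 ≤ 1 + 7 * (1 / (2 * q ^ 2)) := by
      set ε := 1 / (2 * q ^ 2) with hε
      nlinarith [mul_nonneg hε0.le hε0.le, mul_nonneg (mul_nonneg hε0.le hε0.le) hε0.le]
    have h7 : 7 * (1 / (2 * q ^ 2)) ≤ η / (2 * R) := by
      rw [mul_one_div, div_le_div_iff₀ (by positivity) (by positivity)]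
      rw [div_le_iff₀ hη] at hqη
      nlinarith
    have h8 : (R - η) * (1 + η / (2 * R)) ≤ R - η / 2 := by
      have h9 : (R - η) * (η / (2 * R)) ≤ R * (η / (2 * R)) :=
        mul_le_mul_of_nonneg_right (by linarith) (by positivity)
      have h10 : R * (η / (2 * R)) = η / 2 := by field_simp
      linarith
    calc p2 * √(1 + (D * p) ^ 2) ^ 3 ≤ p2 * (D * p * (1 + 1 / (2 * q ^ 2))) ^ 3 :=
          mul_le_mul_of_nonneg_left h5 hp2.le
      _ = D ^ 3 * (p2 * p ^ 3) * (1 + 1 / (2 * q ^ 2)) ^ 3 := by ring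
      _ ≤ D ^ 3 * ((R - η) * p1 ^ 3) * (1 + η / (2 * R)) := by
          apply mul_le_mul
          · exact mul_le_mul_of_nonneg_left h2 (by positivity)
          · linarith
          · positivity
          · positivity
      _ = (R - η) * (1 + η / (2 * R)) * (D * p1) ^ 3 := by ring
      _ ≤ (R - η / 2) * (D * p1) ^ 3 := mul_le_mul_of_nonneg_right h8 hden.le

/-- Second half of the arc: far regime for the upper curve.
`y = q(1-2t) ∈ [-q,q]`, `x = D k(y) ≥ q` (`k` decreasing, `D k(q) = q`), `s = 1/(D|k'|) ≤ 1`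
(`|k'|` decreasing, `D |k'(q)| = 1`), `g √(1+x²)³/D = k'' k³/|k'|³ (1+1/x²)^{3/2}`. -/
theorem base2_lev (S : Setup) : ∃ C > 0, ∃ q₀ ≥ 1, ∀ q ≥ q₀, ∀ t ∈ Icc (0 : ℝ) 1,
    GLev S q (S.base2 q t) (C / q) (S.η / 2) ∧ q ≤ (S.base2 q t).x := by
  have hR := S.P.R0
  have hη := S.M.η0
  have hX := S.M.X1
  refine ⟨1 + S.R₀, by linarith, max S.X (7 * S.R₀ / S.η),
    le_trans hX (le_max_left _ _), ?_⟩
  intro q hq t ht
  have hqX : S.X ≤ q := (le_max_left _ _).trans hq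
  have hqη : 7 * S.R₀ / S.η ≤ q := (le_max_right _ _).trans hq
  have hq1 : 1 ≤ q := hX.trans hqX
  have hq0 : 0 < q := by linarith
  have hD : 0 < S.dist q := by unfold Setup.dist; positivity
  have hDR : S.dist q * S.R₀ = 4 * q ^ 2 := by unfold Setup.dist; field_simp
  obtain ⟨ht1, ht2⟩ := ht
  set w := q * (1 - 2 * t) with hw
  have hw1 : -q ≤ w := by rw [hw]; nlinarith
  have hw2 : w ≤ q := by rw [hw]; nlinarith
  have hwabs : |w| ≤ q := abs_le.2 ⟨hw1, hw2⟩
  have hkanti : StrictAnti S.k := by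
    apply strictAnti_of_deriv_neg
    intro x
    rw [(S.N.d1 x).deriv]
    exact S.N.g1neg x
  have hk1mono : StrictMono S.k₁ := by
    apply strictMono_of_deriv_pos
    intro x
    rw [(S.N.d2 x).deriv]
    exact S.N.g2pos x
  have hkq : S.dist q * S.k q = q := by
    rw [S.N.tr q hqX]
    have : S.dist q * (S.R₀ / (4 * q)) = S.dist q * S.R₀ / (4 * q) := by ring
    rw [this, hDR]
    field_simp
  have hk1q : S.dist q * -S.k₁ q = 1 := by
    rw [S.N.tr1 q hqX]
    have : S.dist q * -(-(S.R₀ / (4 * q ^ 2))) = S.dist q * S.R₀ / (4 * q ^ 2) := by ring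
    rw [this, hDR]
    field_simp
  have hYq : q ≤ S.dist q * S.k w := by
    calc q = S.dist q * S.k q := hkq.symm
      _ ≤ S.dist q * S.k w := mul_le_mul_of_nonneg_left (hkanti.antitone hw2) hD.le
  have hs1 : 1 ≤ S.dist q * -S.k₁ w := by
    calc 1 = S.dist q * -S.k₁ q := hk1q.symm
      _ ≤ S.dist q * -S.k₁ w :=
        mul_le_mul_of_nonneg_left (neg_le_neg (hk1mono.monotone hw2)) hD.le
  have hstrict : 0 < S.dist q * S.k w + w := by
    rcases lt_or_eq_of_le hw1 with h | h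
    · linarith
    · have h1 : S.k q < S.k w := hkanti (by rw [← h]; linarith)
      have h2 := mul_lt_mul_of_pos_left h1 hD
      rw [hkq] at h2
      linarith
  have hk1neg : 0 < -S.k₁ w := by have := S.N.g1neg w; linarith
  have hσ : 0 < S.dist q * -S.k₁ w := mul_pos hD hk1neg
  have hx : (S.base2 q t).x = S.dist q * S.k w := rfl
  have hy : (S.base2 q t).y = w := rfl
  have hs : (S.base2 q t).s = (S.dist q * -S.k₁ w)⁻¹ := by
    simp only [Setup.base2]
    rw [← hw, mul_neg]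
  have hg : (S.base2 q t).g = S.dist q * S.k₂ w * (S.dist q * -S.k₁ w)⁻¹ ^ 3 := by
    simp only [Setup.base2]
    rw [← hw, mul_neg]
  have hv : (S.base2 q t).v = 2 * q * (S.dist q * -S.k₁ w) := by
    simp only [Setup.base2]
    rw [← hw]
    ring
  have hcurv := basea2_curv hD hk1neg hη hR hq1 hqη hYq (S.N.bg w) (S.N.bg' w)
  have hDq : 1 / S.dist q ≤ S.R₀ / 4 / q := by
    unfold Setup.dist
    rw [one_div_div]
    rw [div_div, div_le_div_iff₀ (by positivity) (by positivity)]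
    have : q ≤ q ^ 2 := by nlinarith
    nlinarith
  have hkey : (S.base2 q t).g * √(1 + (S.base2 q t).x ^ 2) ^ 3 / S.dist q =
      S.k₂ w * √(1 + (S.dist q * S.k w) ^ 2) ^ 3 / (S.dist q * -S.k₁ w) ^ 3 := by
    rw [hg, hx]
    rw [inv_pow]
    field_simp
  refine ⟨⟨by positivity, ?_, ?_, ?_, ?_, ?_, ?_, ?_, ?_, ?_⟩, ?_⟩
  · rw [hx, one_div_div]
    refine le_trans ?_ hYq
    rw [div_le_iff₀ (by linarith)]
    nlinarith
  · rw [hx, hy]
    exact hwabs.trans hYq
  · rw [hx, hy]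
    exact hstrict
  · rw [hs]
    exact inv_pos.2 hσ
  · rw [hs]
    exact inv_le_one_of_one_le₀ hs1
  · rw [hv]
    positivity
  · rw [hx, hy, hs]
    have hY0 : 0 < S.dist q * S.k w := by linarith
    have h1 : |-w / (S.dist q * (S.dist q * S.k w))| ≤ 1 / S.dist q := by
      rw [abs_div, abs_of_pos (mul_pos hD hY0), abs_neg]
      rw [div_le_div_iff₀ (mul_pos hD hY0) hD]
      have := hwabs.trans hYq
      nlinarith
    have h2 : |(S.dist q * -S.k₁ w)⁻¹ / S.dist q| ≤ 1 / S.dist q := by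
      rw [abs_of_pos (div_pos (inv_pos.2 hσ) hD)]
      apply div_le_div_of_nonneg_right _ hD.le
      exact inv_le_one_of_one_le₀ hs1
    calc |-w / (S.dist q * (S.dist q * S.k w)) - (S.dist q * -S.k₁ w)⁻¹ / S.dist q|
        ≤ |-w / (S.dist q * (S.dist q * S.k w))| + |(S.dist q * -S.k₁ w)⁻¹ / S.dist q| :=
          abs_sub _ _
      _ ≤ 1 / S.dist q + 1 / S.dist q := add_le_add h1 h2
      _ ≤ S.R₀ / 4 / q + S.R₀ / 4 / q := add_le_add hDq hDq
      _ = (S.R₀ / 4 + S.R₀ / 4) / q := by ring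
      _ ≤ (1 + S.R₀) / q := by
          apply div_le_div_of_nonneg_right _ hq0.le
          linarith
  · rw [hkey]; exact hcurv.1
  · rw [hkey]; exact hcurv.2
  · rw [hx]; exact hYq

end CF
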