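import Pool.Agent.H.MP_1693ff_gt.HalfD

/-!
# From the lower to the upper curve
-/

namespace CF

open Real Set Filter Topology

theorem halfb2_sqrt {t : ℝ} (ht : 0 < t) : √(1 + t ^ 2) = t * √(1 + (1 / t) ^ 2) := by
  have h : 1 + t ^ 2 = t ^ 2 * (1 + (1 / t) ^ 2) := by field_simp; ring
  rw [h, Real.sqrt_mul (by positivity), Real.sqrt_sq ht.le]

theorem halfb2_curv {D X z sl : ℝ} (hD : 0 < D) (hX : 0 < X) (hz : 0 < z) (hsl : 0 < sl) :
    √(1 + (D * X * z) ^ 2) / (D * sl) = √(1 + X ^ 2) *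
      (z / sl * (√(1 + (1 / (D * X * z)) ^ 2) / √(1 + (1 / X) ^ 2))) := by
  have h1 : 0 < D * X * z := by positivity
  have h2 : 0 < √(1 + (1 / X) ^ 2) := Real.sqrt_pos.2 (by positivity)
  rw [halfb2_sqrt h1, halfb2_sqrt hX]
  field_simp

theorem halfb2_jet {D X z sl p₂ hH sH k : ℝ} (hD : 0 < D) (hX : 0 < X) (hz : 0 < z)
    (hsl : 0 < sl) (hs : 0 < sH) (hk : k = hH * √(1 + X ^ 2) ^ 3 / (D * sH ^ 3)) :
    (D * sl)⁻¹ ^ 3 * (D * p₂ - hH / sH ^ 3) * √(1 + (D * X * z) ^ 2) ^ 3 / D =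
      (p₂ * √(1 + X ^ 2) ^ 3 - k) *
        (z / sl * (√(1 + (1 / (D * X * z)) ^ 2) / √(1 + (1 / X) ^ 2))) ^ 3 := by
  have h := halfb2_curv hD hX hz hsl
  have e1 : (D * sl)⁻¹ ^ 3 * (D * p₂ - hH / sH ^ 3) * √(1 + (D * X * z) ^ 2) ^ 3 / D =
      (D * p₂ - hH / sH ^ 3) / D * (√(1 + (D * X * z) ^ 2) / (D * sl)) ^ 3 := by
    field_simp
  rw [e1, h, hk]
  have e2 : (D * p₂ - hH / sH ^ 3) / D * √(1 + X ^ 2) ^ 3 =
      p₂ * √(1 + X ^ 2) ^ 3 - hH * √(1 + X ^ 2) ^ 3 / (D * sH ^ 3) := by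
    field_simp
  rw [← e2]
  ring

/-- From the lower curve to the next point of the upper curve: `half_step` for
`X ↦ ψ(-X)`, `X = -yH`, `r = x/(D(-yH))`, `r' = 1/(D sH)`; then `z = x'/(D(-yH))`,
`sl = 1/(D s')`, `Y = x'`.  The new error is `≤ δ/4`; `x' ≥ 2(-yH)`; the denominator
`1/sH - E₁ yH = D sl` is positive. -/
theorem hg_step (S : Setup) : ∃ C > 0, ∃ δ₀ > 0, ∃ q₀ ≥ 1, ∀ q ≥ q₀, ∀ a δ lo, δ ≤ δ₀ →
    0 ≤ lo → HLev S q a δ lo →
    GLev S q (S.step q a) (δ / 4) (lo - C * δ) ∧ (S.step q a).x ≥ 2 * (-S.yH q a) ∧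
    0 < (S.sH q a)⁻¹ - S.E₁ q (S.yH q a) := by
  have T := S.Q.tail_left
  obtain ⟨C, hC, δ₁, hδ₁, H⟩ := half_step T
  have hA : 0 < S.A' := T.A0
  have hR : 0 < S.R₀ := T.R0
  refine ⟨2 * C, by positivity, min 1 (δ₁ / 2), by positivity,
    max 1 ((32 * C + 8) / S.A' * S.R₀ / 4), le_max_left _ _, ?_⟩
  intro q hq a δ lo hδ hlo hL
  have hq1 : 1 ≤ q := (le_max_left _ _).trans hq
  have hq2 : (32 * C + 8) / S.A' * S.R₀ / 4 ≤ q := (le_max_right _ _).trans hq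
  have hδ1 : δ ≤ 1 := hδ.trans (min_le_left _ _)
  have hδ2 : δ ≤ δ₁ / 2 := hδ.trans (min_le_right _ _)
  have hδ0 := hL.δ0
  -- the distance
  set D := S.dist q with hDdef
  have hD1 : (32 * C + 8) / S.A' ≤ D := by
    rw [hDdef]
    unfold Setup.dist
    rw [le_div_iff₀ hR]
    have h1 : 4 * q ≤ 4 * q ^ 2 := by nlinarith only [hq1]
    linarith
  have hDA : 32 * C + 8 ≤ D * S.A' := by
    rwa [div_le_iff₀ hA] at hD1
  have hD : 0 < D := lt_of_lt_of_le (by positivity) hD1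
  -- abbreviations
  set X := -S.yH q a with hXdef
  have hyH : S.yH q a = -X := by rw [hXdef]; ring
  have hX1 : 1 / δ ≤ X := hL.y1
  have hX : 1 ≤ X := by
    refine le_trans ?_ hX1
    rw [le_div_iff₀ hδ0]
    linarith
  have hX0 : 0 < X := by linarith
  have hXd : 1 / X ≤ δ := by
    rw [div_le_iff₀ hX0]
    rw [div_le_iff₀ hδ0] at hX1
    linarith
  have hs1 : 1 ≤ S.sH q a := hL.s1
  have hs0 : 0 < S.sH q a := by linarith
  set sH := S.sH q a with hsHdef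
  set x := a.x with hxdef
  have hxX : |x| ≤ X := hL.xy
  have hdiff : |x / (D * X) - 1 / (D * sH)| ≤ δ := hL.diff
  set hh := S.hH q a with hhdef
  have hklo : lo ≤ hh * √(1 + X ^ 2) ^ 3 / (D * sH ^ 3) := by
    have := hL.klo
    rwa [hyH, neg_sq] at this
  have hkhi : hh * √(1 + X ^ 2) ^ 3 / (D * sH ^ 3) ≤ S.R₀ - lo := by
    have := hL.khi
    rwa [hyH, neg_sq] at this
  have hr : |x / (D * X)| ≤ S.A' / 4 := by
    rw [abs_div, abs_of_pos (mul_pos hD hX0), div_le_iff₀ (mul_pos hD hX0)]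
    have h1 : 1 * X ≤ (D * S.A' / 4) * X := mul_le_mul_of_nonneg_right (by linarith) hX0.le
    calc |x| ≤ 1 * X := by rw [one_mul]; exact hxX
      _ ≤ (D * S.A' / 4) * X := h1
      _ = S.A' / 4 * (D * X) := by ring
  have hr' : |1 / (D * sH)| ≤ S.A' / 4 := by
    rw [abs_of_pos (by positivity), div_le_iff₀ (mul_pos hD hs0)]
    have h1 : 1 * 1 ≤ (D * S.A' / 4) * sH :=
      mul_le_mul (by linarith) hs1 zero_le_one (by positivity)
    calc (1 : ℝ) = 1 * 1 := by ring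
      _ ≤ (D * S.A' / 4) * sH := h1
      _ = S.A' / 4 * (D * sH) := by ring
  obtain ⟨⟨z1, z2⟩, ⟨s1, s2⟩, zs, k1, k2⟩ := H X (x / (D * X)) (1 / (D * sH))
    (hh * √(1 + X ^ 2) ^ 3 / (D * sH ^ 3)) lo D (2 * δ) hX (by linarith) (by linarith)
    hr hr' (by linarith) hlo hklo hkhi
  set z := S.ψ (-X) / X + x / (D * X) with hz
  set sl := -S.ψ₁ (-X) + 1 / (D * sH) with hsl
  have hz0 : 0 < z := by linarith
  have hsl0 : 0 < sl := by linarith
  -- the next jet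
  have ex : (S.step q a).x = D * X * z := by
    show a.x + S.E q (S.yH q a) = _
    rw [hyH, hz]
    unfold Setup.E
    rw [← hDdef, ← hxdef]
    field_simp
    ring
  have ey : (S.step q a).y = -X := hyH
  have eden : sH⁻¹ - S.E₁ q (S.yH q a) = D * sl := by
    rw [hyH, hsl]
    unfold Setup.E₁
    rw [← hDdef]
    field_simp
    ring
  have es : (S.step q a).s = (D * sl)⁻¹ := by
    show ((S.sH q a)⁻¹ - S.E₁ q (S.yH q a))⁻¹ = _
    rw [← hsHdef, eden]
  have eg : (S.step q a).g = (D * sl)⁻¹ ^ 3 * (D * S.ψ₂ (-X) - hh / sH ^ 3) := by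
    show ((S.sH q a)⁻¹ - S.E₁ q (S.yH q a))⁻¹ ^ 3 *
      (S.E₂ q (S.yH q a) - S.hH q a / S.sH q a ^ 3) = _
    rw [← hsHdef, eden, hyH]
    rfl
  have ev : (S.step q a).v = a.v * sH * (D * sl) := by
    show a.v * S.sH q a * ((S.sH q a)⁻¹ - S.E₁ q (S.yH q a)) = _
    rw [← hsHdef, eden]
  have hDz : 4 * X ≤ D * X * z := by
    have h0 : D * (S.A' / 2) ≤ D * z := mul_le_mul_of_nonneg_left z1 hD.le
    have h1 : 4 ≤ D * z := by linarith
    calc 4 * X ≤ D * z * X := mul_le_mul_of_nonneg_right h1 hX0.le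
      _ = D * X * z := by ring
  have hDsl : 1 ≤ D * sl := by
    have h0 : D * (S.A' / 2) ≤ D * sl := mul_le_mul_of_nonneg_left s1 hD.le
    linarith
  have ek := halfb2_jet (p₂ := S.ψ₂ (-X)) hD hX0 hz0 hsl0 hs0
    (rfl : hh * √(1 + X ^ 2) ^ 3 / (D * sH ^ 3) = hh * √(1 + X ^ 2) ^ 3 / (D * sH ^ 3))
  refine ⟨?_, ?_, ?_⟩
  · refine
      { δ0 := by positivity
        x1 := ?_
        xy := ?_
        pos := ?_
        s0 := ?_
        s1 := ?_
        v0 := ?_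
        diff := ?_
        klo := ?_
        khi := ?_ }
    · rw [ex]
      refine le_trans ?_ hDz
      have : 1 / (δ / 4) = 4 * (1 / δ) := by field_simp
      rw [this]
      linarith
    · rw [ex, ey, abs_neg, abs_of_pos hX0]
      linarith
    · rw [ex, ey]
      linarith
    · rw [es]
      positivity
    · rw [es]
      exact inv_le_one_of_one_le₀ hDsl
    · rw [ev]
      have := hL.v0
      positivity
    · rw [ex, ey, es, ← hDdef, neg_neg]
      have e1 : X / (D * (D * X * z)) - (D * sl)⁻¹ / D = (sl - z) / (D ^ 2 * z * sl) := by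
        field_simp
      rw [e1, abs_div, abs_of_pos (show 0 < D ^ 2 * z * sl by positivity),
        div_le_iff₀ (by positivity), abs_sub_comm]
      refine zs.trans ?_
      have h1 : 32 * C ≤ (D * S.A') ^ 2 := by
        have h0 : (D * S.A') * 1 ≤ (D * S.A') * (D * S.A') :=
          mul_le_mul_of_nonneg_left (by linarith) (by positivity)
        calc 32 * C ≤ (D * S.A') * 1 := by linarith
          _ ≤ (D * S.A') * (D * S.A') := h0
          _ = (D * S.A') ^ 2 := by ring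
      have h2 : (S.A' / 2) * (S.A' / 2) ≤ z * sl :=
        mul_le_mul z1 s1 (by positivity) hz0.le
      have h3 : D ^ 2 * ((S.A' / 2) * (S.A' / 2)) ≤ D ^ 2 * (z * sl) :=
        mul_le_mul_of_nonneg_left h2 (by positivity)
      have h4 : 8 * C ≤ D ^ 2 * (z * sl) := by
        have e : D ^ 2 * ((S.A' / 2) * (S.A' / 2)) = (D * S.A') ^ 2 / 4 := by ring
        linarith
      have h5 : δ / 4 * (8 * C) ≤ δ / 4 * (D ^ 2 * (z * sl)) :=
        mul_le_mul_of_nonneg_left h4 (by positivity)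
      calc C * (2 * δ) = δ / 4 * (8 * C) := by ring
        _ ≤ δ / 4 * (D ^ 2 * (z * sl)) := h5
        _ = δ / 4 * (D ^ 2 * z * sl) := by ring
    · rw [ex, eg, ← hDdef, ek]
      linarith
    · rw [ex, eg, ← hDdef, ek]
      linarith
  · rw [ex]
    linarith
  · rw [eden]
    positivity

end CF
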