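import Pool.Agent.H.MP_1693ff_gt.HalfB1
import Pool.Agent.H.MP_1693ff_gt.HalfB2

/-!
# All later levels
-/

namespace CF

open Real Set Filter Topology

/-- `HLev` is monotone in the margin. -/
theorem HLev.mono_HalfB3 {S : Setup} {q : ℝ} {a : St} {δ lo lo' : ℝ} (h : HLev S q a δ lo)
    (hl : lo' ≤ lo) : HLev S q a δ lo' :=
  ⟨h.δ0, h.y1, h.xy, h.neg, h.s1, h.v0, h.diff, hl.trans h.klo, h.khi.trans (by linarith)⟩

/-- One full step of the induction. -/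
theorem far_one_HalfB3 (S : Setup) : ∃ C > 0, ∃ δ₀ > 0, ∃ q₀ ≥ 1, ∀ q ≥ q₀, ∀ a δ lo, δ ≤ δ₀ →
    C * δ ≤ lo → HLev S q a δ lo →
    HLev S q (S.step q a) (δ / 16) (lo - C * δ) ∧ 0 < (S.sH q a)⁻¹ - S.E₁ q (S.yH q a) ∧
    0 < (S.step q a).s ∧ 0 < (S.step q a).v ∧ 0 ≤ (S.step q a).g ∧
    0 < (S.step q a).x + (S.step q a).y ∧
    S.yH q (S.step q a) ≤ 2 * S.yH q a ∧ 2 * -S.yH q a ≤ (S.step q a).x := by
  obtain ⟨C₁, hC₁, δ₁, hδ₁, q₁, hq₁, h1⟩ := gh_step S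
  obtain ⟨C₂, hC₂, δ₂, hδ₂, q₂, hq₂, h2⟩ := hg_step S
  refine ⟨C₁ + C₂, by linarith, min δ₁ δ₂, lt_min hδ₁ hδ₂, max q₁ q₂,
    hq₁.trans (le_max_left _ _), ?_⟩
  intro q hq a δ lo hδ hlo hH
  have hqa : q₁ ≤ q := (le_max_left _ _).trans hq
  have hqb : q₂ ≤ q := (le_max_right _ _).trans hq
  have hδa : δ ≤ δ₁ := hδ.trans (min_le_left _ _)
  have hδb : δ ≤ δ₂ := hδ.trans (min_le_right _ _)
  have hδ0 := hH.δ0
  have hC₁δ : 0 < C₁ * δ := mul_pos hC₁ hδ0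
  have hC₂δ : 0 < C₂ * δ := mul_pos hC₂ hδ0
  have hsum : (C₁ + C₂) * δ = C₁ * δ + C₂ * δ := by ring
  rw [hsum] at hlo
  obtain ⟨hG, hx, hden⟩ := h2 q hqb a δ lo hδb (by linarith) hH
  obtain ⟨hH', hy⟩ := h1 q hqa (S.step q a) (δ / 4) (lo - C₂ * δ) (by linarith) (by linarith) hG
  have hD : 0 < S.dist q := by
    have hR := S.P.R0
    have hq0 : 0 < q := by linarith
    unfold Setup.dist
    positivity
  have hy1 : 0 < -S.yH q a := lt_of_lt_of_le (by positivity) hH.y1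
  refine ⟨?_, hden, hG.s0, hG.v0, ?_, hG.pos, by linarith, hx⟩
  · have e : δ / 4 / 4 = δ / 16 := by ring
    rw [e] at hH'
    refine hH'.mono_HalfB3 ?_
    rw [hsum]
    have : C₁ * (δ / 4) = C₁ * δ / 4 := by ring
    rw [this]
    linarith
  · have h3 := hG.klo
    have h4 : 0 ≤ (S.step q a).g * √(1 + (S.step q a).x ^ 2) ^ 3 / S.dist q :=
      le_trans (by linarith) h3
    have h5 : 0 < √(1 + (S.step q a).x ^ 2) := Real.sqrt_pos.2 (by positivity)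
    by_contra hcon
    push Not at hcon
    have h6 : (S.step q a).g * √(1 + (S.step q a).x ^ 2) ^ 3 / S.dist q < 0 :=
      div_neg_of_neg_of_pos (mul_neg_of_neg_of_pos hcon (by positivity)) hD
    linarith

/-- All later levels: from `HLev` with small `δ` and `lo > 0` at level `0`, every iterate is
`Good` (levels `≥ 1`), with the growth of positions.
Proof: induction with `GLev (step^[n] a) (δ/16^(n-1)/4) (lo - C' δ (1 + 1/16 + ...))`,
where the loss stays `≤ 2 C' δ ≤ lo/2`. -/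
theorem far (S : Setup) : ∃ C > 0, ∃ δ₀ > 0, ∃ q₀ ≥ 1, ∀ q ≥ q₀, ∀ a δ lo, δ ≤ δ₀ →
    C * δ ≤ lo → HLev S q a δ lo → ∀ n : ℕ, 1 ≤ n →
    S.Good q ((S.step q)^[n] a) ∧
    S.yH q ((S.step q)^[n] a) ≤ 2 ^ n * S.yH q a ∧
    2 ^ n * -S.yH q a ≤ ((S.step q)^[n] a).x := by
  obtain ⟨C, hC, δ₀, hδ₀, q₀, hq₀, h1⟩ := far_one_HalfB3 S
  refine ⟨2 * C, by linarith, δ₀, hδ₀, q₀, hq₀, ?_⟩
  intro q hq a δ lo hδ hlo hH
  have hδ0 := hH.δ0
  have hCδ : 0 < C * δ := mul_pos hC hδ0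
  have hD : 0 < S.dist q := by
    have hR := S.P.R0
    have hq0 : 0 < q := by linarith
    unfold Setup.dist
    positivity
  have hpow : ∀ n : ℕ, 0 < (1 / 16 : ℝ) ^ n ∧ (1 / 16 : ℝ) ^ n ≤ 1 := fun n =>
    ⟨by positivity, pow_le_one₀ (by norm_num) (by norm_num)⟩
  have hlo2 : ∀ n : ℕ, C * (δ * (1 / 16) ^ n) ≤ lo - 2 * C * δ * (1 - (1 / 16) ^ n) := by
    intro n
    obtain ⟨h2, h3⟩ := hpow n
    have h4 : 0 ≤ C * δ * (1 / 16) ^ n := by positivity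
    have h5 : lo - 2 * C * δ * (1 - (1 / 16) ^ n)
        = lo - 2 * C * δ + 2 * (C * δ * (1 / 16) ^ n) := by ring
    have h6 : C * (δ * (1 / 16) ^ n) = C * δ * (1 / 16) ^ n := by ring
    rw [h5, h6]
    linarith
  have hδn : ∀ n : ℕ, δ * (1 / 16) ^ n ≤ δ₀ := by
    intro n
    obtain ⟨h2, h3⟩ := hpow n
    have h4 : δ * (1 / 16) ^ n ≤ δ * 1 := mul_le_mul_of_nonneg_left h3 hδ0.le
    linarith
  have key : ∀ n : ℕ, HLev S q ((S.step q)^[n] a) (δ * (1 / 16) ^ n)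
      (lo - 2 * C * δ * (1 - (1 / 16) ^ n)) ∧
      S.yH q ((S.step q)^[n] a) ≤ 2 ^ n * S.yH q a := by
    intro n
    induction n with
    | zero =>
      refine ⟨?_, ?_⟩
      · have e1 : δ * (1 / 16 : ℝ) ^ 0 = δ := by rw [pow_zero, mul_one]
        have e2 : lo - 2 * C * δ * (1 - (1 / 16 : ℝ) ^ 0) = lo := by rw [pow_zero]; ring
        rw [e1, e2]
        exact hH
      · simp
    | succ n ih =>
      obtain ⟨ih1, ih2⟩ := ih
      have h2 := h1 q hq _ _ _ (hδn n) (hlo2 n) ih1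
      rw [Function.iterate_succ_apply']
      refine ⟨?_, ?_⟩
      · have e1 : δ * (1 / 16 : ℝ) ^ (n + 1) = δ * (1 / 16) ^ n / 16 := by rw [pow_succ]; ring
        rw [e1]
        refine h2.1.mono_HalfB3 ?_
        obtain ⟨h3, h4⟩ := hpow n
        have h5 : 0 ≤ C * δ * (1 / 16) ^ n := by positivity
        have e2 : lo - 2 * C * δ * (1 - (1 / 16 : ℝ) ^ (n + 1))
            = lo - 2 * C * δ + C * δ * (1 / 16) ^ n / 8 := by rw [pow_succ]; ring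
        have e3 : lo - 2 * C * δ * (1 - (1 / 16 : ℝ) ^ n) - C * (δ * (1 / 16) ^ n)
            = lo - 2 * C * δ + C * δ * (1 / 16) ^ n := by ring
        rw [e2, e3]
        linarith
      · have h3 := h2.2.2.2.2.2.2.1
        rw [pow_succ]
        linarith
  intro n hn
  obtain ⟨m, rfl⟩ : ∃ m, n = m + 1 := ⟨n - 1, by omega⟩
  obtain ⟨k1, k2⟩ := key m
  obtain ⟨l1, l2⟩ := key (m + 1)
  obtain ⟨-, -, h3, h4, h5, h6, -, h7⟩ := h1 q hq _ _ _ (hδn m) (hlo2 m) k1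
  obtain ⟨-, h8, -⟩ := h1 q hq _ _ _ (hδn (m + 1)) (hlo2 (m + 1)) l1
  have hsH := l1.s1
  have hneg := l1.neg
  have hklo := l1.klo
  have hnn : 0 ≤ lo - 2 * C * δ * (1 - (1 / 16) ^ (m + 1)) := by
    refine le_trans ?_ (hlo2 (m + 1))
    obtain ⟨h9, -⟩ := hpow (m + 1)
    positivity
  rw [← Function.iterate_succ_apply' (S.step q) m a] at h3 h4 h5 h6 h7
  refine ⟨⟨h3, h4, by linarith, h8, h5, ?_, h6, hneg⟩, l2, ?_⟩
  · by_contra hcon
    push Not at hcon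
    have h9 : 0 < √(1 + S.yH q ((S.step q)^[m + 1] a) ^ 2) := Real.sqrt_pos.2 (by positivity)
    have h10 : 0 < S.sH q ((S.step q)^[m + 1] a) := by linarith
    have h11 : S.hH q ((S.step q)^[m + 1] a) * √(1 + S.yH q ((S.step q)^[m + 1] a) ^ 2) ^ 3 /
        (S.dist q * S.sH q ((S.step q)^[m + 1] a) ^ 3) < 0 :=
      div_neg_of_neg_of_pos (mul_neg_of_neg_of_pos hcon (by positivity)) (by positivity)
    linarith
  · rw [pow_succ]
    linarith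

end CF
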