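import Pool.Agent.H.MP_1693ff_gt.BaseA1
import Pool.Agent.H.MP_1693ff_gt.BaseA2
import Pool.Agent.H.MP_1693ff_gt.HalfB3

/-!
# All 2-jets are good
-/

namespace CF

open Real Set Filter Topology

theorem basea_small (K : ℝ) {ε : ℝ} (hε : 0 < ε) : ∀ᶠ q : ℝ in atTop, K / q ≤ ε := by
  have h : Tendsto (fun q : ℝ => K / q) atTop (𝓝 0) := tendsto_const_nhds.div_atTop tendsto_id
  exact h.eventually_le_const hε

theorem basea_neg {φ φ₁ φ₂ : ℝ → ℝ} {A B R₀ c : ℝ} (P : Prof φ φ₁ φ₂ A B R₀ c) {q : ℝ}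
    (hq : 1 ≤ q) (h : c / q ≤ A / 2) : φ₁ (-q) < 0 := by
  have h1 := P.l1 (-q) (by linarith)
  have h2 : c / (-q) ^ 2 ≤ c / q := by
    have h3 : (-q) ^ 2 = q ^ 2 := by ring
    rw [h3]
    have h4 := P.c0
    apply div_le_div_of_nonneg_left h4.le (by linarith)
    nlinarith
  have h5 := P.A0
  have h6 := abs_le.1 h1
  linarith [h6.2]

/-- A product with positive factors. -/
theorem basea_nonneg {lo u v w : ℝ} (hlo : 0 ≤ lo) (hv : 0 < v) (hw : 0 < w)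
    (h : lo ≤ u * v / w) : 0 ≤ u := by
  by_contra hu
  push Not at hu
  have h1 : u * v / w < 0 := div_neg_of_neg_of_pos (mul_neg_of_neg_of_pos hu hv) hw
  linarith

theorem basea_sqrt_pos (x : ℝ) : 0 < √(1 + x ^ 2) ^ 3 := by
  have h : 0 < 1 + x ^ 2 := by positivity
  exact pow_pos (Real.sqrt_pos.2 h) 3

/-- **All 2-jets are good.** -/
theorem all_good (S : Setup) : ∃ q₀ ≥ 1, ∀ q ≥ q₀, S.X < q ∧ S.φ₁ (-q) < 0 ∧ S.ψ₁ (-q) < 0 ∧
    ∀ t ∈ Icc (-1 : ℝ) 1, ∀ n : ℕ, S.Good q (S.st q t n) ∧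
      S.yH q (S.st q t n) ≤ -(q * 2 ^ n) ∧ (1 ≤ n → q * 2 ^ n ≤ (S.st q t n).x) := by
  obtain ⟨C1, hC1, q1, hq1, H1⟩ := base1_lev S
  obtain ⟨C2, hC2, q2, hq2, H2⟩ := base2_lev S
  obtain ⟨C3, hC3, δ3, hδ3, q3, hq3, H3⟩ := hg_step S
  obtain ⟨C4, hC4, δ4, hδ4, q4, hq4, H4⟩ := gh_step S
  obtain ⟨C5, hC5, δ5, hδ5, q5, hq5, H5⟩ := far S
  have hη : 0 < S.η := S.M.η0
  have hη2 : 0 < S.η / 2 := by linarith
  have hA : 0 < S.A / 2 := by linarith [S.P.A0]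
  have hA' : 0 < S.A' / 2 := by linarith [S.Q.A0]
  have hev : ∀ᶠ q : ℝ in atTop, (1 ≤ q ∧ q1 ≤ q ∧ q2 ≤ q ∧ q3 ≤ q ∧ q4 ≤ q ∧ q5 ≤ q) ∧
      (S.X < q ∧ S.c / q ≤ S.A / 2 ∧ S.c / q ≤ S.A' / 2) ∧
      (C1 / q ≤ δ3 ∧ C1 / q ≤ δ5 ∧ C5 * C1 / q ≤ S.η / 2) ∧
      (C2 / q ≤ δ4 ∧ (C2 / 4) / q ≤ δ3 ∧ (C2 / 4) / q ≤ δ5 ∧ (C4 * C2) / q ≤ S.η / 2 ∧
        (C5 * C2 / 4 + C4 * C2) / q ≤ S.η / 2) := by
    refine Filter.Eventually.and ?_ (Filter.Eventually.and ?_ (Filter.Eventually.and ?_ ?_))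
    · filter_upwards [eventually_ge_atTop 1, eventually_ge_atTop q1, eventually_ge_atTop q2,
        eventually_ge_atTop q3, eventually_ge_atTop q4, eventually_ge_atTop q5]
        with q a1 a2 a3 a4 a5 a6
      exact ⟨a1, a2, a3, a4, a5, a6⟩
    · filter_upwards [eventually_gt_atTop S.X, basea_small S.c hA, basea_small S.c hA']
        with q a1 a2 a3
      exact ⟨a1, a2, a3⟩
    · filter_upwards [basea_small C1 hδ3, basea_small C1 hδ5, basea_small (C5 * C1) hη2]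
        with q a1 a2 a3
      exact ⟨a1, a2, a3⟩
    · filter_upwards [basea_small C2 hδ4, basea_small (C2 / 4) hδ3, basea_small (C2 / 4) hδ5,
        basea_small (C4 * C2) hη2, basea_small (C5 * C2 / 4 + C4 * C2) hη2] with q a1 a2 a3 a4 a5
      exact ⟨a1, a2, a3, a4, a5⟩
  obtain ⟨q₀, hq₀⟩ := eventually_atTop.1 hev
  refine ⟨max 1 q₀, le_max_left _ _, fun q hq => ?_⟩
  obtain ⟨⟨g1, g2, g3, g4, g5, g6⟩, ⟨x1, x2, x3⟩, ⟨c1, c2, c3⟩, ⟨d1, d2, d3, d4, d5⟩⟩ :=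
    hq₀ q (le_trans (le_max_right _ _) hq)
  have hq0 : 0 < q := by linarith
  have hdist : 0 < S.dist q := by
    have := S.P.R0
    unfold Setup.dist
    positivity
  -- the common part: from `HLev` at level `0` to everything
  have key : ∀ (a : St) (δ lo : ℝ), δ ≤ δ3 → δ ≤ δ5 → 0 ≤ lo → C5 * δ ≤ lo → HLev S q a δ lo →
      0 < a.s → 0 ≤ a.g → 0 ≤ S.hH q a → 0 < a.x + a.y → S.yH q a ≤ -q → ∀ n : ℕ,
      S.Good q ((S.step q)^[n] a) ∧ S.yH q ((S.step q)^[n] a) ≤ -(q * 2 ^ n) ∧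
        (1 ≤ n → q * 2 ^ n ≤ ((S.step q)^[n] a).x) := by
    intro a δ lo h1 h2 h3 h4 hL hs hg hh hpos hy n
    rcases Nat.eq_zero_or_pos n with hn | hn
    · subst hn
      have hsH : 0 < S.sH q a := by linarith [hL.s1]
      refine ⟨⟨hs, hL.v0, hsH, (H3 q g4 a δ lo h1 h3 hL).2.2, hg, hh, hpos,
        hL.neg⟩, ?_, fun h => absurd h (by norm_num)⟩
      rw [pow_zero, mul_one]
      exact hy
    · obtain ⟨f1, f2, f3⟩ := H5 q g6 a δ lo h2 h4 hL n hn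
      have h2n : (0 : ℝ) < 2 ^ n := by positivity
      refine ⟨f1, f2.trans ?_, fun _ => le_trans ?_ f3⟩
      · nlinarith
      · nlinarith
  refine ⟨x1, basea_neg S.P g1 x2, basea_neg S.Q g1 x3, fun t ht n => ?_⟩
  unfold Setup.st Setup.base
  by_cases h0 : t ≤ 0
  · rw [if_pos h0]
    obtain ⟨hL, hs, hg, hh, hpos, hy⟩ := H1 q g2 t ⟨ht.1, h0⟩
    refine key _ _ _ c1 c2 hη2.le ?_ hL hs hg hh hpos hy n
    rw [← mul_div_assoc]
    exact c3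
  · rw [if_neg h0]
    push Not at h0
    obtain ⟨hG, hx⟩ := H2 q g3 t ⟨h0.le, ht.2⟩
    obtain ⟨hL, hy⟩ := H4 q g5 _ _ _ d1 hη2.le hG
    have e1 : C2 / q / 4 = (C2 / 4) / q := by ring
    have hlo : 0 ≤ S.η / 2 - C4 * (C2 / q) := by
      rw [← mul_div_assoc]
      linarith
    refine key _ _ _ (by rw [e1]; exact d2) (by rw [e1]; exact d3) hlo ?_ hL hG.s0 ?_ ?_ hG.pos ?_
      n
    · have e2 : (C5 * C2 / 4 + C4 * C2) / q = C5 * (C2 / q / 4) + C4 * (C2 / q) := by ring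
      rw [e2] at d5
      linarith
    · exact basea_nonneg hη2.le (basea_sqrt_pos _) hdist hG.klo
    · have hsH : 0 < S.sH q (S.base2 q t) := by linarith [hL.s1]
      exact basea_nonneg hlo (basea_sqrt_pos _) (by positivity) hL.klo
    · linarith

end CF
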