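import Pool.Agent.H.MP_1693ff_gt.HalfD

/-!
# The fundamental arc, first half
-/

namespace CF

open Real Set Filter Topology

/-- Curvature bounds from the model inequalities. -/
theorem basea1_curv {D p p1 p2 q R η : ℝ} (hD : 0 < D) (hp1 : 0 < p1) (hη : 0 < η)
    (hR : 0 < R) (hq : 1 ≤ q) (hqη : 7 * R / η ≤ q) (hqp : q ≤ D * p)
    (h1 : η * p1 ^ 3 ≤ p2 * p ^ 3) (h2 : p2 * p ^ 3 ≤ (R - η) * p1 ^ 3) :
    η / 2 ≤ p2 * √(1 + (D * p) ^ 2) ^ 3 / (D * p1) ^ 3 ∧
      p2 * √(1 + (D * p) ^ 2) ^ 3 / (D * p1) ^ 3 ≤ R - η / 2 := by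
  have hY : 0 < D * p := by linarith
  have hp : 0 < p := by
    by_contra h
    push Not at h
    nlinarith
  have hp3 : 0 < p ^ 3 := by positivity
  have hp13 : 0 < p1 ^ 3 := by positivity
  have hp2 : 0 < p2 := by
    have : 0 < p2 * p ^ 3 := lt_of_lt_of_le (by positivity) h1
    by_contra h
    push Not at h
    nlinarith [mul_nonneg (neg_nonneg.2 h) hp3.le]
  have hRη : 0 ≤ R - η := by
    have : η * p1 ^ 3 ≤ (R - η) * p1 ^ 3 := h1.trans h2
    have := le_of_mul_le_mul_right this hp13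
    linarith
  have hden : 0 < (D * p1) ^ 3 := by positivity
  have hlow : D * p ≤ √(1 + (D * p) ^ 2) := by
    apply Real.le_sqrt_of_sq_le
    linarith
  have hq2 : q ≤ q ^ 2 := by nlinarith
  have hε0 : 0 < 1 / (2 * q ^ 2) := by positivity
  have hε1 : 1 / (2 * q ^ 2) ≤ 1 / 2 := by
    apply one_div_le_one_div_of_le (by norm_num)
    nlinarith
  have hupp : √(1 + (D * p) ^ 2) ≤ D * p * (1 + 1 / (2 * q ^ 2)) := by
    apply Real.sqrt_le_iff.2
    refine ⟨by positivity, ?_⟩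
    have hsq : q ^ 2 ≤ (D * p) ^ 2 := by
      apply pow_le_pow_left₀ (by linarith) hqp
    have h3 : 1 ≤ (D * p) ^ 2 * (1 / q ^ 2) := by
      rw [mul_one_div, le_div_iff₀ (by positivity)]
      linarith
    have h4 : (D * p * (1 + 1 / (2 * q ^ 2))) ^ 2 =
        (D * p) ^ 2 + (D * p) ^ 2 * (1 / q ^ 2) + (D * p) ^ 2 * (1 / (2 * q ^ 2)) ^ 2 := by
      field_simp
      ring
    rw [h4]
    have : 0 ≤ (D * p) ^ 2 * (1 / (2 * q ^ 2)) ^ 2 := by positivity
    linarith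
  constructor
  · have h5 : (D * p) ^ 3 ≤ √(1 + (D * p) ^ 2) ^ 3 := pow_le_pow_left₀ hY.le hlow 3
    rw [le_div_iff₀ hden]
    have h6 : p2 * (D * p) ^ 3 ≤ p2 * √(1 + (D * p) ^ 2) ^ 3 :=
      mul_le_mul_of_nonneg_left h5 hp2.le
    have h7 : η * (D * p1) ^ 3 ≤ p2 * (D * p) ^ 3 := by
      have : D ^ 3 * (η * p1 ^ 3) ≤ D ^ 3 * (p2 * p ^ 3) :=
        mul_le_mul_of_nonneg_left h1 (by positivity)
      nlinarith [this]
    have h8 : 0 ≤ η * (D * p1) ^ 3 := by positivity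
    linarith
  · rw [div_le_iff₀ hden]
    have h5 : √(1 + (D * p) ^ 2) ^ 3 ≤ (D * p * (1 + 1 / (2 * q ^ 2))) ^ 3 :=
      pow_le_pow_left₀ (Real.sqrt_nonneg _) hupp 3
    have h6 : (1 + 1 / (2 * q ^ 2)) ^ 3 ≤ 1 + 7 * (1 / (2 * q ^ 2)) := by
      set ε := 1 / (2 * q ^ 2) with hε
      nlinarith [mul_nonneg hε0.le hε0.le, mul_nonneg (mul_nonneg hε0.le hε0.le) hε0.le]
    have h7 : 7 * (1 / (2 * q ^ 2)) ≤ η / (2 * R) := by
      rw [mul_one_div, div_le_div_iff₀ (by positivity) (by positivity)]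
      rw [div_le_iff₀ hη] at hqη
      nlinarith
    have h8 : (R - η) * (1 + η / (2 * R)) ≤ R - η / 2 := by
      have h9 : (R - η) * (η / (2 * R)) ≤ R * (η / (2 * R)) :=
        mul_le_mul_of_nonneg_right (by linarith) (by positivity)
      have h10 : R * (η / (2 * R)) = η / 2 := by field_simp
      linarith
    calc p2 * √(1 + (D * p) ^ 2) ^ 3 ≤ p2 * (D * p * (1 + 1 / (2 * q ^ 2))) ^ 3 :=
          mul_le_mul_of_nonneg_left h5 hp2.le
      _ = D ^ 3 * (p2 * p ^ 3) * (1 + 1 / (2 * q ^ 2)) ^ 3 := by ring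
      _ ≤ D ^ 3 * ((R - η) * p1 ^ 3) * (1 + η / (2 * R)) := by
          apply mul_le_mul
          · exact mul_le_mul_of_nonneg_left h2 (by positivity)
          · linarith
          · positivity
          · positivity
      _ = (R - η) * (1 + η / (2 * R)) * (D * p1) ^ 3 := by ring
      _ ≤ (R - η / 2) * (D * p1) ^ 3 := mul_le_mul_of_nonneg_right h8 hden.le

/-- First half of the arc: the lower curve over it is in the far regime.
`x = q(2t+1) ∈ [-q,q]`, `yH = -D χ(x) ≤ -q` (`χ = φ - g` is increasing, `D χ(-q) = q`),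
`sH = D χ' ≥ 1` (`χ'` is increasing, `D χ'(-q) = 1`),
`hH √(1+yH²)³/(D sH³) = χ'' χ³/χ'³ (1 + 1/yH²)^{3/2}`; `D = 4q²/R₀`.
Also `Good`: `g, h > 0`, `x + y > 0` (`M.lo`), and `den > 0` from `hg_step`. -/
theorem base1_lev (S : Setup) : ∃ C > 0, ∃ q₀ ≥ 1, ∀ q ≥ q₀, ∀ t ∈ Icc (-1 : ℝ) 0,
    HLev S q (S.base1 q t) (C / q) (S.η / 2) ∧ 0 < (S.base1 q t).s ∧
    0 ≤ (S.base1 q t).g ∧ 0 ≤ S.hH q (S.base1 q t) ∧ 0 < (S.base1 q t).x + (S.base1 q t).y ∧
    S.yH q (S.base1 q t) ≤ -q := by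
  have hR := S.P.R0
  have hη := S.M.η0
  have hX := S.M.X1
  have hc := S.M.c00
  refine ⟨1 + S.R₀, by linarith, max S.X (max (7 * S.R₀ / S.η) (S.R₀ / S.c₀)),
    le_trans hX (le_max_left _ _), ?_⟩
  intro q hq t ht
  have hqX : S.X ≤ q := (le_max_left _ _).trans hq
  have hqη : 7 * S.R₀ / S.η ≤ q := ((le_max_left _ _).trans (le_max_right _ _)).trans hq
  have hqc : S.R₀ / S.c₀ ≤ q := ((le_max_right _ _).trans (le_max_right _ _)).trans hq
  have hq1 : 1 ≤ q := hX.trans hqX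
  have hq0 : 0 < q := by linarith
  have hD : 0 < S.dist q := by unfold Setup.dist; positivity
  have hDR : S.dist q * S.R₀ = 4 * q ^ 2 := by unfold Setup.dist; field_simp
  obtain ⟨ht1, ht2⟩ := ht
  set u := q * (2 * t + 1) with hu
  have hu1 : -q ≤ u := by rw [hu]; nlinarith
  have hu2 : u ≤ q := by rw [hu]; nlinarith
  have huabs : |u| ≤ q := abs_le.2 ⟨hu1, hu2⟩
  -- the functions
  have hχd : ∀ x, HasDerivAt (fun x => S.φ x - S.g x) (S.φ₁ x - S.g₁ x) x := fun x =>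
    (S.P.d1 x).sub (S.M.d1 x)
  have hχd2 : ∀ x, HasDerivAt (fun x => S.φ₁ x - S.g₁ x) (S.φ₂ x - S.g₂ x) x := fun x =>
    (S.P.d2 x).sub (S.M.d2 x)
  have hχmono : StrictMono (fun x => S.φ x - S.g x) := by
    apply strictMono_of_deriv_pos
    intro x
    rw [(hχd x).deriv]
    exact S.M.h1pos x
  have hχ1mono : StrictMono (fun x => S.φ₁ x - S.g₁ x) := by
    apply strictMono_of_deriv_pos
    intro x
    rw [(hχd2 x).deriv]
    have := S.M.g2lt x
    linarith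
  have hχq : S.dist q * (S.φ (-q) - S.g (-q)) = q := by
    rw [S.M.tl (-q) (by linarith)]
    have : S.dist q * -(S.R₀ / (4 * -q)) = S.dist q * S.R₀ / (4 * q) := by
      field_simp
    rw [this, hDR]
    field_simp
  have hχ1q : S.dist q * (S.φ₁ (-q) - S.g₁ (-q)) = 1 := by
    rw [S.M.tl1 (-q) (by linarith)]
    have : S.dist q * (S.R₀ / (4 * (-q) ^ 2)) = S.dist q * S.R₀ / (4 * q ^ 2) := by
      rw [neg_sq]; ring
    rw [this, hDR]
    field_simp
  have hYq : q ≤ S.dist q * (S.φ u - S.g u) := by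
    calc q = S.dist q * (S.φ (-q) - S.g (-q)) := hχq.symm
      _ ≤ S.dist q * (S.φ u - S.g u) := mul_le_mul_of_nonneg_left (hχmono.monotone hu1) hD.le
  have hs1 : 1 ≤ S.dist q * (S.φ₁ u - S.g₁ u) := by
    calc 1 = S.dist q * (S.φ₁ (-q) - S.g₁ (-q)) := hχ1q.symm
      _ ≤ S.dist q * (S.φ₁ u - S.g₁ u) := mul_le_mul_of_nonneg_left (hχ1mono.monotone hu1) hD.le
  have hstrict : u < S.dist q * (S.φ u - S.g u) := by
    rcases lt_or_eq_of_le hu2 with h | h
    · linarith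
    · have h1 : S.φ (-q) - S.g (-q) < S.φ u - S.g u := hχmono (by rw [h]; linarith)
      have h2 := mul_lt_mul_of_pos_left h1 hD
      rw [hχq] at h2
      linarith
  have hyH : S.yH q (S.base1 q t) = -(S.dist q * (S.φ u - S.g u)) := by
    simp only [Setup.yH, Setup.base1, Setup.F]
    rw [← hu]; ring
  have hsH : S.sH q (S.base1 q t) = S.dist q * (S.φ₁ u - S.g₁ u) := by
    simp only [Setup.sH, Setup.base1, Setup.F₁]
    rw [← hu]; ring
  have hhH : S.hH q (S.base1 q t) = S.dist q * (S.φ₂ u - S.g₂ u) := by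
    simp only [Setup.hH, Setup.base1, Setup.F₂]
    rw [← hu]; ring
  have hx : (S.base1 q t).x = u := rfl
  have hcurv := basea1_curv hD (S.M.h1pos u) hη hR hq1 hqη hYq (S.M.bh u) (S.M.bh' u)
  have hDq : 1 / S.dist q ≤ S.R₀ / 4 / q := by
    unfold Setup.dist
    rw [one_div_div]
    rw [div_div, div_le_div_iff₀ (by positivity) (by positivity)]
    have : q ≤ q ^ 2 := by nlinarith
    nlinarith
  have hkey : S.hH q (S.base1 q t) * √(1 + S.yH q (S.base1 q t) ^ 2) ^ 3 /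
      (S.dist q * S.sH q (S.base1 q t) ^ 3) = (S.φ₂ u - S.g₂ u) *
      √(1 + (S.dist q * (S.φ u - S.g u)) ^ 2) ^ 3 / (S.dist q * (S.φ₁ u - S.g₁ u)) ^ 3 := by
    rw [hhH, hyH, hsH, neg_sq]
    rw [mul_assoc, mul_div_mul_left _ _ hD.ne']
  refine ⟨⟨by positivity, ?_, ?_, ?_, ?_, ?_, ?_, ?_, ?_⟩, ?_, ?_, ?_, ?_, ?_⟩
  · rw [hyH, neg_neg, one_div_div]
    refine le_trans ?_ hYq
    rw [div_le_iff₀ (by linarith)]
    nlinarith
  · rw [hx, hyH, neg_neg]
    exact huabs.trans hYq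
  · rw [hx, hyH]
    linarith
  · rw [hsH]; exact hs1
  · show 0 < 2 * q
    linarith
  · rw [hx, hyH, hsH, neg_neg]
    have h1 : |u / (S.dist q * (S.dist q * (S.φ u - S.g u)))| ≤ 1 / S.dist q := by
      have hY0 : 0 < S.dist q * (S.φ u - S.g u) := by linarith
      rw [abs_div, abs_of_pos (mul_pos hD hY0)]
      rw [div_le_div_iff₀ (mul_pos hD hY0) hD]
      have := huabs.trans hYq
      nlinarith
    have h2 : |1 / (S.dist q * (S.dist q * (S.φ₁ u - S.g₁ u)))| ≤ 1 / S.dist q := by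
      have hp : 0 < S.dist q * (S.φ₁ u - S.g₁ u) := by linarith
      rw [abs_of_pos (by positivity)]
      apply one_div_le_one_div_of_le hD
      nlinarith
    calc |u / (S.dist q * (S.dist q * (S.φ u - S.g u))) -
          1 / (S.dist q * (S.dist q * (S.φ₁ u - S.g₁ u)))|
        ≤ |u / (S.dist q * (S.dist q * (S.φ u - S.g u)))| +
          |1 / (S.dist q * (S.dist q * (S.φ₁ u - S.g₁ u)))| := abs_sub _ _
      _ ≤ 1 / S.dist q + 1 / S.dist q := add_le_add h1 h2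
      _ ≤ S.R₀ / 4 / q + S.R₀ / 4 / q := add_le_add hDq hDq
      _ = (S.R₀ / 4 + S.R₀ / 4) / q := by ring
      _ ≤ (1 + S.R₀) / q := by
          apply div_le_div_of_nonneg_right _ hq0.le
          linarith
  · rw [hkey]; exact hcurv.1
  · rw [hkey]; exact hcurv.2
  · show 0 < -(S.dist q * S.g₁ (q * (2 * t + 1)))
    rw [← hu]
    have := S.M.g1neg u
    nlinarith
  · show 0 ≤ S.dist q * S.g₂ (q * (2 * t + 1))
    rw [← hu]
    have := S.M.g2pos u
    positivity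
  · rw [hhH]
    have := S.M.g2lt u
    apply mul_nonneg hD.le
    linarith
  · show 0 < u + S.dist q * S.g (q * (2 * t + 1))
    rw [← hu]
    have h1 := S.M.lo u
    have h2 : |u| < √(1 + u ^ 2) := by
      apply Real.lt_sqrt_of_sq_lt
      rw [sq_abs]; linarith
    have hDc : 4 ≤ S.dist q * S.c₀ := by
      unfold Setup.dist
      rw [div_mul_eq_mul_div, le_div_iff₀ hR]
      rw [div_le_iff₀ hc] at hqc
      have : q ≤ q ^ 2 := by nlinarith
      nlinarith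
    have h3 : S.dist q * (S.c₀ * (√(1 + u ^ 2) - u)) ≤ S.dist q * S.g u :=
      mul_le_mul_of_nonneg_left h1 hD.le
    have h4 : 4 * (√(1 + u ^ 2) - u) ≤ S.dist q * S.c₀ * (√(1 + u ^ 2) - u) :=
      mul_le_mul_of_nonneg_right hDc (by linarith [le_abs_self u])
    have h5 := neg_abs_le u
    have h6 := le_abs_self u
    nlinarith
  · rw [hyH]; linarith

end CF
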