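import Pool.Agent.H.MP_1693ff_gt.Defs

/-!
# The convex body of a curve
-/

namespace CF

open Real Set Filter Topology

theorem body1_cont (i : Fin 2) : Continuous fun w : Pl => w i := by
  fun_prop

theorem body1_closed (a b : ℝ) : IsClosed {w : Pl | a * w 0 + b * w 1 ≤ 1} := by
  refine isClosed_le ?_ continuous_const
  exact (continuous_const.mul (body1_cont 0)).add (continuous_const.mul (body1_cont 1))

/-- The body is closed and convex. -/
theorem body_closed_convex (F F' x y s : ℝ → ℝ) :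
    IsClosed (body F F' x y s) ∧ Convex ℝ (body F F' x y s) := by
  constructor
  · have h1 : body F F' x y s = ⋂ τ : ℝ, {w : Pl | (1 - s τ) * w 0 + (y τ + s τ * x τ) * w 1 ≤ 1} ∩
        {w : Pl | (1 - (s τ + F' (x τ))) * w 0 +
          (y τ - F (x τ) + (s τ + F' (x τ)) * x τ) * w 1 ≤ 1} := by
      ext w
      simp only [body, mem_ofPred_eq, mem_iInter, mem_inter_iff]
    rw [h1]
    exact isClosed_iInter fun τ => (body1_closed _ _).inter (body1_closed _ _)
  · intro v hv w hw a b ha hb hab τ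
    obtain ⟨h1, h2⟩ := hv τ
    obtain ⟨h3, h4⟩ := hw τ
    have e0 : (a • v + b • w) 0 = a * v 0 + b * w 0 := rfl
    have e1 : (a • v + b • w) 1 = a * v 1 + b * w 1 := rfl
    rw [e0, e1]
    have h5 := mul_le_mul_of_nonneg_left h1 ha
    have h6 := mul_le_mul_of_nonneg_left h2 ha
    have h7 := mul_le_mul_of_nonneg_left h3 hb
    have h8 := mul_le_mul_of_nonneg_left h4 hb
    constructor
    · calc _ = a * ((1 - s τ) * v 0 + (y τ + s τ * x τ) * v 1) +
          b * ((1 - s τ) * w 0 + (y τ + s τ * x τ) * w 1) := by ring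
        _ ≤ 1 := by linarith
    · calc _ = a * ((1 - (s τ + F' (x τ))) * v 0 +
          (y τ - F (x τ) + (s τ + F' (x τ)) * x τ) * v 1) +
          b * ((1 - (s τ + F' (x τ))) * w 0 +
          (y τ - F (x τ) + (s τ + F' (x τ)) * x τ) * w 1) := by ring
        _ ≤ 1 := by linarith

theorem body1_norm (w : Pl) : ‖w‖ ≤ |w 0| + |w 1| := by
  rw [EuclideanSpace.norm_eq, Fin.sum_univ_two, Real.norm_eq_abs, Real.norm_eq_abs]
  apply Real.sqrt_le_iff.2
  refine ⟨by positivity, ?_⟩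
  nlinarith [abs_nonneg (w 0), abs_nonneg (w 1)]

/-- The body is compact. `τ = 0`: `s = 1`, so `(x 0 + y 0) w₁ ≤ 1`; `τ = -1`, lower curve:
`s + F' x = 1`, so `(x + yH)(-1) w₁ ≤ 1` with `x + yH < 0`; so `w₁` is bounded. Then the upper line
of `τ = 1` (`s 1 < 1`) bounds `w₀` from above, that of `τ = -1` (`s (-1) > 1`) from below. -/
theorem body_compact {F F' E E' x y s : ℝ → ℝ} {m M : ℝ} (C : Curve' F F' E E' x y s m M) :
    IsCompact (body F F' x y s) := by
  refine Metric.isCompact_of_isClosed_isBounded (body_closed_convex F F' x y s).1 ?_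
  rw [isBounded_iff_forall_norm_le]
  have hp := C.pos 0
  have hn := C.neg (-1)
  set P := x 0 + y 0 with hP
  set N := -(x (-1) + (y (-1) - F (x (-1)))) with hN
  have hN0 : 0 < N := by rw [hN]; linarith
  set B := P⁻¹ + N⁻¹ with hB
  have hPi : 0 < P⁻¹ := inv_pos.2 hp
  have hNi : 0 < N⁻¹ := inv_pos.2 hN0
  have hs1 : 0 < 1 - s 1 := by linarith [C.s_one]
  have hs2 : 0 < s (-1) - 1 := by linarith [C.s_neg_one]
  set a1 := |y 1 + s 1 * x 1| with ha1
  set a2 := |y (-1) + s (-1) * x (-1)| with ha2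
  refine ⟨((1 + a1 * B) / (1 - s 1) + (1 + a2 * B) / (s (-1) - 1)) + B, fun w hw => ?_⟩
  have hw1 : |w 1| ≤ B := by
    have h1 := (hw 0).1
    have h2 := (hw (-1)).2
    rw [C.s_zero] at h1
    rw [C.sH_neg_one] at h2
    have h3 : P * w 1 ≤ 1 := by rw [hP]; linarith
    have h4 : N * (-w 1) ≤ 1 := by rw [hN]; linarith
    have h5 : w 1 ≤ P⁻¹ := by
      rw [inv_eq_one_div, le_div_iff₀ hp]
      linarith
    have h6 : -w 1 ≤ N⁻¹ := by
      rw [inv_eq_one_div, le_div_iff₀ hN0]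
      linarith
    rw [abs_le]
    constructor <;> linarith
  have hB0 : 0 ≤ B := by positivity
  have hw0 : |w 0| ≤ (1 + a1 * B) / (1 - s 1) + (1 + a2 * B) / (s (-1) - 1) := by
    have h1 := (hw 1).1
    have h2 := (hw (-1)).1
    have h3 : |(y 1 + s 1 * x 1) * w 1| ≤ a1 * B := by
      rw [abs_mul]
      exact mul_le_mul_of_nonneg_left hw1 (abs_nonneg _)
    have h4 : |(y (-1) + s (-1) * x (-1)) * w 1| ≤ a2 * B := by
      rw [abs_mul]
      exact mul_le_mul_of_nonneg_left hw1 (abs_nonneg _)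
    rw [abs_le] at h3 h4
    have h5 : w 0 ≤ (1 + a1 * B) / (1 - s 1) := by
      rw [le_div_iff₀ hs1]
      linarith
    have h6 : -w 0 ≤ (1 + a2 * B) / (s (-1) - 1) := by
      rw [le_div_iff₀ hs2]
      linarith
    have h7 : 0 ≤ (1 + a1 * B) / (1 - s 1) := by positivity
    have h8 : 0 ≤ (1 + a2 * B) / (s (-1) - 1) := by positivity
    rw [abs_le]
    constructor <;> linarith
  linarith [body1_norm w]

theorem body1_mem {F F' E E' x y s : ℝ → ℝ} {m M : ℝ} (C : Curve' F F' E E' x y s m M)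
    {D ε a : ℝ} (hD : ∀ τ, |y τ + s τ * x τ| ≤ D ∧
      |y τ - F (x τ) + (s τ + F' (x τ)) * x τ| ≤ D)
    (hε1 : (1 + M + D) * ε ≤ m) (ha0 : 0 ≤ a) (ha1 : a ≤ 1) (w : Pl) (h0 : |w 0 - a| < ε)
    (h1 : |w 1| < ε) : w ∈ body F F' x y s := by
  have key : ∀ σ b : ℝ, m ≤ σ → σ ≤ M → |b| ≤ D → (1 - σ) * w 0 + b * w 1 ≤ 1 := by
    intro σ b h2 h3 h4
    have hm := C.m1
    have hm0 := C.m0
    have h5 : (1 - σ) * a ≤ 1 - m := by
      have h6 : (1 - σ) * a ≤ (1 - m) * a := mul_le_mul_of_nonneg_right (by linarith) ha0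
      have h7 : (1 - m) * a ≤ (1 - m) * 1 := mul_le_mul_of_nonneg_left ha1 (by linarith)
      linarith
    have h8 : |(1 - σ) * (w 0 - a)| ≤ (1 + M) * ε := by
      rw [abs_mul]
      refine mul_le_mul ?_ h0.le (abs_nonneg _) (by linarith)
      rw [abs_le]
      constructor <;> linarith
    have h9 : |b * w 1| ≤ D * ε := by
      rw [abs_mul]
      exact mul_le_mul h4 h1.le (abs_nonneg _) ((abs_nonneg _).trans h4)
    have h10 := (abs_le.1 h8).2
    have h11 := (abs_le.1 h9).2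
    have h12 : (1 - σ) * w 0 = (1 - σ) * a + (1 - σ) * (w 0 - a) := by ring
    linarith
  intro τ
  exact ⟨key _ _ (C.ms τ) (C.sM τ) (hD τ).1, key _ _ (C.msH τ) (C.sHM τ) (hD τ).2⟩

theorem body1_int {F F' E E' x y s : ℝ → ℝ} {m M : ℝ} (C : Curve' F F' E E' x y s m M)
    (a : ℝ) (ha0 : 0 ≤ a) (ha1 : a ≤ 1) (p : Pl) (hp0 : p 0 = a) (hp1 : p 1 = 0) :
    p ∈ interior (body F F' x y s) := by
  obtain ⟨D, hD⟩ := C.bdd
  have hD0 : 0 ≤ D := (abs_nonneg _).trans (hD 0).1
  have hM := C.M1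
  have hm := C.m0
  have hpos : 0 < 1 + M + D := by linarith
  have hε : 0 < m / (1 + M + D) := div_pos hm hpos
  rw [mem_interior]
  refine ⟨{w : Pl | |w 0 - a| < m / (1 + M + D)} ∩ {w : Pl | |w 1| < m / (1 + M + D)}, ?_, ?_, ?_⟩
  · rintro w ⟨hw0, hw1⟩
    exact body1_mem C hD (by rw [mul_div_cancel₀ _ hpos.ne']) ha0 ha1 w hw0 hw1
  · refine IsOpen.inter (isOpen_lt ?_ continuous_const) (isOpen_lt ?_ continuous_const)
    · exact ((body1_cont 0).sub continuous_const).abs
    · exact (body1_cont 1).abs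
  · constructor
    · show |p 0 - a| < m / (1 + M + D)
      rw [hp0, sub_self, abs_zero]
      exact hε
    · show |p 1| < m / (1 + M + D)
      rw [hp1, abs_zero]
      exact hε

/-- The origin and `(1,0)` are interior points: at `(a, b)` with `a ∈ {0,1}` plus a small
perturbation: `1 - s τ ≤ 1 - m < 1`, all coefficients bounded (`bdd`, `m ≤ s ≤ M`). -/
theorem body_interior {F F' E E' x y s : ℝ → ℝ} {m M : ℝ} (C : Curve' F F' E E' x y s m M) :
    (0 : Pl) ∈ interior (body F F' x y s) ∧ ev 0 ∈ interior (body F F' x y s) := by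
  refine ⟨body1_int C 0 le_rfl zero_le_one _ rfl rfl, body1_int C 1 zero_le_one le_rfl _ ?_ ?_⟩
  · show cos 0 = 1
    exact cos_zero
  · show sin 0 = 0
    exact sin_zero

end CF
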