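import Pool.Agent.H.MP_1693ff_gt.Defs

/-!
# Radial functions at the first point
-/

namespace CF

open Real Set Filter Topology

/-- General principle: if `{c ≥ 0 : p + c u ∈ K} = [0, 1/N]` with `N > 0`, given by
`p + c u ∈ K ↔ c N ≤ 1` for `c ≥ 0`. -/
theorem radial_of {K : Set Pl} {p u : Pl} {N : ℝ} (hN : 0 < N)
    (h : ∀ c, 0 ≤ c → (p + c • u ∈ K ↔ c * N ≤ 1)) : radial K p u = N⁻¹ := by
  have hset : {c : ℝ | 0 ≤ c ∧ p + c • u ∈ K} = Icc 0 N⁻¹ := by
    ext c
    constructor
    · rintro ⟨h0, h1⟩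
      refine ⟨h0, ?_⟩
      rw [inv_eq_one_div, le_div_iff₀ hN]
      exact (h c h0).1 h1
    · rintro ⟨h0, h1⟩
      refine ⟨h0, (h c h0).2 ?_⟩
      rwa [inv_eq_one_div, le_div_iff₀ hN] at h1
  unfold radial
  rw [hset]
  exact csSup_Icc (inv_pos.2 hN).le

theorem body2_aux1 (F F' x y s : ℝ → ℝ) (θ c : ℝ) :
    ((0 : Pl) + c • ev θ ∈ body F F' x y s) ↔ ∀ τ,
      (1 - s τ) * (c * cos θ) + (y τ + s τ * x τ) * (c * sin θ) ≤ 1 ∧
      (1 - (s τ + F' (x τ))) * (c * cos θ) +
        (y τ - F (x τ) + (s τ + F' (x τ)) * x τ) * (c * sin θ) ≤ 1 := by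
  have e0 : ((0 : Pl) + c • ev θ) 0 = c * cos θ := by simp [ev]
  have e1 : ((0 : Pl) + c • ev θ) 1 = c * sin θ := by simp [ev]
  show (∀ τ, _ ∧ _) ↔ _
  rw [e0, e1]

theorem body2_aux2 (F F' x y s : ℝ → ℝ) (θ c : ℝ) :
    ((0 : Pl) + c • (-ev θ) ∈ body F F' x y s) ↔ ∀ τ,
      (1 - s τ) * (-(c * cos θ)) + (y τ + s τ * x τ) * (-(c * sin θ)) ≤ 1 ∧
      (1 - (s τ + F' (x τ))) * (-(c * cos θ)) +
        (y τ - F (x τ) + (s τ + F' (x τ)) * x τ) * (-(c * sin θ)) ≤ 1 := by
  have e0 : ((0 : Pl) + c • (-ev θ)) 0 = -(c * cos θ) := by simp [ev]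
  have e1 : ((0 : Pl) + c • (-ev θ)) 1 = -(c * sin θ) := by simp [ev]
  show (∀ τ, _ ∧ _) ↔ _
  rw [e0, e1]

/-- Radial function at the origin, upper direction: `θ ∈ (0,π)`, `cot θ = x τ`.
`c e(θ) ∈ body ↔ c (x τ + y τ) sin θ ≤ 1`: `→` is the upper inequality with index `τ`
(`(1 - s) cos θ + (y + s x) sin θ = (x + y) sin θ`); `←`: for every index `τ'`
`(1 - s') cos θ + (y' + s' x') sin θ = sin θ (x τ + y' - s' (x τ - x')) ≤ sin θ (x τ + y τ)` by
`relG`, and for the lower lines by `cross2`. -/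
theorem radial_up {F F' E E' x y s : ℝ → ℝ} {m M : ℝ} (C : Curve' F F' E E' x y s m M)
    {θ τ : ℝ} (hθ : θ ∈ Ioo 0 π) (hτ : x τ = cos θ / sin θ) :
    radial (body F F' x y s) 0 (ev θ) = ((x τ + y τ) * sin θ)⁻¹ := by
  have hs : 0 < sin θ := sin_pos_of_pos_of_lt_pi hθ.1 hθ.2
  have hcos : cos θ = sin θ * x τ := by
    rw [hτ]
    field_simp
  refine radial_of (mul_pos (C.pos τ) hs) fun c hc => ?_
  rw [body2_aux1]
  constructor
  · intro h
    have h1 := (h τ).1
    rw [hcos] at h1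
    linarith
  · intro h τ'
    have hcs : 0 ≤ c * sin θ := mul_nonneg hc hs.le
    constructor
    · have key : y τ' - s τ' * (x τ - x τ') ≤ y τ := by
        rcases le_total τ τ' with h' | h'
        · have := (C.relG τ τ' h').2.2.2
          linarith
        · have := (C.relG τ' τ h').2.2.1
          linarith
      have h3 := mul_le_mul_of_nonneg_left key hcs
      rw [hcos]
      linarith
    · have key := C.cross2 τ' τ
      have h3 := mul_le_mul_of_nonneg_left key hcs
      rw [hcos]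
      linarith

/-- Lower direction: `-e(θ)`, `c(-e θ) ∈ body ↔ c (-(x τ + yH τ)) sin θ ≤ 1` (`relH`, `cross1`). -/
theorem radial_down {F F' E E' x y s : ℝ → ℝ} {m M : ℝ} (C : Curve' F F' E E' x y s m M)
    {θ τ : ℝ} (hθ : θ ∈ Ioo 0 π) (hτ : x τ = cos θ / sin θ) :
    radial (body F F' x y s) 0 (-ev θ) = (-(x τ + (y τ - F (x τ))) * sin θ)⁻¹ := by
  have hs : 0 < sin θ := sin_pos_of_pos_of_lt_pi hθ.1 hθ.2
  have hcos : cos θ = sin θ * x τ := by
    rw [hτ]
    field_simp
  refine radial_of (mul_pos (by linarith [C.neg τ]) hs) fun c hc => ?_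
  rw [body2_aux2]
  constructor
  · intro h
    have h1 := (h τ).2
    rw [hcos] at h1
    linarith
  · intro h τ'
    have hcs : 0 ≤ c * sin θ := mul_nonneg hc hs.le
    constructor
    · have key := C.cross1 τ' τ
      have h3 := mul_le_mul_of_nonneg_left key hcs
      rw [hcos]
      linarith
    · have key : y τ - F (x τ) ≤ (y τ' - F (x τ')) - (s τ' + F' (x τ')) * (x τ - x τ') := by
        rcases le_total τ τ' with h' | h'
        · have := (C.relH τ τ' h').2.2.1
          linarith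
        · have := (C.relH τ' τ h').2.2.2
          linarith
      have h3 := mul_le_mul_of_nonneg_left key hcs
      rw [hcos]
      linarith

/-- Directions of the axis at the origin: `c e(0) ∈ body ↔ c (1 - m) ≤ 1`,
`c (-e(0)) ∈ body ↔ c (M - 1) ≤ 1` (limits of the slopes). -/
theorem radial_axis {F F' E E' x y s : ℝ → ℝ} {m M : ℝ} (C : Curve' F F' E E' x y s m M) :
    radial (body F F' x y s) 0 (ev 0) = (1 - m)⁻¹ ∧
    radial (body F F' x y s) 0 (-ev 0) = (M - 1)⁻¹ := by
  have hm0 := C.m0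
  have hm1 := C.m1
  have hM1 := C.M1
  constructor
  · refine radial_of (by linarith) fun c hc => ?_
    rw [body2_aux1]
    simp only [cos_zero, sin_zero, mul_one, mul_zero, add_zero]
    constructor
    · intro h
      have hl : Tendsto (fun τ => (1 - s τ) * c) atTop (𝓝 ((1 - m) * c)) :=
        (C.sm.const_sub 1).mul_const _
      have := le_of_tendsto hl (Eventually.of_forall fun τ => (h τ).1)
      linarith
    · intro h τ
      have h1 := mul_le_mul_of_nonneg_left (C.ms τ) hc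
      have h2 := mul_le_mul_of_nonneg_left (C.msH τ) hc
      constructor <;> linarith
  · refine radial_of (by linarith) fun c hc => ?_
    rw [body2_aux2]
    simp only [cos_zero, sin_zero, mul_one, mul_zero, neg_zero, add_zero]
    constructor
    · intro h
      have hl : Tendsto (fun τ => (1 - s τ) * (-c)) atBot (𝓝 ((1 - M) * (-c))) :=
        (C.sM'.const_sub 1).mul_const _
      have := le_of_tendsto hl (Eventually.of_forall fun τ => (h τ).1)
      linarith
    · intro h τ
      have h1 := mul_le_mul_of_nonneg_left (C.sM τ) hc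
      have h2 := mul_le_mul_of_nonneg_left (C.sHM τ) hc
      constructor <;> linarith

end CF
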