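import Pool.Agent.H.MP_1693ff_gt.Body2

/-!
# Radial functions at the second point
-/

namespace CF

open Real Set Filter Topology

theorem body3_aux1 (F F' x y s : ℝ → ℝ) (θ c : ℝ) :
    (ev 0 + c • ev θ ∈ body F F' x y s) ↔ ∀ τ,
      (1 - s τ) * (1 + c * cos θ) + (y τ + s τ * x τ) * (c * sin θ) ≤ 1 ∧
      (1 - (s τ + F' (x τ))) * (1 + c * cos θ) +
        (y τ - F (x τ) + (s τ + F' (x τ)) * x τ) * (c * sin θ) ≤ 1 := by
  have e0 : (ev 0 + c • ev θ) 0 = 1 + c * cos θ := by simp [ev]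
  have e1 : (ev 0 + c • ev θ) 1 = c * sin θ := by simp [ev]
  show (∀ τ, _ ∧ _) ↔ _
  rw [e0, e1]

theorem body3_aux2 (F F' x y s : ℝ → ℝ) (θ c : ℝ) :
    (ev 0 + c • (-ev θ) ∈ body F F' x y s) ↔ ∀ τ,
      (1 - s τ) * (1 - c * cos θ) + (y τ + s τ * x τ) * (-(c * sin θ)) ≤ 1 ∧
      (1 - (s τ + F' (x τ))) * (1 - c * cos θ) +
        (y τ - F (x τ) + (s τ + F' (x τ)) * x τ) * (-(c * sin θ)) ≤ 1 := by
  have e0 : (ev 0 + c • (-ev θ)) 0 = 1 - c * cos θ := by simp [ev]; ring
  have e1 : (ev 0 + c • (-ev θ)) 1 = -(c * sin θ) := by simp [ev]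
  show (∀ τ, _ ∧ _) ↔ _
  rw [e0, e1]

/-- Radial functions at the second point `e(0) = (1,0)`, `θ ∈ (0,π)`:
upper direction, `y τ = -cos θ/sin θ`:
`e(0) + c e(θ)` satisfies the upper inequality of index `τ'` iff
`c ((1 - s') cos θ + (y' + s' x') sin θ) ≤ s'`, i.e. `c ((1/s' - 1) cos θ + (y'/s' + x') sin θ) ≤ 1`;
for `τ' = τ` the bracket is `(x τ + y τ) sin θ`, for the others it is smaller by `relG`
(`x τ ≥ x' - (y τ - y')/s'`), for the lower lines by `cross2`. -/
theorem radial_up' {F F' E E' x y s : ℝ → ℝ} {m M : ℝ} (C : Curve' F F' E E' x y s m M)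
    {θ τ : ℝ} (hθ : θ ∈ Ioo 0 π) (hτ : y τ = -(cos θ / sin θ)) :
    radial (body F F' x y s) (ev 0) (ev θ) = ((x τ + y τ) * sin θ)⁻¹ := by
  have hs : 0 < sin θ := sin_pos_of_pos_of_lt_pi hθ.1 hθ.2
  have hcos : cos θ = -(sin θ * y τ) := by
    rw [hτ]
    field_simp
  refine radial_of (mul_pos (C.pos τ) hs) fun c hc => ?_
  rw [body3_aux1]
  constructor
  · intro h
    have h1 := (h τ).1
    rw [hcos] at h1
    have h2 : s τ * (c * ((x τ + y τ) * sin θ)) ≤ s τ * 1 := by linarith
    exact le_of_mul_le_mul_left h2 (C.s0 τ)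
  · intro h τ'
    have hcs : 0 ≤ c * sin θ := mul_nonneg hc hs.le
    constructor
    · have key : y τ' - y τ ≤ s τ' * (x τ - x τ') := by
        rcases le_total τ τ' with h' | h'
        · have := (C.relG τ τ' h').2.2.2
          linarith
        · have := (C.relG τ' τ h').2.2.1
          linarith
      have h3 := mul_le_mul_of_nonneg_left key hcs
      have h4 := mul_le_mul_of_nonneg_left h (C.s0 τ').le
      rw [hcos]
      nlinarith
    · have key := C.cross2 τ' τ
      have h3 := mul_le_mul_of_nonneg_left key hcs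
      have h4 := mul_le_mul_of_nonneg_left h (C.sH0 τ').le
      rw [hcos]
      nlinarith

/-- lower direction, `yH τ = -cos θ/sin θ`, `yH τ = y τ - F (x τ)`: value
`-(x τ + yH τ) sin θ`. -/
theorem radial_down' {F F' E E' x y s : ℝ → ℝ} {m M : ℝ} (C : Curve' F F' E E' x y s m M)
    {θ τ : ℝ} (hθ : θ ∈ Ioo 0 π) (hτ : y τ - F (x τ) = -(cos θ / sin θ)) :
    radial (body F F' x y s) (ev 0) (-ev θ) = (-(x τ + (y τ - F (x τ))) * sin θ)⁻¹ := by
  have hs : 0 < sin θ := sin_pos_of_pos_of_lt_pi hθ.1 hθ.2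
  have hcos : cos θ = -(sin θ * (y τ - F (x τ))) := by
    rw [hτ]
    field_simp
  refine radial_of (mul_pos (by linarith [C.neg τ]) hs) fun c hc => ?_
  rw [body3_aux2]
  constructor
  · intro h
    have h1 := (h τ).2
    rw [hcos] at h1
    have h2 : (s τ + F' (x τ)) * (c * (-(x τ + (y τ - F (x τ))) * sin θ)) ≤
        (s τ + F' (x τ)) * 1 := by linarith
    exact le_of_mul_le_mul_left h2 (C.sH0 τ)
  · intro h τ'
    have hcs : 0 ≤ c * sin θ := mul_nonneg hc hs.le
    constructor
    · have key := C.cross1 τ' τ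
      have h3 := mul_le_mul_of_nonneg_left key hcs
      have h4 := mul_le_mul_of_nonneg_left h (C.s0 τ').le
      rw [hcos]
      nlinarith
    · have key : (y τ - F (x τ)) - (y τ' - F (x τ')) ≤ (s τ' + F' (x τ')) * (x τ' - x τ) := by
        rcases le_total τ τ' with h' | h'
        · have := (C.relH τ τ' h').2.2.1
          linarith
        · have := (C.relH τ' τ h').2.2.2
          linarith
      have h3 := mul_le_mul_of_nonneg_left key hcs
      have h4 := mul_le_mul_of_nonneg_left h (C.sH0 τ').le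
      rw [hcos]
      nlinarith

/-- axis at the second point. -/
theorem radial_axis' {F F' E E' x y s : ℝ → ℝ} {m M : ℝ} (C : Curve' F F' E E' x y s m M) :
    radial (body F F' x y s) (ev 0) (ev 0) = (m⁻¹ - 1)⁻¹ ∧
    radial (body F F' x y s) (ev 0) (-ev 0) = (1 - M⁻¹)⁻¹ := by
  have hm0 := C.m0
  have hm1 := C.m1
  have hM1 := C.M1
  have hM0 : 0 < M := by linarith
  constructor
  · have hN : 0 < m⁻¹ - 1 := by
      rw [sub_pos]
      exact (one_lt_inv₀ hm0).2 hm1
    refine radial_of hN fun c hc => ?_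
    rw [body3_aux1]
    simp only [cos_zero, sin_zero, mul_one, mul_zero, add_zero]
    have e : c * (m⁻¹ - 1) ≤ 1 ↔ c * (1 - m) ≤ m := by
      rw [← mul_le_mul_iff_left₀ hm0, one_mul]
      have : c * (m⁻¹ - 1) * m = c * (1 - m) := by
        field_simp
      rw [this]
    rw [e]
    constructor
    · intro h
      have hl : Tendsto (fun τ => (1 - s τ) * (1 + c)) atTop (𝓝 ((1 - m) * (1 + c))) :=
        (C.sm.const_sub 1).mul_const _
      have := le_of_tendsto hl (Eventually.of_forall fun τ => (h τ).1)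
      linarith
    · intro h τ
      have h1 := C.ms τ
      have h2 := C.msH τ
      constructor <;> nlinarith
  · have hN : 0 < 1 - M⁻¹ := by
      rw [sub_pos]
      exact inv_lt_one_of_one_lt₀ hM1
    refine radial_of hN fun c hc => ?_
    rw [body3_aux2]
    simp only [cos_zero, sin_zero, mul_one, mul_zero, neg_zero, add_zero]
    have e : c * (1 - M⁻¹) ≤ 1 ↔ c * (M - 1) ≤ M := by
      rw [← mul_le_mul_iff_left₀ hM0, one_mul]
      have : c * (1 - M⁻¹) * M = c * (M - 1) := by
        field_simp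
      rw [this]
    rw [e]
    constructor
    · intro h
      have hl : Tendsto (fun τ => (1 - s τ) * (1 - c)) atBot (𝓝 ((1 - M) * (1 - c))) :=
        (C.sM'.const_sub 1).mul_const _
      have := le_of_tendsto hl (Eventually.of_forall fun τ => (h τ).1)
      linarith
    · intro h τ
      have key : ∀ r : ℝ, 0 < r → r ≤ M → (1 - r) * (1 - c) ≤ 1 := by
        intro r hr hrM
        rcases le_total c 1 with h1 | h1
        · nlinarith
        · nlinarith
      exact ⟨key _ (C.s0 τ) (C.sM τ), key _ (C.sH0 τ) (C.sHM τ)⟩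

end CF
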