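import Pool.Agent.H.MP_1693ff_gt.Body1
import Pool.Agent.H.MP_1693ff_gt.Body3

/-!
# Chord functions of the body of a curve
-/

namespace CF

open Real Set Filter Topology

theorem chord_neg_one {K : Set Pl} {p u : Pl} :
    chord (-1) K p u = (radial K p u)⁻¹ + (radial K p (-u))⁻¹ := by
  unfold chord
  rw [if_neg (by norm_num), Real.rpow_neg_one, Real.rpow_neg_one]

theorem curve_surj_x {F F' E E' x y s : ℝ → ℝ} {m M : ℝ} (C : Curve' F F' E E' x y s m M)
    (a : ℝ) : ∃ τ, x τ = a := by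
  exact C.cx.surjective C.xtop C.xbot a

theorem curve_surj_y {F F' E E' x y s : ℝ → ℝ} {m M : ℝ} (C : Curve' F F' E E' x y s m M)
    (a : ℝ) : ∃ τ, y τ = a := by
  exact C.cy.surjective' C.ybot C.ytop a

/-- **The chord functions of the body of a curve.** -/
theorem body_chord {F F' E E' x y s : ℝ → ℝ} {m M : ℝ} (C : Curve' F F' E E' x y s m M) :
    (∀ θ ∈ Ioo 0 π, chord (-1) (body F F' x y s) 0 (ev θ) = sin θ * F (cos θ / sin θ)) ∧
    chord (-1) (body F F' x y s) 0 (ev 0) = M - m ∧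
    (∀ θ ∈ Ioo 0 π, chord (-1) (body F F' x y s) (ev 0) (ev θ) =
      sin θ * E (-(cos θ / sin θ))) ∧
    chord (-1) (body F F' x y s) (ev 0) (ev 0) = m⁻¹ - M⁻¹ := by
  refine ⟨fun θ hθ => ?_, ?_, fun θ hθ => ?_, ?_⟩
  · obtain ⟨τ, hτ⟩ := curve_surj_x C (cos θ / sin θ)
    rw [chord_neg_one, radial_up C hθ hτ, radial_down C hθ hτ, inv_inv, inv_inv, ← hτ]
    ring
  · rw [chord_neg_one, (radial_axis C).1, (radial_axis C).2, inv_inv, inv_inv]
    ring
  · obtain ⟨τ, hτ⟩ := curve_surj_y C (-(cos θ / sin θ))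
    have e1 : y (τ - 2) - F (x (τ - 2)) = y τ := by
      have := C.shy (τ - 2)
      rw [sub_add_cancel] at this
      exact this.symm
    have e2 : x τ = x (τ - 2) + E (y τ) := by
      have := C.shx (τ - 2)
      rwa [sub_add_cancel, e1] at this
    have h2 : y (τ - 2) - F (x (τ - 2)) = -(cos θ / sin θ) := by rw [e1, hτ]
    rw [chord_neg_one, radial_up' C hθ hτ, radial_down' C hθ h2, inv_inv, inv_inv, e1, e2, ← hτ]
    ring
  · rw [chord_neg_one, (radial_axis' C).1, (radial_axis' C).2, inv_inv, inv_inv]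
    ring

theorem body_isBody {F F' E E' x y s : ℝ → ℝ} {m M : ℝ} (C : Curve' F F' E E' x y s m M) :
    IsBody (body F F' x y s) :=
  ⟨(body_closed_convex F F' x y s).2, body_compact C, ⟨0, (body_interior C).1⟩⟩

end CF
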