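import Pool.Agent.H.MP_1693ff_gt.Nec3

/-!
# MP_1693ff_gt: a necessary condition for pairs of (-1)-chord functions, all dimensions
-/

open Real Set Filter Topology Asymptotics CF

/-- If `K` is a convex body in `ℝⁿ`, `p₁ ≠ p₂` interior points, `u₀ = (p₂ - p₁)/|p₂ - p₁|`, `w` a
unit vector orthogonal to `u₀`, and both `(-1)`-chord functions have second order expansions
`aⱼ + bⱼ t + cⱼ t²/2 + o(t²)` along `t ↦ cos t u₀ + sin t w` at `t = 0`, then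
`a₁ + c₁ = a₂ + c₂`. -/
theorem Pool.Agent.Results.MP_1693ff_gt.CurvatureCondition.result
    (n : ℕ) (K : Set (EuclideanSpace ℝ (Fin n))) (p₁ p₂ w : EuclideanSpace ℝ (Fin n))
    (hK : IsBody K) (h₁ : p₁ ∈ interior K) (h₂ : p₂ ∈ interior K) (hne : p₁ ≠ p₂)
    (hw : ‖w‖ = 1) (ho : inner ℝ w (p₂ - p₁) = 0) (a₁ b₁ c₁ a₂ b₂ c₂ : ℝ)
    (e₁ : (fun t : ℝ => chord (-1) K p₁ (cos t • (‖p₂ - p₁‖⁻¹ • (p₂ - p₁)) + sin t • w) -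
      (a₁ + b₁ * t + c₁ * t ^ 2 / 2)) =o[𝓝 0] fun t : ℝ => t ^ 2)
    (e₂ : (fun t : ℝ => chord (-1) K p₂ (cos t • (‖p₂ - p₁‖⁻¹ • (p₂ - p₁)) + sin t • w) -
      (a₂ + b₂ * t + c₂ * t ^ 2 / 2)) =o[𝓝 0] fun t : ℝ => t ^ 2) :
    a₁ + c₁ = a₂ + c₂ :=
  partA K p₁ p₂ w hK h₁ h₂ hne hw ho a₁ b₁ c₁ a₂ b₂ c₂ e₁ e₂
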