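import Pool.Agent.H.MP_1693ff_gt.FwdD

/-!
# Gluing the two halves
-/

namespace CF

open Real Set Filter Topology

theorem curvea_dist_pos (S : Setup) {q : ℝ} (h1 : 1 ≤ q) : 0 < S.dist q := by
  unfold Setup.dist
  have := S.P.R0
  positivity

/-- The exchanged fundamental arc. -/
theorem curvea_base (S : Setup) {q : ℝ} (h1 : 1 ≤ q) (hq : S.X < q) {t : ℝ} :
    (S.swap.base q (-t)).x = (S.base q t).y ∧ (S.swap.base q (-t)).y = (S.base q t).x ∧
      (S.swap.base q (-t)).s = ((S.base q t).s)⁻¹ := by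
  have hR := S.P.R0
  have hq0 : q ≠ 0 := by linarith
  have hR0 : S.R₀ ≠ 0 := ne_of_gt hR
  have e1 : S.dist q * S.g q = q := by
    rw [S.M.tr q hq.le]; unfold Setup.dist; field_simp
  have e2 : S.dist q * S.k q = q := by
    rw [S.N.tr q hq.le]; unfold Setup.dist; field_simp
  have e3 : -(S.dist q * S.g₁ q) = 1 := by
    rw [S.M.tr1 q hq.le]; unfold Setup.dist; field_simp
  have e4 : -(S.dist q * S.k₁ q) = 1 := by
    rw [S.N.tr1 q hq.le]; unfold Setup.dist; field_simp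
  have hd : S.swap.dist q = S.dist q := rfl
  rcases lt_trichotomy t 0 with h | h | h
  · have h2 : ¬ (-t ≤ 0) := by linarith
    have e : q * (1 - 2 * -t) = q * (2 * t + 1) := by ring
    simp only [Setup.base, if_pos h.le, if_neg h2, Setup.base1, Setup.base2, hd, e]
    exact ⟨rfl, trivial, rfl⟩
  · subst h
    simp only [Setup.base, neg_zero, le_refl, if_true, Setup.base1, mul_zero, zero_add, mul_one,
      hd]
    refine ⟨e1.symm, e2, ?_⟩
    change -(S.dist q * S.k₁ q) = _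
    rw [e3, e4, inv_one]
  · have h2 : -t ≤ 0 := by linarith
    have e : q * (2 * -t + 1) = q * (1 - 2 * t) := by ring
    simp only [Setup.base, if_neg (not_le.2 h), if_pos h2, Setup.base1, Setup.base2, hd, e,
      inv_inv]
    exact ⟨trivial, rfl, rfl⟩

/-- `RelG` after the exchange of coordinates and reversal. -/
theorem curvea_flipG {a b s a' b' s' : ℝ} (hs : 0 < s) (hs' : 0 < s')
    (h : RelG a b s a' b' s') (hb : b' ≤ b) : RelG b' a' s'⁻¹ b a s⁻¹ := by
  obtain ⟨h1, h2, h3, h4⟩ := h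
  refine ⟨hb, ?_, ?_, ?_⟩
  · exact inv_anti₀ hs' h2
  · have : s'⁻¹ * (s' * (a' - a)) = a' - a := by field_simp
    have h5 : s'⁻¹ * (b' - b) ≤ s'⁻¹ * (-s' * (a' - a)) :=
      mul_le_mul_of_nonneg_left h4 (inv_nonneg.2 hs'.le)
    nlinarith
  · have : s⁻¹ * (s * (a' - a)) = a' - a := by field_simp
    have h5 : s⁻¹ * (-s * (a' - a)) ≤ s⁻¹ * (b' - b) :=
      mul_le_mul_of_nonneg_left h3 (inv_nonneg.2 hs.le)
    nlinarith

/-- `RelH` after the exchange of coordinates and reversal. -/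
theorem curvea_flipH {a b s a' b' s' : ℝ} (hs : 0 < s) (hs' : 0 < s')
    (h : RelH a b s a' b' s') (hb : b' ≤ b) : RelH b' a' s'⁻¹ b a s⁻¹ := by
  obtain ⟨h1, h2, h3, h4⟩ := h
  refine ⟨hb, ?_, ?_, ?_⟩
  · exact inv_anti₀ hs h2
  · have : s⁻¹ * (s * (a' - a)) = a' - a := by field_simp
    have h5 : s⁻¹ * (b' - b) ≤ s⁻¹ * (-s * (a' - a)) :=
      mul_le_mul_of_nonneg_left h4 (inv_nonneg.2 hs.le)
    nlinarith
  · have : s'⁻¹ * (s' * (a' - a)) = a' - a := by field_simp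
    have h5 : s'⁻¹ * (-s' * (a' - a)) ≤ s'⁻¹ * (b' - b) :=
      mul_le_mul_of_nonneg_left h3 (inv_nonneg.2 hs'.le)
    nlinarith

/-- Gluing of the forward half (set-up `S`) and the forward half of the exchanged set-up.
`X τ = x τ` for `-1 ≤ τ`, `X τ = y' (-τ)` for `τ ≤ 1` (they agree on `[-1,1]` by `base`:
the exchanged fundamental arc is `(x',y',s')(t) = (y,x,1/s)(-t)`), in the same way `Y τ = x' (-τ)`,
`Sl τ = 1/s' (-τ)`.
For `τ ≤ -1`, with `t = -τ - 2 ≥ -1`: `Y (τ+2) = x' t`, and the lower point under `τ` is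
`(X τ, Y (τ+2)) = (y' (t+2), x' t)`; `x' (t+2) = x' t + F (y' t - E (x' t))` gives
`Y τ = Y(τ+2) + F (X τ)`, `X (τ+2) = y' t = y' (t+2) + E (x' t) = X τ + E (Y (τ+2))`.
Slopes: `(s' (t+2))⁻¹ = (s' t + E₁ (x' t))⁻¹ - F₁ (y' (t+2))` says
`Sl τ + F₁ (X τ) = (s' t + E₁ (x' t))⁻¹`, and `(Sl (τ+2))⁻¹ = s' t`.
Relations: on the left half `RelG` for the exchanged curve at `t ≤ t'` is `RelG` for
`-t' ≤ -t` (multiply by the slopes), `RelH` of the exchanged curve at `t, t'` is `RelH` for the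
lower points under `-t'-2`, `-t-2`.  Chain at `τ = 0`. -/
theorem glue_base (S : Setup) {q : ℝ} (h1 : 1 ≤ q) (hq : S.X < q) (hφ : S.φ₁ (-q) < 0)
    (hψ : S.ψ₁ (-q) < 0) {x y s x' y' s' : ℝ → ℝ} (H : HalfC S q x y s)
    (H' : HalfC S.swap q x' y' s') :
    ∃ X Y Sl, Curve (S.F q) (S.F₁ q) (S.E q) (S.E₁ q) X Y Sl ∧ ∀ t ∈ Icc (-1 : ℝ) 1,
      X t = (S.base q t).x ∧ Y t = (S.base q t).y ∧ Sl t = (S.base q t).s := by
  classical
  have hR := S.P.R0
  have hq0 : q ≠ 0 := by linarith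
  have hR0 : S.R₀ ≠ 0 := ne_of_gt hR
  have hd := curvea_dist_pos S h1
  set X : ℝ → ℝ := fun τ => if -1 ≤ τ then x τ else y' (-τ) with hX
  set Y : ℝ → ℝ := fun τ => if -1 ≤ τ then y τ else x' (-τ) with hY
  set Sl : ℝ → ℝ := fun τ => if -1 ≤ τ then s τ else (s' (-τ))⁻¹ with hSl
  have Xr : ∀ τ, -1 ≤ τ → X τ = x τ := fun τ h => if_pos h
  have Yr : ∀ τ, -1 ≤ τ → Y τ = y τ := fun τ h => if_pos h
  have Sr : ∀ τ, -1 ≤ τ → Sl τ = s τ := fun τ h => if_pos h
  have agree : ∀ τ, -1 ≤ τ → τ ≤ 1 → x' (-τ) = y τ ∧ y' (-τ) = x τ ∧ s' (-τ) = (s τ)⁻¹ := by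
    intro τ ha hb
    obtain ⟨b1, b2, b3⟩ := H.base τ ⟨ha, hb⟩
    obtain ⟨c1, c2, c3⟩ := H'.base (-τ) ⟨by linarith, by linarith⟩
    obtain ⟨d1, d2, d3⟩ := curvea_base S h1 hq (t := τ)
    refine ⟨?_, ?_, ?_⟩
    · rw [c1, d1, b2]
    · rw [c2, d2, b1]
    · rw [c3, d3, b3]
  have Xl : ∀ τ, τ ≤ 1 → X τ = y' (-τ) := by
    intro τ h
    by_cases h2 : -1 ≤ τ
    · rw [Xr τ h2, (agree τ h2 h).2.1]
    · exact if_neg h2
  have Yl : ∀ τ, τ ≤ 1 → Y τ = x' (-τ) := by
    intro τ h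
    by_cases h2 : -1 ≤ τ
    · rw [Yr τ h2, (agree τ h2 h).1]
    · exact if_neg h2
  have Sll : ∀ τ, τ ≤ 1 → Sl τ = (s' (-τ))⁻¹ := by
    intro τ h
    by_cases h2 : -1 ≤ τ
    · rw [Sr τ h2, (agree τ h2 h).2.2, inv_inv]
    · exact if_neg h2
  -- strict antitonicity of `y'` and `y`
  have yanti : ∀ {x y s : ℝ → ℝ} {S : Setup} (_ : HalfC S q x y s), StrictAntiOn y (Ici (-1)) := by
    intro x y s S H a ha b hb hab
    have r := H.relG a b ha hab.le
    have h2 := H.xmono ha hb hab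
    have h3 := H.s0 b hb
    obtain ⟨r1, r2, r3, r4⟩ := r
    nlinarith
  have Xmr : ∀ a b, -1 ≤ a → a < b → X a < X b := by
    intro a b ha hab
    rw [Xr a ha, Xr b (by linarith)]
    exact H.xmono ha (by simp only [mem_Ici]; linarith) hab
  have Xml : ∀ a b, b ≤ 1 → a < b → X a < X b := by
    intro a b hb hab
    rw [Xl a (by linarith), Xl b hb]
    exact yanti H' (by simp only [mem_Ici]; linarith) (by simp only [mem_Ici]; linarith)
      (by linarith)
  have Xmono : StrictMono X := by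
    intro a b hab
    by_cases ha : -1 ≤ a
    · exact Xmr a b ha hab
    · by_cases hb : b ≤ 1
      · exact Xml a b hb hab
      · exact (Xml a 0 (by norm_num) (by linarith)).trans (Xmr 0 b (by norm_num) (by linarith))
  have Yal : ∀ a b, b ≤ 1 → a ≤ b → Y b ≤ Y a := by
    intro a b hb hab
    rw [Yl a (by linarith), Yl b hb]
    exact H'.xmono.monotoneOn (by simp only [mem_Ici]; linarith) (by simp only [mem_Ici]; linarith)
      (by linarith)
  -- the left half
  have hsw : ∀ t, -1 ≤ t → x' (t + 2) = x' t + S.F q (y' t - S.E q (x' t)) ∧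
      y' (t + 2) = y' t - S.E q (x' t) ∧
      (s' (t + 2))⁻¹ = (s' t + S.E₁ q (x' t))⁻¹ - S.F₁ q (y' t - S.E q (x' t)) :=
    fun t ht => ⟨H'.shx t ht, H'.shy t ht, H'.shs t ht⟩
  have sH' : ∀ t, -1 ≤ t → 0 < s' t + S.E₁ q (x' t) := fun t ht => H'.sH0 t ht
  have left : ∀ τ, τ ≤ -1 → X τ = y' (-τ - 2) - S.E q (x' (-τ - 2)) ∧
      Y τ - S.F q (X τ) = x' (-τ - 2) ∧
      Sl τ + S.F₁ q (X τ) = (s' (-τ - 2) + S.E₁ q (x' (-τ - 2)))⁻¹ := by
    intro τ h
    obtain ⟨c1, c2, c3⟩ := hsw (-τ - 2) (by linarith)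
    have e : -τ - 2 + 2 = -τ := by ring
    rw [e] at c1 c2 c3
    have e1 : X τ = y' (-τ - 2) - S.E q (x' (-τ - 2)) := by rw [Xl τ (by linarith), c2]
    refine ⟨e1, ?_, ?_⟩
    · rw [Yl τ (by linarith), e1, c1]; ring
    · rw [Sll τ (by linarith), e1, c3]; ring
  have plus2 : ∀ τ, τ ≤ -1 → X (τ + 2) = y' (-τ - 2) ∧ Y (τ + 2) = x' (-τ - 2) ∧
      Sl (τ + 2) = (s' (-τ - 2))⁻¹ := by
    intro τ h
    have e : -(τ + 2) = -τ - 2 := by ring
    refine ⟨?_, ?_, ?_⟩
    · rw [Xl (τ + 2) (by linarith), e]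
    · rw [Yl (τ + 2) (by linarith), e]
    · rw [Sll (τ + 2) (by linarith), e]
  have relGr : ∀ a b, -1 ≤ a → a ≤ b → RelG (X a) (Y a) (Sl a) (X b) (Y b) (Sl b) := by
    intro a b ha hab
    rw [Xr a ha, Yr a ha, Sr a ha, Xr b (by linarith), Yr b (by linarith), Sr b (by linarith)]
    exact H.relG a b ha hab
  have relGl : ∀ a b, b ≤ 1 → a ≤ b → RelG (X a) (Y a) (Sl a) (X b) (Y b) (Sl b) := by
    intro a b hb hab
    have r := H'.relG (-b) (-a) (by linarith) (by linarith)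
    have hx : y' (-a) ≤ y' (-b) := by
      rw [← Xl a (by linarith), ← Xl b hb]; exact Xmono.monotone hab
    have := curvea_flipG (H'.s0 (-b) (by linarith)) (H'.s0 (-a) (by linarith)) r hx
    rw [Xl a (by linarith), Yl a (by linarith), Sll a (by linarith), Xl b hb, Yl b hb, Sll b hb]
    exact this
  have relHr : ∀ a b, -1 ≤ a → a ≤ b → RelH (X a) (Y a - S.F q (X a)) (Sl a + S.F₁ q (X a))
      (X b) (Y b - S.F q (X b)) (Sl b + S.F₁ q (X b)) := by
    intro a b ha hab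
    rw [Xr a ha, Yr a ha, Sr a ha, Xr b (by linarith), Yr b (by linarith), Sr b (by linarith)]
    exact H.relH a b ha hab
  have relHl : ∀ a b, b ≤ -1 → a ≤ b → RelH (X a) (Y a - S.F q (X a)) (Sl a + S.F₁ q (X a))
      (X b) (Y b - S.F q (X b)) (Sl b + S.F₁ q (X b)) := by
    intro a b hb hab
    obtain ⟨a1, a2, a3⟩ := left a (by linarith)
    obtain ⟨b1, b2, b3⟩ := left b hb
    have r : RelH (x' (-b - 2)) (y' (-b - 2) - S.E q (x' (-b - 2)))
        (s' (-b - 2) + S.E₁ q (x' (-b - 2))) (x' (-a - 2)) (y' (-a - 2) - S.E q (x' (-a - 2)))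
        (s' (-a - 2) + S.E₁ q (x' (-a - 2))) :=
      H'.relH (-b - 2) (-a - 2) (by linarith) (by linarith)
    have hx : y' (-a - 2) - S.E q (x' (-a - 2)) ≤ y' (-b - 2) - S.E q (x' (-b - 2)) := by
      rw [← a1, ← b1]; exact Xmono.monotone hab
    have := curvea_flipH (sH' _ (by linarith)) (sH' _ (by linarith)) r hx
    rw [a2, a3, b2, b3, a1, b1]
    exact this
  refine ⟨X, Y, Sl, ?_, fun t ht => ?_⟩
  swap
  · rw [Xr t ht.1, Yr t ht.1, Sr t ht.1]
    exact H.base t ht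
  refine { cx := ?_, cy := ?_, xmono := Xmono, s0 := ?_, sH0 := ?_, shx := ?_, shy := ?_,
           shs := ?_, relG := ?_, relH := ?_, pos := ?_, neg := ?_, xtop := ?_, xbot := ?_,
           ytop := ?_, ybot := ?_, s_zero := ?_, sH_neg_one := ?_, s_one := ?_,
           s_neg_one := ?_ }
  · rw [continuous_iff_continuousAt]
    intro τ
    by_cases h : -1 < τ
    · have : X =ᶠ[𝓝 τ] x := by
        filter_upwards [Ioi_mem_nhds h] with a ha using Xr a (le_of_lt ha)
      exact (H.cx.continuousAt (Ici_mem_nhds h)).congr this.symm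
    · have h' : τ < 1 := by linarith
      have : X =ᶠ[𝓝 τ] fun a => y' (-a) := by
        filter_upwards [Iio_mem_nhds h'] with a ha using Xl a (le_of_lt ha)
      refine ContinuousAt.congr ?_ this.symm
      have hc : ContinuousAt y' (-τ) := H'.cy.continuousAt (Ici_mem_nhds (by linarith))
      exact ContinuousAt.comp (f := fun a : ℝ => -a) (g := y') hc continuous_neg.continuousAt
  · rw [continuous_iff_continuousAt]
    intro τ
    by_cases h : -1 < τ
    · have : Y =ᶠ[𝓝 τ] y := by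
        filter_upwards [Ioi_mem_nhds h] with a ha using Yr a (le_of_lt ha)
      exact (H.cy.continuousAt (Ici_mem_nhds h)).congr this.symm
    · have h' : τ < 1 := by linarith
      have : Y =ᶠ[𝓝 τ] fun a => x' (-a) := by
        filter_upwards [Iio_mem_nhds h'] with a ha using Yl a (le_of_lt ha)
      refine ContinuousAt.congr ?_ this.symm
      have hc : ContinuousAt x' (-τ) := H'.cx.continuousAt (Ici_mem_nhds (by linarith))
      exact ContinuousAt.comp (f := fun a : ℝ => -a) (g := x') hc continuous_neg.continuousAt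
  · intro τ
    by_cases h : -1 ≤ τ
    · rw [Sr τ h]; exact H.s0 τ h
    · rw [Sll τ (by linarith)]
      exact inv_pos.2 (H'.s0 _ (by linarith))
  · intro τ
    by_cases h : -1 ≤ τ
    · rw [Sr τ h, Xr τ h]; exact H.sH0 τ h
    · rw [(left τ (by linarith)).2.2]
      exact inv_pos.2 (sH' _ (by linarith))
  · intro τ
    by_cases h : -1 ≤ τ
    · rw [Xr τ h, Yr τ h, Xr (τ + 2) (by linarith)]; exact H.shx τ h
    · obtain ⟨a1, a2, a3⟩ := left τ (by linarith)
      obtain ⟨b1, b2, b3⟩ := plus2 τ (by linarith)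
      rw [a2, b1, a1]; ring
  · intro τ
    by_cases h : -1 ≤ τ
    · rw [Xr τ h, Yr τ h, Yr (τ + 2) (by linarith)]; exact H.shy τ h
    · obtain ⟨a1, a2, a3⟩ := left τ (by linarith)
      obtain ⟨b1, b2, b3⟩ := plus2 τ (by linarith)
      rw [a2, b2]
  · intro τ
    by_cases h : -1 ≤ τ
    · rw [Xr τ h, Yr τ h, Sr τ h, Sr (τ + 2) (by linarith)]; exact H.shs τ h
    · obtain ⟨a1, a2, a3⟩ := left τ (by linarith)
      obtain ⟨b1, b2, b3⟩ := plus2 τ (by linarith)
      rw [a2, a3, b3, inv_inv, inv_inv]; ring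
  · intro τ τ' h
    by_cases ha : -1 ≤ τ
    · exact relGr τ τ' ha h
    · by_cases hb : τ' ≤ 1
      · exact relGl τ τ' hb h
      · exact (relGl τ 0 (by norm_num) (by linarith)).trans (relGr 0 τ' (by norm_num) (by linarith))
  · intro τ τ' h
    by_cases ha : -1 ≤ τ
    · exact relHr τ τ' ha h
    · by_cases hb : τ' ≤ -1
      · exact relHl τ τ' hb h
      · exact (relHl τ (-1) le_rfl (by linarith)).trans (relHr (-1) τ' le_rfl (by linarith))
  · intro τ
    by_cases h : -1 ≤ τ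
    · rw [Xr τ h, Yr τ h]; exact H.pos τ h
    · rw [Xl τ (by linarith), Yl τ (by linarith)]
      have := H'.pos (-τ) (by linarith)
      linarith
  · intro τ
    by_cases h : -1 ≤ τ
    · rw [Xr τ h, Yr τ h]; exact H.neg τ h
    · obtain ⟨a1, a2, a3⟩ := left τ (by linarith)
      rw [a2, a1]
      have : x' (-τ - 2) + (y' (-τ - 2) - S.E q (x' (-τ - 2))) < 0 :=
        H'.neg (-τ - 2) (by linarith)
      linarith
  · refine H.xtop.congr' ?_
    filter_upwards [eventually_ge_atTop (-1)] with a ha using (Xr a ha).symm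
  · have h2 : Tendsto (fun a : ℝ => y' (-a)) atBot atBot := H'.ytop.comp tendsto_neg_atBot_atTop
    refine h2.congr' ?_
    filter_upwards [eventually_le_atBot 1] with a ha using (Xl a ha).symm
  · refine H.ytop.congr' ?_
    filter_upwards [eventually_ge_atTop (-1)] with a ha using (Yr a ha).symm
  · have h2 : Tendsto (fun a : ℝ => x' (-a)) atBot atTop := H'.xtop.comp tendsto_neg_atBot_atTop
    refine h2.congr' ?_
    filter_upwards [eventually_le_atBot 1] with a ha using (Yl a ha).symm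
  · rw [Sr 0 (by norm_num), (H.base 0 ⟨by norm_num, by norm_num⟩).2.2]
    simp only [Setup.base, le_refl, if_true, Setup.base1, mul_zero, zero_add, mul_one]
    rw [S.M.tr1 q hq.le]; unfold Setup.dist; field_simp
  · rw [Sr (-1) le_rfl, Xr (-1) le_rfl, (H.base (-1) ⟨le_rfl, by norm_num⟩).2.2,
      (H.base (-1) ⟨le_rfl, by norm_num⟩).1]
    have e : q * (2 * -1 + 1) = -q := by ring
    simp only [Setup.base, if_pos (show (-1 : ℝ) ≤ 0 by norm_num), Setup.base1, e, Setup.F₁]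
    have h3 := S.M.tl1 (-q) (by linarith)
    have h4 : -(S.dist q * S.g₁ (-q)) + S.dist q * S.φ₁ (-q) =
        S.dist q * (S.φ₁ (-q) - S.g₁ (-q)) := by ring
    rw [h4, h3]; unfold Setup.dist; field_simp
  · rw [Sr 1 (by norm_num), (H.base 1 ⟨by norm_num, le_rfl⟩).2.2]
    have e : q * (1 - 2 * 1) = -q := by ring
    simp only [Setup.base, if_neg (show ¬ (1 : ℝ) ≤ 0 by norm_num), Setup.base2, e]
    have h3 := S.N.tl1 (-q) (by linarith)
    have h4 : S.dist q * (S.ψ₁ (-q) - S.k₁ (-q)) = 1 := by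
      rw [h3]; unfold Setup.dist; field_simp
    have h5 : 1 < -(S.dist q * S.k₁ (-q)) := by nlinarith
    exact inv_lt_one_of_one_lt₀ h5
  · rw [Sr (-1) le_rfl, (H.base (-1) ⟨le_rfl, by norm_num⟩).2.2]
    have e : q * (2 * -1 + 1) = -q := by ring
    simp only [Setup.base, if_pos (show (-1 : ℝ) ≤ 0 by norm_num), Setup.base1, e]
    have h3 := S.M.tl1 (-q) (by linarith)
    have h4 : S.dist q * (S.φ₁ (-q) - S.g₁ (-q)) = 1 := by
      rw [h3]; unfold Setup.dist; field_simp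
    nlinarith

/-- The glued curve (without the information on the fundamental arc). -/
theorem glue (S : Setup) {q : ℝ} (h1 : 1 ≤ q) (hq : S.X < q) (hφ : S.φ₁ (-q) < 0)
    (hψ : S.ψ₁ (-q) < 0) {x y s x' y' s' : ℝ → ℝ} (H : HalfC S q x y s)
    (H' : HalfC S.swap q x' y' s') :
    ∃ X Y Sl, Curve (S.F q) (S.F₁ q) (S.E q) (S.E₁ q) X Y Sl := by
  obtain ⟨X, Y, Sl, h, _⟩ := glue_base S h1 hq hφ hψ H H'
  exact ⟨X, Y, Sl, h⟩

end CF
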