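import Pool.Agent.H.MP_1693ff_gt.Piece2

/-!
# The relations on the pieces
-/

namespace CF

open Real Set Filter Topology

/-- Monotonicity from a nonnegative derivative inside. -/
theorem mono_le {u u' : ℝ → ℝ} {a b : ℝ} (hab : a ≤ b) (cu : ContinuousOn u (Icc a b))
    (du : ∀ t ∈ Ioo a b, HasDerivAt u (u' t) t) (h : ∀ t ∈ Ioo a b, 0 ≤ u' t) : u a ≤ u b := by
  have : MonotoneOn u (Icc a b) := by
    refine monotoneOn_of_deriv_nonneg (convex_Icc a b) cu ?_ ?_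
    · rw [interior_Icc]
      exact fun t ht => (du t ht).differentiableAt.differentiableWithinAt
    · rw [interior_Icc]
      intro t ht
      rw [(du t ht).deriv]
      exact h t ht
  exact this ⟨le_refl a, hab⟩ ⟨hab, le_refl b⟩ hab

/-- Relation between two points of one piece, from the derivatives. -/
theorem rel_of_deriv {x y s v g : ℝ → ℝ} {a b : ℝ} (hab : a ≤ b)
    (cx : ContinuousOn x (Icc a b)) (cy : ContinuousOn y (Icc a b))
    (cs : ContinuousOn s (Icc a b))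
    (dx : ∀ t ∈ Ioo a b, HasDerivAt x (v t) t) (dy : ∀ t ∈ Ioo a b, HasDerivAt y (-s t * v t) t)
    (ds : ∀ t ∈ Ioo a b, HasDerivAt s (-g t * v t) t) (hv : ∀ t ∈ Ioo a b, 0 < v t)
    (hg : ∀ t ∈ Ioo a b, 0 ≤ g t) : RelG (x a) (y a) (s a) (x b) (y b) (s b) := by
  have hs : ∀ t ∈ Icc a b, ∀ t' ∈ Icc a b, t ≤ t' → s t' ≤ s t := by
    intro t ht t' ht' htt
    have := mono_le (u := fun τ => -s τ) (u' := fun τ => -(-g τ * v τ)) htt
      ((cs.mono (Icc_subset_Icc ht.1 ht'.2)).neg)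
      (fun τ hτ => (ds τ ⟨lt_of_le_of_lt ht.1 hτ.1, lt_of_lt_of_le hτ.2 ht'.2⟩).neg)
      (fun τ hτ => by
        have h1 : τ ∈ Ioo a b := ⟨lt_of_le_of_lt ht.1 hτ.1, lt_of_lt_of_le hτ.2 ht'.2⟩
        have := mul_nonneg (hg τ h1) (hv τ h1).le
        linarith)
    linarith
  refine ⟨mono_le hab cx dx fun t ht => (hv t ht).le,
    hs a ⟨le_refl a, hab⟩ b ⟨hab, le_refl b⟩ hab, ?_, ?_⟩
  · have := mono_le (u := fun τ => y τ + s a * x τ) (u' := fun τ => -s τ * v τ + s a * v τ) hab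
      (cy.add (cx.const_mul _)) (fun τ hτ => (dy τ hτ).add ((dx τ hτ).const_mul _))
      (fun τ hτ => by
        have h1 := hs a ⟨le_refl a, hab⟩ τ ⟨hτ.1.le, hτ.2.le⟩ hτ.1.le
        have := mul_nonneg (sub_nonneg.2 h1) (hv τ hτ).le
        nlinarith)
    linarith
  · have := mono_le (u := fun τ => -y τ - s b * x τ) (u' := fun τ => -(-s τ * v τ) - s b * v τ) hab
      (cy.neg.sub (cx.const_mul _)) (fun τ hτ => (dy τ hτ).neg.sub ((dx τ hτ).const_mul _))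
      (fun τ hτ => by
        have h1 := hs τ ⟨hτ.1.le, hτ.2.le⟩ b ⟨hab, le_refl b⟩ hτ.2.le
        have := mul_nonneg (sub_nonneg.2 h1) (hv τ hτ).le
        nlinarith)
    linarith

theorem relH_of_deriv {x y s v g : ℝ → ℝ} {a b : ℝ} (hab : a ≤ b)
    (cx : ContinuousOn x (Icc a b)) (cy : ContinuousOn y (Icc a b))
    (cs : ContinuousOn s (Icc a b))
    (dx : ∀ t ∈ Ioo a b, HasDerivAt x (v t) t) (dy : ∀ t ∈ Ioo a b, HasDerivAt y (-s t * v t) t)
    (ds : ∀ t ∈ Ioo a b, HasDerivAt s (g t * v t) t) (hv : ∀ t ∈ Ioo a b, 0 < v t)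
    (hg : ∀ t ∈ Ioo a b, 0 ≤ g t) : RelH (x a) (y a) (s a) (x b) (y b) (s b) := by
  have hs : ∀ t ∈ Icc a b, ∀ t' ∈ Icc a b, t ≤ t' → s t ≤ s t' := by
    intro t ht t' ht' htt
    exact mono_le htt (cs.mono (Icc_subset_Icc ht.1 ht'.2))
      (fun τ hτ => (ds τ ⟨lt_of_le_of_lt ht.1 hτ.1, lt_of_lt_of_le hτ.2 ht'.2⟩))
      (fun τ hτ => by
        have h1 : τ ∈ Ioo a b := ⟨lt_of_le_of_lt ht.1 hτ.1, lt_of_lt_of_le hτ.2 ht'.2⟩
        exact mul_nonneg (hg τ h1) (hv τ h1).le)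
  refine ⟨mono_le hab cx dx fun t ht => (hv t ht).le,
    hs a ⟨le_refl a, hab⟩ b ⟨hab, le_refl b⟩ hab, ?_, ?_⟩
  · have := mono_le (u := fun τ => y τ + s b * x τ) (u' := fun τ => -s τ * v τ + s b * v τ) hab
      (cy.add (cx.const_mul _)) (fun τ hτ => (dy τ hτ).add ((dx τ hτ).const_mul _))
      (fun τ hτ => by
        have h1 := hs τ ⟨hτ.1.le, hτ.2.le⟩ b ⟨hab, le_refl b⟩ hτ.2.le
        have := mul_nonneg (sub_nonneg.2 h1) (hv τ hτ).le
        nlinarith)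
    linarith
  · have := mono_le (u := fun τ => -y τ - s a * x τ) (u' := fun τ => -(-s τ * v τ) - s a * v τ) hab
      (cy.neg.sub (cx.const_mul _)) (fun τ hτ => (dy τ hτ).neg.sub ((dx τ hτ).const_mul _))
      (fun τ hτ => by
        have h1 := hs a ⟨le_refl a, hab⟩ τ ⟨hτ.1.le, hτ.2.le⟩ hτ.1.le
        have := mul_nonneg (sub_nonneg.2 h1) (hv τ hτ).le
        nlinarith)
    linarith

theorem piece_rel_aux (S : Setup) {q : ℝ} (hq : S.X < q)
    (hG : ∀ t ∈ Icc (-1 : ℝ) 1, ∀ n : ℕ, S.Good q (S.st q t n)) (n : ℕ) {t t' : ℝ}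
    (ht : -1 ≤ t) (ht' : t' ≤ 1) (htt : t ≤ t')
    (hin : ∀ τ ∈ Ioo t t', τ ∈ Ioo (-1 : ℝ) 0 ∨ τ ∈ Ioo (0 : ℝ) 1) :
    RelG (S.st q t n).x (S.st q t n).y (S.st q t n).s
      (S.st q t' n).x (S.st q t' n).y (S.st q t' n).s ∧
    RelH (S.st q t n).x (S.yH q (S.st q t n)) (S.sH q (S.st q t n))
      (S.st q t' n).x (S.yH q (S.st q t' n)) (S.sH q (S.st q t' n)) ∧
    (t < t' → (S.st q t n).x < (S.st q t' n).x) := by
  have hq0 : 0 < q := by linarith [S.M.X1]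
  obtain ⟨cx, cy, cs⟩ := cont_st S hq hG n
  have hsub : Icc t t' ⊆ Icc (-1) 1 := Icc_subset_Icc ht ht'
  have hA : ∀ τ ∈ Ioo t t', Along (fun τ => S.st q τ n) τ := fun τ hτ =>
    along_st S hq0 hG n (hin τ hτ)
  have hgood : ∀ τ ∈ Ioo t t', S.Good q (S.st q τ n) := fun τ hτ =>
    hG τ (hsub ⟨hτ.1.le, hτ.2.le⟩) n
  have cx' := cx.mono hsub
  have cy' := cy.mono hsub
  have cs' := cs.mono hsub
  have dF : ∀ τ ∈ Ioo t t', HasDerivAt (fun τ => S.F q (S.st q τ n).x)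
      (S.F₁ q (S.st q τ n).x * (S.st q τ n).v) τ := by
    intro τ hτ
    have h1 : HasDerivAt (S.F q) (S.F₁ q (S.st q τ n).x) (S.st q τ n).x :=
      (S.P.d1 _).const_mul _
    exact HasDerivAt.comp (h := fun τ => (S.st q τ n).x) (h₂ := S.F q) τ h1 (hA τ hτ).dx
  have dF₁ : ∀ τ ∈ Ioo t t', HasDerivAt (fun τ => S.F₁ q (S.st q τ n).x)
      (S.F₂ q (S.st q τ n).x * (S.st q τ n).v) τ := by
    intro τ hτ
    have h1 : HasDerivAt (S.F₁ q) (S.F₂ q (S.st q τ n).x) (S.st q τ n).x :=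
      (S.P.d2 _).const_mul _
    exact HasDerivAt.comp (h := fun τ => (S.st q τ n).x) (h₂ := S.F₁ q) τ h1 (hA τ hτ).dx
  refine ⟨?_, ?_, ?_⟩
  · exact rel_of_deriv (x := fun τ => (S.st q τ n).x) (y := fun τ => (S.st q τ n).y)
      (s := fun τ => (S.st q τ n).s) (v := fun τ => (S.st q τ n).v)
      (g := fun τ => (S.st q τ n).g) htt cx' cy' cs' (fun τ hτ => (hA τ hτ).dx)
      (fun τ hτ => (hA τ hτ).dy) (fun τ hτ => (hA τ hτ).ds)
      (fun τ hτ => (hgood τ hτ).v0) (fun τ hτ => (hgood τ hτ).g0)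
  · refine relH_of_deriv (x := fun τ => (S.st q τ n).x) (y := fun τ => S.yH q (S.st q τ n))
      (s := fun τ => S.sH q (S.st q τ n)) (v := fun τ => (S.st q τ n).v)
      (g := fun τ => S.hH q (S.st q τ n)) htt cx'
      (cy'.sub ((S.contF q).comp_continuousOn cx'))
      (cs'.add ((S.contF₁ q).comp_continuousOn cx')) (fun τ hτ => (hA τ hτ).dx)
      (fun τ hτ => ?_) (fun τ hτ => ?_)
      (fun τ hτ => (hgood τ hτ).v0) (fun τ hτ => (hgood τ hτ).h0)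
    · have := (hA τ hτ).dy.sub (dF τ hτ)
      have e : -S.sH q (S.st q τ n) * (S.st q τ n).v =
          -(S.st q τ n).s * (S.st q τ n).v - S.F₁ q (S.st q τ n).x * (S.st q τ n).v := by
        unfold Setup.sH
        ring
      rw [e]
      exact this
    · have := (hA τ hτ).ds.add (dF₁ τ hτ)
      have e : S.hH q (S.st q τ n) * (S.st q τ n).v =
          -(S.st q τ n).g * (S.st q τ n).v + S.F₂ q (S.st q τ n).x * (S.st q τ n).v := by
        unfold Setup.hH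
        ring
      rw [e]
      exact this
  · intro hlt
    have : StrictMonoOn (fun τ => (S.st q τ n).x) (Icc t t') := by
      refine strictMonoOn_of_deriv_pos (convex_Icc t t') cx' ?_
      rw [interior_Icc]
      intro τ hτ
      rw [(hA τ hτ).dx.deriv]
      exact (hgood τ hτ).v0
    exact this ⟨le_refl t, htt⟩ ⟨htt, le_refl t'⟩ hlt

/-- The relations on the half pieces `[-1,0]`, `[0,1]` of the `n`-th image, and strict
monotonicity of `x`. -/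
theorem piece_rel (S : Setup) {q : ℝ} (hq : S.X < q)
    (hG : ∀ t ∈ Icc (-1 : ℝ) 1, ∀ n : ℕ, S.Good q (S.st q t n)) (n : ℕ) {t t' : ℝ}
    (ht : t ∈ Icc (-1 : ℝ) 1) (ht' : t' ∈ Icc (-1 : ℝ) 1) (htt : t ≤ t') :
    RelG (S.st q t n).x (S.st q t n).y (S.st q t n).s
      (S.st q t' n).x (S.st q t' n).y (S.st q t' n).s ∧
    RelH (S.st q t n).x (S.yH q (S.st q t n)) (S.sH q (S.st q t n))
      (S.st q t' n).x (S.yH q (S.st q t' n)) (S.sH q (S.st q t' n)) ∧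
    (t < t' → (S.st q t n).x < (S.st q t' n).x) := by
  rcases le_or_gt t' 0 with h | h
  · exact piece_rel_aux S hq hG n ht.1 ht'.2 htt fun τ hτ =>
      Or.inl ⟨lt_of_le_of_lt ht.1 hτ.1, lt_of_lt_of_le hτ.2 h⟩
  rcases le_or_gt 0 t with h0 | h0
  · exact piece_rel_aux S hq hG n ht.1 ht'.2 htt fun τ hτ =>
      Or.inr ⟨lt_of_le_of_lt h0 hτ.1, lt_of_lt_of_le hτ.2 ht'.2⟩
  · obtain ⟨a1, a2, a3⟩ := piece_rel_aux S hq hG n (t := t) (t' := 0) ht.1 (by norm_num) h0.le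
      fun τ hτ => Or.inl ⟨lt_of_le_of_lt ht.1 hτ.1, hτ.2⟩
    obtain ⟨b1, b2, b3⟩ := piece_rel_aux S hq hG n (t := 0) (t' := t') (by norm_num) ht'.2 h.le
      fun τ hτ => Or.inr ⟨hτ.1, lt_of_lt_of_le hτ.2 ht'.2⟩
    exact ⟨a1.trans b1, a2.trans b2, fun _ => (a3 h0).trans (b3 h)⟩

end CF
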