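import Pool.Agent.H.MP_1693ff_gt.Defs

/-!
# Matching of consecutive pieces
-/

namespace CF

open Real Set Filter Topology

theorem piece4_step (S : Setup) (q t : ℝ) (n : ℕ) :
    S.st q t (n + 1) = S.step q (S.st q t n) :=
  Function.iterate_succ_apply' _ _ _

/-- The first matching. -/
theorem piece4_zero (S : Setup) {q : ℝ} (hq : S.X < q) :
    (S.st q 1 0).x = (S.st q (-1) 1).x ∧ (S.st q 1 0).y = (S.st q (-1) 1).y ∧
    (S.st q 1 0).s = (S.st q (-1) 1).s := by
  have hX := S.M.X1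
  have hq0 : q ≠ 0 := by linarith
  have hR := S.P.R0.ne'
  have h1 : S.st q 1 0 = S.base2 q 1 := by
    change S.base q 1 = _
    rw [Setup.base, if_neg (by norm_num)]
  have h2 : S.st q (-1) 1 = S.step q (S.base1 q (-1)) := by
    change S.step q (S.base q (-1)) = _
    rw [Setup.base, if_pos (by norm_num)]
  have e1 : q * (2 * (-1) + 1) = -q := by ring
  have e2 : q * (1 - 2 * 1) = -q := by ring
  have a1 := S.M.tl (-q) (by linarith)
  have a2 := S.M.tl1 (-q) (by linarith)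
  have a3 := S.N.tl (-q) (by linarith)
  have a4 := S.N.tl1 (-q) (by linarith)
  have hd1 : S.dist q * (S.R₀ / (4 * (-q))) = -q := by
    rw [Setup.dist]
    field_simp
  have hd2 : S.dist q * (S.R₀ / (4 * (-q) ^ 2)) = 1 := by
    rw [Setup.dist]
    field_simp
  have hy : S.yH q (S.base1 q (-1)) = -q := by
    rw [Setup.yH, Setup.base1, Setup.F]
    change S.dist q * S.g (q * (2 * (-1) + 1)) - S.dist q * S.φ (q * (2 * (-1) + 1)) = -q
    rw [e1]
    linear_combination -S.dist q * a1 + hd1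
  have hs : S.sH q (S.base1 q (-1)) = 1 := by
    rw [Setup.sH, Setup.base1, Setup.F₁]
    change -(S.dist q * S.g₁ (q * (2 * (-1) + 1))) + S.dist q * S.φ₁ (q * (2 * (-1) + 1)) = 1
    rw [e1]
    linear_combination S.dist q * a2 + hd2
  rw [h1, h2]
  refine ⟨?_, ?_, ?_⟩
  · change S.dist q * S.k (q * (1 - 2 * 1)) = q * (2 * (-1) + 1) + S.E q (S.yH q (S.base1 q (-1)))
    rw [hy, Setup.E, e1, e2]
    linear_combination -S.dist q * a3 + hd1
  · change q * (1 - 2 * 1) = S.yH q (S.base1 q (-1))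
    rw [hy, e2]
  · change (-(S.dist q * S.k₁ (q * (1 - 2 * 1))))⁻¹ =
      ((S.sH q (S.base1 q (-1)))⁻¹ - S.E₁ q (S.yH q (S.base1 q (-1))))⁻¹
    rw [hy, hs, Setup.E₁, e2, inv_one]
    congr 1
    linear_combination S.dist q * a4 + hd2

/-- Matching of consecutive pieces: the end of the fundamental arc is the image of its
beginning. -/
theorem match_st (S : Setup) {q : ℝ} (hq : S.X < q) (n : ℕ) :
    (S.st q 1 n).x = (S.st q (-1) (n + 1)).x ∧ (S.st q 1 n).y = (S.st q (-1) (n + 1)).y ∧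
    (S.st q 1 n).s = (S.st q (-1) (n + 1)).s := by
  induction n with
  | zero => exact piece4_zero S hq
  | succ n ih =>
    rw [piece4_step S q 1 n, piece4_step S q (-1) (n + 1)]
    obtain ⟨h1, h2, h3⟩ := ih
    have hy : S.yH q (S.st q 1 n) = S.yH q (S.st q (-1) (n + 1)) := by
      rw [Setup.yH, Setup.yH, h1, h2]
    have hs : S.sH q (S.st q 1 n) = S.sH q (S.st q (-1) (n + 1)) := by
      rw [Setup.sH, Setup.sH, h1, h3]
    refine ⟨?_, ?_, ?_⟩
    · change (S.st q 1 n).x + S.E q (S.yH q (S.st q 1 n)) =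
        (S.st q (-1) (n + 1)).x + S.E q (S.yH q (S.st q (-1) (n + 1)))
      rw [h1, hy]
    · exact hy
    · change ((S.sH q (S.st q 1 n))⁻¹ - S.E₁ q (S.yH q (S.st q 1 n)))⁻¹ =
        ((S.sH q (S.st q (-1) (n + 1)))⁻¹ - S.E₁ q (S.yH q (S.st q (-1) (n + 1))))⁻¹
      rw [hs, hy]

end CF
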