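import Pool.Agent.H.MP_1693ff_gt.FwdD
import Pool.Agent.H.MP_1693ff_gt.Piece3
import Pool.Agent.H.MP_1693ff_gt.Piece4

/-!
# The forward half of the curve: construction
-/

namespace CF

open Real Set Filter Topology

/-- index of the piece. -/
noncomputable def fwda_n (t : ℝ) : ℕ := ⌊(t + 1) / 2⌋₊

/-- the 2-jet at time `t`. -/
noncomputable def fwda_a (S : Setup) (q t : ℝ) : St := S.st q (t - 2 * (fwda_n t : ℝ)) (fwda_n t)

theorem fwda_n_bounds {t : ℝ} (ht : -1 ≤ t) :
    2 * (fwda_n t : ℝ) - 1 ≤ t ∧ t < 2 * (fwda_n t : ℝ) + 1 := by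
  have h0 : 0 ≤ (t + 1) / 2 := by linarith
  have h1 := Nat.floor_le h0
  have h2 := Nat.lt_floor_add_one ((t + 1) / 2)
  unfold fwda_n
  constructor <;> linarith

theorem fwda_n_eq {t : ℝ} {n : ℕ} (h1 : 2 * (n : ℝ) - 1 ≤ t) (h2 : t < 2 * (n : ℝ) + 1) :
    fwda_n t = n := by
  unfold fwda_n
  have h0 : 0 ≤ (t + 1) / 2 := by
    have : (0 : ℝ) ≤ n := Nat.cast_nonneg n
    linarith
  rw [Nat.floor_eq_iff h0]
  constructor <;> linarith

theorem fwda_n_add {t : ℝ} (ht : -1 ≤ t) : fwda_n (t + 2) = fwda_n t + 1 := by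
  obtain ⟨h1, h2⟩ := fwda_n_bounds ht
  apply fwda_n_eq <;> push_cast <;> linarith

theorem fwda_a_add (S : Setup) (q : ℝ) {t : ℝ} (ht : -1 ≤ t) :
    fwda_a S q (t + 2) = S.step q (fwda_a S q t) := by
  unfold fwda_a
  rw [fwda_n_add ht]
  have h : t + 2 - 2 * ((fwda_n t + 1 : ℕ) : ℝ) = t - 2 * (fwda_n t : ℝ) := by
    push_cast; ring
  rw [h]
  unfold Setup.st
  rw [Function.iterate_succ_apply']

theorem fwda_mem {t : ℝ} (ht : -1 ≤ t) : t - 2 * (fwda_n t : ℝ) ∈ Icc (-1 : ℝ) 1 := by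
  obtain ⟨h1, h2⟩ := fwda_n_bounds ht
  constructor <;> linarith

/-- on the closed pieces the curve is given by the iterates. -/
theorem fwda_piece (S : Setup) {q : ℝ} (hq : S.X < q) (n : ℕ) {t : ℝ}
    (ht : t ∈ Icc (2 * (n : ℝ) - 1) (2 * n + 1)) :
    (fwda_a S q t).x = (S.st q (t - 2 * n) n).x ∧ (fwda_a S q t).y = (S.st q (t - 2 * n) n).y ∧
    (fwda_a S q t).s = (S.st q (t - 2 * n) n).s := by
  rcases lt_or_eq_of_le ht.2 with h | h
  · unfold fwda_a
    rw [fwda_n_eq ht.1 h]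
    exact ⟨rfl, rfl, rfl⟩
  · have h1 : fwda_n t = n + 1 := by
      apply fwda_n_eq <;> push_cast <;> linarith
    have h2 : t - 2 * ((n + 1 : ℕ) : ℝ) = -1 := by push_cast; linarith
    have h3 : t - 2 * (n : ℝ) = 1 := by linarith
    unfold fwda_a
    rw [h1, h2, h3]
    obtain ⟨a, b, c⟩ := match_st S hq n
    exact ⟨a.symm, b.symm, c.symm⟩

/-- chaining a property along the pieces. -/
theorem fwda_chain {P : ℝ → ℝ → Prop}
    (htr : ∀ a b c, a ≤ b → b ≤ c → P a b → P b c → P a c)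
    (hp : ∀ n : ℕ, ∀ t ∈ Icc (2 * (n : ℝ) - 1) (2 * n + 1), ∀ t' ∈ Icc (2 * (n : ℝ) - 1) (2 * n + 1),
      t ≤ t' → P t t') {t t' : ℝ} (ht : -1 ≤ t) (htt : t ≤ t') : P t t' := by
  have key : ∀ N : ℕ, ∀ t t' : ℝ, -1 ≤ t → t ≤ t' → t' ≤ 2 * (N : ℝ) + 1 → P t t' := by
    intro N
    induction N with
    | zero =>
      intro t t' h1 h2 h3
      have h3' : t' ≤ 1 := by simpa using h3
      exact hp 0 t ⟨by norm_num; linarith, by norm_num; linarith⟩ t'
        ⟨by norm_num; linarith, by norm_num; linarith⟩ h2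
    | succ N ih =>
      intro t t' h1 h2 h3
      push_cast at h3
      by_cases hc : t' ≤ 2 * (N : ℝ) + 1
      · exact ih t t' h1 h2 hc
      · push Not at hc
        by_cases hd : 2 * (N : ℝ) + 1 ≤ t
        · exact hp (N + 1) t ⟨by push_cast; linarith, by push_cast; linarith⟩ t'
            ⟨by push_cast; linarith, by push_cast; linarith⟩ h2
        · push Not at hd
          refine htr t (2 * (N : ℝ) + 1) t' hd.le hc.le (ih t _ h1 hd.le le_rfl) ?_
          exact hp (N + 1) _ ⟨by push_cast; linarith, by push_cast; linarith⟩ t'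
            ⟨by push_cast; linarith, by push_cast; linarith⟩ hc.le
  obtain ⟨N, hN⟩ := exists_nat_ge t'
  exact key N t t' ht htt (by
    have : (0 : ℝ) ≤ N := Nat.cast_nonneg N
    linarith)

/-- gluing of continuous pieces. -/
theorem fwda_cont {f : ℝ → ℝ}
    (hp : ∀ n : ℕ, ContinuousOn f (Icc (2 * (n : ℝ) - 1) (2 * n + 1))) :
    ContinuousOn f (Ici (-1)) := by
  have key : ∀ N : ℕ, ContinuousOn f (Icc (-1) (2 * (N : ℝ) + 1)) := by
    intro N
    induction N with
    | zero =>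
      have h := hp 0
      norm_num at h
      norm_num
      exact h
    | succ N ih =>
      have h : Icc (-1 : ℝ) (2 * ((N + 1 : ℕ) : ℝ) + 1) =
          Icc (-1) (2 * (N : ℝ) + 1) ∪ Icc (2 * ((N + 1 : ℕ) : ℝ) - 1) (2 * ((N + 1 : ℕ) : ℝ) + 1) := by
        have h1 : 2 * ((N + 1 : ℕ) : ℝ) - 1 = 2 * (N : ℝ) + 1 := by push_cast; ring
        have h0 : (0 : ℝ) ≤ N := Nat.cast_nonneg N
        rw [h1, Icc_union_Icc_eq_Icc (by linarith) (by push_cast; linarith)]
      rw [h]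
      exact ih.union_of_isClosed (hp (N + 1)) isClosed_Icc isClosed_Icc
  intro t ht
  obtain ⟨N, hN⟩ := exists_nat_ge t
  have h0 : (0 : ℝ) ≤ N := Nat.cast_nonneg N
  have h1 : ContinuousWithinAt f (Icc (-1) (2 * (N : ℝ) + 1)) t :=
    key N t ⟨ht, by linarith⟩
  refine h1.mono_of_mem_nhdsWithin ?_
  have h2 : Iio (2 * (N : ℝ) + 1) ∈ 𝓝 t := Iio_mem_nhds (by linarith)
  have h3 : Ici (-1 : ℝ) ∩ Iio (2 * (N : ℝ) + 1) ∈ 𝓝[Ici (-1)] t :=
    inter_mem_nhdsWithin _ h2
  exact mem_of_superset h3 (fun y hy => ⟨hy.1, hy.2.le⟩)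

/-- Construction: for `t ≥ -1` put `n = ⌊(t+1)/2⌋₊` and
`x t = (S.st q (t - 2 n) n).x`, etc. (`t - 2n ∈ [-1,1)`; at `t = 2n+1` use `match_st`).
`shx`, `shy`, `shs`: `⌊(t+2+1)/2⌋₊ = ⌊(t+1)/2⌋₊ + 1` and the definition of `step`.
Relations: `piece_rel` on `[2n-1, 2n+1]` (closed, by `match_st`), then chain with
`RelG.trans`, `RelH.trans`. Limits: `x ≥ q 2^n`, `yH ≤ -q 2^n`. -/
theorem forward (S : Setup) {q : ℝ} (h1 : 1 ≤ q) (hq : S.X < q)
    (hG : ∀ t ∈ Icc (-1 : ℝ) 1, ∀ n : ℕ, S.Good q (S.st q t n) ∧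
      S.yH q (S.st q t n) ≤ -(q * 2 ^ n) ∧ (1 ≤ n → q * 2 ^ n ≤ (S.st q t n).x)) :
    ∃ x y s, HalfC S q x y s := by
  have hG' : ∀ t ∈ Icc (-1 : ℝ) 1, ∀ n : ℕ, S.Good q (S.st q t n) :=
    fun t ht n => (hG t ht n).1
  have good : ∀ t, -1 ≤ t → S.Good q (fwda_a S q t) := fun t ht => hG' _ (fwda_mem ht) _
  -- continuity on the pieces
  have hsub : ∀ n : ℕ, MapsTo (fun t : ℝ => t - 2 * (n : ℝ)) (Icc (2 * (n : ℝ) - 1) (2 * n + 1))
      (Icc (-1 : ℝ) 1) := by
    intro n t ht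
    constructor
    · have := ht.1; simp only; linarith
    · have := ht.2; simp only; linarith
  have hcs : ∀ n : ℕ, ContinuousOn (fun t : ℝ => t - 2 * (n : ℝ))
      (Icc (2 * (n : ℝ) - 1) (2 * n + 1)) := fun n => by fun_prop
  -- relations on the pieces
  have hrel : ∀ n : ℕ, ∀ t ∈ Icc (2 * (n : ℝ) - 1) (2 * n + 1),
      ∀ t' ∈ Icc (2 * (n : ℝ) - 1) (2 * n + 1), t ≤ t' →
      RelG (fwda_a S q t).x (fwda_a S q t).y (fwda_a S q t).s
        (fwda_a S q t').x (fwda_a S q t').y (fwda_a S q t').s ∧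
      RelH (fwda_a S q t).x ((fwda_a S q t).y - S.F q (fwda_a S q t).x)
        ((fwda_a S q t).s + S.F₁ q (fwda_a S q t).x)
        (fwda_a S q t').x ((fwda_a S q t').y - S.F q (fwda_a S q t').x)
        ((fwda_a S q t').s + S.F₁ q (fwda_a S q t').x) ∧
      (t < t' → (fwda_a S q t).x < (fwda_a S q t').x) := by
    intro n t ht t' ht' htt
    obtain ⟨a1, a2, a3⟩ := fwda_piece S hq n ht
    obtain ⟨b1, b2, b3⟩ := fwda_piece S hq n ht'
    rw [a1, a2, a3, b1, b2, b3]
    obtain ⟨c1, c2, c3⟩ := piece_rel S hq hG' n (hsub n ht) (hsub n ht')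
      (by linarith : (t - 2 * (n : ℝ)) ≤ t' - 2 * (n : ℝ))
    exact ⟨c1, c2, fun h => c3 (by linarith)⟩
  have hyt : ∀ t, -1 ≤ t → (fwda_a S q (t + 2)).y =
      (fwda_a S q t).y - S.F q (fwda_a S q t).x := by
    intro t ht
    rw [fwda_a_add S q ht]
    rfl
  have hgrow : ∀ t, -1 ≤ t → (t - 1) / 2 ≤ q * 2 ^ (fwda_n t) := by
    intro t ht
    have hb := (fwda_n_bounds ht).2
    have h2 : (fwda_n t : ℝ) ≤ 2 ^ (fwda_n t) := by
      exact_mod_cast (Nat.lt_two_pow_self (n := fwda_n t)).le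
    have h3 : (0 : ℝ) ≤ 2 ^ (fwda_n t) := by positivity
    nlinarith
  refine ⟨fun t => (fwda_a S q t).x, fun t => (fwda_a S q t).y, fun t => (fwda_a S q t).s,
    ?_, ?_, ?_, ?_, ?_, ?_, ?_, ?_, ?_, ?_, ?_, ?_, ?_, ?_, ?_⟩
  · -- base
    intro t ht
    have hp := fwda_piece S hq 0 (t := t) (by
      constructor
      · have := ht.1; push_cast; linarith
      · have := ht.2; push_cast; linarith)
    have e : t - 2 * ((0 : ℕ) : ℝ) = t := by push_cast; ring
    rw [e] at hp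
    exact hp
  · -- cx
    apply fwda_cont
    intro n
    have hc := ((cont_st S hq hG' n).1).comp (hcs n) (hsub n)
    refine hc.congr ?_
    intro t ht
    exact (fwda_piece S hq n ht).1
  · -- cy
    apply fwda_cont
    intro n
    have hc := ((cont_st S hq hG' n).2.1).comp (hcs n) (hsub n)
    refine hc.congr ?_
    intro t ht
    exact (fwda_piece S hq n ht).2.1
  · -- xmono
    intro t ht t' ht' htt
    have := fwda_chain (P := fun t t' => t < t' → (fwda_a S q t).x < (fwda_a S q t').x)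
      (by
        intro a b c hab hbc h1 h2 hac
        rcases lt_or_eq_of_le hab with h | h
        · rcases lt_or_eq_of_le hbc with h' | h'
          · exact (h1 h).trans (h2 h')
          · rw [← h']; exact h1 h
        · rw [h]; exact h2 (h ▸ hac))
      (fun n t ht t' ht' htt => (hrel n t ht t' ht' htt).2.2) ht htt.le
    exact this htt
  · intro t ht
    exact (good t ht).s0
  · intro t ht
    exact (good t ht).sH0
  · -- shx
    intro t ht
    rw [fwda_a_add S q ht]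
    rfl
  · intro t ht
    exact hyt t ht
  · -- shs
    intro t ht
    rw [fwda_a_add S q ht]
    simp only [Setup.step, inv_inv]
    rfl
  · -- relG
    intro t t' ht htt
    exact fwda_chain (P := fun t t' => RelG (fwda_a S q t).x (fwda_a S q t).y (fwda_a S q t).s
        (fwda_a S q t').x (fwda_a S q t').y (fwda_a S q t').s)
      (fun a b c _ _ h1 h2 => h1.trans h2)
      (fun n t ht t' ht' htt => (hrel n t ht t' ht' htt).1) ht htt
  · -- relH
    intro t t' ht htt
    exact fwda_chain (P := fun t t' =>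
      RelH (fwda_a S q t).x ((fwda_a S q t).y - S.F q (fwda_a S q t).x)
        ((fwda_a S q t).s + S.F₁ q (fwda_a S q t).x)
        (fwda_a S q t').x ((fwda_a S q t').y - S.F q (fwda_a S q t').x)
        ((fwda_a S q t').s + S.F₁ q (fwda_a S q t').x))
      (fun a b c _ _ h1 h2 => h1.trans h2)
      (fun n t ht t' ht' htt => (hrel n t ht t' ht' htt).2.1) ht htt
  · intro t ht
    exact (good t ht).pos
  · intro t ht
    exact (good t ht).neg
  · -- xtop
    refine tendsto_atTop_mono' atTop (f₁ := fun t : ℝ => (t - 1) / 2) ?_ ?_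
    · filter_upwards [eventually_ge_atTop (1 : ℝ)] with t ht
      have ht' : -1 ≤ t := by linarith
      have hn : 1 ≤ fwda_n t := by
        have hb := (fwda_n_bounds ht').2
        by_contra hc
        have h0 : fwda_n t = 0 := by omega
        rw [h0] at hb
        push_cast at hb
        linarith
      exact (hgrow t ht').trans ((hG _ (fwda_mem ht') (fwda_n t)).2.2 hn)
    · exact (tendsto_atTop_add_const_right atTop (-1) tendsto_id).atTop_div_const (by norm_num)
  · -- ytop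
    have hb : ∀ t : ℝ, 1 ≤ t → (fwda_a S q t).y ≤ -((t - 3) / 2) := by
      intro t ht
      have ht' : -1 ≤ t - 2 := by linarith
      have e := hyt (t - 2) ht'
      have e2 : t - 2 + 2 = t := by ring
      rw [e2] at e
      have h2 := (hG _ (fwda_mem ht') (fwda_n (t - 2))).2.1
      have h3 := hgrow (t - 2) ht'
      have h4 : (fwda_a S q (t - 2)).y - S.F q (fwda_a S q (t - 2)).x =
        S.yH q (S.st q (t - 2 - 2 * (fwda_n (t - 2) : ℝ)) (fwda_n (t - 2))) := rfl
      rw [e, h4]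
      linarith
    refine tendsto_atBot_mono' atTop
      (?_ : (fun t => (fwda_a S q t).y) ≤ᶠ[atTop] fun t : ℝ => -((t - 3) / 2)) ?_
    · filter_upwards [eventually_ge_atTop (1 : ℝ)] with t ht
      exact hb t ht
    · exact tendsto_neg_atTop_atBot.comp
        ((tendsto_atTop_add_const_right atTop (-3) tendsto_id).atTop_div_const (by norm_num))

end CF
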