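import Pool.Agent.H.MP_1693ff_gt.CurveA
import Pool.Agent.H.MP_1693ff_gt.FwdA
import Pool.Agent.H.MP_1693ff_gt.BaseA

/-!
# Existence of the curve
-/

namespace CF

open Real Set Filter Topology

/-- **The curve exists for all large `q`.** -/
theorem exists_curve (S : Setup) : ∃ q₀ ≥ 1, ∀ q ≥ q₀,
    ∃ X Y Sl, Curve (S.F q) (S.F₁ q) (S.E q) (S.E₁ q) X Y Sl ∧
      ∀ t ∈ Icc (-1 : ℝ) 1,
        X t = (S.base q t).x ∧ Y t = (S.base q t).y ∧ Sl t = (S.base q t).s := by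
  obtain ⟨a, ha, h⟩ := all_good S
  obtain ⟨b, hb, h'⟩ := all_good S.swap
  refine ⟨max a b, le_trans ha (le_max_left _ _), fun q hq => ?_⟩
  have hqa : q ≥ a := le_trans (le_max_left _ _) hq
  have hqb : q ≥ b := le_trans (le_max_right _ _) hq
  obtain ⟨hX, hφ, hψ, hG⟩ := h q hqa
  obtain ⟨hX', hφ', hψ', hG'⟩ := h' q hqb
  have h1 : (1 : ℝ) ≤ q := le_trans ha hqa
  obtain ⟨x, y, s, H⟩ := forward S h1 hX hG
  obtain ⟨x', y', s', H'⟩ := forward S.swap h1 hX' hG'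
  exact glue_base S h1 hX hφ hψ H H'

end CF
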