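import Mathlib

/-!
# MP_1693ff_gt: pairs of (-1)-chord functions of a convex body at two points.  Definitions.
-/

namespace CF

open Real Set Filter Topology

noncomputable section

/-- The radial function `ρ_{K-p}(u)`. -/
def radial {E : Type*} [AddCommGroup E] [Module ℝ E] (K : Set E) (p u : E) : ℝ :=
  sSup {c : ℝ | 0 ≤ c ∧ p + c • u ∈ K}

/-- The `i`-chord function of `K` at `p`. -/
def chord {E : Type*} [AddCommGroup E] [Module ℝ E] (i : ℝ) (K : Set E) (p u : E) : ℝ :=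
  if i = 0 then radial K p u * radial K p (-u) else radial K p u ^ i + radial K p (-u) ^ i

/-- Convex bodies. -/
def IsBody {E : Type*} [NormedAddCommGroup E] [NormedSpace ℝ E] (K : Set E) : Prop :=
  Convex ℝ K ∧ IsCompact K ∧ (interior K).Nonempty

/-- The Euclidean plane. -/
abbrev Pl := EuclideanSpace ℝ (Fin 2)

/-- The unit vector of angle `θ`. -/
def ev (θ : ℝ) : Pl := !₂[cos θ, sin θ]

/-- Even positive functions on the unit circle, as functions of the angle, of class `C^{2,1}`. -/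
structure Smooth (f : ℝ → ℝ) : Prop where
  per : ∀ θ, f (θ + π) = f θ
  pos : ∀ θ, 0 < f θ
  c2 : ContDiff ℝ 2 f
  lip : ∃ C, ∀ s t, |deriv (deriv f) s - deriv (deriv f) t| ≤ C * |s - t|

/-- `R = f + f''`. -/
def curv (f : ℝ → ℝ) (θ : ℝ) : ℝ := f θ + deriv (deriv f) θ

/-- distance from the point with normal `θ₀` to the tangent line with normal `θ₀ + t`
(for the convex body with support function `f`). -/
def hh (f : ℝ → ℝ) (θ₀ t : ℝ) : ℝ := f (θ₀ + t) - f θ₀ * cos t - deriv f θ₀ * sin t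

/-- distance from the point with normal `θ₀ + t` to the tangent line with normal `θ₀`. -/
def dd (f : ℝ → ℝ) (θ₀ t : ℝ) : ℝ := f θ₀ - f (θ₀ + t) * cos t + deriv f (θ₀ + t) * sin t

/-- the explicit condition of part (B). -/
def Cond (f : ℝ → ℝ) (θ₀ : ℝ) : Prop :=
  ∃ c < (2 : ℝ), ∀ t ∈ Ioo 0 (2 * π),
    curv f (θ₀ + t) * hh f θ₀ t ^ 3 ≤ c * curv f θ₀ * dd f θ₀ t ^ 3

/-- `K` is a planar convex body with `(-1)`-chord functions `f₁`, `f₂` at the interior points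
`p₁`, `p₂`. -/
def Pair (f₁ f₂ : ℝ → ℝ) (K : Set Pl) (p₁ p₂ : Pl) : Prop :=
  IsBody K ∧ p₁ ∈ interior K ∧ p₂ ∈ interior K ∧
    (∀ θ, chord (-1) K p₁ (ev θ) = f₁ θ) ∧ ∀ θ, chord (-1) K p₂ (ev θ) = f₂ θ

/-! ## Profiles, models, set-up -/

/-- A profile: `φ(x) = √(1+x²) f(arccot x)` with its first two derivatives `φ₁`, `φ₂`. -/
structure Prof (φ φ₁ φ₂ : ℝ → ℝ) (A B R₀ c : ℝ) : Prop where
  d1 : ∀ x, HasDerivAt φ (φ₁ x) x
  d2 : ∀ x, HasDerivAt φ₁ (φ₂ x) x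
  cont : Continuous φ₂
  A0 : 0 < A
  R0 : 0 < R₀
  c0 : 0 < c
  pos : ∀ x, 0 < φ₂ x
  curv : ∀ x, |φ₂ x * √(1 + x ^ 2) ^ 3 - R₀| ≤ c / (1 + |x|)
  r0 : ∀ x, 1 ≤ x → |φ x - (A * x + B)| ≤ c / x
  r1 : ∀ x, 1 ≤ x → |φ₁ x - A| ≤ c / x ^ 2
  l0 : ∀ x, x ≤ -1 → |φ x + (A * x + B)| ≤ c / (-x)
  l1 : ∀ x, x ≤ -1 → |φ₁ x + A| ≤ c / x ^ 2

/-- condition (B) in the chart: `γ = (φ - Ax - B)/2`, `χ = (φ + Ax + B)/2`. -/
def MCond (φ φ₁ φ₂ : ℝ → ℝ) (A B R₀ : ℝ) : Prop :=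
  ∃ c < (1 : ℝ), ∀ x,
    (φ₂ x / 2) * ((φ x - A * x - B) / 2) ^ 3 ≤ c * R₀ * (-((φ₁ x - A) / 2)) ^ 3 ∧
    (φ₂ x / 2) * ((φ x + A * x + B) / 2) ^ 3 ≤ c * R₀ * ((φ₁ x + A) / 2) ^ 3

/-- A model function `g` for the profile `φ`. -/
structure Model (φ φ₁ φ₂ g g₁ g₂ : ℝ → ℝ) (R₀ X η c₀ : ℝ) : Prop where
  d1 : ∀ x, HasDerivAt g (g₁ x) x
  d2 : ∀ x, HasDerivAt g₁ (g₂ x) x
  X1 : 1 ≤ X
  η0 : 0 < η
  c00 : 0 < c₀
  tr : ∀ x, X ≤ x → g x = R₀ / (4 * x)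
  tr1 : ∀ x, X ≤ x → g₁ x = -(R₀ / (4 * x ^ 2))
  tl : ∀ x, x ≤ -X → φ x - g x = -(R₀ / (4 * x))
  tl1 : ∀ x, x ≤ -X → φ₁ x - g₁ x = R₀ / (4 * x ^ 2)
  g2pos : ∀ x, 0 < g₂ x
  g2lt : ∀ x, g₂ x < φ₂ x
  g1neg : ∀ x, g₁ x < 0
  h1pos : ∀ x, 0 < φ₁ x - g₁ x
  lo : ∀ x, c₀ * (√(1 + x ^ 2) - x) ≤ g x
  hlo : ∀ x, c₀ * (√(1 + x ^ 2) + x) ≤ φ x - g x
  bg : ∀ x, η * (-g₁ x) ^ 3 ≤ g₂ x * g x ^ 3
  bg' : ∀ x, g₂ x * g x ^ 3 ≤ (R₀ - η) * (-g₁ x) ^ 3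
  bh : ∀ x, η * (φ₁ x - g₁ x) ^ 3 ≤ (φ₂ x - g₂ x) * (φ x - g x) ^ 3
  bh' : ∀ x, (φ₂ x - g₂ x) * (φ x - g x) ^ 3 ≤ (R₀ - η) * (φ₁ x - g₁ x) ^ 3

/-- Two profiles (`φ` for `p₁`, `ψ` for `p₂`) with models `g`, `k` and common constants. -/
structure Setup where
  (φ φ₁ φ₂ g g₁ g₂ ψ ψ₁ ψ₂ k k₁ k₂ : ℝ → ℝ)
  (A B A' B' R₀ c X η c₀ : ℝ)
  P : Prof φ φ₁ φ₂ A B R₀ c
  Q : Prof ψ ψ₁ ψ₂ A' B' R₀ c
  M : Model φ φ₁ φ₂ g g₁ g₂ R₀ X η c₀
  N : Model ψ ψ₁ ψ₂ k k₁ k₂ R₀ X η c₀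

namespace Setup

/-- the symmetric set-up (the roles of the two points exchanged). -/
def swap (S : Setup) : Setup :=
  { φ := S.ψ, φ₁ := S.ψ₁, φ₂ := S.ψ₂, g := S.k, g₁ := S.k₁, g₂ := S.k₂,
    ψ := S.φ, ψ₁ := S.φ₁, ψ₂ := S.φ₂, k := S.g, k₁ := S.g₁, k₂ := S.g₂,
    A := S.A', B := S.B', A' := S.A, B' := S.B, R₀ := S.R₀, c := S.c, X := S.X, η := S.η,
    c₀ := S.c₀, P := S.Q, Q := S.P, M := S.N, N := S.M }

/-- the distance `d = 4q²/R₀`. -/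
def dist (S : Setup) (q : ℝ) : ℝ := 4 * q ^ 2 / S.R₀

/-- The first chart function `F = d φ`. -/
def F (S : Setup) (q x : ℝ) : ℝ := S.dist q * S.φ x
/-- its derivative. -/
def F₁ (S : Setup) (q x : ℝ) : ℝ := S.dist q * S.φ₁ x
/-- its second derivative. -/
def F₂ (S : Setup) (q x : ℝ) : ℝ := S.dist q * S.φ₂ x
/-- The second chart function `E = d ψ`. -/
def E (S : Setup) (q x : ℝ) : ℝ := S.dist q * S.ψ x
/-- its derivative. -/
def E₁ (S : Setup) (q x : ℝ) : ℝ := S.dist q * S.ψ₁ x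
/-- its second derivative. -/
def E₂ (S : Setup) (q x : ℝ) : ℝ := S.dist q * S.ψ₂ x

end Setup

/-- A 2-jet of the upper curve: position `(x,y)`, slope `-s`, second derivative `g`, and the
speed `v = dx/dt` of the parametrisation. -/
structure St where
  (x y s g v : ℝ)

namespace Setup

/-- ordinate of the lower curve below a point of the upper curve. -/
def yH (S : Setup) (q : ℝ) (a : St) : ℝ := a.y - S.F q a.x
/-- minus the slope of the lower curve. -/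
def sH (S : Setup) (q : ℝ) (a : St) : ℝ := a.s + S.F₁ q a.x
/-- minus the second derivative of the lower curve. -/
def hH (S : Setup) (q : ℝ) (a : St) : ℝ := S.F₂ q a.x - a.g

/-- the staircase map on 2-jets. -/
def step (S : Setup) (q : ℝ) (a : St) : St :=
  { x := a.x + S.E q (S.yH q a)
    y := S.yH q a
    s := ((S.sH q a)⁻¹ - S.E₁ q (S.yH q a))⁻¹
    g := ((S.sH q a)⁻¹ - S.E₁ q (S.yH q a))⁻¹ ^ 3 *
      (S.E₂ q (S.yH q a) - S.hH q a / S.sH q a ^ 3)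
    v := a.v * S.sH q a * ((S.sH q a)⁻¹ - S.E₁ q (S.yH q a)) }

/-- first half of the fundamental arc, `t ∈ [-1,0]`, `x = q(2t+1) ∈ [-q,q]`. -/
def base1 (S : Setup) (q t : ℝ) : St :=
  { x := q * (2 * t + 1)
    y := S.dist q * S.g (q * (2 * t + 1))
    s := -(S.dist q * S.g₁ (q * (2 * t + 1)))
    g := S.dist q * S.g₂ (q * (2 * t + 1))
    v := 2 * q }

/-- second half of the fundamental arc, `t ∈ [0,1]`, `y = q(1-2t) ∈ [-q,q]`. -/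
def base2 (S : Setup) (q t : ℝ) : St :=
  { x := S.dist q * S.k (q * (1 - 2 * t))
    y := q * (1 - 2 * t)
    s := (-(S.dist q * S.k₁ (q * (1 - 2 * t))))⁻¹
    g := S.dist q * S.k₂ (q * (1 - 2 * t)) * (-(S.dist q * S.k₁ (q * (1 - 2 * t))))⁻¹ ^ 3
    v := 2 * q * -(S.dist q * S.k₁ (q * (1 - 2 * t))) }

/-- the fundamental arc. -/
def base (S : Setup) (q t : ℝ) : St := if t ≤ 0 then S.base1 q t else S.base2 q t

/-- the `n`-th image of the fundamental arc. -/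
def st (S : Setup) (q t : ℝ) (n : ℕ) : St := (S.step q)^[n] (S.base q t)

/-- What must be known at every 2-jet of the upper curve. -/
structure Good (S : Setup) (q : ℝ) (a : St) : Prop where
  s0 : 0 < a.s
  v0 : 0 < a.v
  sH0 : 0 < S.sH q a
  den : 0 < (S.sH q a)⁻¹ - S.E₁ q (S.yH q a)
  g0 : 0 ≤ a.g
  h0 : 0 ≤ S.hH q a
  pos : 0 < a.x + a.y
  neg : a.x + S.yH q a < 0

end Setup

/-- Relation between two points of a convex decreasing curve given by position and slope `-s`,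
the second one being to the right of the first. -/
def RelG (x y s x' y' s' : ℝ) : Prop :=
  x ≤ x' ∧ s' ≤ s ∧ -s * (x' - x) ≤ y' - y ∧ y' - y ≤ -s' * (x' - x)

/-- Relation between two points of a concave decreasing curve given by position and slope `-s`,
the second one being to the right of the first. -/
def RelH (x y s x' y' s' : ℝ) : Prop :=
  x ≤ x' ∧ s ≤ s' ∧ -s' * (x' - x) ≤ y' - y ∧ y' - y ≤ -s * (x' - x)

/-- The whole upper curve: position `(x τ, y τ)`, slope `-(s τ)`, `τ ∈ ℝ`; the staircase map is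
`τ ↦ τ + 2`; the lower curve is `(x τ, y τ - F (x τ))` with slope `-(s τ + F' (x τ))`. -/
structure Curve (F F' E E' x y s : ℝ → ℝ) : Prop where
  cx : Continuous x
  cy : Continuous y
  xmono : StrictMono x
  s0 : ∀ τ, 0 < s τ
  sH0 : ∀ τ, 0 < s τ + F' (x τ)
  shx : ∀ τ, x (τ + 2) = x τ + E (y τ - F (x τ))
  shy : ∀ τ, y (τ + 2) = y τ - F (x τ)
  shs : ∀ τ, (s (τ + 2))⁻¹ = (s τ + F' (x τ))⁻¹ - E' (y τ - F (x τ))
  relG : ∀ τ τ', τ ≤ τ' → RelG (x τ) (y τ) (s τ) (x τ') (y τ') (s τ')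
  relH : ∀ τ τ', τ ≤ τ' → RelH (x τ) (y τ - F (x τ)) (s τ + F' (x τ))
    (x τ') (y τ' - F (x τ')) (s τ' + F' (x τ'))
  pos : ∀ τ, 0 < x τ + y τ
  neg : ∀ τ, x τ + (y τ - F (x τ)) < 0
  xtop : Tendsto x atTop atTop
  xbot : Tendsto x atBot atBot
  ytop : Tendsto y atTop atBot
  ybot : Tendsto y atBot atTop
  s_zero : s 0 = 1
  sH_neg_one : s (-1) + F' (x (-1)) = 1
  s_one : s 1 < 1
  s_neg_one : 1 < s (-1)

/-- A curve together with the limit slopes `m < 1 < M` and the cross support inequalities. -/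
structure Curve' (F F' E E' x y s : ℝ → ℝ) (m M : ℝ) : Prop extends
    Curve F F' E E' x y s where
  m0 : 0 < m
  m1 : m < 1
  M1 : 1 < M
  ms : ∀ τ, m ≤ s τ
  sM : ∀ τ, s τ ≤ M
  msH : ∀ τ, m ≤ s τ + F' (x τ)
  sHM : ∀ τ, s τ + F' (x τ) ≤ M
  sm : Tendsto s atTop (𝓝 m)
  sM' : Tendsto s atBot (𝓝 M)
  cross1 : ∀ τ τ', y τ' - F (x τ') ≤ y τ - s τ * (x τ' - x τ)
  cross2 : ∀ τ τ', y τ - F (x τ) - (s τ + F' (x τ)) * (x τ' - x τ) ≤ y τ'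
  bdd : ∃ C, ∀ τ, |y τ + s τ * x τ| ≤ C ∧ |y τ - F (x τ) + (s τ + F' (x τ)) * x τ| ≤ C

/-- the planar set cut out by the support lines of the two curves. -/
def body (F F' x y s : ℝ → ℝ) : Set Pl :=
  {w | ∀ τ, (1 - s τ) * w 0 + (y τ + s τ * x τ) * w 1 ≤ 1 ∧
    (1 - (s τ + F' (x τ))) * w 0 + (y τ - F (x τ) + (s τ + F' (x τ)) * x τ) * w 1 ≤ 1}

end

end CF
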