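import Pool.Agent.H.MP_1693ff_gt.Defs

/-!
# Scaling; reduction to the upper half circle
-/

namespace CF

open Real Set Filter Topology Pointwise

/-- Scaling by `d > 0`. -/
theorem radial_smul {K : Set Pl} {p u : Pl} {d : ℝ} (hd : 0 < d) :
    radial (d • K) (d • p) u = d * radial K p u := by
  unfold radial
  have h : {c : ℝ | 0 ≤ c ∧ d • p + c • u ∈ d • K} = d • {c : ℝ | 0 ≤ c ∧ p + c • u ∈ K} := by
    ext c
    rw [Set.mem_smul_set_iff_inv_smul_mem₀ hd.ne']
    simp only [mem_ofPred_eq, smul_eq_mul]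
    rw [Set.mem_smul_set_iff_inv_smul_mem₀ hd.ne']
    have e : d⁻¹ • (d • p + c • u) = p + (d⁻¹ * c) • u := by
      rw [smul_add, smul_smul, smul_smul, inv_mul_cancel₀ hd.ne', one_smul]
    rw [e]
    have e2 : 0 ≤ d⁻¹ * c ↔ 0 ≤ c := by
      constructor
      · intro h
        have := mul_nonneg hd.le h
        rwa [← mul_assoc, mul_inv_cancel₀ hd.ne', one_mul] at this
      · intro h
        positivity
    rw [e2]
  rw [h, Real.sSup_smul_of_nonneg hd.le, smul_eq_mul]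

theorem fina1_aux1 {K : Set Pl} {p u : Pl} {d : ℝ} (hd : 0 < d) :
    chord (-1) (d • K) (d • p) u = d⁻¹ * chord (-1) K p u := by
  unfold chord
  have : ¬ ((-1 : ℝ) = 0) := by norm_num
  simp only [this, if_false]
  rw [radial_smul hd, radial_smul hd]
  simp only [Real.rpow_neg_one]
  rw [mul_inv, mul_inv]
  ring

theorem pair_smul {f₁ f₂ : ℝ → ℝ} {K : Set Pl} {p₁ p₂ : Pl} {d : ℝ} (hd : 0 < d)
    (h : Pair (fun θ => d * f₁ θ) (fun θ => d * f₂ θ) K p₁ p₂) :
    Pair f₁ f₂ (d • K) (d • p₁) (d • p₂) := by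
  obtain ⟨⟨hc, hk, hi⟩, h1, h2, h3, h4⟩ := h
  have hint : interior (d • K) = d • interior K := interior_smul₀ hd.ne' K
  refine ⟨⟨hc.smul d, hk.smul d, ?_⟩, ?_, ?_, ?_, ?_⟩
  · rw [hint]; exact hi.smul_set
  · rw [hint]; exact smul_mem_smul_set h1
  · rw [hint]; exact smul_mem_smul_set h2
  · intro θ
    rw [fina1_aux1 hd, h3, ← mul_assoc, inv_mul_cancel₀ hd.ne', one_mul]
  · intro θ
    rw [fina1_aux1 hd, h4, ← mul_assoc, inv_mul_cancel₀ hd.ne', one_mul]

theorem fina1_aux2 (θ : ℝ) : ev (θ + π) = - ev θ := by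
  ext i
  fin_cases i
  · simp [ev]
  · simp [ev]

theorem fina1_aux3 {K : Set Pl} {p : Pl} (θ : ℝ) :
    chord (-1) K p (ev (θ + π)) = chord (-1) K p (ev θ) := by
  rw [fina1_aux2]
  unfold chord
  have : ¬ ((-1 : ℝ) = 0) := by norm_num
  simp only [this, if_false, neg_neg]
  ring

/-- It suffices to know the chord functions for `θ ∈ [0,π)`. -/
theorem chord_per {f : ℝ → ℝ} (hf : Smooth f) {K : Set Pl} {p : Pl}
    (h0 : chord (-1) K p (ev 0) = f 0)
    (h : ∀ θ ∈ Ioo 0 π, chord (-1) K p (ev θ) = f θ) : ∀ θ, chord (-1) K p (ev θ) = f θ := by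
  intro θ
  have hp : Function.Periodic (fun θ => chord (-1) K p (ev θ) - f θ) π := by
    intro t
    simp only
    rw [fina1_aux3, hf.per]
  obtain ⟨y, hy, hxy⟩ := hp.exists_mem_Ico₀ pi_pos θ
  have hy0 : chord (-1) K p (ev y) - f y = 0 := by
    rcases eq_or_lt_of_le hy.1 with h1 | h1
    · rw [← h1, h0, sub_self]
    · rw [h y ⟨h1, hy.2⟩, sub_self]
  linarith

end CF
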