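import Pool.Agent.H.MP_1693ff_gt.Defs

/-!
# Rotation
-/

namespace CF

open Real Set Filter Topology Pointwise

/-- `cos t e(θ₀) + sin t e(θ₀+π/2) = e(θ₀+t)`. -/
theorem ev_add (θ₀ t : ℝ) : cos t • ev θ₀ + sin t • ev (θ₀ + π / 2) = ev (θ₀ + t) := by
  ext i
  fin_cases i
  · simp [ev, cos_add]; ring
  · simp [ev, sin_add]; ring

theorem norm_ev (θ : ℝ) : ‖ev θ‖ = 1 := by
  rw [EuclideanSpace.norm_eq]
  simp [ev, Fin.sum_univ_two]

theorem inner_ev (θ : ℝ) : inner ℝ (ev (θ + π / 2)) (ev θ) = 0 := by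
  simp [ev, PiLp.inner_apply, Fin.sum_univ_two, cos_add, sin_add]
  ring

theorem fina2_aux1 (a b : ℝ) (hab : a ^ 2 + b ^ 2 = 1) :
    ∃ L : Pl ≃ₗᵢ[ℝ] Pl, ∀ v : Pl, L v = !₂[a * v 0 - b * v 1, b * v 0 + a * v 1] := by
  let e : Pl ≃ₗ[ℝ] Pl :=
    { toFun := fun v => !₂[a * v 0 - b * v 1, b * v 0 + a * v 1]
      invFun := fun v => !₂[a * v 0 + b * v 1, -b * v 0 + a * v 1]
      map_add' := by
        intro x y
        ext i
        fin_cases i
        · simp; ring
        · simp; ring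
      map_smul' := by
        intro c x
        ext i
        fin_cases i
        · simp; ring
        · simp; ring
      left_inv := by
        intro x
        ext i
        fin_cases i
        · simp; linear_combination (x 0) * hab
        · simp; linear_combination (x 1) * hab
      right_inv := by
        intro x
        ext i
        fin_cases i
        · simp; linear_combination (x 0) * hab
        · simp; linear_combination (x 1) * hab }
  refine ⟨⟨e, ?_⟩, fun v => rfl⟩
  intro x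
  show ‖(!₂[a * x 0 - b * x 1, b * x 0 + a * x 1] : Pl)‖ = ‖x‖
  rw [EuclideanSpace.norm_eq, EuclideanSpace.norm_eq]
  congr 1
  simp only [Fin.sum_univ_two, Real.norm_eq_abs, sq_abs]
  simp
  linear_combination (x 0 ^ 2 + x 1 ^ 2) * hab

/-- Rotation by the angle `α`. -/
theorem exists_rot (α : ℝ) : ∃ L : Pl ≃ₗᵢ[ℝ] Pl, ∀ θ, L (ev θ) = ev (θ + α) := by
  obtain ⟨L, hL⟩ := fina2_aux1 (cos α) (sin α) (cos_sq_add_sin_sq α)
  refine ⟨L, fun θ => ?_⟩
  rw [hL]
  ext i
  fin_cases i
  · simp [ev, cos_add]; ring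
  · simp [ev, sin_add]; ring

theorem radial_map {K : Set Pl} {p u : Pl} (L : Pl ≃ₗᵢ[ℝ] Pl) :
    radial (L '' K) (L p) (L u) = radial K p u := by
  unfold radial
  congr 1
  ext c
  simp only [mem_ofPred_eq]
  have : L p + c • L u = L (p + c • u) := by simp
  rw [this, L.injective.mem_set_image]

/-- If `K` realises `f₁ (α + ·)`, `f₂ (α + ·)` at `0`, `d e(0)`, then the rotated body realises
`f₁`, `f₂` at `0`, `d e(α)`. -/
theorem pair_rot {f₁ f₂ : ℝ → ℝ} {α d : ℝ} {K : Set Pl}
    (h : Pair (fun θ => f₁ (α + θ)) (fun θ => f₂ (α + θ)) K 0 (d • ev 0)) :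
    ∃ K', Pair f₁ f₂ K' 0 (d • ev α) := by
  obtain ⟨L, hL⟩ := exists_rot α
  obtain ⟨⟨hc, hk, hi⟩, h1, h2, h3, h4⟩ := h
  have hint : interior (L '' K) = L '' interior K := by
    have := L.toHomeomorph.image_interior K
    exact this.symm
  have hp : L (d • ev 0) = d • ev α := by
    rw [map_smul, hL, zero_add]
  have key : ∀ (p : Pl) (θ : ℝ), chord (-1) (L '' K) (L p) (ev θ) = chord (-1) K p (ev (θ - α)) := by
    intro p θ
    have e1 : ev θ = L (ev (θ - α)) := by rw [hL]; congr 1; ring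
    unfold chord
    rw [e1, ← map_neg, radial_map, radial_map]
  refine ⟨L '' K, ⟨?_, ?_, ?_⟩, ?_, ?_, ?_, ?_⟩
  · exact hc.is_linear_image L.toLinearEquiv.toLinearMap.isLinear
  · exact hk.image L.continuous
  · rw [hint]; exact hi.image _
  · rw [hint, ← map_zero L]; exact mem_image_of_mem _ h1
  · rw [hint, ← hp]; exact mem_image_of_mem _ h2
  · intro θ
    have := key 0 θ
    rw [map_zero] at this
    rw [this, h3]
    ring_nf
  · intro θ
    have := key (d • ev 0) θ
    rw [hp] at this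
    rw [this, h4]
    ring_nf

end CF
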