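import Pool.Agent.H.MP_1693ff_gt.Defs

/-!
# Shifting the angle; Peano expansion
-/

namespace CF

open Real Set Filter Topology Pointwise

theorem fina3_deriv (f : ℝ → ℝ) (α : ℝ) :
    deriv (fun θ => f (α + θ)) = fun θ => deriv f (α + θ) := by
  funext θ
  exact deriv_comp_const_add f α θ

theorem fina3_deriv2 (f : ℝ → ℝ) (α : ℝ) :
    deriv (deriv (fun θ => f (α + θ))) = fun θ => deriv (deriv f) (α + θ) := by
  rw [fina3_deriv, fina3_deriv]

/-- Shifting the angle. -/
theorem smooth_shift {f : ℝ → ℝ} (hf : Smooth f) (α : ℝ) : Smooth (fun θ => f (α + θ)) where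
  per θ := by
    rw [← add_assoc]
    exact hf.per _
  pos θ := hf.pos _
  c2 := hf.c2.comp (contDiff_const.add contDiff_id)
  lip := by
    obtain ⟨C, hC⟩ := hf.lip
    refine ⟨C, fun s t => ?_⟩
    rw [fina3_deriv2]
    have h := hC (α + s) (α + t)
    have e : α + s - (α + t) = s - t := by ring
    rw [e] at h
    exact h

theorem curv_shift {f : ℝ → ℝ} (hf : Smooth f) (α θ : ℝ) :
    curv (fun θ => f (α + θ)) θ = curv f (α + θ) := by
  unfold curv
  rw [fina3_deriv2]

theorem cond_shift {f : ℝ → ℝ} (hf : Smooth f) {α : ℝ} (h : Cond f α) :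
    Cond (fun θ => f (α + θ)) 0 := by
  obtain ⟨c, hc, hcond⟩ := h
  refine ⟨c, hc, fun t ht => ?_⟩
  have h1 := hcond t ht
  rw [curv_shift hf, curv_shift hf]
  unfold hh dd at h1 ⊢
  rw [fina3_deriv]
  simp only [zero_add, add_zero]
  exact h1

/-- Peano expansion along the circle, from `C²`. -/
theorem peano {f : ℝ → ℝ} (hf : Smooth f) (θ₀ : ℝ) :
    (fun t : ℝ => f (θ₀ + t) - (f θ₀ + deriv f θ₀ * t + deriv (deriv f) θ₀ * t ^ 2 / 2))
      =o[𝓝 0] fun t : ℝ => t ^ 2 := by
  have h := taylor_isLittleO_univ (x₀ := θ₀) (n := 2) hf.c2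
  have ht : Tendsto (fun t : ℝ => θ₀ + t) (𝓝 0) (𝓝 θ₀) := by
    have : Tendsto (fun t : ℝ => θ₀ + t) (𝓝 0) (𝓝 (θ₀ + 0)) :=
      (continuous_const.add continuous_id).tendsto 0
    rwa [add_zero] at this
  have h2 := h.comp_tendsto ht
  refine (h2.congr' ?_ ?_)
  · refine Eventually.of_forall fun t => ?_
    simp only [Function.comp_apply]
    congr 1
    rw [taylorWithinEval_succ, taylorWithinEval_succ, taylor_within_zero_eval]
    simp only [iteratedDerivWithin_univ, iteratedDeriv_succ, iteratedDeriv_zero, smul_eq_mul,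
      add_sub_cancel_left]
    norm_num [Nat.factorial]
    ring
  · refine Eventually.of_forall fun t => ?_
    simp only [Function.comp_apply, add_sub_cancel_left]

end CF
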