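import Pool.Agent.H.MP_1693ff_gt.Defs

/-!
# The pinching condition
-/

namespace CF

open Real Set Filter Topology Pointwise

theorem fina4_aux1 {f : ℝ → ℝ} (hf : Smooth f) (x : ℝ) : HasDerivAt f (deriv f x) x :=
  (hf.c2.differentiable (by norm_num) x).hasDerivAt

theorem fina4_aux2 {f : ℝ → ℝ} (hf : Smooth f) (x : ℝ) :
    HasDerivAt (deriv f) (deriv (deriv f) x) x := by
  have h2 : ContDiff ℝ 1 (deriv f) := by
    have := hf.c2
    rw [show (2 : WithTop ℕ∞) = 1 + 1 by norm_num, contDiff_succ_iff_deriv] at this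
    exact this.2.2
  exact (h2.differentiable (by norm_num) x).hasDerivAt

theorem fina4_aux3 {f : ℝ → ℝ} (hf : Smooth f) : Continuous (deriv (deriv f)) := by
  have h2 : ContDiff ℝ 1 (deriv f) := by
    have := hf.c2
    rw [show (2 : WithTop ℕ∞) = 1 + 1 by norm_num, contDiff_succ_iff_deriv] at this
    exact this.2.2
  exact h2.continuous_deriv le_rfl

theorem fina4_aux4 {f : ℝ → ℝ} (hf : Smooth f) : Continuous (curv f) :=
  hf.c2.continuous.add (fina4_aux3 hf)

theorem fina4_aux5 {f : ℝ → ℝ} (hf : Smooth f) (θ : ℝ) : deriv f (θ + π) = deriv f θ := by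
  have h : (fun x => f (x + π)) = f := by
    funext x
    exact hf.per x
  rw [← deriv_comp_add_const, h]

theorem fina4_aux6 {f : ℝ → ℝ} (hf : Smooth f) (θ : ℝ) :
    deriv (deriv f) (θ + π) = deriv (deriv f) θ := by
  have h : (fun x => deriv f (x + π)) = deriv f := by
    funext x
    exact fina4_aux5 hf x
  rw [← deriv_comp_add_const, h]

theorem fina4_aux7 {f : ℝ → ℝ} (hf : Smooth f) : Function.Periodic (curv f) π := by
  intro θ
  unfold curv
  rw [hf.per, fina4_aux6 hf]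

/-- lower bound for `dd`. -/
theorem fina4_aux8 {f : ℝ → ℝ} (hf : Smooth f) {a : ℝ} (ha : ∀ s, a ≤ curv f s) (θ₀ : ℝ)
    {t : ℝ} (ht : t ∈ Ioo 0 (2 * π)) : a * (1 - cos t) ≤ dd f θ₀ t := by
  have hd : ∀ s, HasDerivAt (fun s => dd f θ₀ s - a * (1 - cos s))
      ((curv f (θ₀ + s) - a) * sin s) s := by
    intro s
    have h1 : HasDerivAt (fun s => f (θ₀ + s)) (deriv f (θ₀ + s)) s :=
      (fina4_aux1 hf (θ₀ + s)).comp_const_add θ₀ s
    have h2 : HasDerivAt (fun s => deriv f (θ₀ + s)) (deriv (deriv f) (θ₀ + s)) s :=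
      (fina4_aux2 hf (θ₀ + s)).comp_const_add θ₀ s
    have h3 := (((hasDerivAt_const s (f θ₀)).sub (h1.mul (hasDerivAt_cos s))).add
      (h2.mul (hasDerivAt_sin s))).sub (((hasDerivAt_const s 1).sub (hasDerivAt_cos s)).const_mul a)
    refine h3.congr_deriv ?_
    unfold curv
    ring
  have hcont : Continuous (fun s => dd f θ₀ s - a * (1 - cos s)) :=
    continuous_iff_continuousAt.2 fun s => (hd s).continuousAt
  rcases le_total t π with h | h
  · have hm : MonotoneOn (fun s => dd f θ₀ s - a * (1 - cos s)) (Icc 0 π) := by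
      refine monotoneOn_of_deriv_nonneg (convex_Icc 0 π) hcont.continuousOn
        (fun s _ => (hd s).differentiableAt.differentiableWithinAt) ?_
      intro s hs
      rw [interior_Icc] at hs
      rw [(hd s).deriv]
      exact mul_nonneg (sub_nonneg.2 (ha _)) (sin_nonneg_of_nonneg_of_le_pi hs.1.le hs.2.le)
    have := hm (left_mem_Icc.2 pi_pos.le) ⟨ht.1.le, h⟩ ht.1.le
    simp only [dd, cos_zero, sin_zero, add_zero] at this
    unfold dd
    linarith
  · have hm : AntitoneOn (fun s => dd f θ₀ s - a * (1 - cos s)) (Icc π (2 * π)) := by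
      refine antitoneOn_of_deriv_nonpos (convex_Icc π (2 * π)) hcont.continuousOn
        (fun s _ => (hd s).differentiableAt.differentiableWithinAt) ?_
      intro s hs
      rw [interior_Icc] at hs
      rw [(hd s).deriv]
      have hs' : sin s ≤ 0 := by
        have h1 := sin_nonneg_of_nonneg_of_le_pi (x := s - π) (by linarith [hs.1])
          (by linarith [hs.2])
        rw [sin_sub_pi] at h1
        linarith
      exact mul_nonpos_of_nonneg_of_nonpos (sub_nonneg.2 (ha _)) hs'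
    have := hm ⟨h, ht.2.le⟩ (right_mem_Icc.2 (by linarith [pi_pos])) ht.2.le
    have hper : f (θ₀ + 2 * π) = f θ₀ := by
      rw [show θ₀ + 2 * π = θ₀ + π + π by ring, hf.per, hf.per]
    simp only [dd, cos_two_pi, sin_two_pi, hper] at this
    unfold dd
    linarith

/-- upper bound for `hh`. -/
theorem fina4_aux9 {f : ℝ → ℝ} (hf : Smooth f) {b : ℝ} (hb : ∀ s, curv f s ≤ b) (θ₀ : ℝ)
    {t : ℝ} (ht : t ∈ Ioo 0 (2 * π)) : hh f θ₀ t ≤ b * (1 - cos t) := by
  have hd : ∀ s, HasDerivAt (fun s =>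
      (b * sin s - (deriv f (θ₀ + s) + f θ₀ * sin s - deriv f θ₀ * cos s)) * sin (t - s) +
        (b * (1 - cos s) - hh f θ₀ s) * cos (t - s))
      ((b - curv f (θ₀ + s)) * sin (t - s)) s := by
    intro s
    have h1 : HasDerivAt (fun s => f (θ₀ + s)) (deriv f (θ₀ + s)) s :=
      (fina4_aux1 hf (θ₀ + s)).comp_const_add θ₀ s
    have h2 : HasDerivAt (fun s => deriv f (θ₀ + s)) (deriv (deriv f) (θ₀ + s)) s :=
      (fina4_aux2 hf (θ₀ + s)).comp_const_add θ₀ s
    have h5 : HasDerivAt (fun s => t - s) (-1) s := by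
      simpa using (hasDerivAt_id s).const_sub t
    have h3 := ((((hasDerivAt_sin s).const_mul b).sub ((h2.add
      ((hasDerivAt_sin s).const_mul (f θ₀))).sub ((hasDerivAt_cos s).const_mul
        (deriv f θ₀)))).mul h5.sin).add
      (((((hasDerivAt_const s 1).sub (hasDerivAt_cos s)).const_mul b).sub
        ((h1.sub ((hasDerivAt_cos s).const_mul (f θ₀))).sub
          ((hasDerivAt_sin s).const_mul (deriv f θ₀)))).mul h5.cos)
    refine h3.congr_deriv ?_
    unfold curv
    simp only [Pi.add_apply, Pi.sub_apply, Pi.mul_apply]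
    ring
  have hcont := continuous_iff_continuousAt.2 fun s => (hd s).continuousAt
  rcases le_total t π with h | h
  · have hm := monotoneOn_of_deriv_nonneg (convex_Icc 0 t) hcont.continuousOn
        (fun s _ => (hd s).differentiableAt.differentiableWithinAt) (by
      intro s hs
      rw [interior_Icc] at hs
      rw [(hd s).deriv]
      exact mul_nonneg (sub_nonneg.2 (hb _)) (sin_nonneg_of_nonneg_of_le_pi
        (by linarith [hs.2]) (by linarith [hs.1])))
    have := hm (left_mem_Icc.2 ht.1.le) (right_mem_Icc.2 ht.1.le) ht.1.le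
    simp only [hh, cos_zero, sin_zero, add_zero, sub_self, sub_zero] at this
    unfold hh
    linarith
  · have hm := antitoneOn_of_deriv_nonpos (convex_Icc t (2 * π)) hcont.continuousOn
        (fun s _ => (hd s).differentiableAt.differentiableWithinAt) (by
      intro s hs
      rw [interior_Icc] at hs
      rw [(hd s).deriv]
      have hs' : sin (t - s) ≤ 0 := by
        have h1 := sin_nonneg_of_nonneg_of_le_pi (x := s - t) (by linarith [hs.1])
          (by linarith [hs.2])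
        rw [← neg_sub, sin_neg] 
        linarith
      exact mul_nonpos_of_nonneg_of_nonpos (sub_nonneg.2 (hb _)) hs')
    have := hm (left_mem_Icc.2 ht.2.le) (right_mem_Icc.2 ht.2.le) ht.2.le
    have hper : f (θ₀ + 2 * π) = f θ₀ := by
      rw [show θ₀ + 2 * π = θ₀ + π + π by ring, hf.per, hf.per]
    have hper' : deriv f (θ₀ + 2 * π) = deriv f θ₀ := by
      rw [show θ₀ + 2 * π = θ₀ + π + π by ring, fina4_aux5 hf, fina4_aux5 hf]
    simp only [hh, cos_two_pi, sin_two_pi, hper, hper', sub_self, cos_zero, sin_zero] at this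
    unfold hh
    linarith

/-- The pinching condition implies `Cond`: `hh f θ₀ t = ∫_0^t curv f (θ₀+s) sin (t-s) ds`,
`dd f θ₀ t = ∫_0^t curv f (θ₀+s) sin s ds` for `0 ≤ t ≤ π`, and for `π ≤ t < 2π` the same with
`t` replaced by `2π - t` (integrate from `2π` downwards).  With `a = min curv`, `b = max curv`
(attained: continuous and `π`-periodic) `hh ≤ b (1 - cos t)`, `dd ≥ a (1 - cos t) > 0`, so the
ratio is at most `b⁴/a⁴ =: c < 2`.
(To avoid integrals: `u(t) = b (1 - cos t) - hh f θ₀ t` satisfies `u(0) = u'(0) = 0`,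
`u + u'' = b - curv f (θ₀ + t) ≥ 0`, and `(u' sin t' - u cos t')`-type monotonicity;
for `dd`: `dd' (t) = curv f (θ₀+t) sin t`.) -/
theorem pinch_cond {f : ℝ → ℝ} (hf : Smooth f)
    (h : ∀ s t, 0 < curv f s ∧ curv f s ^ 4 < 2 * curv f t ^ 4) (θ₀ : ℝ) : Cond f θ₀ := by
  obtain ⟨s₁, -, h₁⟩ := isCompact_Icc.exists_isMinOn (nonempty_Icc.2 pi_pos.le)
    (fina4_aux4 hf).continuousOn
  obtain ⟨s₂, -, h₂⟩ := isCompact_Icc.exists_isMaxOn (nonempty_Icc.2 pi_pos.le)
    (fina4_aux4 hf).continuousOn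
  have ha : ∀ s, curv f s₁ ≤ curv f s := by
    intro s
    obtain ⟨y, hy, hxy⟩ := (fina4_aux7 hf).exists_mem_Ico₀ pi_pos s
    rw [hxy]
    exact h₁ (Ico_subset_Icc_self hy)
  have hb : ∀ s, curv f s ≤ curv f s₂ := by
    intro s
    obtain ⟨y, hy, hxy⟩ := (fina4_aux7 hf).exists_mem_Ico₀ pi_pos s
    rw [hxy]
    exact h₂ (Ico_subset_Icc_self hy)
  have ha0 : 0 < curv f s₁ := (h s₁ s₁).1
  have hb0 : 0 < curv f s₂ := (h s₂ s₂).1
  have hab : curv f s₂ ^ 4 < 2 * curv f s₁ ^ 4 := (h s₂ s₁).2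
  refine ⟨curv f s₂ ^ 4 / curv f s₁ ^ 4, (div_lt_iff₀ (by positivity)).2 hab, ?_⟩
  intro t ht
  have hc : 0 ≤ 1 - cos t := by linarith [cos_le_one t]
  have e1 := fina4_aux9 hf hb θ₀ ht
  have e2 := fina4_aux8 hf ha θ₀ ht
  have e3 : hh f θ₀ t ^ 3 ≤ (curv f s₂ * (1 - cos t)) ^ 3 := by
    rcases le_total 0 (hh f θ₀ t) with h0 | h0
    · exact pow_le_pow_left₀ h0 e1 3
    · have : hh f θ₀ t ^ 3 ≤ 0 := by
        have := mul_nonneg (sq_nonneg (hh f θ₀ t)) (neg_nonneg.2 h0)
        nlinarith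
      exact this.trans (by positivity)
  have e4 : (curv f s₁ * (1 - cos t)) ^ 3 ≤ dd f θ₀ t ^ 3 :=
    pow_le_pow_left₀ (by positivity) e2 3
  have e5 : 0 < curv f (θ₀ + t) := (h _ s₁).1
  calc curv f (θ₀ + t) * hh f θ₀ t ^ 3 ≤ curv f (θ₀ + t) * (curv f s₂ * (1 - cos t)) ^ 3 :=
        mul_le_mul_of_nonneg_left e3 e5.le
    _ ≤ curv f s₂ * (curv f s₂ * (1 - cos t)) ^ 3 :=
        mul_le_mul_of_nonneg_right (hb _) (by positivity)
    _ = curv f s₂ ^ 4 / curv f s₁ ^ 4 * curv f s₁ * (curv f s₁ * (1 - cos t)) ^ 3 := by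
        field_simp
    _ ≤ curv f s₂ ^ 4 / curv f s₁ ^ 4 * curv f θ₀ * (curv f s₁ * (1 - cos t)) ^ 3 := by
        refine mul_le_mul_of_nonneg_right (mul_le_mul_of_nonneg_left (ha _) ?_) ?_ <;> positivity
    _ ≤ curv f s₂ ^ 4 / curv f s₁ ^ 4 * curv f θ₀ * dd f θ₀ t ^ 3 := by
        refine mul_le_mul_of_nonneg_left e4 ?_
        have := (h θ₀ s₁).1
        positivity

end CF
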