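import Pool.Agent.H.MP_1693ff_gt.ProfD

/-!
# Monotonicity in the constants, reflection
-/

namespace CF

open Real Set Filter Topology

theorem Prof.mono {φ φ₁ φ₂ : ℝ → ℝ} {A B R₀ c c' : ℝ} (P : Prof φ φ₁ φ₂ A B R₀ c) (h : c ≤ c') :
    Prof φ φ₁ φ₂ A B R₀ c' where
  d1 := P.d1
  d2 := P.d2
  cont := P.cont
  A0 := P.A0
  R0 := P.R0
  c0 := P.c0.trans_le h
  pos := P.pos
  curv := fun x => (P.curv x).trans (div_le_div_of_nonneg_right h (by positivity))
  r0 := fun x hx => (P.r0 x hx).trans (div_le_div_of_nonneg_right h (by linarith))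
  r1 := fun x hx => (P.r1 x hx).trans (div_le_div_of_nonneg_right h (by positivity))
  l0 := fun x hx => (P.l0 x hx).trans (div_le_div_of_nonneg_right h (by linarith))
  l1 := fun x hx => (P.l1 x hx).trans (div_le_div_of_nonneg_right h (by positivity))

theorem modc2_sqrt (x : ℝ) : |x| ≤ √(1 + x ^ 2) := by
  rw [← Real.sqrt_sq_eq_abs]
  exact Real.sqrt_le_sqrt (by linarith)

theorem Model.mono {φ φ₁ φ₂ g g₁ g₂ : ℝ → ℝ} {R₀ X η c₀ X' η' c₀' : ℝ}
    (M : Model φ φ₁ φ₂ g g₁ g₂ R₀ X η c₀) (hX : X ≤ X') (hη' : 0 < η') (hη : η' ≤ η)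
    (hc' : 0 < c₀') (hc : c₀' ≤ c₀) : Model φ φ₁ φ₂ g g₁ g₂ R₀ X' η' c₀' where
  d1 := M.d1
  d2 := M.d2
  X1 := M.X1.trans hX
  η0 := hη'
  c00 := hc'
  tr := fun x hx => M.tr x (hX.trans hx)
  tr1 := fun x hx => M.tr1 x (hX.trans hx)
  tl := fun x hx => M.tl x (hx.trans (neg_le_neg hX))
  tl1 := fun x hx => M.tl1 x (hx.trans (neg_le_neg hX))
  g2pos := M.g2pos
  g2lt := M.g2lt
  g1neg := M.g1neg
  h1pos := M.h1pos
  lo := fun x => (mul_le_mul_of_nonneg_right hc (by
    linarith [modc2_sqrt x, le_abs_self x])).trans (M.lo x)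
  hlo := fun x => (mul_le_mul_of_nonneg_right hc (by
    linarith [modc2_sqrt x, neg_abs_le x])).trans (M.hlo x)
  bg := fun x => (mul_le_mul_of_nonneg_right hη (by
    have := M.g1neg x
    have h1 : 0 ≤ -g₁ x := by linarith
    positivity)).trans (M.bg x)
  bg' := fun x => (M.bg' x).trans (mul_le_mul_of_nonneg_right (by linarith) (by
    have := M.g1neg x
    have h1 : 0 ≤ -g₁ x := by linarith
    positivity))
  bh := fun x => (mul_le_mul_of_nonneg_right hη (by
    have := (M.h1pos x).le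
    positivity)).trans (M.bh x)
  bh' := fun x => (M.bh' x).trans (mul_le_mul_of_nonneg_right (by linarith) (by
    have := (M.h1pos x).le
    positivity))

theorem modc2_deriv (f : ℝ → ℝ) : deriv (fun θ => f (-θ)) = fun θ => -deriv f (-θ) := by
  funext θ
  exact deriv_comp_neg f θ

theorem modc2_deriv2 (f : ℝ → ℝ) :
    deriv (deriv fun θ => f (-θ)) = fun θ => deriv (deriv f) (-θ) := by
  rw [modc2_deriv]
  funext θ
  have h1 : deriv (fun θ => -deriv f (-θ)) θ = -deriv (fun θ => deriv f (-θ)) θ :=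
    deriv.fun_neg
  rw [h1, deriv_comp_neg (deriv f) θ, neg_neg]

/-- Reflection `θ ↦ -θ` preserves all hypotheses at `0`. -/
theorem smooth_neg {f : ℝ → ℝ} (hf : Smooth f) : Smooth (fun θ => f (-θ)) where
  per := fun θ => by
    have h := hf.per (-(θ + π))
    have h1 : -(θ + π) + π = -θ := by ring
    rw [h1] at h
    exact h.symm
  pos := fun θ => hf.pos (-θ)
  c2 := hf.c2.comp contDiff_neg
  lip := by
    obtain ⟨C, hC⟩ := hf.lip
    refine ⟨C, fun s t => ?_⟩
    rw [modc2_deriv2]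
    have h := hC (-s) (-t)
    have h1 : |(-s) - (-t)| = |s - t| := by
      rw [show (-s) - (-t) = -(s - t) by ring, abs_neg]
    rwa [h1] at h

theorem curv_neg {f : ℝ → ℝ} (hf : Smooth f) (θ : ℝ) : curv (fun θ => f (-θ)) θ = curv f (-θ) := by
  rw [curv, curv, modc2_deriv2]

theorem modc2_per {f : ℝ → ℝ} (hf : ∀ θ, f (θ + π) = f θ) (θ : ℝ) : f (2 * π - θ) = f (-θ) := by
  have h1 := hf (-θ)
  have h2 := hf (-θ + π)
  rw [show 2 * π - θ = -θ + π + π by ring, h2, h1]

theorem modc2_per_deriv {f : ℝ → ℝ} (hf : ∀ θ, f (θ + π) = f θ) (θ : ℝ) :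
    deriv f (θ + π) = deriv f θ := by
  have h1 : deriv (fun x => f (x + π)) θ = deriv f (θ + π) := deriv_comp_add_const f π θ
  rw [← h1]
  congr 1
  funext x
  exact hf x

theorem cond_neg {f : ℝ → ℝ} (hf : Smooth f) (h : Cond f 0) : Cond (fun θ => f (-θ)) 0 := by
  obtain ⟨c, hc, h⟩ := h
  refine ⟨c, hc, fun t ht => ?_⟩
  have hd := modc2_per_deriv hf.per
  have hdd := modc2_per_deriv hd
  have h1 := h (2 * π - t) ⟨by linarith [ht.2], by linarith [ht.1]⟩
  have e1 : curv (fun θ => f (-θ)) (0 + t) = curv f (0 + (2 * π - t)) := by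
    rw [curv_neg hf, curv, curv, zero_add, zero_add, modc2_per hf.per, modc2_per hdd]
  have e2 : curv (fun θ => f (-θ)) 0 = curv f 0 := by
    rw [curv_neg hf, neg_zero]
  have e3 : hh (fun θ => f (-θ)) 0 t = hh f 0 (2 * π - t) := by
    rw [hh, hh, modc2_deriv, cos_two_pi_sub, sin_two_pi_sub]
    simp only [zero_add, neg_zero]
    rw [modc2_per hf.per]
    ring
  have e4 : dd (fun θ => f (-θ)) 0 t = dd f 0 (2 * π - t) := by
    rw [dd, dd, modc2_deriv, cos_two_pi_sub, sin_two_pi_sub]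
    simp only [zero_add, neg_zero]
    rw [modc2_per hf.per, modc2_per hd]
    ring
  rw [e1, e2, e3, e4]
  exact h1

end CF
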