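import Pool.Agent.H.MP_1693ff_gt.ProfD

/-!
# The profile of a function on the circle
-/

namespace CF

open Real Set Filter Topology

theorem profa_per {f : ℝ → ℝ} (h : ∀ θ, f (θ + π) = f θ) (θ : ℝ) :
    deriv f (θ + π) = deriv f θ := by
  have h1 : (fun x => f (x + π)) = f := funext h
  have h2 := deriv_comp_add_const f π θ
  rw [h1] at h2
  exact h2.symm

theorem profa_bdd {f : ℝ → ℝ} (hc : Continuous f) (h : ∀ θ, f (θ + π) = f θ) :
    ∃ C, ∀ θ, |f θ| ≤ C := by
  obtain ⟨C, hC⟩ := (isCompact_Icc (a := (0 : ℝ)) (b := π)).exists_bound_of_continuousOn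
    hc.continuousOn
  refine ⟨C, fun θ => ?_⟩
  have hp : Function.Periodic f π := h
  obtain ⟨y, hy, hy'⟩ := hp.exists_mem_Ico₀ pi_pos θ
  rw [hy']
  exact hC y ⟨hy.1, hy.2.le⟩

/-- common bound for `f`, `f'`, `f''`. -/
def ProfaB (f : ℝ → ℝ) (C : ℝ) : Prop :=
  ∀ θ, |f θ| ≤ C ∧ |deriv f θ| ≤ C ∧ |deriv (deriv f) θ| ≤ C

theorem profa_c1 {f : ℝ → ℝ} (hf : Smooth f) : ContDiff ℝ 1 (deriv f) := by
  have h2 : ContDiff ℝ (1 + 1) f := by
    have : (1 : WithTop ℕ∞) + 1 = 2 := by norm_num
    rw [this]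
    exact hf.c2
  exact (contDiff_succ_iff_deriv.1 h2).2.2

theorem profa_d1 {f : ℝ → ℝ} (hf : Smooth f) (x : ℝ) : HasDerivAt f (deriv f x) x :=
  (hf.c2.differentiable (by norm_num) x).hasDerivAt

theorem profa_d2 {f : ℝ → ℝ} (hf : Smooth f) (x : ℝ) :
    HasDerivAt (deriv f) (deriv (deriv f) x) x :=
  ((profa_c1 hf).differentiable (by norm_num) x).hasDerivAt

theorem profa_cont2 {f : ℝ → ℝ} (hf : Smooth f) : Continuous (deriv (deriv f)) :=
  (profa_c1 hf).continuous_deriv (by norm_num)

theorem profa_exB {f : ℝ → ℝ} (hf : Smooth f) : ∃ C, 0 ≤ C ∧ ProfaB f C := by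
  have p1 := profa_per hf.per
  have p2 := profa_per p1
  obtain ⟨C1, h1⟩ := profa_bdd hf.c2.continuous hf.per
  obtain ⟨C2, h2⟩ := profa_bdd (profa_c1 hf).continuous p1
  obtain ⟨C3, h3⟩ := profa_bdd (profa_cont2 hf) p2
  refine ⟨max C1 (max C2 C3), ?_, fun θ => ⟨?_, ?_, ?_⟩⟩
  · exact ((abs_nonneg _).trans (h1 0)).trans (le_max_left _ _)
  · exact (h1 θ).trans (le_max_left _ _)
  · exact (h2 θ).trans ((le_max_left _ _).trans (le_max_right _ _))
  · exact (h3 θ).trans ((le_max_right _ _).trans (le_max_right _ _))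

theorem profa_mvt {k k' : ℝ → ℝ} {C : ℝ} (hk : ∀ s, HasDerivAt k (k' s) s)
    (hC : ∀ s, |k' s| ≤ C) (s t : ℝ) : |k t - k s| ≤ C * |t - s| := by
  have := Convex.norm_image_sub_le_of_norm_hasDerivWithin_le (f := k) (f' := k') (C := C)
    (s := univ) (x := s) (y := t) (fun x _ => (hk x).hasDerivWithinAt) (fun x _ => hC x)
    convex_univ (mem_univ _) (mem_univ _)
  simpa [Real.norm_eq_abs] using this

theorem profa_quad {k k' : ℝ → ℝ} {C : ℝ} (hC0 : 0 ≤ C) (hk : ∀ s, HasDerivAt k (k' s) s)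
    (hC : ∀ s, |k' s| ≤ C * |s|) {θ : ℝ} (hθ : 0 ≤ θ) : |k θ - k 0| ≤ C * θ ^ 2 := by
  have := Convex.norm_image_sub_le_of_norm_hasDerivWithin_le (f := k) (f' := k') (C := C * θ)
    (s := Icc 0 θ) (x := 0) (y := θ) (fun x _ => (hk x).hasDerivWithinAt) (fun x hx => by
      rw [Real.norm_eq_abs]
      refine (hC x).trans ?_
      rw [abs_of_nonneg hx.1]
      exact mul_le_mul_of_nonneg_left hx.2 hC0)
    (convex_Icc _ _) ⟨le_rfl, hθ⟩ ⟨hθ, le_rfl⟩
  rw [Real.norm_eq_abs, Real.norm_eq_abs, sub_zero, abs_of_nonneg hθ] at this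
  calc |k θ - k 0| ≤ C * θ * θ := this
    _ = C * θ ^ 2 := by ring

theorem profa_sq (x : ℝ) : 0 < √(1 + x ^ 2) := Real.sqrt_pos.2 (by positivity)

theorem profa_sq2 (x : ℝ) : √(1 + x ^ 2) ^ 2 = 1 + x ^ 2 := Real.sq_sqrt (by positivity)

theorem profa_cos (x : ℝ) : cos (π / 2 - arctan x) = x / √(1 + x ^ 2) := by
  rw [Real.cos_pi_div_two_sub, Real.sin_arctan]

theorem profa_sin (x : ℝ) : sin (π / 2 - arctan x) = 1 / √(1 + x ^ 2) := by
  rw [Real.sin_pi_div_two_sub, Real.cos_arctan]

theorem profa_pos (x : ℝ) : 0 < π / 2 - arctan x := sub_pos.2 (arctan_lt_pi_div_two x)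

/-- `arccot x ≤ 1/x`. -/
theorem profa_le {x : ℝ} (hx : 0 < x) : π / 2 - arctan x ≤ 1 / x := by
  rw [← Real.arctan_inv_of_pos hx, one_div]
  have h1 : 0 ≤ arctan x⁻¹ := by
    rw [← Real.arctan_zero]
    exact Real.arctan_strictMono.monotone (by positivity)
  have h2 := Real.le_tan h1 (arctan_lt_pi_div_two _)
  rwa [Real.tan_arctan] at h2

/-- `(1 + x) arccot x ≤ 4`. -/
theorem profa_le4 {x : ℝ} (hx : 0 ≤ x) : π / 2 - arctan x ≤ 4 / (1 + x) := by
  rw [le_div_iff₀ (by positivity)]
  have hp := profa_pos x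
  rcases le_or_gt x 1 with h | h
  · have h1 : 0 ≤ arctan x := by
      rw [← Real.arctan_zero]
      exact Real.arctan_strictMono.monotone hx
    have h2 : π / 2 - arctan x ≤ 2 := by
      have := Real.pi_lt_four
      linarith
    nlinarith
  · have h1 := profa_le (x := x) (by linarith)
    have h2 : (π / 2 - arctan x) * x ≤ 1 := by
      rwa [le_div_iff₀ (by linarith)] at h1
    have h3 : 1 / x ≤ 1 := by
      rw [div_le_one (by linarith)]
      exact h.le
    nlinarith

/-- the estimates at `+∞` -/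
theorem profa_right {f : ℝ → ℝ} (hf : Smooth f) {C : ℝ} (hC0 : 0 ≤ C) (hB : ProfaB f C) {x : ℝ}
    (hx : 1 ≤ x) : |prof f x - (f 0 * x + deriv f 0)| ≤ 6 * C / x ∧
      |prof1 f x - f 0| ≤ 2 * C / x ^ 2 := by
  have hx0 : 0 < x := by linarith
  have hθ := (profa_pos x).le
  have hθx := profa_le hx0
  have hs := profa_sq x
  have hs2 := profa_sq2 x
  have hcos := profa_cos x
  have hsin := profa_sin x
  have hθ2 : (π / 2 - arctan x) ^ 2 ≤ 1 / x ^ 2 := by
    calc (π / 2 - arctan x) ^ 2 ≤ (1 / x) ^ 2 := pow_le_pow_left₀ hθ hθx 2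
      _ = 1 / x ^ 2 := by rw [div_pow, one_pow]
  constructor
  · -- `k = f - f 0 cos - f' 0 sin`
    have hk : ∀ s, HasDerivAt (fun s => f s - f 0 * cos s - deriv f 0 * sin s)
        (deriv f s + f 0 * sin s - deriv f 0 * cos s) s := fun s => by
      have h := ((profa_d1 hf s).sub ((hasDerivAt_cos s).const_mul (f 0))).sub
        ((hasDerivAt_sin s).const_mul (deriv f 0))
      exact h.congr_deriv (by ring)
    have hk' : ∀ s, HasDerivAt (fun s => deriv f s + f 0 * sin s - deriv f 0 * cos s)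
        (deriv (deriv f) s + f 0 * cos s + deriv f 0 * sin s) s := fun s => by
      have h := ((profa_d2 hf s).add ((hasDerivAt_sin s).const_mul (f 0))).sub
        ((hasDerivAt_cos s).const_mul (deriv f 0))
      exact h.congr_deriv (by ring)
    have hb : ∀ s, |deriv (deriv f) s + f 0 * cos s + deriv f 0 * sin s| ≤ 3 * C := fun s => by
      have h1 := (hB s).2.2
      have h2 : |f 0 * cos s| ≤ C := by
        rw [abs_mul]
        calc |f 0| * |cos s| ≤ C * 1 :=
              mul_le_mul (hB 0).1 (abs_cos_le_one s) (abs_nonneg _) hC0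
          _ = C := mul_one C
      have h3 : |deriv f 0 * sin s| ≤ C := by
        rw [abs_mul]
        calc |deriv f 0| * |sin s| ≤ C * 1 :=
              mul_le_mul (hB 0).2.1 (abs_sin_le_one s) (abs_nonneg _) hC0
          _ = C := mul_one C
      have h4 := abs_add_le (deriv (deriv f) s + f 0 * cos s) (deriv f 0 * sin s)
      have h5 := abs_add_le (deriv (deriv f) s) (f 0 * cos s)
      linarith
    have hq : ∀ s, |deriv f s + f 0 * sin s - deriv f 0 * cos s| ≤ 3 * C * |s| := fun s => by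
      have h := profa_mvt hk' hb 0 s
      simp only [sin_zero, mul_zero, add_zero, cos_zero, mul_one, sub_self, sub_zero] at h
      exact h
    have hK := profa_quad (by positivity : 0 ≤ 3 * C) hk hq hθ
    simp only [cos_zero, mul_one, sub_self, sin_zero, mul_zero, sub_zero] at hK
    rw [hcos, hsin] at hK
    have h1 : prof f x - (f 0 * x + deriv f 0) = √(1 + x ^ 2) *
        (f (π / 2 - arctan x) - f 0 * (x / √(1 + x ^ 2)) - deriv f 0 * (1 / √(1 + x ^ 2))) := by
      unfold prof
      field_simp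
      ring
    rw [h1, abs_mul, abs_of_pos hs]
    have h2 : √(1 + x ^ 2) ≤ 2 * x := by
      rw [Real.sqrt_le_left (by positivity)]
      nlinarith
    calc √(1 + x ^ 2) * |f (π / 2 - arctan x) - f 0 * (x / √(1 + x ^ 2)) -
          deriv f 0 * (1 / √(1 + x ^ 2))| ≤ (2 * x) * (3 * C * (1 / x ^ 2)) := by
          refine mul_le_mul h2 (hK.trans ?_) (abs_nonneg _) (by positivity)
          exact mul_le_mul_of_nonneg_left hθ2 (by positivity)
      _ = 6 * C / x := by
          field_simp
          ring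
  · have hk : ∀ s, HasDerivAt (fun s => f s * cos s - deriv f s * sin s)
        (-(curv f s * sin s)) s := fun s => by
      have h := ((profa_d1 hf s).mul (hasDerivAt_cos s)).sub
        ((profa_d2 hf s).mul (hasDerivAt_sin s))
      refine h.congr_deriv ?_
      unfold curv
      ring
    have hq : ∀ s, |-(curv f s * sin s)| ≤ 2 * C * |s| := fun s => by
      rw [abs_neg, abs_mul]
      refine mul_le_mul ?_ (Real.abs_sin_le_abs) (abs_nonneg _) (by positivity)
      have h1 := abs_add_le (f s) (deriv (deriv f) s)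
      have h2 := (hB s).1
      have h3 := (hB s).2.2
      unfold curv
      linarith
    have hK := profa_quad (by positivity : 0 ≤ 2 * C) hk hq hθ
    simp only [cos_zero, mul_one, sin_zero, mul_zero, sub_zero] at hK
    rw [hcos, hsin] at hK
    have h1 : prof1 f x - f 0 = f (π / 2 - arctan x) * (x / √(1 + x ^ 2)) -
        deriv f (π / 2 - arctan x) * (1 / √(1 + x ^ 2)) - f 0 := by
      unfold prof1
      ring
    rw [h1]
    calc _ ≤ 2 * C * (π / 2 - arctan x) ^ 2 := hK
      _ ≤ 2 * C * (1 / x ^ 2) := mul_le_mul_of_nonneg_left hθ2 (by positivity)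
      _ = 2 * C / x ^ 2 := by ring

theorem profa_deriv_neg (f : ℝ → ℝ) (x : ℝ) :
    deriv (fun θ => f (-θ)) x = -deriv f (-x) := by
  simpa using deriv_comp_neg f x

theorem profa_neg {f : ℝ → ℝ} (hf : Smooth f) : Smooth (fun θ => f (-θ)) where
  per θ := by
    have h := hf.per (-θ - π)
    have e : -(θ + π) = -θ - π := by ring
    rw [e, ← h]
    congr 1
    ring
  pos θ := hf.pos _
  c2 := hf.c2.comp contDiff_neg
  lip := by
    obtain ⟨C, hC⟩ := hf.lip
    have h1 : deriv (fun θ => f (-θ)) = fun x => -deriv f (-x) :=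
      funext fun x => profa_deriv_neg f x
    have h2 : deriv (deriv (fun θ => f (-θ))) = fun x => deriv (deriv f) (-x) := by
      rw [h1]
      funext x
      have := profa_deriv_neg (deriv f) x
      rw [deriv.fun_neg, this, neg_neg]
    refine ⟨C, fun s t => ?_⟩
    rw [h2]
    have := hC (-s) (-t)
    have e : |-s - -t| = |s - t| := by rw [← abs_neg]; congr 1; ring
    rwa [e] at this

theorem profa_negB {f : ℝ → ℝ} {C : ℝ} (hB : ProfaB f C) : ProfaB (fun θ => f (-θ)) C := by
  intro θ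
  have h1 : deriv (fun θ => f (-θ)) = fun x => -deriv f (-x) :=
    funext fun x => profa_deriv_neg f x
  have h2 : deriv (deriv (fun θ => f (-θ))) = fun x => deriv (deriv f) (-x) := by
    rw [h1]
    funext x
    have := profa_deriv_neg (deriv f) x
    rw [deriv.fun_neg, this, neg_neg]
  refine ⟨(hB _).1, ?_, ?_⟩
  · rw [h1, abs_neg]
    exact (hB _).2.1
  · rw [h2]
    exact (hB _).2.2

theorem profa_arg (f : ℝ → ℝ) (h : ∀ θ, f (θ + π) = f θ) (x : ℝ) :
    f (π / 2 - arctan x) = f (-(π / 2 - arctan (-x))) := by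
  have h1 := h (-(π / 2 - arctan (-x)))
  rw [← h1, Real.arctan_neg]
  congr 1
  ring

/-- The profile of a smooth even function with `f + f'' > 0`.
Proof. `θ = π/2 - arctan x`, `θ' = -1/(1+x²)`, `cos θ = x/√(1+x²)`, `sin θ = 1/√(1+x²)`.
`curv`: `|curv f θ - curv f 0| ≤ C min(|θ|, |π-θ|)` (Lipschitz and `π`-periodic) and
`θ ≤ 1/x` for `x > 0`, `π - θ ≤ 1/|x|` for `x < 0`; and bounded.
`r1`: `prof1 f x - f 0 = f cos θ - f' sin θ - f 0`; its derivative in `x` is `prof2 f`, which is
`≤ C/x³`, and it tends to `0` at `+∞`; `r0` in the same way by a second integration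
(`prof f x - f 0 x - f' 0 = (f θ - f 0 cos θ - f' 0 sin θ)/sin θ → 0`).
Alternatively use Taylor estimates `|f θ - f 0 - f' 0 θ| ≤ C θ²` directly.
`l0`, `l1`: the same with `θ = π - t`, `f(π - t) = f(-t)`. -/
theorem prof_Prof {f : ℝ → ℝ} (hf : Smooth f) (hR : ∀ θ, 0 < curv f θ) :
    ∃ c, Prof (prof f) (prof1 f) (prof2 f) (f 0) (deriv f 0) (curv f 0) c := by
  obtain ⟨C, hC0, hB⟩ := profa_exB hf
  obtain ⟨L, hL⟩ := hf.lip
  have hL0 : 0 ≤ L := by
    have := (abs_nonneg _).trans (hL 1 0)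
    simpa using this
  -- `curv f` is Lipschitz
  have hlip : ∀ s, |curv f s - curv f 0| ≤ (C + L) * |s| := by
    intro s
    have h1 := profa_mvt (fun x => profa_d1 hf x) (fun x => (hB x).2.1) 0 s
    have h2 := hL s 0
    rw [sub_zero] at h1 h2
    have h3 : curv f s - curv f 0 = (f s - f 0) + (deriv (deriv f) s - deriv (deriv f) 0) := by
      unfold curv
      ring
    rw [h3]
    refine (abs_add_le _ _).trans ?_
    rw [add_mul]
    exact add_le_add h1 h2
  have hcper : ∀ θ, curv f (θ + π) = curv f θ := by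
    intro θ
    unfold curv
    rw [hf.per, profa_per (profa_per hf.per)]
  set c : ℝ := 1 + 6 * C + 4 * (C + L) with hc
  have hc6 : 6 * C ≤ c := by rw [hc]; linarith
  have hc2 : 2 * C ≤ c := by rw [hc]; linarith
  have hc4 : (C + L) * 4 ≤ c := by rw [hc]; linarith
  have hc0 : 0 < c := by rw [hc]; linarith
  have hθd : ∀ x : ℝ, HasDerivAt (fun x => π / 2 - arctan x) (-(1 / (1 + x ^ 2))) x := by
    intro x
    exact (Real.hasDerivAt_arctan x).const_sub (π / 2)
  have hsd : ∀ x : ℝ, HasDerivAt (fun x => √(1 + x ^ 2)) (x / √(1 + x ^ 2)) x := by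
    intro x
    have h1 : HasDerivAt (fun x : ℝ => 1 + x ^ 2) (2 * x) x := by
      have := (hasDerivAt_pow 2 x).const_add 1
      exact this.congr_deriv (by norm_num)
    have h2 := h1.sqrt (by positivity)
    refine h2.congr_deriv ?_
    field_simp
  refine ⟨c, ?_, ?_, ?_, hf.pos 0, hR 0, hc0, ?_, ?_, ?_, ?_, ?_, ?_⟩
  · intro x
    have hs := profa_sq x
    have hs2 := profa_sq2 x
    have h1 : HasDerivAt (fun x => f (π / 2 - arctan x))
        (deriv f (π / 2 - arctan x) * (-(1 / (1 + x ^ 2)))) x :=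
      HasDerivAt.comp (h₂ := f) (h := fun x => π / 2 - arctan x) x
        (profa_d1 hf (π / 2 - arctan x)) (hθd x)
    have h2 := (hsd x).mul h1
    refine h2.congr_deriv ?_
    unfold prof1
    obtain ⟨w, hw⟩ : ∃ w, w = √(1 + x ^ 2) := ⟨_, rfl⟩
    rw [← hw] at hs hs2 ⊢
    rw [← hs2]
    field_simp
    ring
  · intro x
    have hs := profa_sq x
    have hs2 := profa_sq2 x
    have h1 : HasDerivAt (fun x => f (π / 2 - arctan x))
        (deriv f (π / 2 - arctan x) * (-(1 / (1 + x ^ 2)))) x :=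
      HasDerivAt.comp (h₂ := f) (h := fun x => π / 2 - arctan x) x
        (profa_d1 hf (π / 2 - arctan x)) (hθd x)
    have h2 : HasDerivAt (fun x => deriv f (π / 2 - arctan x))
        (deriv (deriv f) (π / 2 - arctan x) * (-(1 / (1 + x ^ 2)))) x :=
      HasDerivAt.comp (h₂ := deriv f) (h := fun x => π / 2 - arctan x) x
        (profa_d2 hf (π / 2 - arctan x)) (hθd x)
    have h3 := ((hasDerivAt_id x).div (hsd x) hs.ne').mul h1
    have h4 := h2.div (hsd x) hs.ne'
    have h5 := h3.sub h4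
    refine (h5.congr_deriv ?_)
    simp only [id, Pi.div_apply]
    unfold prof2 curv
    obtain ⟨w, hw⟩ : ∃ w, w = √(1 + x ^ 2) := ⟨_, rfl⟩
    rw [← hw] at hs hs2 ⊢
    have e2 : x ^ 2 = w ^ 2 - 1 := by rw [hs2]; ring
    rw [← hs2]
    field_simp
    rw [e2]
    ring
  · unfold prof2 curv
    have h1 : Continuous fun x : ℝ => π / 2 - arctan x := by fun_prop
    refine Continuous.div ?_ (by fun_prop) (fun x => (pow_pos (profa_sq x) 3).ne')
    exact (hf.c2.continuous.comp h1).add ((profa_cont2 hf).comp h1)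
  · intro x
    exact div_pos (hR _) (pow_pos (profa_sq x) 3)
  · intro x
    have hs := pow_pos (profa_sq x) 3
    have h1 : prof2 f x * √(1 + x ^ 2) ^ 3 = curv f (π / 2 - arctan x) := by
      unfold prof2
      field_simp
    rw [h1]
    rcases le_or_gt 0 x with h | h
    · rw [abs_of_nonneg h]
      refine (hlip _).trans ?_
      rw [abs_of_pos (profa_pos x)]
      calc (C + L) * (π / 2 - arctan x) ≤ (C + L) * (4 / (1 + x)) :=
            mul_le_mul_of_nonneg_left (profa_le4 h) (by positivity)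
        _ = (C + L) * 4 / (1 + x) := by ring
        _ ≤ c / (1 + x) := div_le_div_of_nonneg_right hc4 (by positivity)
    · rw [abs_of_neg h, profa_arg (curv f) hcper x]
      refine (hlip _).trans ?_
      rw [abs_neg, abs_of_pos (profa_pos (-x))]
      calc (C + L) * (π / 2 - arctan (-x)) ≤ (C + L) * (4 / (1 + -x)) :=
            mul_le_mul_of_nonneg_left (profa_le4 (by linarith)) (by positivity)
        _ = (C + L) * 4 / (1 + -x) := by ring
        _ ≤ c / (1 + -x) := div_le_div_of_nonneg_right hc4 (by linarith)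
  · intro x hx
    refine (profa_right hf hC0 hB hx).1.trans ?_
    exact div_le_div_of_nonneg_right hc6 (by linarith)
  · intro x hx
    refine (profa_right hf hC0 hB hx).2.trans ?_
    exact div_le_div_of_nonneg_right hc2 (by positivity)
  · intro x hx
    have h := (profa_right (profa_neg hf) hC0 (profa_negB hB) (x := -x) (by linarith)).1
    have e : prof f x + (f 0 * x + deriv f 0) = prof (fun θ => f (-θ)) (-x) -
        ((fun θ => f (-θ)) 0 * (-x) + deriv (fun θ => f (-θ)) 0) := by
      rw [profa_deriv_neg]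
      unfold prof
      rw [profa_arg f hf.per x]
      simp only [neg_zero, neg_sq]
      ring
    rw [e]
    refine h.trans ?_
    exact div_le_div_of_nonneg_right hc6 (by linarith)
  · intro x hx
    have h := (profa_right (profa_neg hf) hC0 (profa_negB hB) (x := -x) (by linarith)).2
    have e : prof1 f x + f 0 = -(prof1 (fun θ => f (-θ)) (-x) - (fun θ => f (-θ)) 0) := by
      unfold prof1
      rw [profa_deriv_neg, profa_arg f hf.per x, profa_arg (deriv f) (profa_per hf.per) x]
      simp only [neg_zero, neg_sq]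
      ring
    rw [e, abs_neg]
    refine h.trans ?_
    rw [neg_sq]
    exact div_le_div_of_nonneg_right hc2 (by positivity)

end CF
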