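import Pool.Agent.H.MP_1693ff_gt.ProfD

/-!
# The condition (B) in the chart
-/

namespace CF

open Real Set Filter Topology

theorem profb_per1 {f : ℝ → ℝ} (hf : Smooth f) (θ : ℝ) : deriv f (θ + π) = deriv f θ := by
  have h : (fun x => f (x + π)) = f := funext fun x => hf.per x
  have := deriv_comp_add_const f π θ
  rw [← this]
  exact congrArg (fun g => deriv g θ) h

theorem profb_per2 {f : ℝ → ℝ} (hf : Smooth f) (θ : ℝ) :
    deriv (deriv f) (θ + π) = deriv (deriv f) θ := by
  have h : (fun x => deriv f (x + π)) = deriv f := funext fun x => profb_per1 hf x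
  have := deriv_comp_add_const (deriv f) π θ
  rw [← this]
  exact congrArg (fun g => deriv g θ) h

theorem profb_alg1 {r h d w c R : ℝ} (hw : w ≠ 0) (H : r * h ^ 3 ≤ c * R * d ^ 3) :
    (r / w ^ 3 / 2) * (w * h / 2) ^ 3 ≤ c / 2 * R * (d / 2) ^ 3 := by
  have e1 : (r / w ^ 3 / 2) * (w * h / 2) ^ 3 = r * h ^ 3 / 16 := by
    field_simp
    ring
  have e2 : c / 2 * R * (d / 2) ^ 3 = c * R * d ^ 3 / 16 := by ring
  rw [e1, e2]
  linarith

/-- Condition `Cond f 0` in the chart.
Proof. `(prof f x - f 0 x - f' 0)/2 = hh f 0 θ/(2 sin θ)`, `(prof1 f x - f 0)/2 = -dd f 0 θ/2`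
with `θ = π/2 - arctan x ∈ (0,π)`, and `(prof f x + f 0 x + f' 0)/2 = hh f 0 (θ+π)/(2 sin θ)`,
`(prof1 f x + f 0)/2 = dd f 0 (θ+π)/2`; `prof2 f x = curv f θ sin³ θ`, `curv f (θ+π) = curv f θ`.
The constant is `c/2`. -/
theorem prof_MCond {f : ℝ → ℝ} (hf : Smooth f) (hR : ∀ θ, 0 < curv f θ) (hC : Cond f 0) :
    MCond (prof f) (prof1 f) (prof2 f) (f 0) (deriv f 0) (curv f 0) := by
  obtain ⟨c, hc, H⟩ := hC
  refine ⟨c / 2, by linarith, fun x => ?_⟩
  have hw : 0 < √(1 + x ^ 2) := Real.sqrt_pos.2 (by positivity)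
  have hw0 : √(1 + x ^ 2) ≠ 0 := hw.ne'
  have hlo : -(π / 2) < arctan x := neg_pi_div_two_lt_arctan x
  have hhi : arctan x < π / 2 := arctan_lt_pi_div_two x
  have hcos : cos (π / 2 - arctan x) = x / √(1 + x ^ 2) := by
    rw [cos_pi_div_two_sub, sin_arctan]
  have hsin : sin (π / 2 - arctan x) = 1 / √(1 + x ^ 2) := by
    rw [sin_pi_div_two_sub, cos_arctan]
  have hcos' : cos (π / 2 - arctan x + π) = -(x / √(1 + x ^ 2)) := by
    rw [cos_add_pi, hcos]
  have hsin' : sin (π / 2 - arctan x + π) = -(1 / √(1 + x ^ 2)) := by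
    rw [sin_add_pi, hsin]
  have h1 := H (π / 2 - arctan x) ⟨by linarith, by linarith [pi_pos]⟩
  have h2 := H (π / 2 - arctan x + π) ⟨by linarith [pi_pos], by linarith [pi_pos]⟩
  simp only [zero_add, hh, dd, hcos, hsin, hcos', hsin', curv, hf.per, profb_per1 hf,
    profb_per2 hf] at h1 h2
  simp only [prof, prof1, prof2, curv]
  set θ := π / 2 - arctan x with hθ
  set w := √(1 + x ^ 2) with hwd
  constructor
  · have := profb_alg1 hw0 h1
    have e1 : w * (f θ - f 0 * (x / w) - deriv f 0 * (1 / w)) =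
        w * f θ - f 0 * x - deriv f 0 := by
      field_simp
    have e2 : (f 0 - f θ * (x / w) + deriv f θ * (1 / w)) / 2 =
        -((x / w * f θ - deriv f θ / w - f 0) / 2) := by
      field_simp
      ring
    rw [e1, e2] at this
    exact this
  · have := profb_alg1 hw0 h2
    have e1 : w * (f θ - f 0 * -(x / w) - deriv f 0 * -(1 / w)) =
        w * f θ + f 0 * x + deriv f 0 := by
      field_simp
      ring
    have e2 : (f 0 - f θ * -(x / w) + deriv f θ * -(1 / w)) / 2 =
        (x / w * f θ - deriv f θ / w + f 0) / 2 := by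
      field_simp
      ring
    rw [e1, e2] at this
    exact this

end CF
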