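import Pool.Agent.H.MP_1693ff_gt.ModC1
import Pool.Agent.H.MP_1693ff_gt.ModC2
import Pool.Agent.H.MP_1693ff_gt.ProfA
import Pool.Agent.H.MP_1693ff_gt.ProfB

/-!
# Existence of the set-up
-/

namespace CF

open Real Set Filter Topology

theorem prof_even {f : ℝ → ℝ} (h : Smooth f) (he : ∀ θ, f (-θ) = f θ) (x : ℝ) :
    prof f (-x) = prof f x := by
  unfold prof
  rw [neg_sq, Real.arctan_neg]
  congr 1
  rw [← he, ← h.per]
  congr 1
  ring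

theorem deriv_even {f : ℝ → ℝ} (h : Smooth f) (he : ∀ θ, f (-θ) = f θ) : deriv f 0 = 0 := by
  have h1 : HasDerivAt f (deriv f 0) 0 := (h.c2.differentiable (by norm_num) 0).hasDerivAt
  have h2 : HasDerivAt (fun θ => f (-θ)) (deriv f 0 * -1) 0 := by
    have h3 : HasDerivAt f (deriv f 0) (-0) := by rw [neg_zero]; exact h1
    exact h3.comp (0 : ℝ) (hasDerivAt_neg (0 : ℝ))
  have h4 : (fun θ => f (-θ)) = f := funext he
  rw [h4] at h2
  have := h1.unique h2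
  linarith

/-- Existence of the set-up. -/
theorem exists_setup {f₁ f₂ : ℝ → ℝ} (h₁ : Smooth f₁) (h₂ : Smooth f₂) (r₁ : ∀ θ, 0 < curv f₁ θ)
    (r₂ : ∀ θ, 0 < curv f₂ θ) (hR : curv f₁ 0 = curv f₂ 0) (c₁ : Cond f₁ 0) (c₂ : Cond f₂ 0) :
    ∃ S : Setup, S.φ = prof f₁ ∧ S.φ₁ = prof1 f₁ ∧ S.ψ = prof (fun θ => f₂ (-θ)) ∧
      S.ψ₁ = prof1 (fun θ => f₂ (-θ)) ∧ S.A = f₁ 0 ∧ S.A' = f₂ 0 ∧ S.R₀ = curv f₁ 0 ∧
      ((∀ θ, f₁ (-θ) = f₁ θ) → (∀ x, S.φ (-x) = S.φ x) ∧ ∀ x, S.φ x - S.g x = S.g (-x)) ∧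
      ((∀ θ, f₂ (-θ) = f₂ θ) → (∀ x, S.ψ (-x) = S.ψ x) ∧ ∀ x, S.ψ x - S.k x = S.k (-x)) := by
  have h₂' := smooth_neg h₂
  have r₂' : ∀ θ, 0 < curv (fun θ => f₂ (-θ)) θ := fun θ => by
    rw [curv_neg h₂]; exact r₂ _
  have c₂' := cond_neg h₂ c₂
  obtain ⟨c, P⟩ := prof_Prof h₁ r₁
  obtain ⟨c', Q⟩ := prof_Prof h₂' r₂'
  have hM := prof_MCond h₁ r₁ c₁
  have hN := prof_MCond h₂' r₂' c₂'
  have e1 : curv (fun θ => f₂ (-θ)) 0 = curv f₁ 0 := by rw [curv_neg h₂, neg_zero, hR]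
  rw [e1] at Q hN
  obtain ⟨g, g₁, g₂, X, η, c₀, M, hgs⟩ := exists_model P hM
  obtain ⟨k, k₁, k₂, X', η', c₀', N, hks⟩ := exists_model Q hN
  refine ⟨{ φ := prof f₁, φ₁ := prof1 f₁, φ₂ := prof2 f₁, g := g, g₁ := g₁, g₂ := g₂,
            ψ := prof (fun θ => f₂ (-θ)), ψ₁ := prof1 (fun θ => f₂ (-θ)),
            ψ₂ := prof2 (fun θ => f₂ (-θ)), k := k, k₁ := k₁, k₂ := k₂,
            A := f₁ 0, B := deriv f₁ 0, A' := f₂ 0, B' := deriv (fun θ => f₂ (-θ)) 0,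
            R₀ := curv f₁ 0, c := max c c', X := max X X', η := min η η', c₀ := min c₀ c₀',
            P := P.mono (le_max_left _ _)
            Q := by simpa using Q.mono (le_max_right c c')
            M := M.mono (le_max_left _ _) (lt_min M.η0 N.η0) (min_le_left _ _)
              (lt_min M.c00 N.c00) (min_le_left _ _)
            N := N.mono (le_max_right _ _) (lt_min M.η0 N.η0) (min_le_right _ _)
              (lt_min M.c00 N.c00) (min_le_right _ _) }, rfl, rfl, rfl, rfl, rfl, rfl, rfl, ?_, ?_⟩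
  · intro he
    have e1 := prof_even h₁ he
    exact ⟨e1, hgs e1 (deriv_even h₁ he)⟩
  · intro he
    have he' : ∀ θ, (fun θ => f₂ (-θ)) (-θ) = (fun θ => f₂ (-θ)) θ := fun θ => by
      simp only [he]
    have e1 := prof_even h₂' he'
    exact ⟨e1, hks e1 (deriv_even h₂' he')⟩

end CF
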