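import Pool.Agent.H.MP_1693ff_gt.Nec3a

/-!
# Part (A), step 3b: the boundary relation
-/

namespace CF

open Real Set Filter Topology

theorem nec3b_nhds {E : Type*} [NormedAddCommGroup E] [NormedSpace ℝ E] {K : Set E}
    {p : E} (hp : p ∈ interior K) : {x : E | p + x ∈ K} ∈ 𝓝 (0 : E) := by
  have h1 : K ∈ 𝓝 p := mem_interior_iff_mem_nhds.1 hp
  have h2 : Tendsto (fun x : E => p + x) (𝓝 0) (𝓝 p) := by
    have : Continuous fun x : E => p + x := by fun_prop
    simpa using this.tendsto 0
  exact h2 h1

theorem nec3b_convex {E : Type*} [NormedAddCommGroup E] [NormedSpace ℝ E] {K : Set E}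
    (hK : Convex ℝ K) (p : E) : Convex ℝ {x : E | p + x ∈ K} := by
  intro x hx y hy a b ha hb hab
  have h := hK hx hy ha hb hab
  have e : p + (a • x + b • y) = a • (p + x) + b • (p + y) := by
    have : p = (a + b) • p := by rw [hab, one_smul]
    calc p + (a • x + b • y) = (a + b) • p + (a • x + b • y) := by rw [← this]
      _ = a • (p + x) + b • (p + y) := by
          rw [add_smul, smul_add, smul_add]
          abel
  show p + (a • x + b • y) ∈ K
  rw [e]
  exact h

theorem nec3b_eq_one {E : Type*} [NormedAddCommGroup E] [NormedSpace ℝ E] {K : Set E}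
    (hK : Convex ℝ K) {p : E} (hp : p ∈ interior K) (x : E) :
    gauge {x : E | p + x ∈ K} x = 1 ↔ p + x ∈ frontier K := by
  rw [gauge_eq_one_iff_mem_frontier (nec3b_convex hK p) (nec3b_nhds hp)]
  have h := (Homeomorph.addLeft p).preimage_frontier K
  have h2 : (Homeomorph.addLeft p) ⁻¹' K = {x : E | p + x ∈ K} := rfl
  rw [← h2, ← h]
  rfl

/-- The boundary relation: `gauge = 1` characterises the frontier, seen from both points. -/
theorem ngauge_rel {E : Type*} [NormedAddCommGroup E] [InnerProductSpace ℝ E] {K : Set E}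
    (hK : IsBody K) {p u w : E} {D : ℝ} (hp : p ∈ interior K) (hp' : p + D • u ∈ interior K)
    (a b : ℝ) : ngauge K p u w a b = 1 ↔ ngauge K (p + D • u) u w (a - D) b = 1 := by
  unfold ngauge
  rw [nec3b_eq_one hK.1 hp, nec3b_eq_one hK.1 hp']
  have e : p + D • u + ((a - D) • u + b • w) = p + (a • u + b • w) := by
    rw [sub_smul]
    abel
  rw [e]

/-- The second interior point: `gauge < 1`. -/
theorem ngauge_lt_one {E : Type*} [NormedAddCommGroup E] [InnerProductSpace ℝ E] {K : Set E}
    (hK : IsBody K) {p u w : E} {a b : ℝ} (hp : p ∈ interior K)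
    (hp' : p + (a • u + b • w) ∈ interior K) : ngauge K p u w a b < 1 := by
  unfold ngauge
  rw [gauge_lt_one_iff_mem_interior (nec3b_convex hK.1 p) (nec3b_nhds hp)]
  have h := (Homeomorph.addLeft p).preimage_interior K
  have h2 : (Homeomorph.addLeft p) ⁻¹' K = {x : E | p + x ∈ K} := rfl
  rw [← h2, ← h]
  exact hp'

end CF
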