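import Pool.Agent.H.MP_1693ff_gt.Nec1
import Pool.Agent.H.MP_1693ff_gt.Nec3b

/-!
# Part (A)
-/

namespace CF

open Real Set Filter Topology Asymptotics

/-- **Part (A).** -/
theorem partA {n : ℕ} (K : Set (EuclideanSpace ℝ (Fin n))) (p₁ p₂ w : EuclideanSpace ℝ (Fin n))
    (hK : IsBody K) (h₁ : p₁ ∈ interior K) (h₂ : p₂ ∈ interior K) (hne : p₁ ≠ p₂)
    (hw : ‖w‖ = 1) (horth : inner ℝ w (p₂ - p₁) = 0) (a₁ b₁ c₁ a₂ b₂ c₂ : ℝ)
    (e₁ : (fun t : ℝ => chord (-1) K p₁ (cos t • (‖p₂ - p₁‖⁻¹ • (p₂ - p₁)) + sin t • w) -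
      (a₁ + b₁ * t + c₁ * t ^ 2 / 2)) =o[𝓝 0] fun t : ℝ => t ^ 2)
    (e₂ : (fun t : ℝ => chord (-1) K p₂ (cos t • (‖p₂ - p₁‖⁻¹ • (p₂ - p₁)) + sin t • w) -
      (a₂ + b₂ * t + c₂ * t ^ 2 / 2)) =o[𝓝 0] fun t : ℝ => t ^ 2) :
    a₁ + c₁ = a₂ + c₂ := by
  set D : ℝ := ‖p₂ - p₁‖ with hDdef
  have hD : 0 < D := norm_pos_iff.mpr (sub_ne_zero.mpr (Ne.symm hne))
  set u : EuclideanSpace ℝ (Fin n) := D⁻¹ • (p₂ - p₁) with hudef
  have hDu : D • u = p₂ - p₁ := by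
    rw [hudef, smul_smul, mul_inv_cancel₀ hD.ne', one_smul]
  have hu : ‖u‖ = 1 := by
    rw [hudef, norm_smul, norm_inv, Real.norm_of_nonneg hD.le, ← hDdef,
      inv_mul_cancel₀ hD.ne']
  have huw : inner ℝ w u = 0 := by
    rw [hudef, inner_smul_right, horth, mul_zero]
  have hp2 : p₁ + D • u = p₂ := by rw [hDu]; abel
  have key : (a₁ + c₁) / 2 = (a₂ + c₂) / 2 := by
    refine nec_core hD (ngauge_sub hK h₁ hu hw huw) (ngauge_sub hK h₂ hu hw huw)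
      (n₁ := ngauge K p₁ u w) (n₂ := ngauge K p₂ u w) ?_ ?_ ?_ (A₁ := a₁) (B₁ := b₁)
      (A₂ := a₂) (B₂ := b₂) ?_ ?_
    · refine ngauge_lt_one hK h₁ ?_
      simpa [hp2] using h₂
    · refine ngauge_lt_one hK h₂ ?_
      have : p₂ + ((-D) • u + (0 : ℝ) • w) = p₁ := by
        rw [← hp2]; simp
      rw [this]; exact h₁
    · intro a b
      have := ngauge_rel (w := w) hK h₁ (by rw [hp2]; exact h₂) (u := u) (D := D) a b
      rwa [hp2] at this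
    · have h := nec_expand (fun t => chord (-1) K p₁ (cos t • u + sin t • w)) a₁ b₁ c₁ e₁
      refine h.congr' ?_
      filter_upwards [eventually_gt_atTop 0] with x hx
      rw [ngauge_chord hK h₁ hu hw huw hx]
    · have h := nec_expand (fun t => chord (-1) K p₂ (cos t • u + sin t • w)) a₂ b₂ c₂ e₂
      refine h.congr' ?_
      filter_upwards [eventually_gt_atTop 0] with x hx
      rw [ngauge_chord hK h₂ hu hw huw hx]
  linarith

end CF
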