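import Pool.Agent.H.MP_1693ff_gt.Defs

/-!
# Symmetric curves
-/

namespace CF

open Real Set Filter Topology

theorem syma_even {f f' : ℝ → ℝ} (hd : ∀ x, HasDerivAt f (f' x) x) (he : ∀ x, f (-x) = f x)
    (x : ℝ) : f' (-x) = -f' x := by
  have h1 : HasDerivAt (fun x => f (-x)) (f' (-x) * (-1)) x :=
    (hd (-x)).comp x (hasDerivAt_neg x)
  have h2 : (fun x => f (-x)) = f := funext he
  rw [h2] at h1
  have h3 := h1.unique (hd x)
  linarith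

theorem syma_refl {f f' g g' : ℝ → ℝ} (hf : ∀ x, HasDerivAt f (f' x) x)
    (hg : ∀ x, HasDerivAt g (g' x) x) (he : ∀ x, f x - g x = g (-x)) (x : ℝ) :
    f' x - g' x = -g' (-x) := by
  have h1 : HasDerivAt (fun x => g (-x)) (g' (-x) * (-1)) x :=
    (hg (-x)).comp x (hasDerivAt_neg x)
  have h2 : (fun x => g (-x)) = fun x => f x - g x := funext fun x => (he x).symm
  rw [h2] at h1
  have h3 := ((hf x).sub (hg x)).unique h1
  linarith

/-- the five symmetry relations -/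
def SymaQ (F₁ x y s : ℝ → ℝ) (τ : ℝ) : Prop :=
  x (-1 - τ) = -x τ ∧ y (1 - τ) = -y τ ∧ y (-1 - τ) = -y (τ + 2) ∧
    s (-1 - τ) + F₁ (x (-1 - τ)) = s τ ∧ s (-1 - τ) = s τ + F₁ (x τ)

theorem SymaQ.refl {F₁ x y s : ℝ → ℝ} {τ : ℝ} (h : SymaQ F₁ x y s τ) :
    SymaQ F₁ x y s (-1 - τ) := by
  obtain ⟨h1, h2, h3, h4, h5⟩ := h
  have e0 : -1 - (-1 - τ) = τ := by ring
  have e1 : 1 - (-1 - τ) = τ + 2 := by ring
  have e2 : -1 - τ + 2 = 1 - τ := by ring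
  refine ⟨?_, ?_, ?_, ?_, ?_⟩
  · rw [e0, h1, neg_neg]
  · rw [e1, h3, neg_neg]
  · rw [e0, e2, h2, neg_neg]
  · rw [e0]
    exact h5.symm
  · rw [e0]
    exact h4.symm

theorem SymaQ.step {F F₁ E E₁ x y s : ℝ → ℝ} (C : Curve F F₁ E E₁ x y s)
    (hF : ∀ x, F (-x) = F x) (hF1 : ∀ x, F₁ (-x) = -F₁ x) (hE : ∀ x, E (-x) = E x)
    (hE1 : ∀ x, E₁ (-x) = -E₁ x) {τ : ℝ} (h : SymaQ F₁ x y s τ) :
    SymaQ F₁ x y s (τ + 2) := by
  obtain ⟨h1, h2, h3, h4, h5⟩ := h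
  have e0 : -1 - (τ + 2) = -3 - τ := by ring
  have e1 : 1 - (τ + 2) = -1 - τ := by ring
  have e2 : -3 - τ + 2 = -1 - τ := by ring
  have hx := C.shx (-3 - τ)
  have hy := C.shy (-3 - τ)
  have hs := C.shs (-3 - τ)
  rw [e2] at hx hy hs
  have hx' := C.shx τ
  have hy' := C.shy τ
  have hs' := C.shs τ
  rw [← hy] at hx hs
  rw [← hy'] at hx' hs'
  have k1 : x (-3 - τ) = -x (τ + 2) := by
    have k2 : x (-3 - τ) = x (-1 - τ) - E (y (-1 - τ)) := by linarith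
    rw [k2, h1, h3, hE, hx']
    ring
  have k3 : s (-3 - τ) + F₁ (x (-3 - τ)) = s (τ + 2) := by
    have k4 : (s (-3 - τ) + F₁ (x (-3 - τ)))⁻¹ = (s (τ + 2))⁻¹ := by
      rw [hs', ← h5]
      rw [h3, hE1] at hs
      linarith
    exact inv_injective k4
  refine ⟨?_, ?_, ?_, ?_, ?_⟩
  · rw [e0]
    exact k1
  · rw [e1]
    exact h3
  · rw [e0, C.shy (τ + 2)]
    have k5 : y (-3 - τ) = y (-1 - τ) + F (x (-3 - τ)) := by linarith
    rw [k5, h3, k1, hF]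
    ring
  · rw [e0]
    exact k3
  · rw [e0]
    rw [k1, hF1] at k3
    linarith

theorem SymaQ.all {F F₁ E E₁ x y s : ℝ → ℝ} (C : Curve F F₁ E E₁ x y s)
    (hF : ∀ x, F (-x) = F x) (hF1 : ∀ x, F₁ (-x) = -F₁ x) (hE : ∀ x, E (-x) = E x)
    (hE1 : ∀ x, E₁ (-x) = -E₁ x) (h : ∀ τ ∈ Ico (-1 : ℝ) 1, SymaQ F₁ x y s τ) (τ : ℝ) :
    SymaQ F₁ x y s τ := by
  have hup : ∀ (n : ℕ) (τ : ℝ), SymaQ F₁ x y s τ → SymaQ F₁ x y s (τ + 2 * n) := by
    intro n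
    induction n with
    | zero => intro τ h; simpa using h
    | succ n ih =>
      intro τ h
      have h2 := (ih τ h).step C hF hF1 hE hE1
      have h3 : τ + 2 * (n : ℝ) + 2 = τ + 2 * ((n + 1 : ℕ) : ℝ) := by
        push_cast
        ring
      rwa [h3] at h2
  have hdown : ∀ (n : ℕ) (τ : ℝ), SymaQ F₁ x y s τ → SymaQ F₁ x y s (τ - 2 * n) := by
    intro n τ h
    have h2 := (hup n _ h.refl).refl
    have h3 : -1 - (-1 - τ + 2 * (n : ℝ)) = τ - 2 * n := by ring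
    rwa [h3] at h2
  obtain ⟨k, hk⟩ : ∃ k : ℤ, k = ⌊(τ + 1) / 2⌋ := ⟨_, rfl⟩
  have h1 : (k : ℝ) ≤ (τ + 1) / 2 := by
    rw [hk]
    exact Int.floor_le _
  have h2 : (τ + 1) / 2 < k + 1 := by
    rw [hk]
    exact Int.lt_floor_add_one _
  have h3 : SymaQ F₁ x y s (τ - 2 * k) := h _ ⟨by linarith, by linarith⟩
  rcases Int.eq_nat_or_neg k with ⟨n, hn | hn⟩
  · have h4 := hup n _ h3
    have h5 : τ - 2 * (k : ℝ) + 2 * (n : ℝ) = τ := by
      rw [hn]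
      push_cast
      ring
    rwa [h5] at h4
  · have h4 := hdown n _ h3
    have h5 : τ - 2 * (k : ℝ) - 2 * (n : ℝ) = τ := by
      rw [hn]
      push_cast
      ring
    rwa [h5] at h4

/-- If both profiles are even and the models symmetric, the curve is symmetric:
`x (-1-τ) = -x τ`, `y (1-τ) = -y τ`, `sH (-1-τ) = s τ`  (`sH τ = s τ + F₁ (x τ)`).
Proof. From `φ x - g x = g (-x)` (all `x`) by differentiation (`M.d1`, `P.d1`)
`φ₁ x - g₁ x = -g₁ (-x)`, and `φ₁ (-x) = -φ₁ x` (derivative of an even function); same for `ψ, k`.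
Put `Q τ := x (-1-τ) = -x τ ∧ y (1-τ) = -y τ ∧ y (-1-τ) = -y (τ+2) ∧
  s (-1-τ) + F₁ (x (-1-τ)) = s τ ∧ s (-1-τ) = s τ + F₁ (x τ)`.
(i) `Q τ ↔ Q (-1-τ)`: plain rewriting (second and third swap, fourth and fifth swap, using `F₁` odd).
(ii) `Q τ` for `τ ∈ [-1,0]`: both `τ` and `-1-τ` are in `[-1,0]`, `x τ = q(2τ+1)`,
`y (1-τ) = y (-1-τ) - F (x (-1-τ))` (`shy`) `= d g(-x) - d φ(-x) = -d g(x) = -y τ`;
the third follows from the second and `shy`: `y (-1-τ) = y (1-τ) + F (x (-1-τ)) = -y τ + F (x τ)`;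
`s = -d g₁(x)` gives the fourth and fifth.
(iii) `Q τ` for `τ ∈ [0,1]`: `1-τ ∈ [0,1]`, `y τ = q(1-2τ)` so `y (1-τ) = -y τ`;
`x (-1-τ) = x (1-τ) - E (y (1-τ))` (`shx`, `shy` at `-1-τ`) `= d k(-y) - d ψ(-y) = -d k(y) = -x τ`;
`shs` at `-1-τ`: `(s (1-τ))⁻¹ = (sH (-1-τ))⁻¹ - E₁ (y (1-τ))`, `s τ = (-d k₁(y))⁻¹`, so
`(sH (-1-τ))⁻¹ = -d k₁(-y) + d ψ₁(-y) = -d k₁(y) = (s τ)⁻¹`.
(iv) `Q τ → Q (τ+2)` by `shx`, `shy`, `shs` (at `τ`, at `-1-τ` and at `-3-τ`).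
(v) `Q τ → Q (τ-2)` by (i), (iv), (i). Then every `τ` is in `[-1,1] + 2ℤ`
(e.g. `Int.induction_on`, or `n = ⌊(τ+1)/2⌋`). -/
theorem curve_sym (S : Setup) {q : ℝ} (hq : 0 < q) {x y s : ℝ → ℝ}
    (C : Curve (S.F q) (S.F₁ q) (S.E q) (S.E₁ q) x y s)
    (hb : ∀ t ∈ Icc (-1 : ℝ) 1,
      x t = (S.base q t).x ∧ y t = (S.base q t).y ∧ s t = (S.base q t).s)
    (e1 : ∀ x, S.φ (-x) = S.φ x) (e2 : ∀ x, S.φ x - S.g x = S.g (-x))
    (e3 : ∀ x, S.ψ (-x) = S.ψ x) (e4 : ∀ x, S.ψ x - S.k x = S.k (-x)) (τ : ℝ) :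
    x (-1 - τ) = -x τ ∧ y (1 - τ) = -y τ ∧ s (-1 - τ) + S.F₁ q (x (-1 - τ)) = s τ ∧
      s (-1 - τ) = s τ + S.F₁ q (x τ) := by
  have f1 : ∀ x, S.φ₁ (-x) = -S.φ₁ x := syma_even S.P.d1 e1
  have f2 : ∀ x, S.φ₁ x - S.g₁ x = -S.g₁ (-x) := syma_refl S.P.d1 S.M.d1 e2
  have f3 : ∀ x, S.ψ₁ (-x) = -S.ψ₁ x := syma_even S.Q.d1 e3
  have f4 : ∀ x, S.ψ₁ x - S.k₁ x = -S.k₁ (-x) := syma_refl S.Q.d1 S.N.d1 e4
  have hF : ∀ x, S.F q (-x) = S.F q x := fun x => by rw [Setup.F, Setup.F, e1]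
  have hF1 : ∀ x, S.F₁ q (-x) = -S.F₁ q x := fun x => by rw [Setup.F₁, Setup.F₁, f1]; ring
  have hE : ∀ x, S.E q (-x) = S.E q x := fun x => by rw [Setup.E, Setup.E, e3]
  have hE1 : ∀ x, S.E₁ q (-x) = -S.E₁ q x := fun x => by rw [Setup.E₁, Setup.E₁, f3]; ring
  have hmain : ∀ τ ∈ Ico (-1 : ℝ) 1, SymaQ (S.F₁ q) x y s τ := by
    intro τ hτ
    rcases le_or_gt τ 0 with h0 | h0
    · -- the first half of the fundamental arc
      have hb1 := hb τ ⟨hτ.1, by linarith⟩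
      have hb2 := hb (-1 - τ) ⟨by linarith, by linarith [hτ.1]⟩
      rw [Setup.base, if_pos h0] at hb1
      rw [Setup.base, if_pos (by linarith [hτ.1])] at hb2
      simp only [Setup.base1] at hb1 hb2
      obtain ⟨x1, y1, s1⟩ := hb1
      obtain ⟨x2, y2, s2⟩ := hb2
      have e : q * (2 * (-1 - τ) + 1) = -(q * (2 * τ + 1)) := by ring
      rw [e] at x2 y2 s2
      set X := q * (2 * τ + 1) with hX
      have k1 := e2 X
      have k2 := e2 (-X)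
      have k3 := f2 X
      have k4 := f2 (-X)
      rw [neg_neg] at k2 k4
      have hy1 := C.shy (-1 - τ)
      rw [show -1 - τ + 2 = 1 - τ by ring] at hy1
      have hy2 := C.shy τ
      refine ⟨?_, ?_, ?_, ?_, ?_⟩
      · rw [x2, x1]
      · rw [hy1, y1, y2, x2, Setup.F]
        linear_combination (-S.dist q) * k2
      · rw [hy2, y1, y2, x1, Setup.F]
        linear_combination (-S.dist q) * k1
      · rw [s1, s2, x2, Setup.F₁]
        linear_combination S.dist q * k4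
      · rw [s1, s2, x1, Setup.F₁]
        linear_combination (-S.dist q) * k3
    · -- the second half
      have hb1 := hb τ ⟨hτ.1, hτ.2.le⟩
      have hb2 := hb (1 - τ) ⟨by linarith [hτ.2], by linarith⟩
      rw [Setup.base, if_neg (by linarith)] at hb1
      rw [Setup.base, if_neg (by linarith [hτ.2])] at hb2
      simp only [Setup.base2] at hb1 hb2
      obtain ⟨x1, y1, s1⟩ := hb1
      obtain ⟨x2, y2, s2⟩ := hb2
      have e : q * (1 - 2 * (1 - τ)) = -(q * (1 - 2 * τ)) := by ring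
      rw [e] at x2 y2 s2
      set Y := q * (1 - 2 * τ) with hY
      have k2 := e4 (-Y)
      have k4 := f4 (-Y)
      rw [neg_neg] at k2 k4
      have hy1 := C.shy (-1 - τ)
      have hx1 := C.shx (-1 - τ)
      have hs1 := C.shs (-1 - τ)
      rw [show -1 - τ + 2 = 1 - τ by ring] at hy1 hx1 hs1
      rw [← hy1] at hx1 hs1
      have r1 : x (-1 - τ) = -x τ := by
        have r2 : x (-1 - τ) = x (1 - τ) - S.E q (y (1 - τ)) := by linarith
        rw [r2, x2, y2, x1, Setup.E]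
        linear_combination (-S.dist q) * k2
      have r3 : s (-1 - τ) + S.F₁ q (x (-1 - τ)) = s τ := by
        apply inv_injective
        rw [s2, inv_inv, y2, Setup.E₁] at hs1
        rw [s1, inv_inv]
        linear_combination -hs1 + S.dist q * k4
      refine ⟨r1, ?_, ?_, r3, ?_⟩
      · rw [y1, y2]
      · rw [C.shy τ]
        have r4 : y (-1 - τ) = y (1 - τ) + S.F q (x (-1 - τ)) := by linarith
        rw [r4, r1, hF, y1, y2]
        ring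
      · rw [r1, hF1] at r3
        linarith
  have h := SymaQ.all C hF hF1 hE hE1 hmain τ
  exact ⟨h.1, h.2.1, h.2.2.2.1, h.2.2.2.2⟩

end CF
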