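import Pool.Agent.H.MP_1693ff_gt.Defs

/-!
# The body of a symmetric curve is symmetric
-/

namespace CF

open Real Set Filter Topology

/-- Reflection of the body in the axis.  For `τ`, the first condition for `(w₀,-w₁)` is the
second condition for `(w₀,w₁)` at `-1-τ`, and conversely
(`y (-1-τ) - F (x (-1-τ)) = y (1-τ)` by `shy` at `-1-τ`). -/
theorem body_sym {F F' E E' x y s : ℝ → ℝ} (C : Curve F F' E E' x y s)
    (h : ∀ τ, x (-1 - τ) = -x τ ∧ y (1 - τ) = -y τ ∧ s (-1 - τ) + F' (x (-1 - τ)) = s τ ∧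
      s (-1 - τ) = s τ + F' (x τ)) {w : Pl} (hw : w ∈ body F F' x y s) :
    !₂[w 0, -w 1] ∈ body F F' x y s := by
  intro τ
  have h0 := h τ
  have h1 := hw (-1 - τ)
  have h2 := C.shy (-1 - τ)
  have h3 := C.shy τ
  have h4 := (h (τ + 2)).2.1
  have e1 : -1 - τ + 2 = 1 - τ := by ring
  have e2 : 1 - (τ + 2) = -1 - τ := by ring
  rw [e1, h0.2.1] at h2
  rw [e2, h3] at h4
  obtain ⟨h5, h6⟩ := h1
  rw [h0.2.2.1, ← h2, h0.1] at h6
  rw [h0.2.2.2, h4, h0.1] at h5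
  have w0 : (!₂[w 0, -w 1] : Pl) 0 = w 0 := rfl
  have w1 : (!₂[w 0, -w 1] : Pl) 1 = -w 1 := rfl
  rw [w0, w1]
  constructor
  · linarith
  · linarith

end CF
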