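import Pool.Agent.H.MP_1693ff_gt.FinA1
import Pool.Agent.H.MP_1693ff_gt.FinA2
import Pool.Agent.H.MP_1693ff_gt.FinA3
import Pool.Agent.H.MP_1693ff_gt.FinA4
import Pool.Agent.H.MP_1693ff_gt.Nec3
import Pool.Agent.H.MP_1693ff_gt.ModC
import Pool.Agent.H.MP_1693ff_gt.CurveB
import Pool.Agent.H.MP_1693ff_gt.Asym3
import Pool.Agent.H.MP_1693ff_gt.BodyB
import Pool.Agent.H.MP_1693ff_gt.SymA
import Pool.Agent.H.MP_1693ff_gt.SymB

/-!
# Parts (B) and (C)
-/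

namespace CF

open Real Set Filter Topology Pointwise

theorem prof_cot {f : ℝ → ℝ} {θ : ℝ} (hθ : θ ∈ Ioo 0 π) :
    sin θ * prof f (cos θ / sin θ) = f θ := by
  have hs : 0 < sin θ := Real.sin_pos_of_mem_Ioo hθ
  have h1 : √(1 + (cos θ / sin θ) ^ 2) = 1 / sin θ := by
    have : 1 + (cos θ / sin θ) ^ 2 = (1 / sin θ) ^ 2 := by
      field_simp
      linarith [Real.sin_sq_add_cos_sq θ]
    rw [this, Real.sqrt_sq (by positivity)]
  have h2 : arctan (cos θ / sin θ) = π / 2 - θ := by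
    have : cos θ / sin θ = tan (π / 2 - θ) := by
      rw [Real.tan_eq_sin_div_cos, Real.sin_pi_div_two_sub, Real.cos_pi_div_two_sub]
    rw [this, Real.arctan_tan (by linarith [hθ.2]) (by linarith [hθ.1])]
  unfold prof
  rw [h1, h2, sub_sub_cancel]
  field_simp

/-- Part (B) for `θ₀ = 0`. -/
theorem partB_zero {f₁ f₂ : ℝ → ℝ} (h₁ : Smooth f₁) (h₂ : Smooth f₂) (r₁ : ∀ θ, 0 < curv f₁ θ)
    (r₂ : ∀ θ, 0 < curv f₂ θ) (hR : curv f₁ 0 = curv f₂ 0) (c₁ : Cond f₁ 0) (c₂ : Cond f₂ 0) :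
    ∃ D : ℝ, 0 < D ∧ ∀ d : ℝ, D ≤ d → ∃ K, Pair f₁ f₂ K 0 (d • ev 0) ∧
      ((∀ θ, f₁ (-θ) = f₁ θ) → (∀ θ, f₂ (-θ) = f₂ θ) → ∀ w ∈ K, !₂[w 0, -w 1] ∈ K) := by
  obtain ⟨S, e1, e2, e3, e4, eA, eA', eR, sy1, sy2⟩ := exists_setup h₁ h₂ r₁ r₂ hR c₁ c₂
  obtain ⟨q₀, hq₀, H⟩ := exists_curve S
  have hR0 : 0 < S.R₀ := S.P.R0
  refine ⟨4 * q₀ ^ 2 / S.R₀, div_pos (by have : (0:ℝ) < q₀ := lt_of_lt_of_le one_pos hq₀; positivity) hR0, fun d hd => ?_⟩
  have hd0 : 0 < d := lt_of_lt_of_le (div_pos (by have : (0:ℝ) < q₀ := lt_of_lt_of_le one_pos hq₀; positivity) hR0) hd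
  set q := √(d * S.R₀ / 4) with hq
  have hqsq : q ^ 2 = d * S.R₀ / 4 := by rw [hq]; exact Real.sq_sqrt (by positivity)
  have hqq : q ≥ q₀ := by
    rw [hq]
    apply Real.le_sqrt_of_sq_le
    have := (div_le_iff₀ hR0).1 hd
    linarith
  have hdist : S.dist q = d := by
    unfold Setup.dist
    rw [hqsq]
    field_simp
  obtain ⟨X, Y, Sl, C, hbase⟩ := H q hqq
  obtain ⟨m, M, C', hMm, hmM⟩ := curve' S (le_trans hq₀ hqq) C
  obtain ⟨b1, b2, b3, b4⟩ := body_chord C'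
  have hi := body_interior C'
  rw [hdist] at hMm hmM
  have key : Pair (fun θ => d * f₁ θ) (fun θ => d * f₂ θ)
      (body (S.F q) (S.F₁ q) X Y Sl) 0 (ev 0) := by
    refine ⟨body_isBody C', hi.1, hi.2, ?_, ?_⟩
    · have hs : Smooth (fun θ => d * f₁ θ) := by
        refine ⟨fun θ => by simp only [h₁.per], fun θ => mul_pos hd0 (h₁.pos θ),
          contDiff_const.mul h₁.c2, ?_⟩
        obtain ⟨Cl, hCl⟩ := h₁.lip
        refine ⟨d * Cl, fun s t => ?_⟩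
        have e : deriv (deriv fun θ => d * f₁ θ) = fun θ => d * deriv (deriv f₁) θ := by
          have : (deriv fun θ => d * f₁ θ) = fun θ => d * deriv f₁ θ := by
            funext θ; simp
          rw [this]; funext θ; simp
        rw [e]
        simp only
        rw [← mul_sub, abs_mul, abs_of_pos hd0, mul_assoc]
        exact mul_le_mul_of_nonneg_left (hCl s t) hd0.le
      refine chord_per hs ?_ fun θ hθ => ?_
      · rw [b2, hMm, eA]
      · rw [b1 θ hθ]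
        unfold Setup.F
        rw [hdist, e1]
        have := prof_cot (f := f₁) hθ
        rw [← this]; ring
    · have hs : Smooth (fun θ => d * f₂ θ) := by
        refine ⟨fun θ => by simp only [h₂.per], fun θ => mul_pos hd0 (h₂.pos θ),
          contDiff_const.mul h₂.c2, ?_⟩
        obtain ⟨Cl, hCl⟩ := h₂.lip
        refine ⟨d * Cl, fun s t => ?_⟩
        have e : deriv (deriv fun θ => d * f₂ θ) = fun θ => d * deriv (deriv f₂) θ := by
          have : (deriv fun θ => d * f₂ θ) = fun θ => d * deriv f₂ θ := by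
            funext θ; simp
          rw [this]; funext θ; simp
        rw [e]
        simp only
        rw [← mul_sub, abs_mul, abs_of_pos hd0, mul_assoc]
        exact mul_le_mul_of_nonneg_left (hCl s t) hd0.le
      refine chord_per hs ?_ fun θ hθ => ?_
      · rw [b4, hmM, eA']
      · rw [b3 θ hθ]
        unfold Setup.E
        rw [hdist, e3]
        have hθ' : π - θ ∈ Ioo 0 π := ⟨by linarith [hθ.2], by linarith [hθ.1]⟩
        have h := prof_cot (f := fun θ => f₂ (-θ)) hθ'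
        rw [Real.sin_pi_sub, Real.cos_pi_sub, neg_div] at h
        have h3 : f₂ (-(π - θ)) = f₂ θ := by
          have := h₂.per (-(π - θ))
          rw [← this]; congr 1; ring
        simp only [h3] at h
        rw [← h]; ring
  have := pair_smul hd0 key
  rw [smul_zero] at this
  refine ⟨_, this, fun ev1 ev2 w hw => ?_⟩
  have hq0 : 0 < q := lt_of_lt_of_le (lt_of_lt_of_le one_pos hq₀) hqq
  have hsym := curve_sym S hq0 C hbase (sy1 ev1).1 (sy1 ev1).2 (sy2 ev2).1 (sy2 ev2).2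
  obtain ⟨z, hz, rfl⟩ := Set.mem_smul_set.1 hw
  refine Set.mem_smul_set.2 ⟨_, body_sym C hsym hz, ?_⟩
  ext i
  fin_cases i <;> simp

/-- **Part (B).** -/
theorem partB {f₁ f₂ : ℝ → ℝ} (h₁ : Smooth f₁) (h₂ : Smooth f₂) (r₁ : ∀ θ, 0 < curv f₁ θ)
    (r₂ : ∀ θ, 0 < curv f₂ θ) {θ₀ : ℝ} (hR : curv f₁ θ₀ = curv f₂ θ₀) (c₁ : Cond f₁ θ₀)
    (c₂ : Cond f₂ θ₀) : ∃ D : ℝ, 0 < D ∧ ∀ d : ℝ, D ≤ d → ∃ K, Pair f₁ f₂ K 0 (d • ev θ₀) := by
  obtain ⟨D, hD, H⟩ := partB_zero (smooth_shift h₁ θ₀) (smooth_shift h₂ θ₀)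
    (fun θ => by rw [curv_shift h₁]; exact r₁ _) (fun θ => by rw [curv_shift h₂]; exact r₂ _)
    (by rw [curv_shift h₁, curv_shift h₂, add_zero]; exact hR) (cond_shift h₁ c₁)
    (cond_shift h₂ c₂)
  refine ⟨D, hD, fun d hd => ?_⟩
  obtain ⟨K, hK, _⟩ := H d hd
  exact pair_rot hK

/-- Necessity in the plane. -/
theorem planar_nec {f₁ f₂ : ℝ → ℝ} (h₁ : Smooth f₁) (h₂ : Smooth f₂) {θ₀ : ℝ}
    (h : ∃ (K : Set Pl) (p₁ p₂ : Pl) (d : ℝ), 0 < d ∧ p₂ = p₁ + d • ev θ₀ ∧ Pair f₁ f₂ K p₁ p₂) :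
    curv f₁ θ₀ = curv f₂ θ₀ := by
  obtain ⟨K, p₁, p₂, d, hd, rfl, hK, hp₁, hp₂, g₁, g₂⟩ := h
  have hsub : p₁ + d • ev θ₀ - p₁ = d • ev θ₀ := by abel
  have hnorm : ‖p₁ + d • ev θ₀ - p₁‖ = d := by
    rw [hsub, norm_smul, norm_ev, mul_one, Real.norm_of_nonneg hd.le]
  have hu : ‖p₁ + d • ev θ₀ - p₁‖⁻¹ • (p₁ + d • ev θ₀ - p₁) = ev θ₀ := by
    rw [hnorm, hsub, smul_smul, inv_mul_cancel₀ hd.ne', one_smul]
  have key := partA K p₁ (p₁ + d • ev θ₀) (ev (θ₀ + π / 2)) hK hp₁ hp₂ (by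
    intro h
    have : d • ev θ₀ = 0 := by simpa using h.symm
    rw [smul_eq_zero] at this
    rcases this with h | h
    · exact hd.ne' h
    · have := norm_ev θ₀
      rw [h, norm_zero] at this
      exact zero_ne_one this) (norm_ev _) (by
    rw [hsub, inner_smul_right, inner_ev, mul_zero])
    (f₁ θ₀) (deriv f₁ θ₀) (deriv (deriv f₁) θ₀) (f₂ θ₀) (deriv f₂ θ₀) (deriv (deriv f₂) θ₀)
    (by
      rw [hu]
      refine (peano h₁ θ₀).congr_left fun t => ?_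
      rw [ev_add, g₁]) (by
      rw [hu]
      refine (peano h₂ θ₀).congr_left fun t => ?_
      rw [ev_add, g₂])
  exact key

/-- The condition of the theorems: the explicit inequality `Cond`, or pinching. -/
theorem adm_cond {f : ℝ → ℝ} (h : Smooth f) (r : ∀ θ, 0 < curv f θ) {θ₀ : ℝ}
    (c : Cond f θ₀ ∨ ∀ s t, curv f s ^ 4 < 2 * curv f t ^ 4) : Cond f θ₀ := by
  rcases c with c | c
  · exact c
  · exact pinch_cond h (fun s t => ⟨r s, c s t⟩) θ₀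

end CF
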