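import Pool.Agent.H.MP_1693ff_gt.RevD

/-!
# Bodies of revolution: convexity, compactness
-/

namespace CF

open Real Set Filter Topology

variable {n : ℕ}

/-- `rz e` is continuous and `‖rz e z‖ = ‖z‖` (Pythagoras). -/
theorem rz_cont (e : EuclideanSpace ℝ (Fin n)) : Continuous (rz e) := by
  unfold rz
  refine (PiLp.continuous_toLp 2 _).comp (continuous_pi fun i => ?_)
  fin_cases i
  · show Continuous fun z => (inner ℝ e z : ℝ)
    fun_prop
  · show Continuous fun z => ‖z - (inner ℝ e z : ℝ) • e‖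
    fun_prop

theorem reva_pyth {e : EuclideanSpace ℝ (Fin n)} (he : ‖e‖ = 1) (z : EuclideanSpace ℝ (Fin n)) :
    ‖z - (inner ℝ e z : ℝ) • e‖ ^ 2 = ‖z‖ ^ 2 - (inner ℝ e z : ℝ) ^ 2 := by
  rw [norm_sub_sq_real, norm_smul, he, inner_smul_right, real_inner_comm e z,
    Real.norm_eq_abs, mul_one, sq_abs]
  ring

theorem rz_norm {e : EuclideanSpace ℝ (Fin n)} (he : ‖e‖ = 1) (z : EuclideanSpace ℝ (Fin n)) :
    ‖rz e z‖ = ‖z‖ := by
  rw [EuclideanSpace.norm_eq, Fin.sum_univ_two]
  have e0 : (rz e z) 0 = inner ℝ e z := rfl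
  have e1 : (rz e z) 1 = ‖z - (inner ℝ e z : ℝ) • e‖ := rfl
  rw [e0, e1, norm_norm, reva_pyth he, Real.norm_eq_abs, sq_abs, add_sub_cancel,
    Real.sqrt_sq (norm_nonneg _)]

theorem reva_mem {K : Set Pl} (hK : Convex ℝ K) (hs : ∀ w ∈ K, !₂[w 0, -w 1] ∈ K) {w : Pl}
    (hw : w ∈ K) {r : ℝ} (h0 : 0 ≤ r) (h1 : r ≤ w 1) {v : Pl} (hv0 : v 0 = w 0) (hv1 : v 1 = r) :
    v ∈ K := by
  have hw' := hs w hw
  rcases (h0.trans h1).eq_or_lt with h | h
  · have : v = w := by
      ext i
      fin_cases i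
      · exact hv0
      · show v 1 = w 1
        rw [hv1]
        linarith
    rw [this]
    exact hw
  · set t := (1 + r / w 1) / 2 with ht
    have hr : r / w 1 ≤ 1 := (div_le_one h).2 h1
    have hr0 : 0 ≤ r / w 1 := div_nonneg h0 h.le
    have hrw : r / w 1 * w 1 = r := div_mul_cancel₀ _ h.ne'
    have key := hK hw hw' (a := t) (b := 1 - t) (by positivity) (by rw [ht]; linarith) (by ring)
    have : v = t • w + (1 - t) • (!₂[w 0, -w 1] : Pl) := by
      ext i
      fin_cases i
      · show v 0 = t * w 0 + (1 - t) * w 0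
        rw [hv0]
        ring
      · show v 1 = t * w 1 + (1 - t) * (-w 1)
        rw [hv1]
        calc r = r / w 1 * w 1 := hrw.symm
          _ = _ := by rw [ht]; ring
    rw [this]
    exact key

theorem reva_axis {e : EuclideanSpace ℝ (Fin n)} (he : ‖e‖ = 1) (a : ℝ) :
    rz e (a • e) = a • ev 0 := by
  have h1 : (inner ℝ e (a • e) : ℝ) = a := by
    rw [inner_smul_right, real_inner_self_eq_norm_sq, he]
    ring
  ext i
  fin_cases i
  · show (inner ℝ e (a • e) : ℝ) = a * cos 0
    rw [h1, cos_zero, mul_one]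
  · show ‖a • e - (inner ℝ e (a • e) : ℝ) • e‖ = a * sin 0
    rw [h1, sin_zero, mul_zero, sub_self, norm_zero]

/-- For a symmetric planar body the body of revolution is a convex body.
Convexity: for `z, z'` in it, `rz e (a z + b z')` has first coordinate
`a x + b x'` and second coordinate `ρ ∈ [0, a r + b r']`
(triangle inequality for the orthogonal components); `(a x + b x', a r + b r') ∈ K` by convexity,
its reflection is in `K`, hence so is everything between.
Compactness: closed (preimage under a continuous map) and bounded (`rz_norm`).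
Interior: `rz e (a • e) = (a, 0)` and the preimage of `interior K` is open. -/
theorem rev_body {e : EuclideanSpace ℝ (Fin n)} (he : ‖e‖ = 1) {K : Set Pl} (hK : IsBody K)
    (hs : ∀ w ∈ K, !₂[w 0, -w 1] ∈ K) {a b : ℝ} (ha : a • ev 0 ∈ interior K)
    (hb : b • ev 0 ∈ interior K) :
    IsBody (rev e K) ∧ a • e ∈ interior (rev e K) ∧ b • e ∈ interior (rev e K) := by
  obtain ⟨hconv, hcomp, -⟩ := hK
  have hint : ∀ c : ℝ, c • ev 0 ∈ interior K → c • e ∈ interior (rev e K) := by
    intro c hc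
    rw [mem_interior]
    have hsub : rz e ⁻¹' interior K ⊆ rev e K := fun z hz => (interior_subset hz : rz e z ∈ K)
    refine ⟨rz e ⁻¹' interior K, hsub, isOpen_interior.preimage (rz_cont e), ?_⟩
    show rz e (c • e) ∈ interior K
    rw [reva_axis he]
    exact hc
  refine ⟨⟨?_, ?_, ⟨a • e, hint a ha⟩⟩, hint a ha, hint b hb⟩
  · intro z hz z' hz' s t hs0 ht0 hst
    have hp := hconv (x := rz e z) hz (y := rz e z') hz' hs0 ht0 hst
    have hin : (inner ℝ e (s • z + t • z') : ℝ) = s * inner ℝ e z + t * inner ℝ e z' := by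
      rw [inner_add_right, inner_smul_right, inner_smul_right]
    refine reva_mem hconv hs hp (r := ‖(s • z + t • z') - (inner ℝ e (s • z + t • z') : ℝ) • e‖)
      (norm_nonneg _) ?_ ?_ rfl
    · show _ ≤ s * ‖z - (inner ℝ e z : ℝ) • e‖ + t * ‖z' - (inner ℝ e z' : ℝ) • e‖
      have h2 : (s • z + t • z') - (inner ℝ e (s • z + t • z') : ℝ) • e =
          s • (z - (inner ℝ e z : ℝ) • e) + t • (z' - (inner ℝ e z' : ℝ) • e) := by
        rw [hin]
        module
      rw [h2]
      refine (norm_add_le _ _).trans (le_of_eq ?_)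
      rw [norm_smul, norm_smul, Real.norm_of_nonneg hs0, Real.norm_of_nonneg ht0]
    · show (inner ℝ e (s • z + t • z') : ℝ) = s * inner ℝ e z + t * inner ℝ e z'
      exact hin
  · refine Metric.isCompact_of_isClosed_isBounded (hcomp.isClosed.preimage (rz_cont e)) ?_
    obtain ⟨R, hR⟩ := hcomp.isBounded.exists_norm_le
    rw [isBounded_iff_forall_norm_le]
    refine ⟨R, fun z hz => ?_⟩
    rw [← rz_norm he z]
    exact hR _ hz

end CF
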