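import Pool.Agent.H.MP_1693ff_gt.RevD

/-!
# Bodies of revolution: chord functions
-/

namespace CF

open Real Set Filter Topology

variable {n : ℕ}

theorem revb_norm {e u : EuclideanSpace ℝ (Fin n)} (he : ‖e‖ = 1) (hu : ‖u‖ = 1) :
    ‖u - (inner ℝ e u : ℝ) • e‖ = √(1 - (inner ℝ e u : ℝ) ^ 2) := by
  have h : ‖u - (inner ℝ e u : ℝ) • e‖ ^ 2 = 1 - (inner ℝ e u : ℝ) ^ 2 := by
    rw [norm_sub_sq_real, norm_smul, he, hu, inner_smul_right, real_inner_comm e u,
      Real.norm_eq_abs, mul_one, sq_abs, real_inner_comm u e]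
    ring
  rw [← h, Real.sqrt_sq (norm_nonneg _)]

theorem revb_rz {e u : EuclideanSpace ℝ (Fin n)} (he : ‖e‖ = 1) (hu : ‖u‖ = 1) (a : ℝ) {c : ℝ}
    (hc : 0 ≤ c) :
    rz e (a • e + c • u) = !₂[a + c * inner ℝ e u, c * √(1 - (inner ℝ e u : ℝ) ^ 2)] := by
  have h1 : (inner ℝ e (a • e + c • u) : ℝ) = a + c * inner ℝ e u := by
    rw [inner_add_right, inner_smul_right, inner_smul_right, real_inner_self_eq_norm_sq, he]
    ring
  unfold rz
  rw [h1]
  have h2 : a • e + c • u - (a + c * inner ℝ e u) • e = c • (u - (inner ℝ e u : ℝ) • e) := by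
    rw [smul_sub, smul_smul, add_smul]
    abel
  rw [h2, norm_smul, revb_norm he hu, Real.norm_of_nonneg hc]

/-- For `c ≥ 0`: `rz e (a • e + c • u) = a • ev 0 + c • rz e u`; for `‖u‖ = 1`,
`rz e u = ev (arccos ⟪e,u⟫)` (`sin (arccos t) = √(1 - t²)`). Hence the sets in the definition of
`radial` agree. For `-u`: `rz e (-u)` is the reflection in the axis of `-(rz e u)`, and `K` is
symmetric. -/
theorem rev_chord {e : EuclideanSpace ℝ (Fin n)} (he : ‖e‖ = 1) {K : Set Pl}
    (hs : ∀ w ∈ K, !₂[w 0, -w 1] ∈ K) (a i : ℝ) {u : EuclideanSpace ℝ (Fin n)} (hu : ‖u‖ = 1) :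
    chord i (rev e K) (a • e) u = chord i K (a • ev 0) (ev (arccos (inner ℝ e u))) := by
  have ht := abs_real_inner_le_norm e u
  rw [he, hu, mul_one, abs_le] at ht
  have hcos : cos (arccos (inner ℝ e u)) = inner ℝ e u := cos_arccos ht.1 ht.2
  have hsin : sin (arccos (inner ℝ e u)) = √(1 - (inner ℝ e u : ℝ) ^ 2) := sin_arccos _
  have hR : ∀ c : ℝ, a • ev 0 + c • ev (arccos (inner ℝ e u)) =
      !₂[a + c * inner ℝ e u, c * √(1 - (inner ℝ e u : ℝ) ^ 2)] := by
    intro c
    unfold ev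
    rw [hcos, hsin]
    ext j
    fin_cases j <;> simp
  have hA : radial (rev e K) (a • e) u = radial K (a • ev 0) (ev (arccos (inner ℝ e u))) := by
    unfold radial
    congr 1
    ext c
    simp only [Set.mem_ofPred_eq]
    refine and_congr_right fun hc => ?_
    rw [hR c, ← revb_rz he hu a hc]
    rfl
  have hB : radial (rev e K) (a • e) (-u) = radial K (a • ev 0) (-ev (arccos (inner ℝ e u))) := by
    unfold radial
    congr 1
    ext c
    simp only [Set.mem_ofPred_eq]
    refine and_congr_right fun hc => ?_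
    have h1 : a • ev 0 + c • -ev (arccos (inner ℝ e u)) =
        !₂[a - c * inner ℝ e u, -(c * √(1 - (inner ℝ e u : ℝ) ^ 2))] := by
      have h2 := hR (-c)
      rw [smul_neg, ← neg_smul, h2]
      ext j
      fin_cases j <;> simp [sub_eq_add_neg]
    have hu' : ‖-u‖ = 1 := by rw [norm_neg, hu]
    have h3 := revb_rz he hu' a hc
    rw [inner_neg_right, neg_sq, mul_neg, ← sub_eq_add_neg] at h3
    have h4 : a • e + c • -u ∈ rev e K ↔ rz e (a • e + c • -u) ∈ K := Iff.rfl
    rw [h4, h3, h1]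
    constructor
    · intro h
      have := hs _ h
      simpa using this
    · intro h
      have := hs _ h
      simpa using this
  unfold chord
  rw [hA, hB]

end CF
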