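import Pool.Agent.H.MP_1693ff_gt.FinB
import Pool.Agent.H.MP_1693ff_gt.RevA
import Pool.Agent.H.MP_1693ff_gt.RevB

/-!
# Axially symmetric pairs in all dimensions
-/

namespace CF

open Real Set Filter Topology Asymptotics

variable {n : ℕ}

/-- Existence for axially symmetric pairs, for all large distances. -/
theorem partD_exists {f₁ f₂ : ℝ → ℝ} (h₁ : Smooth f₁) (h₂ : Smooth f₂)
    (s₁ : ∀ θ, f₁ (-θ) = f₁ θ) (s₂ : ∀ θ, f₂ (-θ) = f₂ θ) (r₁ : ∀ θ, 0 < curv f₁ θ)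
    (r₂ : ∀ θ, 0 < curv f₂ θ) (hR : curv f₁ 0 = curv f₂ 0) (c₁ : Cond f₁ 0) (c₂ : Cond f₂ 0) :
    ∃ D : ℝ, 0 < D ∧ ∀ d : ℝ, D ≤ d → ∀ e : EuclideanSpace ℝ (Fin n), ‖e‖ = 1 →
      ∃ K : Set (EuclideanSpace ℝ (Fin n)), PairAx f₁ f₂ e K 0 (d • e) := by
  obtain ⟨D, hD, H⟩ := partB_zero h₁ h₂ r₁ r₂ hR c₁ c₂
  refine ⟨D, hD, fun d hd e he => ?_⟩
  obtain ⟨K, ⟨hK, p1, p2, g1, g2⟩, hs⟩ := H d hd
  have hs' := hs s₁ s₂
  have p1' : (0 : ℝ) • ev 0 ∈ interior K := by rw [zero_smul]; exact p1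
  obtain ⟨b, i1, i2⟩ := rev_body he hK hs' p1' p2
  rw [zero_smul] at i1
  refine ⟨rev e K, b, i1, i2, fun u hu => ?_, fun u hu => ?_⟩
  · have := rev_chord he hs' 0 (-1) hu
    rw [zero_smul, zero_smul, g1] at this
    exact this
  · rw [rev_chord he hs' d (-1) hu, g2]

/-- A unit vector orthogonal to a given one in dimension at least two. -/
theorem exists_orth (hn : 2 ≤ n) (e : EuclideanSpace ℝ (Fin n)) :
    ∃ w : EuclideanSpace ℝ (Fin n), ‖w‖ = 1 ∧ inner ℝ w e = 0 := by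
  have h1 : Module.finrank ℝ (ℝ ∙ e : Submodule ℝ (EuclideanSpace ℝ (Fin n))) ≤ 1 := by
    have := finrank_span_le_card (R := ℝ) ({e} : Set (EuclideanSpace ℝ (Fin n)))
    simpa using this
  have h2 : Module.finrank ℝ (ℝ ∙ e : Submodule ℝ (EuclideanSpace ℝ (Fin n))) +
      Module.finrank ℝ (ℝ ∙ e : Submodule ℝ (EuclideanSpace ℝ (Fin n)))ᗮ = n := by
    rw [Submodule.finrank_add_finrank_orthogonal]
    simp
  have h3 : 0 < Module.finrank ℝ (ℝ ∙ e : Submodule ℝ (EuclideanSpace ℝ (Fin n)))ᗮ := by omega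
  obtain ⟨v, hv⟩ := Module.finrank_pos_iff_exists_ne_zero.1 h3
  have hv0 : (v : EuclideanSpace ℝ (Fin n)) ≠ 0 := fun h => hv (Subtype.ext h)
  refine ⟨‖(v : EuclideanSpace ℝ (Fin n))‖⁻¹ • (v : EuclideanSpace ℝ (Fin n)), ?_, ?_⟩
  · rw [norm_smul, norm_inv, norm_norm, inv_mul_cancel₀ (norm_ne_zero_iff.2 hv0)]
  · rw [real_inner_smul_left, real_inner_comm,
      (Submodule.mem_orthogonal_singleton_iff_inner_right.1 v.2), mul_zero]

/-- Necessity for axially symmetric pairs. -/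
theorem axial_nec (hn : 2 ≤ n) {e : EuclideanSpace ℝ (Fin n)} (he : ‖e‖ = 1) {f₁ f₂ : ℝ → ℝ}
    (h₁ : Smooth f₁) (h₂ : Smooth f₂)
    (s₁ : ∀ θ, f₁ (-θ) = f₁ θ) (s₂ : ∀ θ, f₂ (-θ) = f₂ θ)
    (h : ∃ (K : Set (EuclideanSpace ℝ (Fin n))) (p₁ p₂ : EuclideanSpace ℝ (Fin n)) (d : ℝ),
      0 < d ∧ p₂ = p₁ + d • e ∧ PairAx f₁ f₂ e K p₁ p₂) : curv f₁ 0 = curv f₂ 0 := by
  obtain ⟨K, p₁, p₂, d, hd, rfl, hK, hp₁, hp₂, g₁, g₂⟩ := h
  obtain ⟨w, hw1, hw0⟩ := exists_orth hn e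
  have hsub : p₁ + d • e - p₁ = d • e := by abel
  have hnorm : ‖p₁ + d • e - p₁‖ = d := by
    rw [hsub, norm_smul, he, mul_one, Real.norm_of_nonneg hd.le]
  have hu : ‖p₁ + d • e - p₁‖⁻¹ • (p₁ + d • e - p₁) = e := by
    rw [hnorm, hsub, smul_smul, inv_mul_cancel₀ hd.ne', one_smul]
  have hwe : inner ℝ e w = 0 := by rw [real_inner_comm]; exact hw0
  have hunit : ∀ t : ℝ, ‖cos t • e + sin t • w‖ = 1 := by
    intro t
    have h : ‖cos t • e + sin t • w‖ ^ 2 = 1 := by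
      rw [norm_add_sq_real, norm_smul, norm_smul, he, hw1, real_inner_smul_left,
        real_inner_smul_right, hwe]
      simp only [mul_one, mul_zero, add_zero, Real.norm_eq_abs, sq_abs]
      exact Real.cos_sq_add_sin_sq t
    have h0 := norm_nonneg (cos t • e + sin t • w)
    nlinarith
  have hin : ∀ t : ℝ, inner ℝ e (cos t • e + sin t • w) = cos t := by
    intro t
    rw [inner_add_right, real_inner_smul_right, real_inner_smul_right, hwe,
      real_inner_self_eq_norm_sq, he]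
    ring
  have hval : ∀ f : ℝ → ℝ, (∀ θ, f (-θ) = f θ) → ∀ᶠ t : ℝ in 𝓝 0,
      f (arccos (cos t)) = f (0 + t) := by
    intro f hf
    filter_upwards [Ioo_mem_nhds (show -π < (0:ℝ) by linarith [Real.pi_pos])
      Real.pi_pos] with t ht
    rcases le_total 0 t with h | h
    · rw [Real.arccos_cos h ht.2.le, zero_add]
    · rw [← Real.cos_neg, Real.arccos_cos (by linarith) (by linarith [ht.1]), hf, zero_add]
  have key := partA K p₁ (p₁ + d • e) w hK hp₁ hp₂ (by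
    intro h
    have : d • e = 0 := by simpa using h.symm
    rw [smul_eq_zero] at this
    rcases this with h | h
    · exact hd.ne' h
    · rw [h, norm_zero] at he
      exact zero_ne_one he) hw1 (by
    rw [hsub, inner_smul_right, hw0, mul_zero])
    (f₁ 0) (deriv f₁ 0) (deriv (deriv f₁) 0) (f₂ 0) (deriv f₂ 0) (deriv (deriv f₂) 0)
    (by
      rw [hu]
      refine (peano h₁ 0).congr' ?_ (EventuallyEq.refl _ _)
      filter_upwards [hval f₁ s₁] with t ht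
      rw [g₁ _ (hunit t), hin, ht]) (by
      rw [hu]
      refine (peano h₂ 0).congr' ?_ (EventuallyEq.refl _ _)
      filter_upwards [hval f₂ s₂] with t ht
      rw [g₂ _ (hunit t), hin, ht])
  exact key

end CF
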