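import Pool.Agent.H.MP_1693ff_gt.PieceD

/-!
# The forward half of the curve: definition
-/

namespace CF

open Real Set Filter Topology

/-- The forward half of the curve. -/
structure HalfC (S : Setup) (q : ℝ) (x y s : ℝ → ℝ) : Prop where
  base : ∀ t ∈ Icc (-1 : ℝ) 1,
    x t = (S.base q t).x ∧ y t = (S.base q t).y ∧ s t = (S.base q t).s
  cx : ContinuousOn x (Ici (-1))
  cy : ContinuousOn y (Ici (-1))
  xmono : StrictMonoOn x (Ici (-1))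
  s0 : ∀ t, -1 ≤ t → 0 < s t
  sH0 : ∀ t, -1 ≤ t → 0 < s t + S.F₁ q (x t)
  shx : ∀ t, -1 ≤ t → x (t + 2) = x t + S.E q (y t - S.F q (x t))
  shy : ∀ t, -1 ≤ t → y (t + 2) = y t - S.F q (x t)
  shs : ∀ t, -1 ≤ t → (s (t + 2))⁻¹ = (s t + S.F₁ q (x t))⁻¹ - S.E₁ q (y t - S.F q (x t))
  relG : ∀ t t', -1 ≤ t → t ≤ t' → RelG (x t) (y t) (s t) (x t') (y t') (s t')
  relH : ∀ t t', -1 ≤ t → t ≤ t' → RelH (x t) (y t - S.F q (x t)) (s t + S.F₁ q (x t))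
    (x t') (y t' - S.F q (x t')) (s t' + S.F₁ q (x t'))
  pos : ∀ t, -1 ≤ t → 0 < x t + y t
  neg : ∀ t, -1 ≤ t → x t + (y t - S.F q (x t)) < 0
  xtop : Tendsto x atTop atTop
  ytop : Tendsto y atTop atBot

end CF
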