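import Pool.Agent.H.MP_1693ff_gt.Defs

/-!
# The normalised half step
-/

namespace CF

open Real Set Filter Topology

/-- One end of a profile, as a function of the positive variable `X = |x|`. -/
structure Tail (p p₁ p₂ : ℝ → ℝ) (A β R₀ c : ℝ) : Prop where
  A0 : 0 < A
  R0 : 0 < R₀
  c0 : 0 < c
  t0 : ∀ X, 1 ≤ X → |p X - (A * X + β)| ≤ c / X
  t1 : ∀ X, 1 ≤ X → |p₁ X - A| ≤ c / X ^ 2
  t2 : ∀ X, 1 ≤ X → |p₂ X * √(1 + X ^ 2) ^ 3 - R₀| ≤ c / X

/-- right end of `φ`. -/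
theorem Prof.tail_right {φ φ₁ φ₂ : ℝ → ℝ} {A B R₀ c : ℝ} (P : Prof φ φ₁ φ₂ A B R₀ c) :
    Tail φ φ₁ φ₂ A B R₀ c := by
  refine ⟨P.A0, P.R0, P.c0, P.r0, P.r1, fun X hX => ?_⟩
  refine (P.curv X).trans ?_
  rw [abs_of_nonneg (by linarith)]
  exact div_le_div_of_nonneg_left P.c0.le (by linarith) (by linarith)

/-- left end of `ψ`, in the variable `X = -x`. -/
theorem Prof.tail_left {φ φ₁ φ₂ : ℝ → ℝ} {A B R₀ c : ℝ} (P : Prof φ φ₁ φ₂ A B R₀ c) :
    Tail (fun X => φ (-X)) (fun X => -φ₁ (-X)) (fun X => φ₂ (-X)) A (-B) R₀ c := by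
  refine ⟨P.A0, P.R0, P.c0, fun X hX => ?_, fun X hX => ?_, fun X hX => ?_⟩
  · have h := P.l0 (-X) (by linarith)
    have e1 : φ (-X) - (A * X + -B) = φ (-X) + (A * -X + B) := by ring
    rw [neg_neg] at h
    show |φ (-X) - (A * X + -B)| ≤ c / X
    rw [e1]
    exact h
  · have h := P.l1 (-X) (by linarith)
    have e1 : -φ₁ (-X) - A = -(φ₁ (-X) + A) := by ring
    show |-φ₁ (-X) - A| ≤ c / X ^ 2
    rw [e1, abs_neg]
    rw [neg_sq] at h
    exact h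
  · have h := P.curv (-X)
    rw [neg_sq, abs_neg, abs_of_nonneg (show (0:ℝ) ≤ X by linarith)] at h
    refine h.trans ?_
    exact div_le_div_of_nonneg_left P.c0.le (by linarith) (by linarith)

/-- The output of the half step. `X` position, `r`, `r'` the two small contributions of the
previous level, `k` the curvature, `D` the (large) distance:
`z = p X/X + r`, `sl = p₁ X + r'`, `Y = D X z` the next position, and the next curvature
`k' = (p₂ X √(1+X²)³ - k) (z/sl · √(1+1/Y²)/√(1+1/X²))³`.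

Statement: if `δ = 1/X + |r - r'|` is small then `z`, `sl` are within a factor 2 of `A`,
`|z - sl| ≤ C δ` and `k'` stays in the interval `[lo, R₀ - lo]` up to `C δ`.
Proof. `|p X/X - p₁ X| ≤ |β|/X + 2c/X²`; `√(1+1/X²) = 1 + O(1/X)`, `Y ≥ X` as `D A ≥ 2`;
`|R - R₀| ≤ c/X`, all quantities bounded by `R₀ + c`. -/
theorem half_step {p p₁ p₂ : ℝ → ℝ} {A β R₀ c : ℝ} (T : Tail p p₁ p₂ A β R₀ c) :
    ∃ C > 0, ∃ δ₀ > 0, ∀ X r r' k lo D δ : ℝ, 1 ≤ X → 1 / X + |r - r'| ≤ δ → δ ≤ δ₀ →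
      |r| ≤ A / 4 → |r'| ≤ A / 4 → 2 ≤ D * A → 0 ≤ lo → lo ≤ k → k ≤ R₀ - lo →
      (A / 2 ≤ p X / X + r ∧ p X / X + r ≤ 2 * A) ∧
      (A / 2 ≤ p₁ X + r' ∧ p₁ X + r' ≤ 2 * A) ∧
      |(p X / X + r) - (p₁ X + r')| ≤ C * δ ∧
      lo - C * δ ≤ (p₂ X * √(1 + X ^ 2) ^ 3 - k) * ((p X / X + r) / (p₁ X + r') *
        (√(1 + (1 / (D * X * (p X / X + r))) ^ 2) / √(1 + (1 / X) ^ 2))) ^ 3 ∧
      (p₂ X * √(1 + X ^ 2) ^ 3 - k) * ((p X / X + r) / (p₁ X + r') *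
        (√(1 + (1 / (D * X * (p X / X + r))) ^ 2) / √(1 + (1 / X) ^ 2))) ^ 3 ≤
        R₀ - lo + C * δ := by
  have hA := T.A0
  have hR := T.R0
  have hc := T.c0
  obtain ⟨b, hb⟩ : ∃ b, b = |β| := ⟨_, rfl⟩
  have hb0 : 0 ≤ b := by rw [hb]; exact abs_nonneg _
  obtain ⟨C₀, hC₀⟩ : ∃ C₀, C₀ = b + 2 * c + 1 := ⟨_, rfl⟩
  have hC₀1 : 1 ≤ C₀ := by rw [hC₀]; linarith
  obtain ⟨C₂, hC₂⟩ : ∃ C₂, C₂ = C₀ * (2 / A) + 1 := ⟨_, rfl⟩
  have hq : 0 < C₀ * (2 / A) := by positivity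
  have hC₂1 : 1 ≤ C₂ := by rw [hC₂]; linarith
  refine ⟨C₀ + c + 7 * (R₀ + c) * C₂, by positivity,
    min (A / 4 / C₀) (1 / C₂), lt_min (by positivity) (by positivity), ?_⟩
  intro X r r' k lo D δ hX hδ hδ0 hr hr' hD hlo hk1 hk2
  have hX0 : 0 < X := by linarith
  obtain ⟨e, he⟩ : ∃ e, e = 1 / X := ⟨_, rfl⟩
  have he0 : 0 < e := by rw [he]; positivity
  have he1 : e ≤ 1 := by rw [he, div_le_one hX0]; exact hX
  rw [← he] at hδ
  have hrr : 0 ≤ |r - r'| := abs_nonneg _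
  have heδ : e ≤ δ := by linarith
  have hδpos : 0 < δ := by linarith
  have hδA : C₀ * δ ≤ A / 4 := by
    have h1 : δ ≤ A / 4 / C₀ := hδ0.trans (min_le_left _ _)
    rw [le_div_iff₀ (by linarith)] at h1
    linarith
  have hδC : C₂ * δ ≤ 1 := by
    have h1 : δ ≤ 1 / C₂ := hδ0.trans (min_le_right _ _)
    rw [le_div_iff₀ (by linarith)] at h1
    linarith
  have hδ1 : δ ≤ 1 := (le_mul_of_one_le_left hδpos.le hC₂1).trans hδC
  -- the two estimates of the profile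
  have hp0 : |p X / X - A| ≤ (b + c) * e := by
    have h1 := T.t0 X hX
    have h2 : p X / X - A = (p X - (A * X + β)) / X + β / X := by field_simp; ring
    rw [h2]
    refine (abs_add_le _ _).trans ?_
    rw [abs_div, abs_div, abs_of_pos hX0, ← hb]
    have h3 : |p X - (A * X + β)| / X ≤ c / X / X := by gcongr
    have h4 : c / X / X = c * e * e := by rw [he]; field_simp
    have h5 : b / X = b * e := by rw [he]; ring
    rw [h4] at h3
    rw [h5]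
    have h6 : c * e * e ≤ c * e * 1 := by gcongr
    have h7 : (b + c) * e = b * e + c * e := by ring
    linarith
  have hp1 : |p₁ X - A| ≤ c * e := by
    have h1 := T.t1 X hX
    have h2 : c / X ^ 2 = c * e * e := by rw [he]; field_simp
    rw [h2] at h1
    have h6 : c * e * e ≤ c * e * 1 := by gcongr
    linarith
  have hp2 : |p₂ X * √(1 + X ^ 2) ^ 3 - R₀| ≤ c * δ := by
    have h1 := T.t2 X hX
    have h2 : c / X = c * e := by rw [he]; ring
    rw [h2] at h1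
    have h3 : c * e ≤ c * δ := by gcongr
    linarith
  obtain ⟨z, hz⟩ : ∃ z, z = p X / X + r := ⟨_, rfl⟩
  obtain ⟨sl, hsl⟩ : ∃ sl, sl = p₁ X + r' := ⟨_, rfl⟩
  obtain ⟨Rx, hRx⟩ : ∃ Rx, Rx = p₂ X * √(1 + X ^ 2) ^ 3 := ⟨_, rfl⟩
  rw [← hRx] at hp2
  rw [← hz, ← hsl, ← hRx]
  rw [abs_le] at hp0 hp1 hp2 hr hr'
  have hbe : (b + c) * e ≤ A / 4 := by
    have h1 : (b + c) * e ≤ C₀ * δ := by
      have h2 : b + c ≤ C₀ := by rw [hC₀]; linarith
      have h3 : 0 ≤ b + c := by linarith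
      exact mul_le_mul h2 heδ he0.le (by linarith)
    linarith
  have hce : c * e ≤ A / 4 := by
    have h1 : c * e ≤ (b + c) * e := by
      have h2 : c ≤ b + c := by linarith
      exact mul_le_mul_of_nonneg_right h2 he0.le
    linarith
  have hz1 : A / 2 ≤ z := by rw [hz]; linarith [hp0.1, hr.1]
  have hz2 : z ≤ 2 * A := by rw [hz]; linarith [hp0.2, hr.2]
  have hs1 : A / 2 ≤ sl := by rw [hsl]; linarith [hp1.1, hr'.1]
  have hs2 : sl ≤ 2 * A := by rw [hsl]; linarith [hp1.2, hr'.2]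
  have hzs : |z - sl| ≤ C₀ * δ := by
    have h1 : |z - sl| ≤ (b + c) * e + c * e + |r - r'| := by
      have h2 : z - sl = (p X / X - A) + (-(p₁ X - A)) + (r - r') := by rw [hz, hsl]; ring
      rw [h2]
      refine (abs_add_le _ _).trans ?_
      have h3 : |p X / X - A + -(p₁ X - A)| ≤ (b + c) * e + c * e := by
        refine (abs_add_le _ _).trans ?_
        rw [abs_neg]
        have h4 : |p X / X - A| ≤ (b + c) * e := abs_le.2 hp0
        have h5 : |p₁ X - A| ≤ c * e := abs_le.2 hp1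
        linarith
      linarith
    have h2 : (b + c) * e + c * e + |r - r'| ≤ C₀ * δ := by
      have h3 : (b + 2 * c) * e ≤ (b + 2 * c) * δ :=
        mul_le_mul_of_nonneg_left heδ (by linarith)
      have h4 : C₀ * δ = (b + 2 * c) * δ + δ := by rw [hC₀]; ring
      have h5 : (b + c) * e + c * e = (b + 2 * c) * e := by ring
      linarith
    linarith
  have hs0 : 0 < sl := by linarith
  have hz0 : 0 < z := by linarith
  -- the quotient of the square roots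
  have hY : X ≤ D * X * z := by
    have hD0 : 0 < D := by
      by_contra hcon
      push Not at hcon
      have h1 : D * A ≤ 0 := mul_nonpos_of_nonpos_of_nonneg hcon hA.le
      linarith
    have h2 : D * (A / 2) ≤ D * z := mul_le_mul_of_nonneg_left hz1 hD0.le
    have h3 : 1 ≤ D * z := by linarith
    have h4 : D * X * z = X * (D * z) := by ring
    rw [h4]
    exact le_mul_of_one_le_right hX0.le h3
  have hY0 : 0 < D * X * z := by linarith
  obtain ⟨w, hw⟩ : ∃ w, w = √(1 + (1 / (D * X * z)) ^ 2) / √(1 + (1 / X) ^ 2) := ⟨_, rfl⟩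
  rw [← hw]
  have hsq1 : 0 < √(1 + (1 / X) ^ 2) := Real.sqrt_pos.2 (by positivity)
  have hw1 : w ≤ 1 := by
    rw [hw, div_le_one hsq1]
    apply Real.sqrt_le_sqrt
    have h1 : 1 / (D * X * z) ≤ 1 / X := one_div_le_one_div_of_le hX0 hY
    have h2 : 0 < 1 / (D * X * z) := by positivity
    have h3 : (1 / (D * X * z)) ^ 2 ≤ (1 / X) ^ 2 := by gcongr
    linarith
  have hw2 : 1 - δ ≤ w := by
    have h1 : √(1 + (1 / X) ^ 2) ≤ 1 + e := by
      rw [← he]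
      apply Real.sqrt_le_iff.2
      refine ⟨by linarith, ?_⟩
      have h2 : (1 + e) ^ 2 = 1 + e ^ 2 + 2 * e := by ring
      linarith
    have h2 : 1 ≤ √(1 + (1 / (D * X * z)) ^ 2) := by
      rw [Real.one_le_sqrt]
      have : 0 ≤ (1 / (D * X * z)) ^ 2 := by positivity
      linarith
    rw [hw, le_div_iff₀ hsq1]
    have h3 : (1 - δ) * √(1 + (1 / X) ^ 2) ≤ (1 - δ) * (1 + e) :=
      mul_le_mul_of_nonneg_left h1 (by linarith)
    have h4 : (1 - δ) * (1 + e) = 1 - (δ - e) - δ * e := by ring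
    have h5 : 0 ≤ δ * e := mul_nonneg hδpos.le he0.le
    linarith
  have hw0 : 0 ≤ w := by linarith
  have hq1 : |z / sl - 1| ≤ C₀ * (2 / A) * δ := by
    have h1 : z / sl - 1 = (z - sl) / sl := by field_simp
    rw [h1, abs_div, abs_of_pos hs0, div_le_iff₀ hs0]
    have h2 : C₀ * δ ≤ C₀ * (2 / A) * δ * sl := by
      have h3 : 1 ≤ 2 / A * sl := by
        rw [div_mul_eq_mul_div, le_div_iff₀ hA]
        linarith
      have h4 : 0 ≤ C₀ * δ := by positivity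
      have h5 : C₀ * (2 / A) * δ * sl = C₀ * δ * (2 / A * sl) := by ring
      rw [h5]
      exact le_mul_of_one_le_right h4 h3
    linarith
  rw [abs_le] at hq1
  obtain ⟨Q, hQ⟩ : ∃ Q, Q = z / sl := ⟨_, rfl⟩
  rw [← hQ] at hq1
  have hQ0 : 0 < Q := by rw [hQ]; positivity
  rw [← hQ]
  have hρ : |Q * w - 1| ≤ C₂ * δ := by
    have h0 : C₂ * δ = C₀ * (2 / A) * δ + δ := by rw [hC₂]; ring
    have h1 : 0 ≤ C₀ * (2 / A) * δ := by positivity
    rw [abs_le]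
    constructor
    · have h2 : (1 - C₀ * (2 / A) * δ) * w ≤ Q * w :=
        mul_le_mul_of_nonneg_right (by linarith [hq1.1]) hw0
      have h3 : C₀ * (2 / A) * δ * w ≤ C₀ * (2 / A) * δ * 1 :=
        mul_le_mul_of_nonneg_left hw1 h1
      have h4 : (1 - C₀ * (2 / A) * δ) * w = w - C₀ * (2 / A) * δ * w := by ring
      linarith
    · have h2 : Q * w ≤ Q * 1 := mul_le_mul_of_nonneg_left hw1 hQ0.le
      linarith [hq1.2]
  obtain ⟨ρ, hρd⟩ : ∃ ρ, ρ = Q * w := ⟨_, rfl⟩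
  rw [← hρd] at hρ ⊢
  have hρ0 : 0 ≤ ρ := by rw [hρd]; positivity
  have hρ2 : ρ ≤ 2 := by
    have := (abs_le.1 hρ).2
    linarith
  have hρ3 : |ρ ^ 3 - 1| ≤ 7 * (C₂ * δ) := by
    have h1 : ρ ^ 3 - 1 = (ρ - 1) * (ρ ^ 2 + ρ + 1) := by ring
    have h2 : 0 ≤ ρ ^ 2 + ρ + 1 := by positivity
    have h3 : ρ ^ 2 + ρ + 1 ≤ 7 := by
      have h5 : ρ ^ 2 ≤ 2 ^ 2 := pow_le_pow_left₀ hρ0 hρ2 2
      linarith
    rw [h1, abs_mul, abs_of_nonneg h2]
    have h4 : |ρ - 1| * (ρ ^ 2 + ρ + 1) ≤ (C₂ * δ) * 7 :=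
      mul_le_mul hρ h3 h2 (by positivity)
    linarith
  have hfin : |(Rx - k) * ρ ^ 3 - (R₀ - k)| ≤ (c + 7 * (R₀ + c) * C₂) * δ := by
    have h1 : (Rx - k) * ρ ^ 3 - (R₀ - k) = (Rx - R₀) + (Rx - k) * (ρ ^ 3 - 1) := by ring
    rw [h1]
    refine (abs_add_le _ _).trans ?_
    have h2 : |Rx - R₀| ≤ c * δ := abs_le.2 hp2
    have h3 : |Rx - k| ≤ R₀ + c := by
      have h4 : c * δ ≤ c * 1 := by gcongr
      rw [abs_le]
      constructor
      · linarith [hp2.1]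
      · linarith [hp2.2]
    have h5 : |(Rx - k) * (ρ ^ 3 - 1)| ≤ (R₀ + c) * (7 * (C₂ * δ)) := by
      rw [abs_mul]
      exact mul_le_mul h3 hρ3 (abs_nonneg _) (by linarith)
    have h6 : (c + 7 * (R₀ + c) * C₂) * δ = c * δ + (R₀ + c) * (7 * (C₂ * δ)) := by ring
    linarith
  rw [abs_le] at hfin
  have hC0δ : 0 ≤ C₀ * δ := by positivity
  have hsum : (C₀ + c + 7 * (R₀ + c) * C₂) * δ
      = C₀ * δ + (c + 7 * (R₀ + c) * C₂) * δ := by ring
  have hnn : 0 ≤ (c + 7 * (R₀ + c) * C₂) * δ := by positivity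
  refine ⟨⟨hz1, hz2⟩, ⟨hs1, hs2⟩, ?_, ?_, ?_⟩
  · rw [hsum]; linarith
  · rw [hsum]; linarith [hfin.1]
  · rw [hsum]; linarith [hfin.2]

end CF
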