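import Pool.Agent.H.MP_1693ff_gt.HalfD

/-!
# From the upper to the lower curve
-/

namespace CF

open Real Set Filter Topology

/-- the distance is large for large `q` -/
theorem halfb1_dist (S : Setup) (K : ℝ) (hK : 0 < K) :
    ∃ q₀ ≥ (1 : ℝ), ∀ q ≥ q₀, K ≤ S.dist q := by
  have hR : 0 < S.R₀ := S.P.R0
  refine ⟨1 + S.R₀ * K, by nlinarith [mul_pos hR hK], fun q hq => ?_⟩
  unfold Setup.dist
  have h1 : 0 < S.R₀ * K := mul_pos hR hK
  have h2 : 1 ≤ q := by linarith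
  have h3 : q ≤ q ^ 2 := by nlinarith
  rw [le_div_iff₀ hR]
  nlinarith

/-- the algebra of the curvatures -/
theorem halfb1_curv {D x z sl Y f g : ℝ} (hD : 0 < D) (hx : 0 < x) (hz : 0 < z) (hsl : 0 < sl)
    (hY : Y = D * x * z) :
    (f * √(1 + x ^ 2) ^ 3 - g * √(1 + x ^ 2) ^ 3 / D) * (z / sl *
      (√(1 + (1 / (D * x * z)) ^ 2) / √(1 + (1 / x) ^ 2))) ^ 3
      = (D * f - g) * √(1 + Y ^ 2) ^ 3 / (D * (D * sl) ^ 3) := by
  have hY0 : 0 < Y := by rw [hY]; positivity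
  have key : ∀ t : ℝ, 0 < t → √(1 + (1 / t) ^ 2) = √(1 + t ^ 2) / t := by
    intro t ht
    have h1 : 1 + (1 / t) ^ 2 = (1 + t ^ 2) / t ^ 2 := by
      field_simp
      ring
    rw [h1, Real.sqrt_div (by positivity), Real.sqrt_sq ht.le]
  rw [← hY, key Y hY0, key x hx]
  have hz' : z = Y / (D * x) := by
    rw [hY]
    field_simp
  have hs1 : 0 < √(1 + x ^ 2) := Real.sqrt_pos.2 (by positivity)
  have hs2 : 0 < √(1 + Y ^ 2) := Real.sqrt_pos.2 (by positivity)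
  generalize √(1 + x ^ 2) = a at *
  generalize √(1 + Y ^ 2) = b at *
  rw [hz']
  field_simp

/-- From the upper to the lower curve: `half_step` for `φ` at `+∞`, `X = a.x`,
`r = -a.y/(D a.x)`, `r' = a.s/D`, `D = dist q`; then `z = -yH/(D x)`, `sl = sH/D`, `Y = -yH`.
The new error is `≤ δ/4`: `1/(-yH) ≤ (2/(A D)) (1/x)` and
`|x/(D(-yH)) - 1/(D sH)| = |1/z - 1/sl|/D² ≤ (4/(A² D²)) C δ`. -/
theorem gh_step (S : Setup) : ∃ C > 0, ∃ δ₀ > 0, ∃ q₀ ≥ 1, ∀ q ≥ q₀, ∀ a δ lo, δ ≤ δ₀ →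
    0 ≤ lo → GLev S q a δ lo →
    HLev S q a (δ / 4) (lo - C * δ) ∧ -S.yH q a ≥ 2 * a.x := by
  obtain ⟨C0, hC0, d0, hd0, hstep⟩ := half_step S.P.tail_right
  have hA : 0 < S.A := S.P.A0
  have hK : 0 < 8 / S.A + 32 * C0 / S.A ^ 2 + 1 := by positivity
  obtain ⟨q₀, hq₀, hq⟩ := halfb1_dist S _ hK
  refine ⟨2 * C0, by positivity, min (d0 / 2) 1, by positivity, q₀, hq₀, ?_⟩
  intro q hqq a δ lo hδ hlo L
  have hD := hq q hqq
  set D := S.dist q with hDdef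
  have hDA : 8 ≤ D * S.A := by
    have h1 : 8 / S.A ≤ D := by
      have : 0 ≤ 32 * C0 / S.A ^ 2 := by positivity
      linarith
    rwa [div_le_iff₀ hA] at h1
  have hD1 : 1 ≤ D := by
    have h1 : 0 ≤ 32 * C0 / S.A ^ 2 := by positivity
    have h2 : 0 ≤ 8 / S.A := by positivity
    linarith
  have hDC : 32 * C0 ≤ D * S.A ^ 2 := by
    have h1 : 32 * C0 / S.A ^ 2 ≤ D := by
      have : 0 ≤ 8 / S.A := by positivity
      linarith
    rwa [div_le_iff₀ (by positivity)] at h1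
  have hD0 : 0 < D := by linarith
  have hδ0 := L.δ0
  have hδ1 : δ ≤ 1 := hδ.trans (min_le_right _ _)
  have hδ2 : 2 * δ ≤ d0 := by
    have := hδ.trans (min_le_left _ _)
    linarith
  have hx1 : 1 ≤ a.x := by
    have h1 : 1 ≤ 1 / δ := by
      rw [le_div_iff₀ hδ0]
      linarith
    exact h1.trans L.x1
  have hx0 : 0 < a.x := by linarith
  have hxinv : 1 / a.x ≤ δ := by
    rw [div_le_iff₀ hx0]
    have h1 := L.x1
    rw [div_le_iff₀ hδ0] at h1
    linarith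
  have hDx : 0 < D * a.x := by positivity
  have hr : |-a.y / (D * a.x)| ≤ S.A / 4 := by
    rw [abs_div, abs_neg, abs_of_pos hDx, div_le_iff₀ hDx]
    have h1 := L.xy
    nlinarith
  have hr' : |a.s / D| ≤ S.A / 4 := by
    rw [abs_div, abs_of_pos hD0, div_le_iff₀ hD0, abs_of_pos L.s0]
    have h1 := L.s1
    nlinarith
  obtain ⟨⟨hz1, hz2⟩, ⟨hs1, hs2⟩, hzs, hk1, hk2⟩ := hstep a.x (-a.y / (D * a.x)) (a.s / D)
    (a.g * √(1 + a.x ^ 2) ^ 3 / D) lo D (2 * δ) hx1 (by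
      have := L.diff
      linarith) hδ2 hr hr' (by linarith) hlo L.klo L.khi
  set z := S.φ a.x / a.x + -a.y / (D * a.x) with hz
  set sl := S.φ₁ a.x + a.s / D with hsl
  have hz0 : 0 < z := by linarith
  have hsl0 : 0 < sl := by linarith
  have hY : -S.yH q a = D * a.x * z := by
    rw [hz]
    unfold Setup.yH Setup.F
    rw [← hDdef]
    field_simp
    ring
  have hsH : S.sH q a = D * sl := by
    rw [hsl]
    unfold Setup.sH Setup.F₁
    rw [← hDdef]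
    field_simp
    ring
  have hhH : S.hH q a = D * S.φ₂ a.x - a.g := by
    unfold Setup.hH Setup.F₂
    rw [← hDdef]
  have hcur := halfb1_curv (f := S.φ₂ a.x) (g := a.g) hD0 hx0 hz0 hsl0 hY
  have hYsq : (-S.yH q a) ^ 2 = S.yH q a ^ 2 := by ring
  have hDz : 4 ≤ D * z := by nlinarith
  have hDsl : 4 ≤ D * sl := by nlinarith
  have hcur2 : (S.φ₂ a.x * √(1 + a.x ^ 2) ^ 3 - a.g * √(1 + a.x ^ 2) ^ 3 / D) * (z / sl *
      (√(1 + (1 / (D * a.x * z)) ^ 2) / √(1 + (1 / a.x) ^ 2))) ^ 3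
      = S.hH q a * √(1 + S.yH q a ^ 2) ^ 3 / (D * S.sH q a ^ 3) := by
    rw [hcur, hYsq, hhH, hsH]
  rw [hcur2] at hk1 hk2
  refine ⟨⟨by positivity, ?_, ?_, ?_, ?_, L.v0, ?_, ?_, ?_⟩, ?_⟩
  · rw [hY]
    have h1 := L.x1
    have h2 : 1 / (δ / 4) = 4 * (1 / δ) := by field_simp
    rw [h2]
    have h3 : 0 < 1 / δ := by positivity
    calc 4 * (1 / δ) ≤ (D * z) * (1 / δ) := by
          exact mul_le_mul_of_nonneg_right hDz h3.le
      _ ≤ (D * z) * a.x := mul_le_mul_of_nonneg_left h1 (by positivity)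
      _ = D * a.x * z := by ring
  · rw [hY, abs_of_pos hx0]
    nlinarith
  · have h1 : S.yH q a = -(D * a.x * z) := by linarith
    rw [h1]
    nlinarith
  · rw [hsH]
    linarith
  · rw [hY, hsH]
    have h1 : a.x / (D * (D * a.x * z)) - 1 / (D * (D * sl)) = (sl - z) / (D ^ 2 * (z * sl)) := by
      field_simp
    rw [h1, abs_div, abs_of_pos (show 0 < D ^ 2 * (z * sl) by positivity),
      div_le_iff₀ (by positivity), abs_sub_comm]
    have h2 : S.A ^ 2 / 4 ≤ z * sl := by nlinarith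
    have h3 : D ≤ D ^ 2 := by nlinarith
    have h4 : D * (S.A ^ 2 / 4) ≤ D ^ 2 * (z * sl) := by
      apply mul_le_mul h3 h2 (by positivity) (by positivity)
    have h5 : 8 * C0 ≤ D ^ 2 * (z * sl) := by linarith
    calc |z - sl| ≤ C0 * (2 * δ) := hzs
      _ = δ / 4 * (8 * C0) := by ring
      _ ≤ δ / 4 * (D ^ 2 * (z * sl)) := mul_le_mul_of_nonneg_left h5 (by positivity)
  · calc lo - 2 * C0 * δ = lo - C0 * (2 * δ) := by ring
      _ ≤ _ := hk1
  · calc _ ≤ S.R₀ - lo + C0 * (2 * δ) := hk2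
      _ = S.R₀ - (lo - 2 * C0 * δ) := by ring
  · rw [hY]
    nlinarith

end CF
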