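import Pool.Agent.H.MP_1693ff_gt.HalfA

/-!
# Levels of the 2-jets
-/

namespace CF

open Real Set Filter Topology

/-- 2-jet of the upper curve near the right end: error parameter `δ`, curvature margin `lo`. -/
structure GLev (S : Setup) (q : ℝ) (a : St) (δ lo : ℝ) : Prop where
  δ0 : 0 < δ
  x1 : 1 / δ ≤ a.x
  xy : |a.y| ≤ a.x
  pos : 0 < a.x + a.y
  s0 : 0 < a.s
  s1 : a.s ≤ 1
  v0 : 0 < a.v
  diff : |-a.y / (S.dist q * a.x) - a.s / S.dist q| ≤ δ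
  klo : lo ≤ a.g * √(1 + a.x ^ 2) ^ 3 / S.dist q
  khi : a.g * √(1 + a.x ^ 2) ^ 3 / S.dist q ≤ S.R₀ - lo

/-- The same for the point of the lower curve below it. -/
structure HLev (S : Setup) (q : ℝ) (a : St) (δ lo : ℝ) : Prop where
  δ0 : 0 < δ
  y1 : 1 / δ ≤ -S.yH q a
  xy : |a.x| ≤ -S.yH q a
  neg : a.x + S.yH q a < 0
  s1 : 1 ≤ S.sH q a
  v0 : 0 < a.v
  diff : |a.x / (S.dist q * -S.yH q a) - 1 / (S.dist q * S.sH q a)| ≤ δ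
  klo : lo ≤ S.hH q a * √(1 + S.yH q a ^ 2) ^ 3 / (S.dist q * S.sH q a ^ 3)
  khi : S.hH q a * √(1 + S.yH q a ^ 2) ^ 3 / (S.dist q * S.sH q a ^ 3) ≤ S.R₀ - lo

end CF
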