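import Pool.Agent.H.MP_1693ff_gt.Defs

/-!
# Model functions: comparison lemmas
-/

namespace CF

open Real Set Filter Topology

/-- A convex function which tends to `0` at `+∞` is nonnegative and has nonpositive derivative. -/
theorem conv_tail {u u₁ u₂ : ℝ → ℝ} (h1 : ∀ x, HasDerivAt u (u₁ x) x)
    (h2 : ∀ x, HasDerivAt u₁ (u₂ x) x) (h0 : ∀ x, 0 ≤ u₂ x) (hl : Tendsto u atTop (𝓝 0)) (x : ℝ) :
    0 ≤ u x ∧ u₁ x ≤ 0 := by
  have hmono : Monotone u₁ :=
    monotone_of_deriv_nonneg (fun x => (h2 x).differentiableAt)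
      (fun x => by rw [(h2 x).deriv]; exact h0 x)
  have hneg : ∀ x, u₁ x ≤ 0 := by
    intro x
    by_contra hx
    push Not at hx
    have hw : ∀ y, HasDerivAt (fun y => u y - u₁ x * y) (u₁ y - u₁ x) y := by
      intro y
      refine ((h1 y).fun_sub ((hasDerivAt_id' y).const_mul (u₁ x))).congr_deriv ?_
      ring
    have hm : MonotoneOn (fun y => u y - u₁ x * y) (Ici x) := by
      apply monotoneOn_of_deriv_nonneg (convex_Ici x)
      · exact fun y _ => (hw y).continuousAt.continuousWithinAt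
      · exact fun y _ => (hw y).differentiableAt.differentiableWithinAt
      · intro y hy
        rw [interior_Ici] at hy
        rw [(hw y).deriv]
        exact sub_nonneg.2 (hmono (le_of_lt hy))
    have ht : Tendsto u atTop atTop := by
      have h3 : Tendsto (fun y => u₁ x * y + (u x - u₁ x * x)) atTop atTop :=
        tendsto_atTop_add_const_right _ _ (tendsto_id.const_mul_atTop hx)
      refine tendsto_atTop_mono' _ ?_ h3
      filter_upwards [eventually_ge_atTop x] with y hy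
      have := hm (mem_Ici.2 le_rfl) (mem_Ici.2 hy) hy
      simp only at this
      linarith
    exact not_tendsto_nhds_of_tendsto_atTop ht 0 hl
  have hanti : Antitone u :=
    antitone_of_deriv_nonpos (fun x => (h1 x).differentiableAt)
      (fun x => by rw [(h1 x).deriv]; exact hneg x)
  exact ⟨hanti.le_of_tendsto hl x, hneg x⟩

theorem moda1_sq (x : ℝ) : 0 < √(1 + x ^ 2) := Real.sqrt_pos.2 (by positivity)

theorem moda1_d1 (x : ℝ) :
    HasDerivAt (fun x : ℝ => √(1 + x ^ 2) - x) (-((√(1 + x ^ 2) - x) / √(1 + x ^ 2))) x := by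
  have h : HasDerivAt (fun x : ℝ => 1 + x ^ 2) (2 * x) x := by
    simpa using ((hasDerivAt_pow 2 x).const_add 1)
  have hs := moda1_sq x
  refine ((h.sqrt (by positivity)).fun_sub (hasDerivAt_id' x)).congr_deriv ?_
  field_simp
  ring

theorem moda1_d2 (x : ℝ) :
    HasDerivAt (fun x : ℝ => -((√(1 + x ^ 2) - x) / √(1 + x ^ 2))) ((√(1 + x ^ 2) ^ 3)⁻¹) x := by
  have h : HasDerivAt (fun x : ℝ => 1 + x ^ 2) (2 * x) x := by
    simpa using ((hasDerivAt_pow 2 x).const_add 1)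
  have hq := h.sqrt (by positivity)
  have hs := moda1_sq x
  have e : √(1 + x ^ 2) ^ 2 = 1 + x ^ 2 := Real.sq_sqrt (by positivity)
  refine ((moda1_d1 x).fun_div hq hs.ne').fun_neg.congr_deriv ?_
  generalize √(1 + x ^ 2) = r at *
  field_simp
  nlinarith [e]

theorem moda1_lim : Tendsto (fun x : ℝ => √(1 + x ^ 2) - x) atTop (𝓝 0) := by
  have h1 : Tendsto (fun x : ℝ => 1 / x) atTop (𝓝 0) := by
    simpa using tendsto_inv_atTop_zero
  refine tendsto_of_tendsto_of_tendsto_of_le_of_le' tendsto_const_nhds h1 ?_ ?_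
  · filter_upwards with x
    have : x ≤ √(1 + x ^ 2) := Real.le_sqrt_of_sq_le (by linarith)
    linarith
  · filter_upwards [eventually_gt_atTop 0] with x hx
    have : √(1 + x ^ 2) ≤ x + 1 / x := by
      rw [Real.sqrt_le_left (by positivity)]
      have : (x + 1 / x) ^ 2 = x ^ 2 + 2 + (1 / x) ^ 2 := by field_simp; ring
      rw [this]
      nlinarith [sq_nonneg (1 / x)]
    linarith

/-- General comparison. -/
theorem moda1_cmp {u u₁ u₂ : ℝ → ℝ} {a b : ℝ} (h1 : ∀ x, HasDerivAt u (u₁ x) x)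
    (h2 : ∀ x, HasDerivAt u₁ (u₂ x) x) (ha : ∀ x, a ≤ u₂ x * √(1 + x ^ 2) ^ 3)
    (hb : ∀ x, u₂ x * √(1 + x ^ 2) ^ 3 ≤ b) (hl : Tendsto u atTop (𝓝 0)) (x : ℝ) :
    a * (√(1 + x ^ 2) - x) ≤ u x ∧ u x ≤ b * (√(1 + x ^ 2) - x) ∧
    a * (√(1 + x ^ 2) - x) / √(1 + x ^ 2) ≤ -(u₁ x) ∧
    -(u₁ x) ≤ b * (√(1 + x ^ 2) - x) / √(1 + x ^ 2) := by
  have k1 := conv_tail (u := fun x => u x - a * (√(1 + x ^ 2) - x))
    (u₁ := fun x => u₁ x - a * (-((√(1 + x ^ 2) - x) / √(1 + x ^ 2))))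
    (u₂ := fun x => u₂ x - a * (√(1 + x ^ 2) ^ 3)⁻¹)
    (fun x => (h1 x).sub ((moda1_d1 x).const_mul a))
    (fun x => (h2 x).sub ((moda1_d2 x).const_mul a))
    (fun x => by
      have hs : 0 < √(1 + x ^ 2) ^ 3 := pow_pos (moda1_sq x) 3
      have := ha x
      rw [sub_nonneg, ← div_eq_mul_inv, div_le_iff₀ hs]
      exact this)
    (by simpa using hl.sub (moda1_lim.const_mul a)) x
  have k2 := conv_tail (u := fun x => b * (√(1 + x ^ 2) - x) - u x)
    (u₁ := fun x => b * (-((√(1 + x ^ 2) - x) / √(1 + x ^ 2))) - u₁ x)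
    (u₂ := fun x => b * (√(1 + x ^ 2) ^ 3)⁻¹ - u₂ x)
    (fun x => ((moda1_d1 x).const_mul b).sub (h1 x))
    (fun x => ((moda1_d2 x).const_mul b).sub (h2 x))
    (fun x => by
      have hs : 0 < √(1 + x ^ 2) ^ 3 := pow_pos (moda1_sq x) 3
      have := hb x
      rw [sub_nonneg, ← div_eq_mul_inv, le_div_iff₀ hs]
      exact this)
    (by simpa using (moda1_lim.const_mul b).sub hl) x
  obtain ⟨k11, k12⟩ := k1
  obtain ⟨k21, k22⟩ := k2
  refine ⟨by linarith, by linarith, ?_, ?_⟩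
  · rw [mul_div_assoc]; linarith
  · rw [mul_div_assoc]; linarith

/-- Bounds of the ratio: with `a ≤ φ₂ √(1+x²)³ ≤ b` everywhere,
`(a/2)(√(1+x²) - x) ≤ γ ≤ (b/2)(√(1+x²) - x)` and
`(a/2)(√(1+x²) - x)/√(1+x²) ≤ -γ' ≤ (b/2)(√(1+x²) - x)/√(1+x²)`
(compare with `√(1+x²) - x`, whose second derivative is `√(1+x²)⁻³`, by `conv_tail`). -/
theorem gam_bounds {φ φ₁ φ₂ : ℝ → ℝ} {A B R₀ c a b : ℝ} (P : Prof φ φ₁ φ₂ A B R₀ c)
    (ha : ∀ x, a ≤ φ₂ x * √(1 + x ^ 2) ^ 3) (hb : ∀ x, φ₂ x * √(1 + x ^ 2) ^ 3 ≤ b) (x : ℝ) :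
    a / 2 * (√(1 + x ^ 2) - x) ≤ (φ x - A * x - B) / 2 ∧
    (φ x - A * x - B) / 2 ≤ b / 2 * (√(1 + x ^ 2) - x) ∧
    a / 2 * (√(1 + x ^ 2) - x) / √(1 + x ^ 2) ≤ -((φ₁ x - A) / 2) ∧
    -((φ₁ x - A) / 2) ≤ b / 2 * (√(1 + x ^ 2) - x) / √(1 + x ^ 2) := by
  refine moda1_cmp (u := fun x => (φ x - A * x - B) / 2) (u₁ := fun x => (φ₁ x - A) / 2)
    (u₂ := fun x => φ₂ x / 2) ?_ ?_ ?_ ?_ ?_ x
  · intro x
    simpa using (((P.d1 x).sub ((hasDerivAt_id x).const_mul A)).sub_const B).div_const 2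
  · intro x
    exact ((P.d2 x).sub_const A).div_const 2
  · intro x
    have := ha x
    linarith
  · intro x
    have := hb x
    linarith
  · have h1 : Tendsto (fun x : ℝ => c / x) atTop (𝓝 0) := tendsto_const_nhds.div_atTop tendsto_id
    have h2 : Tendsto (fun x => φ x - (A * x + B)) atTop (𝓝 0) := by
      refine squeeze_zero_norm' ?_ h1
      filter_upwards [eventually_ge_atTop 1] with x hx
      exact P.r0 x hx
    have h3 := h2.div_const 2
    simp only [zero_div] at h3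
    refine h3.congr (fun x => ?_)
    ring

/-- The same for `χ`. -/
theorem chi_bounds {φ φ₁ φ₂ : ℝ → ℝ} {A B R₀ c a b : ℝ} (P : Prof φ φ₁ φ₂ A B R₀ c)
    (ha : ∀ x, a ≤ φ₂ x * √(1 + x ^ 2) ^ 3) (hb : ∀ x, φ₂ x * √(1 + x ^ 2) ^ 3 ≤ b) (x : ℝ) :
    a / 2 * (√(1 + x ^ 2) + x) ≤ (φ x + A * x + B) / 2 ∧
    (φ x + A * x + B) / 2 ≤ b / 2 * (√(1 + x ^ 2) + x) ∧
    a / 2 * (√(1 + x ^ 2) + x) / √(1 + x ^ 2) ≤ (φ₁ x + A) / 2 ∧
    (φ₁ x + A) / 2 ≤ b / 2 * (√(1 + x ^ 2) + x) / √(1 + x ^ 2) := by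
  have key := moda1_cmp (u := fun x => (φ (-x) - A * x + B) / 2)
    (u₁ := fun x => -((φ₁ (-x) + A) / 2))
    (u₂ := fun x => φ₂ (-x) / 2) (a := a / 2) (b := b / 2) ?_ ?_ ?_ ?_ ?_ (-x)
  · simp only [neg_neg, mul_neg, sub_neg_eq_add, even_two, Even.neg_pow] at key
    exact key
  · intro x
    have h1 : HasDerivAt (fun x => φ (-x)) (φ₁ (-x) * (-1)) x :=
      HasDerivAt.comp x (P.d1 (-x)) (hasDerivAt_neg x)
    refine (((h1.fun_sub ((hasDerivAt_id' x).const_mul A)).add_const B).div_const 2).congr_deriv ?_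
    ring
  · intro x
    have h1 : HasDerivAt (fun x => φ₁ (-x)) (φ₂ (-x) * (-1)) x :=
      HasDerivAt.comp x (P.d2 (-x)) (hasDerivAt_neg x)
    refine ((h1.add_const A).div_const 2).fun_neg.congr_deriv ?_
    ring
  · intro x
    have := ha (-x)
    rw [neg_sq] at this
    linarith
  · intro x
    have := hb (-x)
    rw [neg_sq] at this
    linarith
  · have h1 : Tendsto (fun x : ℝ => c / x) atTop (𝓝 0) := tendsto_const_nhds.div_atTop tendsto_id
    have h2 : Tendsto (fun x => φ (-x) + (A * (-x) + B)) atTop (𝓝 0) := by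
      refine squeeze_zero_norm' ?_ h1
      filter_upwards [eventually_ge_atTop 1] with x hx
      have := P.l0 (-x) (by linarith)
      rw [neg_neg] at this
      exact this
    have h3 := h2.div_const 2
    simp only [zero_div] at h3
    refine h3.congr (fun x => ?_)
    ring

/-- `φ₂ √(1+x²)³` lies between two positive constants (continuity, `P.pos`, `P.curv`). -/
theorem curv_bounds {φ φ₁ φ₂ : ℝ → ℝ} {A B R₀ c : ℝ} (P : Prof φ φ₁ φ₂ A B R₀ c) :
    ∃ a b, 0 < a ∧ (∀ x, a ≤ φ₂ x * √(1 + x ^ 2) ^ 3) ∧ ∀ x, φ₂ x * √(1 + x ^ 2) ^ 3 ≤ b := by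
  have hR := P.R0
  have hc := P.c0
  set T := 2 * c / R₀ with hT
  have hT0 : 0 < T := by positivity
  have hcont : Continuous (fun x => φ₂ x * √(1 + x ^ 2) ^ 3) :=
    P.cont.mul ((Continuous.sqrt (by fun_prop)).pow 3)
  obtain ⟨x₀, -, hx₀⟩ := (isCompact_Icc (a := -T) (b := T)).exists_isMinOn
    ⟨0, by constructor <;> linarith⟩ hcont.continuousOn
  refine ⟨min (R₀ / 2) (φ₂ x₀ * √(1 + x₀ ^ 2) ^ 3), R₀ + c, ?_, ?_, ?_⟩
  · exact lt_min (by positivity) (mul_pos (P.pos x₀) (pow_pos (moda1_sq x₀) 3))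
  · intro x
    by_cases hx : x ∈ Icc (-T) T
    · exact (min_le_right _ _).trans (hx₀ hx)
    · refine (min_le_left _ _).trans ?_
      have hx' : T ≤ |x| := by
        by_contra hcon
        push Not at hcon
        exact hx ⟨(abs_lt.1 hcon).1.le, (abs_lt.1 hcon).2.le⟩
      have h1 := P.curv x
      have h2 : c / (1 + |x|) ≤ R₀ / 2 := by
        rw [div_le_iff₀ (by positivity)]
        have : c = T * (R₀ / 2) := by rw [hT]; field_simp
        nlinarith
      have := abs_le.1 (h1.trans h2)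
      linarith [this.1]
  · intro x
    have h1 := P.curv x
    have h2 : c / (1 + |x|) ≤ c := by
      rw [div_le_iff₀ (by positivity)]
      nlinarith [abs_nonneg x]
    have := abs_le.1 (h1.trans h2)
    linarith [this.2]

end CF
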