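import Pool.Agent.H.MP_1693ff_gt.ModA1

/-!
# Model functions: the asymptotics of the two summands
-/

namespace CF

open Real Set Filter Topology

/-- A function with nonnegative derivative on `[1,∞)` which tends to `0` is nonpositive there. -/
theorem moda2_le {u u' : ℝ → ℝ} (h1 : ∀ x, 1 ≤ x → HasDerivAt u (u' x) x)
    (h0 : ∀ x, 1 ≤ x → 0 ≤ u' x) (hl : Tendsto u atTop (𝓝 0)) (x : ℝ) (hx : 1 ≤ x) : u x ≤ 0 := by
  have hm : MonotoneOn u (Ici 1) := by
    apply monotoneOn_of_deriv_nonneg (convex_Ici 1)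
    · intro y hy
      exact (h1 y hy).continuousAt.continuousWithinAt
    · intro y hy
      rw [interior_Ici] at hy
      exact (h1 y (le_of_lt hy)).differentiableAt.differentiableWithinAt
    · intro y hy
      rw [interior_Ici] at hy
      rw [(h1 y (le_of_lt hy)).deriv]
      exact h0 y (le_of_lt hy)
  refine ge_of_tendsto hl ?_
  filter_upwards [eventually_ge_atTop x] with y hy
  exact hm hx (le_trans hx hy) hy

/-- Integration of a tail bound. -/
theorem moda2_int {u u' : ℝ → ℝ} {K : ℝ} (n : ℕ) (hn : 1 ≤ n)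
    (h1 : ∀ x, 1 ≤ x → HasDerivAt u (u' x) x)
    (h0 : ∀ x, 1 ≤ x → |u' x| ≤ K / x ^ (n + 1)) (hl : Tendsto u atTop (𝓝 0)) (x : ℝ)
    (hx : 1 ≤ x) : |u x| ≤ K / x ^ n := by
  have hn' : (1 : ℝ) ≤ n := by exact_mod_cast hn
  have hn0 : (n : ℝ) ≠ 0 := by positivity
  have hK : 0 ≤ K := by
    have := h0 1 le_rfl
    simp at this
    exact le_trans (abs_nonneg _) this
  have hpow : ∀ y : ℝ, 1 ≤ y → HasDerivAt (fun z : ℝ => K / n * (z ^ n)⁻¹) (-(K / y ^ (n + 1))) y := by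
    intro y hy
    have hy0 : y ≠ 0 := by positivity
    have h := ((hasDerivAt_pow n y).inv (pow_ne_zero n hy0)).const_mul (K / n)
    refine h.congr_deriv ?_
    obtain ⟨m, rfl⟩ : ∃ m, n = m + 1 := ⟨n - 1, by omega⟩
    rw [Nat.add_sub_cancel]
    field_simp
    ring
  have hlim : Tendsto (fun z : ℝ => K / n * (z ^ n)⁻¹) atTop (𝓝 0) := by
    have : Tendsto (fun z : ℝ => (z ^ n)⁻¹) atTop (𝓝 0) :=
      tendsto_inv_atTop_zero.comp (tendsto_pow_atTop (by omega))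
    simpa using this.const_mul (K / n)
  have hle : ∀ y : ℝ, 1 ≤ y → K / n * (y ^ n)⁻¹ ≤ K / y ^ n := by
    intro y hy
    rw [div_eq_mul_inv K (y ^ n)]
    apply mul_le_mul_of_nonneg_right _ (by positivity)
    exact div_le_self hK hn'
  rw [abs_le]
  constructor
  · have h := moda2_le (u := fun z => -(u z + K / n * (z ^ n)⁻¹))
      (u' := fun z => -(u' z + -(K / z ^ (n + 1)))) (fun y hy => ((h1 y hy).add (hpow y hy)).neg)
      (fun y hy => by
        have := (abs_le.1 (h0 y hy)).2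
        show 0 ≤ -(u' y + -(K / y ^ (n + 1)))
        linarith) (by simpa using (hl.add hlim).neg) x hx
    have := hle x hx
    linarith
  · have h := moda2_le (u := fun z => u z - K / n * (z ^ n)⁻¹)
      (u' := fun z => u' z - -(K / z ^ (n + 1))) (fun y hy => (h1 y hy).sub (hpow y hy))
      (fun y hy => by
        have := (abs_le.1 (h0 y hy)).1
        show 0 ≤ u' y - -(K / y ^ (n + 1))
        linarith) (by simpa using (hl.sub hlim)) x hx
    have := hle x hx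
    linarith

/-- `1/x³ - 1/√(1+x²)³` is `O(1/x⁴)`. -/
theorem moda2_cube (x : ℝ) (hx : 1 ≤ x) :
    |(√(1 + x ^ 2) ^ 3)⁻¹ - (x ^ 3)⁻¹| ≤ 2 / x ^ 4 := by
  have hx0 : 0 < x := by linarith
  set s := √(1 + x ^ 2) with hs
  have hs2 : s ^ 2 = 1 + x ^ 2 := Real.sq_sqrt (by positivity)
  have hs0 : 0 < s := Real.sqrt_pos.2 (by positivity)
  have hsx : x ≤ s := by
    rw [hs]; apply Real.le_sqrt_of_sq_le; linarith
  have h1 : (s - x) * (s + x) = 1 := by nlinarith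
  have h2 : (s - x) * (2 * x) ≤ 1 := by nlinarith
  have h3 : (s ^ 3)⁻¹ ≤ (x ^ 3)⁻¹ := by
    apply inv_anti₀ (by positivity)
    exact pow_le_pow_left₀ hx0.le hsx 3
  rw [abs_of_nonpos (by linarith), neg_sub, inv_sub_inv (by positivity) (by positivity),
    div_le_div_iff₀ (by positivity) (by positivity)]
  have h4 : s ^ 3 - x ^ 3 = (s - x) * (s ^ 2 + s * x + x ^ 2) := by ring
  have h5 : (s ^ 3 - x ^ 3) * x ≤ 3 / 2 * s ^ 2 := by
    have : s ^ 2 + s * x + x ^ 2 ≤ 3 * s ^ 2 := by nlinarith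
    calc (s ^ 3 - x ^ 3) * x = ((s - x) * x) * (s ^ 2 + s * x + x ^ 2) := by rw [h4]; ring
      _ ≤ (1 / 2) * (s ^ 2 + s * x + x ^ 2) := by
          apply mul_le_mul_of_nonneg_right _ (by positivity)
          linarith
      _ ≤ 3 / 2 * s ^ 2 := by linarith
  have h6 : s ^ 2 ≤ s ^ 3 := by
    have : 1 ≤ s := le_trans hx hsx
    nlinarith [sq_nonneg s]
  calc (s ^ 3 - x ^ 3) * x ^ 4 = ((s ^ 3 - x ^ 3) * x) * x ^ 3 := by ring
    _ ≤ (3 / 2 * s ^ 2) * x ^ 3 := mul_le_mul_of_nonneg_right h5 (by positivity)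
    _ ≤ (2 * s ^ 3) * x ^ 3 := by
        apply mul_le_mul_of_nonneg_right _ (by positivity)
        nlinarith [sq_nonneg s]
    _ = 2 * (x ^ 3 * s ^ 3) := by ring

/-- The difference between `γ = (φ - Ax - B)/2` and the hyperbola `R₀/(4x)` on `[1,∞)`:
`O(1/x²)`, `O(1/x³)`, `O(1/x⁴)` for the function and its first two derivatives.
Proof: second derivative `φ₂/2 - R₀/(2x³)`: by `P.curv` and
`|√(1+x²)⁻³ - x⁻³| ≤ C/x⁵` it is `O(1/x⁴)`; integrate twice from `+∞` (function and derivative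
tend to `0`: `P.r0`, `P.r1`), e.g. by comparing with `± C/(6x²)`. -/
theorem gam_tail {φ φ₁ φ₂ : ℝ → ℝ} {A B R₀ c : ℝ} (P : Prof φ φ₁ φ₂ A B R₀ c) :
    ∃ C, ∀ x, 1 ≤ x → |(φ x - A * x - B) / 2 - R₀ / (4 * x)| ≤ C / x ^ 2 ∧
      |(φ₁ x - A) / 2 + R₀ / (4 * x ^ 2)| ≤ C / x ^ 3 ∧
      |φ₂ x / 2 - R₀ / (2 * x ^ 3)| ≤ C / x ^ 4 := by
  refine ⟨(c + 2 * R₀) / 2, ?_⟩
  have hR := P.R0
  have hc := P.c0
  have b2 : ∀ x, 1 ≤ x → |φ₂ x / 2 - R₀ / (2 * x ^ 3)| ≤ (c + 2 * R₀) / 2 / x ^ 4 := by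
    intro x hx
    have hx0 : 0 < x := by linarith
    have hs0 : 0 < √(1 + x ^ 2) := Real.sqrt_pos.2 (by positivity)
    have hsx : x ≤ √(1 + x ^ 2) := by
      apply Real.le_sqrt_of_sq_le; linarith
    have h1 := P.curv x
    rw [abs_of_pos hx0] at h1
    have h2 := moda2_cube x hx
    set s := √(1 + x ^ 2) with hs
    have e : φ₂ x / 2 - R₀ / (2 * x ^ 3) =
        ((φ₂ x * s ^ 3 - R₀) * (s ^ 3)⁻¹ + R₀ * ((s ^ 3)⁻¹ - (x ^ 3)⁻¹)) / 2 := by
      field_simp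
      ring
    have h3 : |(φ₂ x * s ^ 3 - R₀) * (s ^ 3)⁻¹| ≤ c / x ^ 4 := by
      rw [abs_mul, abs_of_pos (inv_pos.2 (pow_pos hs0 3))]
      calc |φ₂ x * s ^ 3 - R₀| * (s ^ 3)⁻¹ ≤ (c / (1 + x)) * (x ^ 3)⁻¹ := by
            apply mul_le_mul h1 _ (by positivity) (by positivity)
            apply inv_anti₀ (by positivity)
            exact pow_le_pow_left₀ hx0.le hsx 3
        _ ≤ (c / x) * (x ^ 3)⁻¹ := by
            apply mul_le_mul_of_nonneg_right _ (by positivity)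
            apply div_le_div_of_nonneg_left hc.le hx0
            linarith
        _ = c / x ^ 4 := by field_simp
    have h4 : |R₀ * ((s ^ 3)⁻¹ - (x ^ 3)⁻¹)| ≤ 2 * R₀ / x ^ 4 := by
      rw [abs_mul, abs_of_pos hR]
      calc R₀ * |(s ^ 3)⁻¹ - (x ^ 3)⁻¹| ≤ R₀ * (2 / x ^ 4) :=
            mul_le_mul_of_nonneg_left h2 hR.le
        _ = 2 * R₀ / x ^ 4 := by ring
    rw [e, abs_div, abs_of_pos (by norm_num : (0 : ℝ) < 2)]
    have h5 := abs_add_le ((φ₂ x * s ^ 3 - R₀) * (s ^ 3)⁻¹) (R₀ * ((s ^ 3)⁻¹ - (x ^ 3)⁻¹))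
    calc _ ≤ (c / x ^ 4 + 2 * R₀ / x ^ 4) / 2 := by linarith
      _ = (c + 2 * R₀) / 2 / x ^ 4 := by ring
  have hx2 : Tendsto (fun x : ℝ => c / x ^ 2) atTop (𝓝 0) := by
    have : Tendsto (fun z : ℝ => (z ^ 2)⁻¹) atTop (𝓝 0) :=
      tendsto_inv_atTop_zero.comp (tendsto_pow_atTop (by norm_num))
    simpa [div_eq_mul_inv] using this.const_mul c
  have hx1 : Tendsto (fun x : ℝ => c / x) atTop (𝓝 0) := by
    simpa [div_eq_mul_inv] using tendsto_inv_atTop_zero.const_mul c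
  have hr2 : Tendsto (fun x : ℝ => R₀ / (4 * x ^ 2)) atTop (𝓝 0) := by
    have : Tendsto (fun z : ℝ => (z ^ 2)⁻¹) atTop (𝓝 0) :=
      tendsto_inv_atTop_zero.comp (tendsto_pow_atTop (by norm_num))
    have h := this.const_mul (R₀ / 4)
    rw [mul_zero] at h
    refine h.congr fun x => ?_
    rw [div_mul_eq_div_div, div_eq_mul_inv (R₀ / 4)]
  have hr1 : Tendsto (fun x : ℝ => R₀ / (4 * x)) atTop (𝓝 0) := by
    have h := tendsto_inv_atTop_zero.const_mul (R₀ / 4)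
    rw [mul_zero] at h
    refine h.congr fun x => ?_
    rw [div_mul_eq_div_div, div_eq_mul_inv (R₀ / 4)]
  have t1 : Tendsto (fun x => (φ₁ x - A) / 2 + R₀ / (4 * x ^ 2)) atTop (𝓝 0) := by
    have h : Tendsto (fun x => φ₁ x - A) atTop (𝓝 0) := by
      apply squeeze_zero_norm' _ hx2
      filter_upwards [eventually_ge_atTop 1] with x hx
      rw [Real.norm_eq_abs]
      exact P.r1 x hx
    simpa using (h.div_const 2).add hr2
  have t0 : Tendsto (fun x => (φ x - A * x - B) / 2 - R₀ / (4 * x)) atTop (𝓝 0) := by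
    have h : Tendsto (fun x => φ x - A * x - B) atTop (𝓝 0) := by
      apply squeeze_zero_norm' _ hx1
      filter_upwards [eventually_ge_atTop 1] with x hx
      rw [Real.norm_eq_abs, show φ x - A * x - B = φ x - (A * x + B) by ring]
      exact P.r0 x hx
    simpa using (h.div_const 2).sub hr1
  have d1 : ∀ x, 1 ≤ x → HasDerivAt (fun x => (φ₁ x - A) / 2 + R₀ / (4 * x ^ 2))
      (φ₂ x / 2 - R₀ / (2 * x ^ 3)) x := by
    intro x hx
    have hx0 : x ≠ 0 := by positivity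
    have h1 := ((P.d2 x).sub_const A).div_const 2
    have h2 : HasDerivAt (fun x : ℝ => R₀ / (4 * x ^ 2)) (-(R₀ / (2 * x ^ 3))) x := by
      have h3 := (((hasDerivAt_pow 2 x).const_mul 4).inv (by positivity)).const_mul R₀
      refine h3.congr_deriv ?_
      field_simp
      ring
    exact (h1.add h2).congr_deriv (by ring)
  have d0 : ∀ x, 1 ≤ x → HasDerivAt (fun x => (φ x - A * x - B) / 2 - R₀ / (4 * x))
      ((φ₁ x - A) / 2 + R₀ / (4 * x ^ 2)) x := by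
    intro x hx
    have hx0 : x ≠ 0 := by positivity
    have h1 := (((P.d1 x).sub ((hasDerivAt_id x).const_mul A)).sub_const B).div_const 2
    have h2 : HasDerivAt (fun x : ℝ => R₀ / (4 * x)) (-(R₀ / (4 * x ^ 2))) x := by
      have h3 := (((hasDerivAt_id x).const_mul 4).inv (by simpa using hx0)).const_mul R₀
      refine h3.congr_deriv ?_
      simp only [id]
      field_simp
    exact (h1.sub h2).congr_deriv (by ring)
  have b1 : ∀ x, 1 ≤ x → |(φ₁ x - A) / 2 + R₀ / (4 * x ^ 2)| ≤ (c + 2 * R₀) / 2 / x ^ 3 :=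
    fun x hx => moda2_int 3 (by norm_num) d1 b2 t1 x hx
  have b0 : ∀ x, 1 ≤ x → |(φ x - A * x - B) / 2 - R₀ / (4 * x)| ≤ (c + 2 * R₀) / 2 / x ^ 2 :=
    fun x hx => moda2_int 2 (by norm_num) d0 b1 t0 x hx
  exact fun x hx => ⟨b0 x hx, b1 x hx, b2 x hx⟩

/-- The reflected profile. -/
theorem moda2_refl {φ φ₁ φ₂ : ℝ → ℝ} {A B R₀ c : ℝ} (P : Prof φ φ₁ φ₂ A B R₀ c) :
    Prof (fun x => φ (-x)) (fun x => -φ₁ (-x)) (fun x => φ₂ (-x)) A (-B) R₀ c where
  d1 x := by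
    exact ((P.d1 (-x)).comp x (hasDerivAt_neg x)).congr_deriv (by ring)
  d2 x := by
    exact ((P.d2 (-x)).comp x (hasDerivAt_neg x)).neg.congr_deriv (by ring)
  cont := P.cont.comp continuous_neg
  A0 := P.A0
  R0 := P.R0
  c0 := P.c0
  pos x := P.pos (-x)
  curv x := by
    have h := P.curv (-x)
    rwa [abs_neg, neg_sq] at h
  r0 x hx := by
    have h := P.l0 (-x) (by linarith)
    rw [neg_neg] at h
    convert h using 2
    ring
  r1 x hx := by
    have h := P.l1 (-x) (by linarith)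
    rw [neg_sq] at h
    convert h using 1
    rw [← abs_neg]
    congr 1
    ring
  l0 x hx := by
    have h := P.r0 (-x) (by linarith)
    convert h using 2
    ring
  l1 x hx := by
    have h := P.r1 (-x) (by linarith)
    rw [neg_sq] at h
    convert h using 1
    rw [← abs_neg]
    congr 1
    ring

/-- The same for `χ = (φ + Ax + B)/2` at `-∞` (reflect `x ↦ -x`:
`x ↦ φ(-x)` has the profile data `A, -B`). -/
theorem chi_tail {φ φ₁ φ₂ : ℝ → ℝ} {A B R₀ c : ℝ} (P : Prof φ φ₁ φ₂ A B R₀ c) :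
    ∃ C, ∀ x, x ≤ -1 → |(φ x + A * x + B) / 2 + R₀ / (4 * x)| ≤ C / x ^ 2 ∧
      |(φ₁ x + A) / 2 - R₀ / (4 * x ^ 2)| ≤ C / (-x) ^ 3 ∧
      |φ₂ x / 2 + R₀ / (2 * x ^ 3)| ≤ C / x ^ 4 := by
  obtain ⟨C, hC⟩ := gam_tail (moda2_refl P)
  refine ⟨C, fun x hx => ?_⟩
  obtain ⟨h0, h1, h2⟩ := hC (-x) (by linarith)
  have hx0 : x ≠ 0 := by linarith
  simp only [neg_neg] at h0 h1 h2
  refine ⟨?_, ?_, ?_⟩
  · rw [neg_sq] at h0
    convert h0 using 2
    rw [mul_neg 4 x, div_neg]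
    ring
  · rw [neg_sq] at h1
    convert h1 using 1
    rw [← abs_neg]
    congr 1
    ring
  · rw [show (-x) ^ 4 = x ^ 4 by ring] at h2
    convert h2 using 2
    rw [show (-x) ^ 3 = -(x ^ 3) by ring, mul_neg 2 (x ^ 3), div_neg]
    ring

end CF
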