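import Pool.Agent.H.MP_1693ff_gt.ModA2

/-!
# Model functions: cutting off to the hyperbola
-/

namespace CF

open Real Set Filter Topology

theorem modb_d1 (y : ℝ) :
    HasDerivAt Real.smoothTransition (deriv Real.smoothTransition y) y :=
  ((Real.smoothTransition.contDiff (n := 1)).differentiable (by norm_num) y).hasDerivAt

theorem modb_cd : ContDiff ℝ 1 (deriv Real.smoothTransition) := by
  have h : ContDiff ℝ (1 + 1) Real.smoothTransition := Real.smoothTransition.contDiff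
  exact (contDiff_succ_iff_deriv.mp h).2.2

theorem modb_d2 (y : ℝ) :
    HasDerivAt (deriv Real.smoothTransition) (deriv (deriv Real.smoothTransition) y) y :=
  (modb_cd.differentiable (by norm_num) y).hasDerivAt

theorem modb_neg (y : ℝ) (hy : y < 0) : Real.smoothTransition y = 0 ∧
    deriv Real.smoothTransition y = 0 ∧ deriv (deriv Real.smoothTransition) y = 0 := by
  have h1 : ∀ z : ℝ, z < 0 → Real.smoothTransition =ᶠ[𝓝 z] fun _ => 0 := fun z hz => by
    filter_upwards [Iio_mem_nhds hz] with w hw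
    exact Real.smoothTransition.zero_of_nonpos (le_of_lt hw)
  have h2 : ∀ z : ℝ, z < 0 → deriv Real.smoothTransition z = 0 := fun z hz => by
    rw [(h1 z hz).deriv_eq, deriv_const]
  have h3 : deriv Real.smoothTransition =ᶠ[𝓝 y] fun _ => 0 := by
    filter_upwards [Iio_mem_nhds hy] with w hw
    exact h2 w hw
  exact ⟨Real.smoothTransition.zero_of_nonpos hy.le, h2 y hy, by
    rw [h3.deriv_eq, deriv_const]⟩

theorem modb_big (y : ℝ) (hy : 1 < y) : Real.smoothTransition y = 1 ∧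
    deriv Real.smoothTransition y = 0 ∧ deriv (deriv Real.smoothTransition) y = 0 := by
  have h1 : ∀ z : ℝ, 1 < z → Real.smoothTransition =ᶠ[𝓝 z] fun _ => 1 := fun z hz => by
    filter_upwards [Ioi_mem_nhds hz] with w hw
    exact Real.smoothTransition.one_of_one_le (le_of_lt hw)
  have h2 : ∀ z : ℝ, 1 < z → deriv Real.smoothTransition z = 0 := fun z hz => by
    rw [(h1 z hz).deriv_eq, deriv_const]
  have h3 : deriv Real.smoothTransition =ᶠ[𝓝 y] fun _ => 0 := by
    filter_upwards [Ioi_mem_nhds hy] with w hw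
    exact h2 w hw
  exact ⟨Real.smoothTransition.one_of_one_le hy.le, h2 y hy, by
    rw [h3.deriv_eq, deriv_const]⟩

theorem modb_bound : ∃ C₀ : ℝ, 0 ≤ C₀ ∧ ∀ y : ℝ, |deriv Real.smoothTransition y| ≤ C₀ ∧
    |deriv (deriv Real.smoothTransition) y| ≤ C₀ := by
  have c1 : Continuous (deriv Real.smoothTransition) := modb_cd.continuous
  have c2 : Continuous (deriv (deriv Real.smoothTransition)) :=
    modb_cd.continuous_deriv (le_refl _)
  obtain ⟨M, hM⟩ := (isCompact_Icc (a := (0 : ℝ)) (b := 1)).exists_bound_of_continuousOn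
    c1.continuousOn
  obtain ⟨M', hM'⟩ := (isCompact_Icc (a := (0 : ℝ)) (b := 1)).exists_bound_of_continuousOn
    c2.continuousOn
  refine ⟨max 0 (max M M'), le_max_left _ _, fun y => ?_⟩
  rcases lt_or_ge y 0 with h | h
  · obtain ⟨_, e1, e2⟩ := modb_neg y h
    rw [e1, e2, abs_zero]
    exact ⟨le_max_left _ _, le_max_left _ _⟩
  rcases lt_or_ge 1 y with h' | h'
  · obtain ⟨_, e1, e2⟩ := modb_big y h'
    rw [e1, e2, abs_zero]
    exact ⟨le_max_left _ _, le_max_left _ _⟩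
  · exact ⟨(hM y ⟨h, h'⟩).trans ((le_max_left _ _).trans (le_max_right _ _)),
      (hM' y ⟨h, h'⟩).trans ((le_max_right _ _).trans (le_max_right _ _))⟩

/-- product rule with a function which vanishes near the singularity -/
theorem modb_prod {s s' v v' : ℝ → ℝ} {Y : ℝ} (hY : 0 < Y) (hs : ∀ x, HasDerivAt s (s' x) x)
    (h0 : ∀ x, x < Y → s x = 0) (h0' : ∀ x, x < Y → s' x = 0)
    (hv : ∀ x, 0 < x → HasDerivAt v (v' x) x) (x : ℝ) :
    HasDerivAt (fun x => s x * v x) (s' x * v x + s x * v' x) x := by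
  rcases lt_or_ge 0 x with h | h
  · exact (hs x).mul (hv x h)
  · have hx : x < Y := lt_of_le_of_lt h hY
    rw [h0 x hx, h0' x hx, zero_mul, zero_mul, add_zero]
    refine (hasDerivAt_const x (0 : ℝ)).congr_of_eventuallyEq ?_
    filter_upwards [Iio_mem_nhds hx] with w hw
    rw [h0 w hw, zero_mul]

theorem modb_h1 (R x : ℝ) (hx : x ≠ 0) :
    HasDerivAt (fun x : ℝ => R / (4 * x)) (-(R / (4 * x ^ 2))) x := by
  have e : (fun x : ℝ => R / (4 * x)) = fun x => R / 4 * x⁻¹ := by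
    funext y
    rw [div_mul_eq_div_div, div_eq_mul_inv (R / 4)]
  rw [e]
  refine ((hasDerivAt_inv hx).const_mul (R / 4)).congr_deriv ?_
  rw [div_mul_eq_div_div, div_eq_mul_inv (R / 4), mul_neg]

theorem modb_h2 (R x : ℝ) (hx : x ≠ 0) :
    HasDerivAt (fun x : ℝ => R / (4 * x ^ 2)) (-(R / (2 * x ^ 3))) x := by
  have e : (fun x : ℝ => R / (4 * x ^ 2)) = fun x => R / 4 * (x ^ 2)⁻¹ := by
    funext y
    rw [div_mul_eq_div_div, div_eq_mul_inv (R / 4)]
  rw [e]
  have h := (hasDerivAt_pow 2 x).inv (pow_ne_zero 2 hx)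
  refine (h.const_mul (R / 4)).congr_deriv ?_
  push_cast
  field_simp
  ring

theorem modb_cut : ∃ K : ℝ, 0 ≤ K ∧ ∀ (v v₁ v₂ : ℝ → ℝ) (C : ℝ), 0 ≤ C →
    (∀ x, 0 < x → HasDerivAt v (v₁ x) x) → (∀ x, 0 < x → HasDerivAt v₁ (v₂ x) x) →
    (∀ x, 1 ≤ x → |v x| ≤ C / x ^ 2 ∧ |v₁ x| ≤ C / x ^ 3 ∧ |v₂ x| ≤ C / x ^ 4) →
    ∀ Y, 1 ≤ Y → ∃ p p₁ p₂ : ℝ → ℝ, (∀ x, HasDerivAt p (p₁ x) x) ∧
      (∀ x, HasDerivAt p₁ (p₂ x) x) ∧ (∀ x, 2 * Y < x → p x = v x ∧ p₁ x = v₁ x) ∧
      (∀ x, x < Y → p x = 0 ∧ p₁ x = 0 ∧ p₂ x = 0) ∧ (∀ x, Y ≤ x → |p₂ x| ≤ K * C / x ^ 4) ∧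
      ∀ x, p x = Real.smoothTransition (x / Y - 1) * v x := by
  obtain ⟨C₀, hC₀, hb⟩ := modb_bound
  refine ⟨8 * C₀ + 1, by linarith, fun v v₁ v₂ C hC hv hv1 hbd Y hY => ?_⟩
  have hY0 : 0 < Y := by linarith
  set S : ℝ → ℝ := fun x => Real.smoothTransition (x / Y - 1) with hS
  set S₁ : ℝ → ℝ := fun x => deriv Real.smoothTransition (x / Y - 1) / Y with hS1
  set S₂ : ℝ → ℝ := fun x => deriv (deriv Real.smoothTransition) (x / Y - 1) / Y ^ 2 with hS2
  have hin : ∀ x, HasDerivAt (fun x : ℝ => x / Y - 1) (1 / Y) x := fun x =>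
    ((hasDerivAt_id x).div_const Y).sub_const 1
  have dS : ∀ x, HasDerivAt S (S₁ x) x := fun x => by
    have := (modb_d1 (x / Y - 1)).comp x (hin x)
    rw [mul_one_div] at this
    exact this
  have dS1 : ∀ x, HasDerivAt S₁ (S₂ x) x := fun x => by
    have := ((modb_d2 (x / Y - 1)).comp x (hin x)).div_const Y
    rw [mul_one_div, div_div, ← sq] at this
    exact this
  have low : ∀ x, x < Y → S x = 0 ∧ S₁ x = 0 ∧ S₂ x = 0 := fun x hx => by
    have h : x / Y - 1 < 0 := by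
      rw [sub_neg, div_lt_one hY0]; exact hx
    obtain ⟨e0, e1, e2⟩ := modb_neg _ h
    simp only [hS, hS1, hS2, e0, e1, e2, zero_div, and_self]
  have high : ∀ x, 2 * Y < x → S x = 1 ∧ S₁ x = 0 ∧ S₂ x = 0 := fun x hx => by
    have h : 1 < x / Y - 1 := by
      rw [lt_sub_iff_add_lt, lt_div_iff₀ hY0]; linarith
    obtain ⟨e0, e1, e2⟩ := modb_big _ h
    simp only [hS, hS1, hS2, e0, e1, e2, zero_div, and_self]
  have p0 := modb_prod hY0 dS (fun x h => (low x h).1) (fun x h => (low x h).2.1) hv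
  have p1 := modb_prod hY0 dS1 (fun x h => (low x h).2.1) (fun x h => (low x h).2.2) hv
  have p2 := modb_prod hY0 dS (fun x h => (low x h).1) (fun x h => (low x h).2.1) hv1
  refine ⟨fun x => S x * v x, fun x => S₁ x * v x + S x * v₁ x,
    fun x => (S₂ x * v x + S₁ x * v₁ x) + (S₁ x * v₁ x + S x * v₂ x), p0,
    fun x => (p1 x).add (p2 x), fun x hx => ?_, fun x hx => ?_, fun x hx => ?_, fun x => rfl⟩
  · obtain ⟨e0, e1, e2⟩ := high x hx
    simp only [e0, e1, zero_mul, one_mul, zero_add, and_self]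
  · obtain ⟨e0, e1, e2⟩ := low x hx
    simp only [e0, e1, e2, zero_mul, add_zero, and_self]
  · have hx1 : 1 ≤ x := hY.trans hx
    have hx0 : 0 < x := by linarith
    obtain ⟨b0, b1, b2⟩ := hbd x hx1
    have hS0 : |S x| ≤ 1 := by
      rw [abs_of_nonneg (Real.smoothTransition.nonneg _)]
      exact Real.smoothTransition.le_one _
    have hS1' : |S₁ x| ≤ 2 * C₀ / x := by
      rcases lt_or_ge (2 * Y) x with h | h
      · rw [(high x h).2.1, abs_zero]; positivity
      · simp only [hS1]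
        rw [abs_div, abs_of_pos hY0, div_le_div_iff₀ hY0 hx0]
        have := (hb (x / Y - 1)).1
        nlinarith [abs_nonneg (deriv Real.smoothTransition (x / Y - 1))]
    have hS2' : |S₂ x| ≤ 4 * C₀ / x ^ 2 := by
      rcases lt_or_ge (2 * Y) x with h | h
      · rw [(high x h).2.2, abs_zero]; positivity
      · simp only [hS2]
        rw [abs_div, abs_of_pos (pow_pos hY0 2), div_le_div_iff₀ (pow_pos hY0 2) (pow_pos hx0 2)]
        have h1 := (hb (x / Y - 1)).2
        have h2 : x ^ 2 ≤ 4 * Y ^ 2 := by nlinarith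
        calc |deriv (deriv Real.smoothTransition) (x / Y - 1)| * x ^ 2 ≤ C₀ * (4 * Y ^ 2) :=
              mul_le_mul h1 h2 (by positivity) hC₀
          _ = 4 * C₀ * Y ^ 2 := by ring
    have t1 : |S₂ x * v x| ≤ 4 * C₀ / x ^ 2 * (C / x ^ 2) := by
      rw [abs_mul]; exact mul_le_mul hS2' b0 (abs_nonneg _) (by positivity)
    have t2 : |S₁ x * v₁ x| ≤ 2 * C₀ / x * (C / x ^ 3) := by
      rw [abs_mul]; exact mul_le_mul hS1' b1 (abs_nonneg _) (by positivity)
    have t3 : |S x * v₂ x| ≤ 1 * (C / x ^ 4) := by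
      rw [abs_mul]; exact mul_le_mul hS0 b2 (abs_nonneg _) zero_le_one
    calc |(S₂ x * v x + S₁ x * v₁ x) + (S₁ x * v₁ x + S x * v₂ x)|
        ≤ (|S₂ x * v x| + |S₁ x * v₁ x|) + (|S₁ x * v₁ x| + |S x * v₂ x|) :=
          (abs_add_le _ _).trans (add_le_add (abs_add_le _ _) (abs_add_le _ _))
      _ ≤ (4 * C₀ / x ^ 2 * (C / x ^ 2) + 2 * C₀ / x * (C / x ^ 3)) +
          (2 * C₀ / x * (C / x ^ 3) + 1 * (C / x ^ 4)) := by gcongr
      _ = (8 * C₀ + 1) * C / x ^ 4 := by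
          field_simp
          ring

/-- Cutting off: for every `ε > 0` there is a function `g` (with `g' = g₁`, `g'' = g₂`) which is
the hyperbola `R₀/(4x)` for large `x`, such that `φ - g` is the hyperbola `R₀/(4|x|)` for large
negative `x`, and `g₂` is within `ε φ₂` of `φ₂/2`.
Proof. `S := Real.smoothTransition (x/X - 1)` (`0` for `x ≤ X`, `1` for `x ≥ 2X`),
`g := γ + S(x) (R₀/(4x) - γ) - S(-x) (-R₀/(4x) - χ)`, with `γ = (φ - Ax - B)/2`,
`χ = (φ + Ax + B)/2`.  `|S'| ≤ C₁/X`, `|S''| ≤ C₁/X²` (derivatives of `smoothTransition` are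
continuous with compact support), supports in `[X,2X]`; with `gam_tail`, `chi_tail`:
`|g₂ - φ₂/2| ≤ C₂/x⁴ ≤ (C₂/X)/|x|³` for `|x| ≥ X` and `0` for `|x| < X`, while
`φ₂ ≥ a (1+x²)^{-3/2} ≥ a/(3|x|³)`. Take `X` large. -/
theorem cutoff {φ φ₁ φ₂ : ℝ → ℝ} {A B R₀ c : ℝ} (P : Prof φ φ₁ φ₂ A B R₀ c) {ε : ℝ}
    (hε : 0 < ε) : ∃ (g g₁ g₂ : ℝ → ℝ) (X : ℝ), 1 ≤ X ∧
      (∀ x, HasDerivAt g (g₁ x) x) ∧ (∀ x, HasDerivAt g₁ (g₂ x) x) ∧
      (∀ x, X ≤ x → g x = R₀ / (4 * x)) ∧ (∀ x, X ≤ x → g₁ x = -(R₀ / (4 * x ^ 2))) ∧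
      (∀ x, x ≤ -X → φ x - g x = -(R₀ / (4 * x))) ∧
      (∀ x, x ≤ -X → φ₁ x - g₁ x = R₀ / (4 * x ^ 2)) ∧
      (∀ x, |g₂ x - φ₂ x / 2| ≤ ε * φ₂ x) ∧
      ((∀ x, φ (-x) = φ x) → B = 0 → ∀ x, φ x - g x = g (-x)) := by
  obtain ⟨a, b, ha, hab, _⟩ := curv_bounds P
  obtain ⟨C, hC⟩ := gam_tail P
  obtain ⟨D, hD⟩ := chi_tail P
  obtain ⟨K, hK, cut⟩ := modb_cut
  have hC0 : 0 ≤ C := by
    have := (abs_nonneg _).trans (hC 1 le_rfl).1
    simpa using this
  have hD0 : 0 ≤ D := by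
    have := (abs_nonneg _).trans (hD (-1) le_rfl).1
    simpa using this
  set Y : ℝ := 1 + 8 * K * (C + D) / (ε * a) with hYd
  have hY : 1 ≤ Y := by
    have : 0 ≤ 8 * K * (C + D) / (ε * a) := by positivity
    linarith
  have hY0 : 0 < Y := by linarith
  -- the right end
  obtain ⟨p, p₁, p₂, hp1, hp2, hpr, hpl, hpb, hpe⟩ := cut
    (fun x => R₀ / (4 * x) - (φ x - A * x - B) / 2)
    (fun x => -(R₀ / (4 * x ^ 2)) - (φ₁ x - A) / 2)
    (fun x => R₀ / (2 * x ^ 3) - φ₂ x / 2) C hC0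
    (fun x hx => by
      have h1 := modb_h1 R₀ x hx.ne'
      have h2 : HasDerivAt (fun x => (φ x - A * x - B) / 2) ((φ₁ x - A) / 2) x := by
        have := (((P.d1 x).sub ((hasDerivAt_id x).const_mul A)).sub_const B).div_const 2
        rw [mul_one] at this
        exact this
      exact h1.sub h2)
    (fun x hx => by
      have h1 : HasDerivAt (fun x : ℝ => -(R₀ / (4 * x ^ 2))) (R₀ / (2 * x ^ 3)) x :=
        (modb_h2 R₀ x hx.ne').neg.congr_deriv (neg_neg _)
      have h2 : HasDerivAt (fun x => (φ₁ x - A) / 2) (φ₂ x / 2) x :=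
        ((P.d2 x).sub_const A).div_const 2
      exact h1.sub h2)
    (fun x hx => by
      obtain ⟨b0, b1, b2⟩ := hC x hx
      refine ⟨?_, ?_, ?_⟩
      · rw [abs_sub_comm]; exact b0
      · rw [← abs_neg]
        refine (le_of_eq ?_).trans b1
        congr 1
        ring
      · rw [abs_sub_comm]; exact b2) Y hY
  -- the left end
  obtain ⟨r, r₁, r₂, hr1, hr2, hrr, hrl, hrb, hre⟩ := cut
    (fun x => (φ (-x) + A * (-x) + B) / 2 + R₀ / (4 * (-x)))
    (fun x => -((φ₁ (-x) + A) / 2 - R₀ / (4 * x ^ 2)))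
    (fun x => φ₂ (-x) / 2 - R₀ / (2 * x ^ 3)) D hD0
    (fun x hx => by
      have h1 : HasDerivAt (fun x : ℝ => R₀ / (4 * (-x))) (R₀ / (4 * x ^ 2)) x := by
        have e : (fun x : ℝ => R₀ / (4 * (-x))) = fun x => -(R₀ / (4 * x)) := by
          funext y
          rw [mul_neg, div_neg]
        rw [e]
        exact (modb_h1 R₀ x hx.ne').neg.congr_deriv (neg_neg _)
      have h2 : HasDerivAt (fun x => (φ (-x) + A * (-x) + B) / 2) (-((φ₁ (-x) + A) / 2)) x := by
        have h3 : HasDerivAt (fun x => φ (-x)) (φ₁ (-x) * (-1)) x :=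
          (P.d1 (-x)).comp x ((hasDerivAt_id x).neg)
        have := ((h3.add ((hasDerivAt_id x).neg.const_mul A)).add_const B).div_const 2
        refine this.congr_deriv ?_
        ring
      refine (h2.add h1).congr_deriv ?_
      ring)
    (fun x hx => by
      have h1 := modb_h2 R₀ x hx.ne'
      have h2 : HasDerivAt (fun x => (φ₁ (-x) + A) / 2) (-(φ₂ (-x) / 2)) x := by
        have h3 : HasDerivAt (fun x => φ₁ (-x)) (φ₂ (-x) * (-1)) x :=
          (P.d2 (-x)).comp x ((hasDerivAt_id x).neg)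
        have := (h3.add_const A).div_const 2
        refine this.congr_deriv ?_
        ring
      refine (h2.sub h1).neg.congr_deriv ?_
      ring)
    (fun x hx => by
      obtain ⟨b0, b1, b2⟩ := hD (-x) (by linarith)
      refine ⟨?_, ?_, ?_⟩
      · refine b0.trans (le_of_eq ?_)
        rw [neg_sq]
      · rw [abs_neg]
        rw [neg_sq, neg_neg] at b1
        exact b1
      · refine (le_of_eq ?_).trans (b2.trans (le_of_eq ?_))
        · congr 1
          have : (-x) ^ 3 = -(x ^ 3) := by ring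
          rw [this, mul_neg, div_neg]
          ring
        · congr 1
          ring) Y hY
  refine ⟨fun x => (φ x - A * x - B) / 2 + p x + r (-x),
    fun x => (φ₁ x - A) / 2 + p₁ x - r₁ (-x),
    fun x => φ₂ x / 2 + p₂ x + r₂ (-x), 2 * Y + 1, by linarith, fun x => ?_, fun x => ?_,
    fun x hx => ?_, fun x hx => ?_, fun x hx => ?_, fun x hx => ?_, fun x => ?_,
    fun hev hB x => ?_⟩
  · have h2 : HasDerivAt (fun x => (φ x - A * x - B) / 2) ((φ₁ x - A) / 2) x := by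
      have := (((P.d1 x).sub ((hasDerivAt_id x).const_mul A)).sub_const B).div_const 2
      rw [mul_one] at this
      exact this
    have h3 : HasDerivAt (fun x => r (-x)) (r₁ (-x) * (-1)) x :=
      (hr1 (-x)).comp x ((hasDerivAt_id x).neg)
    refine ((h2.add (hp1 x)).add h3).congr_deriv ?_
    ring
  · have h2 : HasDerivAt (fun x => (φ₁ x - A) / 2) (φ₂ x / 2) x :=
      ((P.d2 x).sub_const A).div_const 2
    have h3 : HasDerivAt (fun x => r₁ (-x)) (r₂ (-x) * (-1)) x :=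
      (hr2 (-x)).comp x ((hasDerivAt_id x).neg)
    refine ((h2.add (hp2 x)).sub h3).congr_deriv ?_
    ring
  · change (φ x - A * x - B) / 2 + p x + r (-x) = R₀ / (4 * x)
    rw [(hpr x (by linarith)).1, (hrl (-x) (by linarith)).1]
    ring
  · change (φ₁ x - A) / 2 + p₁ x - r₁ (-x) = -(R₀ / (4 * x ^ 2))
    rw [(hpr x (by linarith)).2, (hrl (-x) (by linarith)).2.1]
    ring
  · change φ x - ((φ x - A * x - B) / 2 + p x + r (-x)) = -(R₀ / (4 * x))
    rw [(hpl x (by linarith)).1, (hrr (-x) (by linarith)).1, neg_neg]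
    ring
  · change φ₁ x - ((φ₁ x - A) / 2 + p₁ x - r₁ (-x)) = R₀ / (4 * x ^ 2)
    rw [(hpl x (by linarith)).2.1, (hrr (-x) (by linarith)).2, neg_neg, neg_sq]
    ring
  · have hpos := P.pos x
    have key : ∀ z : ℝ, Y ≤ |z| → ∀ E : ℝ, 0 ≤ E → E ≤ C + D → K * E / |z| ^ 4 ≤ ε * φ₂ z := by
      intro z hz E hE hE'
      have hz1 : 1 ≤ |z| := hY.trans hz
      have hz0 : 0 < |z| := by linarith
      have hs : √(1 + z ^ 2) ≤ 2 * |z| := by
        rw [Real.sqrt_le_left (by positivity)]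
        have : z ^ 2 = |z| ^ 2 := (sq_abs z).symm
        nlinarith
      have h1 : a ≤ φ₂ z * (8 * |z| ^ 3) := by
        refine (hab z).trans ?_
        have h2 : √(1 + z ^ 2) ^ 3 ≤ (2 * |z|) ^ 3 := by gcongr
        have h3 : (2 * |z|) ^ 3 = 8 * |z| ^ 3 := by ring
        rw [← h3]
        exact mul_le_mul_of_nonneg_left h2 (P.pos z).le
      rw [div_le_iff₀ (by positivity)]
      have h4 : 8 * K * (C + D) ≤ (ε * a) * |z| := by
        have h5 : 8 * K * (C + D) / (ε * a) ≤ |z| := by linarith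
        rw [div_le_iff₀ (by positivity)] at h5
        linarith
      have h6 : K * E ≤ K * (C + D) := mul_le_mul_of_nonneg_left hE' hK
      have h7 : ε * a * |z| ≤ ε * (φ₂ z * (8 * |z| ^ 3)) * |z| := by gcongr
      have h8 : ε * (φ₂ z * (8 * |z| ^ 3)) * |z| = 8 * (ε * φ₂ z * |z| ^ 4) := by ring
      linarith
    have h0 : φ₂ x / 2 + p₂ x + r₂ (-x) - φ₂ x / 2 = p₂ x + r₂ (-x) := by ring
    change |φ₂ x / 2 + p₂ x + r₂ (-x) - φ₂ x / 2| ≤ ε * φ₂ x
    rw [h0]
    rcases le_or_gt Y x with h | h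
    · rw [(hrl (-x) (by linarith)).2.2, add_zero]
      refine (hpb x h).trans ?_
      have hx0 : 0 < x := by linarith
      have := key x (by rwa [abs_of_pos hx0]) C hC0 (by linarith)
      rwa [abs_of_pos hx0] at this
    · rw [(hpl x h).2.2, zero_add]
      rcases le_or_gt Y (-x) with h' | h'
      · refine (hrb (-x) h').trans ?_
        have hx0 : x < 0 := by linarith
        have := key x (by rwa [abs_of_neg hx0]) D hD0 (by linarith)
        rwa [abs_of_neg hx0] at this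
      · rw [(hrl (-x) h').2.2, abs_zero]
        positivity
  · have key : ∀ z, p z + r z = 0 := by
      intro z
      rw [hpe, hre, ← mul_add, hev, hB, mul_neg 4 z, div_neg]
      have : R₀ / (4 * z) - (φ z - A * z - 0) / 2 + ((φ z + A * -z + 0) / 2 + -(R₀ / (4 * z))) = 0 := by
        ring
      rw [this, mul_zero]
    change φ x - ((φ x - A * x - B) / 2 + p x + r (-x)) =
      (φ (-x) - A * (-x) - B) / 2 + p (-x) + r (-(-x))
    have h1 := key x
    have h2 := key (-x)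
    rw [hev, neg_neg, hB]
    linarith

end CF
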