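import Pool.Agent.H.MP_1693ff_gt.ModB

/-!
# Model functions: the inequalities (M)
-/

namespace CF

open Real Set Filter Topology

/-- Comparison of two functions with close second derivatives which vanish at infinity. -/
theorem modc1_cmp {γ γ₁ γ₂ g g₁ g₂ : ℝ → ℝ} {e : ℝ}
    (hγ1 : ∀ x, HasDerivAt γ (γ₁ x) x) (hγ2 : ∀ x, HasDerivAt γ₁ (γ₂ x) x)
    (hg1 : ∀ x, HasDerivAt g (g₁ x) x) (hg2 : ∀ x, HasDerivAt g₁ (g₂ x) x)
    (h : ∀ x, |g₂ x - γ₂ x| ≤ e * γ₂ x)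
    (lγ : Tendsto γ atTop (𝓝 0)) (lg : Tendsto g atTop (𝓝 0)) (x : ℝ) :
    (1 - e) * γ x ≤ g x ∧ g x ≤ (1 + e) * γ x ∧
      (1 - e) * (-γ₁ x) ≤ -g₁ x ∧ -g₁ x ≤ (1 + e) * (-γ₁ x) := by
  have key1 := conv_tail (u := fun y => g y - (1 - e) * γ y) (u₁ := fun y => g₁ y - (1 - e) * γ₁ y)
    (u₂ := fun y => g₂ y - (1 - e) * γ₂ y)
    (fun y => (hg1 y).sub ((hγ1 y).const_mul (1 - e)))
    (fun y => (hg2 y).sub ((hγ2 y).const_mul (1 - e)))
    (fun y => by
      have := (abs_le.1 (h y)).1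
      show 0 ≤ g₂ y - (1 - e) * γ₂ y
      nlinarith)
    (by
      have := lg.sub (lγ.const_mul (1 - e))
      simpa using this) x
  have key2 := conv_tail (u := fun y => (1 + e) * γ y - g y) (u₁ := fun y => (1 + e) * γ₁ y - g₁ y)
    (u₂ := fun y => (1 + e) * γ₂ y - g₂ y)
    (fun y => ((hγ1 y).const_mul (1 + e)).sub (hg1 y))
    (fun y => ((hγ2 y).const_mul (1 + e)).sub (hg2 y))
    (fun y => by
      have := (abs_le.1 (h y)).2
      show 0 ≤ (1 + e) * γ₂ y - g₂ y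
      nlinarith)
    (by
      have := (lγ.const_mul (1 + e)).sub lg
      simpa using this) x
  obtain ⟨a1, a2⟩ := key1
  obtain ⟨b1, b2⟩ := key2
  refine ⟨by linarith, by linarith, by linarith, by linarith⟩

/-- the algebra of the curvature inequalities -/
theorem modc1_alg {F γ δ G g d w s a b κ κ' R η e : ℝ} (he0 : 0 < e) (he1 : e ≤ 1 / 2)
    (ha : 0 < a) (hs : 0 < s) (hw : 0 < w) (hR : 0 < R) (hκ : 0 ≤ κ)
    (hFs : a ≤ 2 * F * s ^ 3) (hγ : a / 2 * w ≤ γ) (hδ : δ ≤ b / 2 * w / s) (hδ0 : 0 < δ)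
    (hM : F * γ ^ 3 ≤ κ * R * δ ^ 3)
    (hG1 : (1 - e) * F ≤ G) (hG2 : G ≤ (1 + e) * F)
    (hg1 : (1 - e) * γ ≤ g) (hg2 : g ≤ (1 + e) * γ)
    (hd1 : (1 - e) * δ ≤ d) (hd2 : d ≤ (1 + e) * δ)
    (hκ' : (1 + e) ^ 4 * κ ≤ (1 - e) ^ 3 * κ')
    (hη : η * ((1 + e) ^ 3 * b ^ 3 / 8) ≤ (1 - e) ^ 4 * a ^ 4 / 16) (hη0 : 0 ≤ η) :
    η * d ^ 3 ≤ G * g ^ 3 ∧ G * g ^ 3 ≤ κ' * R * d ^ 3 := by
  have he2 : 0 < 1 - e := by linarith
  have hs3 : 0 < s ^ 3 := by positivity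
  have hF : 0 < F := by
    by_contra hcon
    have : 2 * F * s ^ 3 ≤ 0 := by
      have : F ≤ 0 := not_lt.1 hcon
      nlinarith
    linarith
  have hγ0 : 0 < γ := lt_of_lt_of_le (by positivity) hγ
  have hg0 : 0 < g := lt_of_lt_of_le (by positivity) hg1
  have hG0 : 0 < G := lt_of_lt_of_le (by positivity) hG1
  have hd0 : 0 < d := lt_of_lt_of_le (by positivity) hd1
  constructor
  · -- lower bound
    have h1 : d ^ 3 ≤ ((1 + e) * (b / 2 * w / s)) ^ 3 := by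
      apply pow_le_pow_left₀ hd0.le
      exact hd2.trans (by
        apply mul_le_mul_of_nonneg_left hδ
        linarith)
    have h2 : ((1 - e) * (a / 2 * w)) ^ 3 ≤ g ^ 3 := by
      apply pow_le_pow_left₀ (by positivity)
      exact le_trans (mul_le_mul_of_nonneg_left hγ he2.le) hg1
    have h3 : (1 - e) * (a / (2 * s ^ 3)) ≤ G := by
      refine le_trans (mul_le_mul_of_nonneg_left ?_ he2.le) hG1
      rw [div_le_iff₀ (by positivity)]
      linarith
    calc η * d ^ 3 ≤ η * ((1 + e) * (b / 2 * w / s)) ^ 3 := mul_le_mul_of_nonneg_left h1 hη0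
      _ = (η * ((1 + e) ^ 3 * b ^ 3 / 8)) * (w ^ 3 / s ^ 3) := by
          field_simp
          ring
      _ ≤ ((1 - e) ^ 4 * a ^ 4 / 16) * (w ^ 3 / s ^ 3) :=
          mul_le_mul_of_nonneg_right hη (by positivity)
      _ = ((1 - e) * (a / (2 * s ^ 3))) * ((1 - e) * (a / 2 * w)) ^ 3 := by
          field_simp
          ring
      _ ≤ G * g ^ 3 := mul_le_mul h3 h2 (by positivity) hG0.le
  · -- upper bound
    have h1 : g ^ 3 ≤ ((1 + e) * γ) ^ 3 := pow_le_pow_left₀ hg0.le hg2 3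
    have h2 : ((1 - e) * δ) ^ 3 ≤ d ^ 3 := pow_le_pow_left₀ (by positivity) hd1 3
    have hκ'0 : 0 ≤ κ' := by
      by_contra hcon
      have h5 : κ' < 0 := not_le.1 hcon
      have h6 : (1 - e) ^ 3 * κ' < 0 := mul_neg_of_pos_of_neg (by positivity) h5
      have h7 : 0 ≤ (1 + e) ^ 4 * κ := by positivity
      linarith
    calc G * g ^ 3 ≤ ((1 + e) * F) * ((1 + e) * γ) ^ 3 :=
          mul_le_mul hG2 h1 (by positivity) (by positivity)
      _ = (1 + e) ^ 4 * (F * γ ^ 3) := by ring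
      _ ≤ (1 + e) ^ 4 * (κ * R * δ ^ 3) := mul_le_mul_of_nonneg_left hM (by positivity)
      _ = ((1 + e) ^ 4 * κ) * (R * δ ^ 3) := by ring
      _ ≤ ((1 - e) ^ 3 * κ') * (R * δ ^ 3) := mul_le_mul_of_nonneg_right hκ' (by positivity)
      _ = κ' * R * ((1 - e) * δ) ^ 3 := by ring
      _ ≤ κ' * R * d ^ 3 := mul_le_mul_of_nonneg_left h2 (by positivity)

/-- `C / x` tends to zero, so a function within `C / x` of zero does. -/
theorem modc1_tend {u : ℝ → ℝ} {C : ℝ} (h : ∀ x, 1 ≤ x → |u x| ≤ C / x) :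
    Tendsto u atTop (𝓝 0) := by
  have h1 : Tendsto (fun x : ℝ => C / x) atTop (𝓝 0) := tendsto_const_nhds.div_atTop tendsto_id
  refine squeeze_zero_norm' ?_ h1
  filter_upwards [eventually_ge_atTop (1 : ℝ)] with x hx
  rw [Real.norm_eq_abs]
  exact h x hx

/-- Existence of a model.
Proof. Take `g` from `cutoff` with small `ε`. `(1/2 - ε) φ₂ ≤ g₂ ≤ (1/2 + ε) φ₂`, the same for
`φ₂ - g₂`. `conv_tail` applied to `(1 + 2ε) γ - g` and `g - (1 - 2ε) γ`
(second derivatives `≥ 0`, limits `0`; `γ = (φ - Ax - B)/2`) gives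
`(1 - 2ε) γ ≤ g ≤ (1 + 2ε) γ`, `(1 - 2ε)(-γ') ≤ -g₁ ≤ (1 + 2ε)(-γ')`; the same for `χ` on the
other side (reflect).  Hence `g₂ g³ ≤ (1 + 2ε)⁴ (φ₂/2) γ³ ≤ (1+2ε)⁴ c R₀ (-γ')³
≤ (1+2ε)⁴/(1-2ε)³ c R₀ (-g₁)³ ≤ (R₀ - η)(-g₁)³`; and from below by `gam_bounds`
(`γ ≥ (a/b) √(1+x²)(-γ')`, `φ₂ √(1+x²)³ ≥ a`). Positivity: `gam_bounds`, `chi_bounds`. -/
theorem exists_model {φ φ₁ φ₂ : ℝ → ℝ} {A B R₀ c : ℝ} (P : Prof φ φ₁ φ₂ A B R₀ c)
    (hM : MCond φ φ₁ φ₂ A B R₀) :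
    ∃ (g g₁ g₂ : ℝ → ℝ) (X η c₀ : ℝ), Model φ φ₁ φ₂ g g₁ g₂ R₀ X η c₀ ∧
      ((∀ x, φ (-x) = φ x) → B = 0 → ∀ x, φ x - g x = g (-x)) := by
  obtain ⟨κ₀, hκ₀1, hM⟩ := hM
  obtain ⟨a, b, ha, hab, hbb⟩ := curv_bounds P
  set κ : ℝ := max κ₀ 0 with hκdef
  have hκ1 : κ < 1 := max_lt hκ₀1 one_pos
  have hκ0 : 0 ≤ κ := le_max_right _ _
  have hκκ : κ₀ ≤ κ := le_max_left _ _
  have hR := P.R0
  -- the choice of e
  set e : ℝ := min (1 / 2) ((1 - κ) / 36) with hedef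
  have he0 : 0 < e := lt_min (by norm_num) (by linarith)
  have he1 : e ≤ 1 / 2 := min_le_left _ _
  have he2 : e ≤ (1 - κ) / 36 := min_le_right _ _
  have he3 : 0 < 1 - e := by linarith
  have hb : 0 < b := by
    have h1 := hab 0
    have h2 := hbb 0
    linarith
  obtain ⟨g, g₁, g₂, X, hX1, hd1, hd2, htr, htr1, htl, htl1, hcl, hsym⟩ :=
    cutoff P (ε := e / 2) (by positivity)
  -- the constants
  set κ' : ℝ := (1 + e) ^ 4 * κ / (1 - e) ^ 3 with hκ'def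
  have hκ'e : (1 + e) ^ 4 * κ ≤ (1 - e) ^ 3 * κ' := by
    rw [hκ'def, mul_div_cancel₀]
    positivity
  have hκ'1 : κ' < 1 := by
    rw [hκ'def, div_lt_one (by positivity)]
    have h1 : (1 + e) ^ 4 ≤ 1 + 15 * e := by
      have h2 : e ^ 2 ≤ e := by nlinarith
      have h3 : e ^ 3 ≤ e := by nlinarith [mul_nonneg he0.le he0.le]
      have h4 : e ^ 4 ≤ e := by nlinarith [mul_nonneg he0.le he0.le]
      nlinarith
    have h5 : 1 - 3 * e ≤ (1 - e) ^ 3 := by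
      nlinarith [mul_nonneg he0.le he0.le, mul_nonneg (mul_nonneg he0.le he0.le) he3.le]
    have h6 : (1 + e) ^ 4 * κ ≤ (1 + 15 * e) * κ := mul_le_mul_of_nonneg_right h1 hκ0
    nlinarith
  set η₁ : ℝ := (1 - e) ^ 4 * a ^ 4 / 16 / ((1 + e) ^ 3 * b ^ 3 / 8) with hη₁def
  have hη₁0 : 0 < η₁ := by positivity
  set η : ℝ := min η₁ ((1 - κ') * R₀) with hηdef
  have hη0 : 0 < η := lt_min hη₁0 (mul_pos (by linarith) hR)
  have hη1 : η * ((1 + e) ^ 3 * b ^ 3 / 8) ≤ (1 - e) ^ 4 * a ^ 4 / 16 := by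
    have h1 : η ≤ η₁ := min_le_left _ _
    have h2 : 0 < (1 + e) ^ 3 * b ^ 3 / 8 := by positivity
    calc η * ((1 + e) ^ 3 * b ^ 3 / 8) ≤ η₁ * ((1 + e) ^ 3 * b ^ 3 / 8) :=
          mul_le_mul_of_nonneg_right h1 h2.le
      _ = (1 - e) ^ 4 * a ^ 4 / 16 := by
          rw [hη₁def]
          exact div_mul_cancel₀ _ h2.ne'
  have hη2 : κ' * R₀ ≤ R₀ - η := by
    have h1 : η ≤ (1 - κ') * R₀ := min_le_right _ _
    linarith
  -- limits
  have lg : Tendsto g atTop (𝓝 0) := by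
    have h1 : Tendsto (fun x : ℝ => (R₀ / 4) / x) atTop (𝓝 0) :=
      tendsto_const_nhds.div_atTop tendsto_id
    refine h1.congr' ?_
    filter_upwards [eventually_ge_atTop X] with x hx
    rw [htr x hx, div_div]
  have lh : Tendsto (fun x => φ (-x) - g (-x)) atTop (𝓝 0) := by
    have h1 : Tendsto (fun x : ℝ => (R₀ / 4) / x) atTop (𝓝 0) :=
      tendsto_const_nhds.div_atTop tendsto_id
    refine h1.congr' ?_
    filter_upwards [eventually_ge_atTop X] with x hx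
    rw [htl (-x) (by linarith), div_div]
    have hx0 : x ≠ 0 := by
      have : 0 < x := by linarith
      exact this.ne'
    field_simp
  have lγ : Tendsto (fun x => (φ x - A * x - B) / 2) atTop (𝓝 0) := by
    refine modc1_tend (C := c / 2) (fun x hx => ?_)
    have h1 := P.r0 x hx
    have h2 : (φ x - A * x - B) / 2 = (φ x - (A * x + B)) / 2 := by ring
    rw [h2, abs_div, abs_two]
    have : c / 2 / x = c / x / 2 := by ring
    rw [this]
    exact div_le_div_of_nonneg_right h1 (by norm_num)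
  have lχ : Tendsto (fun x => (φ (-x) + A * (-x) + B) / 2) atTop (𝓝 0) := by
    refine modc1_tend (C := c / 2) (fun x hx => ?_)
    have h1 := P.l0 (-x) (by linarith)
    rw [neg_neg] at h1
    have h2 : (φ (-x) + A * (-x) + B) / 2 = (φ (-x) + (A * (-x) + B)) / 2 := by ring
    rw [h2, abs_div, abs_two]
    have : c / 2 / x = c / x / 2 := by ring
    rw [this]
    exact div_le_div_of_nonneg_right h1 (by norm_num)
  -- comparison
  have hcmp : ∀ x, (1 - e) * ((φ x - A * x - B) / 2) ≤ g x ∧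
      g x ≤ (1 + e) * ((φ x - A * x - B) / 2) ∧
      (1 - e) * (-((φ₁ x - A) / 2)) ≤ -g₁ x ∧ -g₁ x ≤ (1 + e) * (-((φ₁ x - A) / 2)) := by
    intro x
    refine modc1_cmp (γ := fun x => (φ x - A * x - B) / 2) (γ₁ := fun x => (φ₁ x - A) / 2)
      (γ₂ := fun x => φ₂ x / 2) (g := g) (g₁ := g₁) (g₂ := g₂) (e := e) ?_ ?_ hd1 hd2 ?_ lγ lg x
    · intro y
      have h1 := ((P.d1 y).sub ((hasDerivAt_id y).const_mul A)).sub_const B
      have h2 := h1.div_const 2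
      simpa using h2
    · intro y
      have h1 := ((P.d2 y).sub_const A).div_const 2
      simpa using h1
    · intro y
      have := hcl y
      show |g₂ y - φ₂ y / 2| ≤ e * (φ₂ y / 2)
      linarith
  have hcmp2 : ∀ x, (1 - e) * ((φ x + A * x + B) / 2) ≤ φ x - g x ∧
      φ x - g x ≤ (1 + e) * ((φ x + A * x + B) / 2) ∧
      (1 - e) * ((φ₁ x + A) / 2) ≤ φ₁ x - g₁ x ∧
      φ₁ x - g₁ x ≤ (1 + e) * ((φ₁ x + A) / 2) := by
    intro x
    have hneg : ∀ y : ℝ, HasDerivAt (fun z : ℝ => -z) (-1) y := fun y => hasDerivAt_neg y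
    have key := modc1_cmp (γ := fun x => (φ (-x) + A * (-x) + B) / 2)
      (γ₁ := fun x => -((φ₁ (-x) + A) / 2))
      (γ₂ := fun x => φ₂ (-x) / 2) (g := fun x => φ (-x) - g (-x))
      (g₁ := fun x => -(φ₁ (-x) - g₁ (-x))) (g₂ := fun x => φ₂ (-x) - g₂ (-x)) (e := e)
      ?_ ?_ ?_ ?_ ?_ lχ lh (-x)
    · simp only [neg_neg] at key
      exact key
    · intro y
      have h0 := (P.d1 (-y)).comp y (hneg y)
      have h1 := ((h0.add ((hneg y).const_mul A)).add_const B).div_const 2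
      refine (h1.congr_deriv ?_)
      ring
    · intro y
      have h0 := (P.d2 (-y)).comp y (hneg y)
      have h1 := ((h0.add_const A).div_const 2).neg
      refine (h1.congr_deriv ?_)
      ring
    · intro y
      have h0 := ((P.d1 (-y)).sub (hd1 (-y))).comp y (hneg y)
      refine (h0.congr_deriv ?_)
      ring
    · intro y
      have h0 := (((P.d2 (-y)).sub (hd2 (-y))).comp y (hneg y)).neg
      refine (h0.congr_deriv ?_)
      ring
    · intro y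
      have := hcl (-y)
      show |φ₂ (-y) - g₂ (-y) - φ₂ (-y) / 2| ≤ e * (φ₂ (-y) / 2)
      have h2 : φ₂ (-y) - g₂ (-y) - φ₂ (-y) / 2 = -(g₂ (-y) - φ₂ (-y) / 2) := by ring
      rw [h2, abs_neg]
      linarith
  -- positivity of the auxiliary quantities
  have hs : ∀ x : ℝ, 0 < √(1 + x ^ 2) := fun x => Real.sqrt_pos.2 (by positivity)
  have hsx : ∀ x : ℝ, |x| < √(1 + x ^ 2) := fun x => by
    rw [← Real.sqrt_sq_eq_abs]
    exact Real.sqrt_lt_sqrt (sq_nonneg x) (by linarith)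
  have hw1 : ∀ x : ℝ, 0 < √(1 + x ^ 2) - x := fun x => by
    have := hsx x
    have := le_abs_self x
    linarith
  have hw2 : ∀ x : ℝ, 0 < √(1 + x ^ 2) + x := fun x => by
    have := hsx x
    have := neg_abs_le x
    linarith
  have hG1 : ∀ x, (1 - e) * (φ₂ x / 2) ≤ g₂ x := fun x => by
    have := (abs_le.1 (hcl x)).1
    linarith
  have hG2 : ∀ x, g₂ x ≤ (1 + e) * (φ₂ x / 2) := fun x => by
    have := (abs_le.1 (hcl x)).2
    linarith
  have hδ0 : ∀ x, 0 < -((φ₁ x - A) / 2) := fun x => by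
    refine lt_of_lt_of_le ?_ (gam_bounds P hab hbb x).2.2.1
    have := hw1 x
    have := hs x
    positivity
  have hδ0' : ∀ x, 0 < (φ₁ x + A) / 2 := fun x => by
    refine lt_of_lt_of_le ?_ (chi_bounds P hab hbb x).2.2.1
    have := hw2 x
    have := hs x
    positivity
  have hA : ∀ x, η * (-g₁ x) ^ 3 ≤ g₂ x * g x ^ 3 ∧ g₂ x * g x ^ 3 ≤ κ' * R₀ * (-g₁ x) ^ 3 := by
    intro x
    obtain ⟨c1, c2, c3, c4⟩ := hcmp x
    obtain ⟨b1, b2, b3, b4⟩ := gam_bounds P hab hbb x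
    refine modc1_alg (F := φ₂ x / 2) (γ := (φ x - A * x - B) / 2) (δ := -((φ₁ x - A) / 2))
      (w := √(1 + x ^ 2) - x) (s := √(1 + x ^ 2)) (a := a) (b := b) (κ := κ) he0 he1 ha (hs x)
      (hw1 x) hR hκ0 ?_ b1 b4 (hδ0 x) ?_ (hG1 x) (hG2 x) c1 c2 c3 c4 hκ'e hη1 hη0.le
    · have := hab x
      linarith
    · refine (hM x).1.trans ?_
      apply mul_le_mul_of_nonneg_right
      · exact mul_le_mul_of_nonneg_right hκκ hR.le
      · exact (pow_pos (hδ0 x) 3).le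
  have hBB : ∀ x, η * (φ₁ x - g₁ x) ^ 3 ≤ (φ₂ x - g₂ x) * (φ x - g x) ^ 3 ∧
      (φ₂ x - g₂ x) * (φ x - g x) ^ 3 ≤ κ' * R₀ * (φ₁ x - g₁ x) ^ 3 := by
    intro x
    obtain ⟨c1, c2, c3, c4⟩ := hcmp2 x
    obtain ⟨b1, b2, b3, b4⟩ := chi_bounds P hab hbb x
    refine modc1_alg (F := φ₂ x / 2) (γ := (φ x + A * x + B) / 2) (δ := (φ₁ x + A) / 2)
      (w := √(1 + x ^ 2) + x) (s := √(1 + x ^ 2)) (a := a) (b := b) (κ := κ) he0 he1 ha (hs x)
      (hw2 x) hR hκ0 ?_ b1 b4 (hδ0' x) ?_ ?_ ?_ c1 c2 c3 c4 hκ'e hη1 hη0.le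
    · have := hab x
      linarith
    · refine (hM x).2.trans ?_
      apply mul_le_mul_of_nonneg_right
      · exact mul_le_mul_of_nonneg_right hκκ hR.le
      · exact (pow_pos (hδ0' x) 3).le
    · have := hG2 x
      linarith
    · have := hG1 x
      linarith
  have hg1neg : ∀ x, 0 < -g₁ x := fun x =>
    lt_of_lt_of_le (mul_pos he3 (hδ0 x)) (hcmp x).2.2.1
  have hh1pos : ∀ x, 0 < φ₁ x - g₁ x := fun x =>
    lt_of_lt_of_le (mul_pos he3 (hδ0' x)) (hcmp2 x).2.2.1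
  refine ⟨g, g₁, g₂, X, η, a / 4, ?_, hsym⟩
  exact
    { d1 := hd1
      d2 := hd2
      X1 := hX1
      η0 := hη0
      c00 := by positivity
      tr := htr
      tr1 := htr1
      tl := htl
      tl1 := htl1
      g2pos := fun x => lt_of_lt_of_le (mul_pos he3 (half_pos (P.pos x))) (hG1 x)
      g2lt := fun x => by
        have h1 := hG2 x
        have h2 := P.pos x
        nlinarith
      g1neg := fun x => by
        have := hg1neg x
        linarith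
      h1pos := hh1pos
      lo := fun x => by
        have h1 := (hcmp x).1
        have h2 := (gam_bounds P hab hbb x).1
        have h3 := hw1 x
        have h4 : (1 - e) * (a / 2 * (√(1 + x ^ 2) - x)) ≤ (1 - e) * ((φ x - A * x - B) / 2) :=
          mul_le_mul_of_nonneg_left h2 he3.le
        have h5 : 1 / 2 * (a / 2 * (√(1 + x ^ 2) - x)) ≤ (1 - e) * (a / 2 * (√(1 + x ^ 2) - x)) :=
          mul_le_mul_of_nonneg_right (by linarith) (by positivity)
        linarith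
      hlo := fun x => by
        have h1 := (hcmp2 x).1
        have h2 := (chi_bounds P hab hbb x).1
        have h3 := hw2 x
        have h4 : (1 - e) * (a / 2 * (√(1 + x ^ 2) + x)) ≤ (1 - e) * ((φ x + A * x + B) / 2) :=
          mul_le_mul_of_nonneg_left h2 he3.le
        have h5 : 1 / 2 * (a / 2 * (√(1 + x ^ 2) + x)) ≤ (1 - e) * (a / 2 * (√(1 + x ^ 2) + x)) :=
          mul_le_mul_of_nonneg_right (by linarith) (by positivity)
        linarith
      bg := fun x => (hA x).1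
      bg' := fun x => (hA x).2.trans
        (mul_le_mul_of_nonneg_right hη2 (pow_pos (hg1neg x) 3).le)
      bh := fun x => (hBB x).1
      bh' := fun x => (hBB x).2.trans
        (mul_le_mul_of_nonneg_right hη2 (pow_pos (hh1pos x) 3).le) }

end CF
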