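import Pool.Agent.H.MP_1693ff_gt.Defs

/-!
# Part (A), step 1: second order expansion in the chart
-/

namespace CF

open Real Set Filter Topology Asymptotics

theorem nec1_cos : (fun t : ℝ => cos t - (1 - t ^ 2 / 2)) =o[𝓝 0] fun t : ℝ => t ^ 2 := by
  have h1 : (fun t : ℝ => cos t - (1 - t ^ 2 / 2)) =O[𝓝 0] fun t : ℝ => t ^ 4 := by
    refine IsBigO.of_bound (5 / 96) ?_
    have h2 : ∀ᶠ t : ℝ in 𝓝 0, |t| ≤ 1 := by
      filter_upwards [Metric.ball_mem_nhds (0 : ℝ) one_pos] with t ht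
      rw [Metric.mem_ball, dist_zero_right, Real.norm_eq_abs] at ht
      exact ht.le
    filter_upwards [h2] with t ht
    have h3 := Real.cos_bound ht
    rw [Real.norm_eq_abs, Real.norm_eq_abs, abs_pow]
    linarith
  exact h1.trans_isLittleO (isLittleO_pow_pow (by norm_num))

theorem nec1_sin : (fun t : ℝ => sin t - t) =o[𝓝 0] fun t : ℝ => t ^ 2 := by
  have h1 : (fun t : ℝ => sin t - t) =O[𝓝 0] fun t : ℝ => t ^ 3 := by
    refine IsBigO.of_bound 1 ?_
    have h2 : ∀ᶠ t : ℝ in 𝓝 0, |t| ≤ 1 := by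
      filter_upwards [Metric.ball_mem_nhds (0 : ℝ) one_pos] with t ht
      rw [Metric.mem_ball, dist_zero_right, Real.norm_eq_abs] at ht
      exact ht.le
    filter_upwards [h2] with t ht
    have h3 := Real.sin_bound ht
    rw [Real.norm_eq_abs, Real.norm_eq_abs, abs_pow]
    have h4 : sin t - t = (sin t - (t - t ^ 3 / 6)) - t ^ 3 / 6 := by ring
    have h5 : |t ^ 3 / 6| = |t| ^ 3 / 6 := by
      rw [abs_div, abs_pow, abs_of_pos (by norm_num : (0 : ℝ) < 6)]
    have h6 : |t| ^ 5 ≤ |t| ^ 3 := pow_le_pow_of_le_one (abs_nonneg t) ht (by norm_num)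
    have h7 : 0 ≤ |t| ^ 3 := by positivity
    calc |sin t - t| = |(sin t - (t - t ^ 3 / 6)) - t ^ 3 / 6| := by rw [← h4]
      _ ≤ |sin t - (t - t ^ 3 / 6)| + |t ^ 3 / 6| := abs_sub _ _
      _ ≤ |t| ^ 5 / 100 + |t| ^ 3 / 6 := by rw [h5]; linarith
      _ ≤ 1 * |t| ^ 3 := by linarith
  exact h1.trans_isLittleO (isLittleO_pow_pow (by norm_num))

theorem nec1_lim (f : ℝ → ℝ) (a b c : ℝ)
    (h : (fun t : ℝ => f t - (a + b * t + c * t ^ 2 / 2)) =o[𝓝 0] fun t : ℝ => t ^ 2) :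
    Tendsto (fun t : ℝ => cos t * (t * (sin t)⁻¹) ^ 2 * ((f t - a * cos t - b * sin t) / t ^ 2))
      (𝓝[≠] 0) (𝓝 ((a + c) / 2)) := by
  have h1 : (fun t : ℝ => (f t - a * cos t - b * sin t) - (a + c) / 2 * t ^ 2) =o[𝓝 0]
      fun t : ℝ => t ^ 2 := by
    have h2 := (h.sub (nec1_cos.const_mul_left a)).sub (nec1_sin.const_mul_left b)
    refine h2.congr_left (fun t => ?_)
    ring
  have h3 : Tendsto (fun t : ℝ => ((f t - a * cos t - b * sin t) - (a + c) / 2 * t ^ 2) / t ^ 2)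
      (𝓝[≠] 0) (𝓝 0) := (h1.tendsto_div_nhds_zero).mono_left nhdsWithin_le_nhds
  have h4 : Tendsto (fun t : ℝ => (f t - a * cos t - b * sin t) / t ^ 2)
      (𝓝[≠] 0) (𝓝 ((a + c) / 2)) := by
    have h5 := h3.add_const ((a + c) / 2)
    rw [zero_add] at h5
    refine h5.congr' ?_
    filter_upwards [self_mem_nhdsWithin] with t ht
    have ht' : t ≠ 0 := ht
    field_simp
    ring
  have h6 : Tendsto (fun t : ℝ => t⁻¹ * sin t) (𝓝[≠] 0) (𝓝 1) := by
    have h7 := hasDerivAt_iff_tendsto_slope_zero.1 (Real.hasDerivAt_sin 0)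
    simpa using h7
  have h8 : Tendsto (fun t : ℝ => t * (sin t)⁻¹) (𝓝[≠] 0) (𝓝 1) := by
    have h9 := h6.inv₀ one_ne_zero
    rw [inv_one] at h9
    refine h9.congr (fun t => ?_)
    rw [mul_inv, inv_inv]
  have h10 : Tendsto (fun t : ℝ => cos t) (𝓝[≠] 0) (𝓝 1) := by
    have := (Real.continuous_cos.tendsto 0).mono_left (nhdsWithin_le_nhds (s := {(0 : ℝ)}ᶜ))
    rwa [Real.cos_zero] at this
  have h11 := (h10.mul (h8.pow 2)).mul h4
  simpa using h11

/-- If `f(t) = a + b t + c t²/2 + o(t²)` then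
`x (√(1+x²) f(arctan(1/x)) - (a x + b)) → (a+c)/2`.
Proof: with `t = arctan (1/x)`, `x = cos t / sin t`, `√(1+x²) = 1/sin t`, `t → 0+`, the quantity is
`cos t (f t - a cos t - b sin t) / sin² t`, and
`a + b t + c t²/2 - a cos t - b sin t = (a + c) t²/2 + o(t²)`. -/
theorem nec_expand (f : ℝ → ℝ) (a b c : ℝ)
    (h : (fun t : ℝ => f t - (a + b * t + c * t ^ 2 / 2)) =o[𝓝 0] fun t : ℝ => t ^ 2) :
    Tendsto (fun x : ℝ => x * (√(1 + x ^ 2) * f (arctan (1 / x)) - (a * x + b))) atTop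
      (𝓝 ((a + c) / 2)) := by
  have h1 : Tendsto (fun x : ℝ => arctan (1 / x)) atTop (𝓝[≠] 0) := by
    refine tendsto_nhdsWithin_iff.2 ⟨?_, ?_⟩
    · have h2 : Tendsto (fun x : ℝ => 1 / x) atTop (𝓝 0) := by
        simpa using tendsto_inv_atTop_zero (𝕜 := ℝ)
      have h3 := (Real.continuous_arctan.tendsto 0).comp h2
      rwa [Real.arctan_zero] at h3
    · filter_upwards [eventually_gt_atTop 0] with x hx
      have : 0 < arctan (1 / x) := Real.arctan_pos.2 (by positivity)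
      exact this.ne'
  refine ((nec1_lim f a b c h).comp h1).congr' ?_
  filter_upwards [eventually_gt_atTop 0] with x hx
  have hs : 0 < √(1 + x ^ 2) := Real.sqrt_pos.2 (by positivity)
  have hs2 : √(1 + x ^ 2) ^ 2 = 1 + x ^ 2 := Real.sq_sqrt (by positivity)
  have h4 : √(1 + (1 / x) ^ 2) = √(1 + x ^ 2) / x := by
    rw [show 1 + (1 / x) ^ 2 = (1 + x ^ 2) / x ^ 2 by field_simp; ring]
    rw [Real.sqrt_div (by positivity), Real.sqrt_sq hx.le]
  have hsin : sin (arctan (1 / x)) = 1 / √(1 + x ^ 2) := by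
    rw [Real.sin_arctan, h4]; field_simp
  have hcos : cos (arctan (1 / x)) = x / √(1 + x ^ 2) := by
    rw [Real.cos_arctan, h4]; field_simp
  have ht : 0 < arctan (1 / x) := Real.arctan_pos.2 (by positivity)
  simp only [Function.comp_apply, hsin, hcos]
  set t := arctan (1 / x) with htd
  set s := √(1 + x ^ 2) with hsd
  field_simp
  ring

end CF
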