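import Pool.Agent.H.MP_1693ff_gt.Defs

/-!
# Part (A), step 2a: a convex and a concave function and the staircase
-/

namespace CF

open Real Set Filter Topology

theorem nec2a_anti {g : ℝ → ℝ} (hg : ConvexOn ℝ univ g)
    (h0 : Tendsto (fun x => g x / x) atTop (𝓝 0)) : Antitone g := by
  intro a b hab
  by_contra hlt
  push Not at hlt
  have hab' : a < b := lt_of_le_of_ne hab (by rintro rfl; exact lt_irrefl _ hlt)
  obtain ⟨s, hs⟩ : ∃ s, s = (g b - g a) / (b - a) := ⟨_, rfl⟩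
  have hspos : 0 < s := by rw [hs]; exact div_pos (by linarith) (by linarith)
  have key : ∀ x, b < x → g b + s * (x - b) ≤ g x := by
    intro x hx
    have h := hg.slope_mono_adjacent (mem_univ a) (mem_univ x) hab' hx
    rw [← hs, le_div_iff₀ (by linarith)] at h
    linarith
  have h1 : Tendsto (fun x => (g b + s * (x - b)) / x) atTop (𝓝 s) := by
    have h : Tendsto (fun x : ℝ => (g b - s * b) / x + s) atTop (𝓝 (0 + s)) :=
      (tendsto_const_nhds.div_atTop tendsto_id).add tendsto_const_nhds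
    rw [zero_add] at h
    refine h.congr' ?_
    filter_upwards [eventually_gt_atTop 0] with x hx
    field_simp
    ring
  have h2 : s ≤ 0 := le_of_tendsto_of_tendsto h1 h0 (by
    filter_upwards [eventually_gt_atTop b, eventually_gt_atTop 0] with x hx hx0
    exact div_le_div_of_nonneg_right (key x hx) hx0.le)
  linarith

theorem nec2a_bdd {f g : ℝ → ℝ} {M : ℝ} (hf : ∀ᶠ x in atTop, |f x| ≤ M)
    (hg : Tendsto g atTop (𝓝 0)) : Tendsto (fun x => f x * g x) atTop (𝓝 0) := by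
  have h1 : Tendsto (fun x => M * |g x|) atTop (𝓝 0) := by
    have h := hg.abs.const_mul M
    simpa using h
  refine squeeze_zero_norm' ?_ h1
  filter_upwards [hf] with x hx
  rw [Real.norm_eq_abs, abs_mul]
  exact mul_le_mul_of_nonneg_right hx (abs_nonneg _)

theorem nec2a_iter {ψ T : ℝ → ℝ} {δ M : ℝ} (hb : ∀ᶠ x in atTop, |ψ x| ≤ M)
    (hT : ∀ᶠ x in atTop, x ≤ T x)
    (hd : Tendsto (fun x => ψ (T x) - ψ x) atTop (𝓝 δ)) : δ = 0 := by
  by_contra hδ
  have hpos : 0 < |δ| := abs_pos.2 hδ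
  have h1 : ∀ᶠ x in atTop, |ψ (T x) - ψ x - δ| < |δ| / 2 := by
    have h := (hd.sub_const δ).abs
    rw [sub_self, abs_zero] at h
    exact h.eventually (gt_mem_nhds (by linarith))
  obtain ⟨X, hX⟩ := eventually_atTop.1 ((hb.and hT).and h1)
  have hn : ∀ n : ℕ, X ≤ T^[n] X := by
    intro n
    induction n with
    | zero => simp
    | succ n ih =>
      rw [Function.iterate_succ_apply']
      exact ih.trans (hX _ ih).1.2
  have key : ∀ n : ℕ, |ψ (T^[n] X) - ψ X - n * δ| ≤ n * (|δ| / 2) := by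
    intro n
    induction n with
    | zero => simp
    | succ n ih =>
      rw [Function.iterate_succ_apply']
      have h2 := (hX _ (hn n)).2
      have h3 : ψ (T (T^[n] X)) - ψ X - ((n + 1 : ℕ) : ℝ) * δ
          = (ψ (T^[n] X) - ψ X - n * δ) + (ψ (T (T^[n] X)) - ψ (T^[n] X) - δ) := by
        push_cast; ring
      rw [h3]
      have h4 := abs_add_le (ψ (T^[n] X) - ψ X - n * δ) (ψ (T (T^[n] X)) - ψ (T^[n] X) - δ)
      push_cast
      linarith
  obtain ⟨n, hn'⟩ := exists_nat_gt (4 * M / |δ|)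
  rw [div_lt_iff₀ hpos] at hn'
  have h5 := key n
  have h6 := (hX _ (hn n)).1.1
  have h7 := (hX X le_rfl).1.1
  have h8 : (n : ℝ) * |δ| = |(n : ℝ) * δ| := by
    rw [abs_mul, Nat.abs_cast]
  have h9 : |(n : ℝ) * δ| ≤ |ψ (T^[n] X) - ψ X - n * δ| + (|ψ (T^[n] X)| + |ψ X|) := by
    have e : (n : ℝ) * δ = -(ψ (T^[n] X) - ψ X - n * δ) + (ψ (T^[n] X) - ψ X) := by ring
    calc |(n : ℝ) * δ| = |-(ψ (T^[n] X) - ψ X - n * δ) + (ψ (T^[n] X) - ψ X)| := by rw [← e]
      _ ≤ |-(ψ (T^[n] X) - ψ X - n * δ)| + |ψ (T^[n] X) - ψ X| := abs_add_le _ _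
      _ ≤ _ := by
        rw [abs_neg]
        have := abs_sub (ψ (T^[n] X)) (ψ X)
        linarith
  have h10 : (n : ℝ) * |δ| ≤ n * (|δ| / 2) + 2 * M := by
    rw [h8]; linarith
  nlinarith

theorem nec2a_step {G H F₂ : ℝ → ℝ} {α β ℓ₁ α' β' ℓ₂ m κ M : ℝ} (hm : 0 < m)
    (hα : 0 < α) (hα' : 0 < α')
    (e₂ : Tendsto (fun x => x * (F₂ (-x) - (α' * x + β'))) atTop (𝓝 ℓ₂))
    (inv : ∀ x, G (x + F₂ (H x)) = H x)
    {ψ χ : ℝ → ℝ} (hψ : ∀ x, ψ x = x * (G x + m * x - κ))
    (hχ : ∀ x, χ x = x * (κ - β - (H x + (m + α) * x)))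
    (bψ : ∀ᶠ x in atTop, |ψ x| ≤ M) (bχ : ∀ᶠ x in atTop, |χ x| ≤ M)
    (hs : Tendsto (fun x => ψ x + χ x) atTop (𝓝 ℓ₁)) :
    (∀ᶠ x in atTop, x ≤ x + F₂ (H x)) ∧
      Tendsto (fun x => ψ (x + F₂ (H x)) - ψ x) atTop (𝓝 (ℓ₂ - ℓ₁)) := by
  have hma : 0 < m + α := by linarith
  have hinv : Tendsto (fun x : ℝ => x⁻¹) atTop (𝓝 0) := tendsto_inv_atTop_zero
  have hχ0 : Tendsto (fun x => χ x / x) atTop (𝓝 0) := by
    simpa [div_eq_mul_inv] using nec2a_bdd bχ hinv
  -- `Y = -H`
  have hYx : Tendsto (fun x => -H x / x) atTop (𝓝 (m + α)) := by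
    have h : Tendsto (fun x : ℝ => (m + α) - (κ - β) * x⁻¹ + χ x / x * x⁻¹) atTop
        (𝓝 ((m + α) - (κ - β) * 0 + 0 * 0)) :=
      (tendsto_const_nhds.sub (hinv.const_mul _)).add (hχ0.mul hinv)
    have h' : (m + α) - (κ - β) * 0 + 0 * 0 = m + α := by ring
    rw [h'] at h
    refine h.congr' ?_
    filter_upwards [eventually_gt_atTop 0] with x hx
    rw [hχ x]
    field_simp
    ring
  have hY : Tendsto (fun x => -H x) atTop atTop := by
    have h := tendsto_id.atTop_mul_pos hma hYx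
    refine h.congr' ?_
    filter_upwards [eventually_gt_atTop 0] with x hx
    simp only [id]
    field_simp
  have hYinv : Tendsto (fun x => (-H x)⁻¹) atTop (𝓝 0) := hinv.comp hY
  have he : Tendsto (fun x => -H x * (F₂ (H x) - (α' * (-H x) + β'))) atTop (𝓝 ℓ₂) := by
    have h := e₂.comp hY
    refine h.congr fun x => ?_
    simp
  have hFY : Tendsto (fun x => F₂ (H x) / (-H x)) atTop (𝓝 α') := by
    have h : Tendsto (fun x : ℝ => α' + β' * (-H x)⁻¹
        + -H x * (F₂ (H x) - (α' * (-H x) + β')) * ((-H x)⁻¹ * (-H x)⁻¹)) atTop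
        (𝓝 (α' + β' * 0 + ℓ₂ * (0 * 0))) :=
      (tendsto_const_nhds.add (hYinv.const_mul _)).add (he.mul (hYinv.mul hYinv))
    have h' : α' + β' * 0 + ℓ₂ * (0 * 0) = α' := by ring
    rw [h'] at h
    refine h.congr' ?_
    filter_upwards [hY.eventually_gt_atTop 0] with x hx
    have hx' : H x ≠ 0 := by intro h0; rw [h0] at hx; simp at hx
    field_simp
    ring
  have hF : Tendsto (fun x => F₂ (H x)) atTop atTop := by
    have h := hY.atTop_mul_pos hα' hFY
    refine h.congr' ?_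
    filter_upwards [hY.eventually_gt_atTop 0] with x hx
    have hx' : H x ≠ 0 := by intro h0; rw [h0] at hx; simp at hx
    field_simp
  have hT : Tendsto (fun x => x + F₂ (H x)) atTop atTop := tendsto_id.atTop_add_atTop hF
  have hTY : Tendsto (fun x => (x + F₂ (H x)) / (-H x)) atTop (𝓝 ((m + α)⁻¹ + α')) := by
    have h := (hYx.inv₀ hma.ne').add hFY
    refine h.congr' ?_
    filter_upwards [hY.eventually_gt_atTop 0, eventually_gt_atTop 0] with x hx hx0
    have hx' : H x ≠ 0 := by intro h0; rw [h0] at hx; simp at hx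
    field_simp
    ring
  have bψT : ∀ᶠ x in atTop, |ψ (x + F₂ (H x))| ≤ M := hT.eventually bψ
  have hψT0 : Tendsto (fun x => ψ (x + F₂ (H x)) / (x + F₂ (H x))) atTop (𝓝 0) := by
    have h := nec2a_bdd bψT (hinv.comp hT)
    simpa [div_eq_mul_inv] using h
  have heY : Tendsto (fun x => -H x * (F₂ (H x) - (α' * (-H x) + β')) / (-H x)) atTop
      (𝓝 0) := by
    have h := he.mul hYinv
    rw [mul_zero] at h
    simpa [div_eq_mul_inv] using h
  obtain ⟨c, hc⟩ : ∃ c, c = m / (m + α) := ⟨_, rfl⟩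
  have hcm : c * (m + α) = m := by rw [hc]; field_simp
  -- the identity
  have hid : ∀ᶠ x in atTop, -H x * (1 - c - m * α') + (κ - c * (κ - β) - m * β')
      = -(ψ (x + F₂ (H x)) / (x + F₂ (H x))) - c * (χ x / x)
        + m * (-H x * (F₂ (H x) - (α' * (-H x) + β')) / (-H x)) := by
    filter_upwards [hY.eventually_gt_atTop 0, eventually_gt_atTop 0,
      hT.eventually_gt_atTop 0] with x hx hx0 hxT
    have hx' : -H x ≠ 0 := hx.ne'
    rw [hψ (x + F₂ (H x)), hχ x, inv x, mul_div_cancel_left₀ _ hxT.ne',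
      mul_div_cancel_left₀ _ hx0.ne', mul_div_cancel_left₀ _ hx']
    have : c * (m + α) * x = m * x := by rw [hcm]
    linear_combination -this
  have hlim : Tendsto (fun x => -H x * (1 - c - m * α') + (κ - c * (κ - β) - m * β')) atTop
      (𝓝 0) := by
    have h : Tendsto (fun x => -(ψ (x + F₂ (H x)) / (x + F₂ (H x))) - c * (χ x / x)
        + m * (-H x * (F₂ (H x) - (α' * (-H x) + β')) / (-H x))) atTop
        (𝓝 (-0 - c * 0 + m * 0)) :=
      (hψT0.neg.sub (hχ0.const_mul c)).add (heY.const_mul m)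
    have h' : -0 - c * 0 + m * 0 = 0 := by ring
    rw [h'] at h
    exact h.congr' (hid.mono fun x hx => hx.symm)
  have hA : 1 - c - m * α' = 0 := by
    have h1 : Tendsto (fun x => (-H x * (1 - c - m * α') + (κ - c * (κ - β) - m * β'))
        * (-H x)⁻¹) atTop (𝓝 (0 * 0)) := hlim.mul hYinv
    have h2 : Tendsto (fun x => (-H x * (1 - c - m * α') + (κ - c * (κ - β) - m * β'))
        * (-H x)⁻¹) atTop (𝓝 ((1 - c - m * α') + (κ - c * (κ - β) - m * β') * 0)) := by
      have h : Tendsto (fun x => (1 - c - m * α') + (κ - c * (κ - β) - m * β') * (-H x)⁻¹)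
          atTop (𝓝 ((1 - c - m * α') + (κ - c * (κ - β) - m * β') * 0)) :=
        tendsto_const_nhds.add (hYinv.const_mul _)
      refine h.congr' ?_
      filter_upwards [hY.eventually_gt_atTop 0] with x hx
      rw [add_mul, mul_comm (-H x) (1 - c - m * α'), mul_assoc, mul_inv_cancel₀ hx.ne',
        mul_one]
    have h3 := tendsto_nhds_unique h1 h2
    linarith
  have hB : κ - c * (κ - β) - m * β' = 0 := by
    rw [hA] at hlim
    simp only [mul_zero, zero_add] at hlim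
    exact tendsto_nhds_unique tendsto_const_nhds hlim
  have hTYm : Tendsto (fun x => -H x / (x + F₂ (H x))) atTop (𝓝 m) := by
    have h0 : (m + α)⁻¹ + α' = m⁻¹ := by
      have h1 : c = m * (m + α)⁻¹ := by rw [hc]; rfl
      have h2 : m * ((m + α)⁻¹ + α') = 1 := by linarith
      field_simp at h2 ⊢
      linarith
    rw [h0] at hTY
    have h := hTY.inv₀ (inv_ne_zero hm.ne')
    rw [inv_inv] at h
    refine h.congr fun x => ?_
    rw [inv_div]
  refine ⟨(hF.eventually_ge_atTop 0).mono fun x hx => by linarith, ?_⟩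
  have r1 : Tendsto (fun x => ψ (x + F₂ (H x)) * (m - -H x / (x + F₂ (H x)))) atTop (𝓝 0) := by
    apply nec2a_bdd bψT
    have h := (tendsto_const_nhds (x := m)).sub hTYm
    rwa [sub_self] at h
  have r2 : Tendsto (fun x => χ x * (c * ((m + α) - -H x / x))) atTop (𝓝 0) := by
    apply nec2a_bdd bχ
    have h := ((tendsto_const_nhds (x := m + α)).sub hYx).const_mul c
    rwa [sub_self, mul_zero] at h
  have hfin : Tendsto (fun x => (1 / m) * (ψ (x + F₂ (H x)) * (m - -H x / (x + F₂ (H x)))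
      + χ x * (c * ((m + α) - -H x / x))
      + m * (-H x * (F₂ (H x) - (α' * (-H x) + β'))) - m * (ψ x + χ x))) atTop
      (𝓝 ((1 / m) * (0 + 0 + m * ℓ₂ - m * ℓ₁))) :=
    (((r1.add r2).add (he.const_mul m)).sub (hs.const_mul m)).const_mul (1 / m)
  have h' : (1 / m) * (0 + 0 + m * ℓ₂ - m * ℓ₁) = ℓ₂ - ℓ₁ := by field_simp; ring
  rw [h'] at hfin
  refine hfin.congr' ?_
  filter_upwards [hid, hY.eventually_gt_atTop 0, eventually_gt_atTop 0,
    hT.eventually_gt_atTop 0] with x hx hx1 hx0 hxT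
  rw [hA, hB, mul_zero, zero_add] at hx
  have hx' : -H x ≠ 0 := hx1.ne'
  rw [mul_div_cancel_left₀ _ hx'] at hx
  have h1 : ψ (x + F₂ (H x)) * (-H x / (x + F₂ (H x)))
      = -H x * (ψ (x + F₂ (H x)) / (x + F₂ (H x))) := by ring
  have h2 : χ x * (-H x / x) = -H x * (χ x / x) := by ring
  have h3 : m * (ψ (x + F₂ (H x)) - ψ x) = ψ (x + F₂ (H x)) * (m - -H x / (x + F₂ (H x)))
      + χ x * (c * ((m + α) - -H x / x))
      + m * (-H x * (F₂ (H x) - (α' * (-H x) + β'))) - m * (ψ x + χ x) := by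
    linear_combination (-H x) * hx + h1 + c * h2 - χ x * hcm
  rw [← h3]
  field_simp

/-- Core of part (A): `G` convex, `H` concave, `G - H = αx + β + ℓ₁/x + o(1/x)` at `+∞`,
`F₂(-x) = α'x + β' + ℓ₂/x + o(1/x)`, and the staircase relation `G (x + F₂ (H x)) = H x`.
Then `ℓ₁ = ℓ₂`.
Proof. `G x + m x` is convex with asymptotic slope `0`, hence antitone; `H x + (m + α) x` is
concave with asymptotic slope `0` (`H x/x → -(m+α)`), hence monotone; their difference tends to
`β`; so both converge: `G x + m x ↓ κ`, `H x + (m + α) x ↑ κ - β`.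
Put `ψ x := x (G x + m x - κ) ≥ 0`, `χ x := x (κ - β - H x - (m + α) x) ≥ 0`;
`ψ x + χ x = x (G x - H x - αx - β) → ℓ₁`; so both are bounded for large `x`.
Staircase: `x' := x + F₂ (H x)`, `y := -H x = (m+α)x - (κ - β) + χ x/x → ∞`,
`x' = x + α' y + β' + ℓ₂/y + o(1/y)`, and `G x' = -y`: `-y = -m x' + κ + ψ x'/x'`, i.e.
`m x' = y + κ + ψ x'/x'`. Compare:
`y + κ + ψ x'/x' = m x + m α' y + m β' + m ℓ₂/y + o(1/y)` and
`x = (y + (κ - β) - χ x/x)/(m+α)`.
Dividing by `y → ∞`: `1 = m/(m+α) + m α'`. Then the constants: letting `x → ∞`,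
`κ = m(κ - β)/(m+α) + m β'`. Then multiplying the rest by `y`:
`ψ x' (y/x') = -(m/(m+α)) χ x (y/x) + m ℓ₂ + o(1)`, and `y/x' → m`, `y/x → m + α`:
`ψ x' = ℓ₂ - χ x + o(1) = ψ x + ℓ₂ - ℓ₁ + o(1)`.
Also `x' - x → ∞`. If `ℓ₂ ≠ ℓ₁`, iterate `x ↦ x'` from a large `x`: `|ψ|` grows by at least
`|ℓ₂ - ℓ₁|/2` at each step in the same direction, contradicting boundedness. -/
theorem nec_real {G H F₂ : ℝ → ℝ} {α β ℓ₁ α' β' ℓ₂ m : ℝ} (hG : ConvexOn ℝ univ G)
    (hH : ConcaveOn ℝ univ H) (hm : 0 < m) (hs : Tendsto (fun x => G x / x) atTop (𝓝 (-m)))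
    (hα : 0 < α) (hα' : 0 < α')
    (e₁ : Tendsto (fun x => x * (G x - H x - (α * x + β))) atTop (𝓝 ℓ₁))
    (e₂ : Tendsto (fun x => x * (F₂ (-x) - (α' * x + β'))) atTop (𝓝 ℓ₂))
    (inv : ∀ x, G (x + F₂ (H x)) = H x) : ℓ₁ = ℓ₂ := by
  have hinv : Tendsto (fun x : ℝ => x⁻¹) atTop (𝓝 0) := tendsto_inv_atTop_zero
  have hg : ConvexOn ℝ univ (fun x => G x + m * x) :=
    hG.add ((LinearMap.mul ℝ ℝ m).convexOn convex_univ)
  have hh : ConvexOn ℝ univ (fun x => -(H x + (m + α) * x)) := by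
    have h1 : ConcaveOn ℝ univ (fun x => H x + (m + α) * x) :=
      hH.add ((LinearMap.mul ℝ ℝ (m + α)).concaveOn convex_univ)
    exact h1.neg
  have hHs : Tendsto (fun x => H x / x) atTop (𝓝 (-(m + α))) := by
    have h : Tendsto (fun x : ℝ => G x / x - (α + β * x⁻¹)
        - x * (G x - H x - (α * x + β)) * (x⁻¹ * x⁻¹)) atTop
        (𝓝 (-m - (α + β * 0) - ℓ₁ * (0 * 0))) :=
      (hs.sub (tendsto_const_nhds.add (hinv.const_mul β))).sub (e₁.mul (hinv.mul hinv))
    have h' : -m - (α + β * 0) - ℓ₁ * (0 * 0) = -(m + α) := by ring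
    rw [h'] at h
    refine h.congr' ?_
    filter_upwards [eventually_gt_atTop 0] with x hx
    field_simp
    ring
  have hga : Antitone (fun x => G x + m * x) := by
    apply nec2a_anti hg
    have h := hs.add_const m
    rw [neg_add_cancel] at h
    refine h.congr' ?_
    filter_upwards [eventually_gt_atTop 0] with x hx
    field_simp
  have hha : Antitone (fun x => -(H x + (m + α) * x)) := by
    apply nec2a_anti hh
    have h := (hHs.add_const (m + α)).neg
    rw [neg_add_cancel, neg_zero] at h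
    refine h.congr' ?_
    filter_upwards [eventually_gt_atTop 0] with x hx
    field_simp
  have hd : Tendsto (fun x => (G x + m * x) + -(H x + (m + α) * x)) atTop (𝓝 β) := by
    have h : Tendsto (fun x : ℝ => x * (G x - H x - (α * x + β)) * x⁻¹ + β) atTop
        (𝓝 (ℓ₁ * 0 + β)) := (e₁.mul hinv).add_const β
    rw [mul_zero, zero_add] at h
    refine h.congr' ?_
    filter_upwards [eventually_gt_atTop 0] with x hx
    field_simp
    ring
  have hsum : Antitone (fun x => (G x + m * x) + -(H x + (m + α) * x)) := hga.add hha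
  have hsumle : ∀ x, β ≤ (G x + m * x) + -(H x + (m + α) * x) := fun x =>
    hsum.le_of_tendsto hd x
  obtain ⟨κ, hκ⟩ : ∃ κ, Tendsto (fun x => G x + m * x) atTop (𝓝 κ) := by
    rcases tendsto_atTop_of_antitone hga with h | h
    · exfalso
      obtain ⟨x, hx0, hx⟩ := ((eventually_ge_atTop (0 : ℝ)).and
        (h.eventually_lt_atBot (H 0 + (m + α) * 0 + β))).exists
      have h1 := hsumle x
      have h2 : -(H x + (m + α) * x) ≤ -(H 0 + (m + α) * 0) := hha hx0
      linarith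
    · exact h
  have hκ2 : Tendsto (fun x => -(H x + (m + α) * x)) atTop (𝓝 (β - κ)) := by
    have h := hd.sub hκ
    refine h.congr fun x => ?_
    ring
  have hg0 : ∀ x, κ ≤ G x + m * x := fun x => hga.le_of_tendsto hκ x
  have hh0 : ∀ x, β - κ ≤ -(H x + (m + α) * x) := fun x => hha.le_of_tendsto hκ2 x
  have hsl : Tendsto (fun x => x * (G x + m * x - κ) + x * (κ - β - (H x + (m + α) * x)))
      atTop (𝓝 ℓ₁) := by
    refine e₁.congr fun x => ?_
    ring
  have hub : ∀ᶠ x in atTop,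
      x * (G x + m * x - κ) + x * (κ - β - (H x + (m + α) * x)) < ℓ₁ + 1 :=
    hsl.eventually (gt_mem_nhds (by linarith))
  have hstep := nec2a_step (M := ℓ₁ + 1) (κ := κ) hm hα hα' e₂ inv
    (ψ := fun x => x * (G x + m * x - κ))
    (χ := fun x => x * (κ - β - (H x + (m + α) * x)))
    (fun _ => rfl) (fun _ => rfl) ?_ ?_ hsl
  · have h := nec2a_iter (ψ := fun x => x * (G x + m * x - κ))
      (T := fun x => x + F₂ (H x)) (M := ℓ₁ + 1) ?_ hstep.1 hstep.2
    · linarith
    · filter_upwards [hub, eventually_ge_atTop 0] with x hx hx0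
      have h1 := mul_nonneg hx0 (sub_nonneg.2 (hg0 x))
      have h2 : 0 ≤ x * (κ - β - (H x + (m + α) * x)) :=
        mul_nonneg hx0 (by linarith [hh0 x])
      rw [abs_of_nonneg h1]
      linarith
  · filter_upwards [hub, eventually_ge_atTop 0] with x hx hx0
    have h1 := mul_nonneg hx0 (sub_nonneg.2 (hg0 x))
    have h2 : 0 ≤ x * (κ - β - (H x + (m + α) * x)) :=
      mul_nonneg hx0 (by linarith [hh0 x])
    rw [abs_of_nonneg h1]
    linarith
  · filter_upwards [hub, eventually_ge_atTop 0] with x hx hx0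
    have h1 := mul_nonneg hx0 (sub_nonneg.2 (hg0 x))
    have h2 : 0 ≤ x * (κ - β - (H x + (m + α) * x)) :=
      mul_nonneg hx0 (by linarith [hh0 x])
    rw [abs_of_nonneg h2]
    linarith

end CF
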