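import Pool.Agent.H.MP_1693ff_gt.Nec2a

/-!
# Part (A), step 2b: two sublinear functions on `ℝ²`
-/

namespace CF

open Real Set Filter Topology

/-- A positive sublinear function on `ℝ²` (gauge of a planar body with the origin inside). -/
structure Sub (n : ℝ → ℝ → ℝ) : Prop where
  add : ∀ a b a' b', n (a + a') (b + b') ≤ n a b + n a' b'
  hom : ∀ c a b, 0 ≤ c → n (c * a) (c * b) = c * n a b
  pos : ∀ a b, (a ≠ 0 ∨ b ≠ 0) → 0 < n a b

theorem Sub.nec2b_growth {n : ℝ → ℝ → ℝ} (h : Sub n) (ε b : ℝ) :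
    Tendsto (fun x : ℝ => n (ε * x) b / x) atTop (𝓝 (n ε 0)) := by
  have hC : ∀ x : ℝ, 0 < x → |n (ε * x) b / x - n ε 0| ≤ (|n 0 b| + |n 0 (-b)|) / x := by
    intro x hx
    have e0 : n (ε * x) 0 = x * n ε 0 := by
      have := h.hom x ε 0 hx.le
      rw [mul_zero, mul_comm x ε] at this
      exact this
    have e1 : n (ε * x) b ≤ n (ε * x) 0 + n 0 b := by
      have := h.add (ε * x) 0 0 b
      rw [add_zero, zero_add] at this
      exact this
    have e2 : n (ε * x) 0 ≤ n (ε * x) b + n 0 (-b) := by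
      have := h.add (ε * x) b 0 (-b)
      rw [add_zero, add_neg_cancel] at this
      exact this
    have e3 : |n (ε * x) b - x * n ε 0| ≤ |n 0 b| + |n 0 (-b)| := by
      rw [abs_le]
      have a1 := le_abs_self (n 0 b)
      have a2 := le_abs_self (n 0 (-b))
      have a3 := abs_nonneg (n 0 b)
      have a4 := abs_nonneg (n 0 (-b))
      constructor <;> linarith
    have e4 : n (ε * x) b / x - n ε 0 = (n (ε * x) b - x * n ε 0) / x := by
      field_simp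
    rw [e4, abs_div, abs_of_pos hx]
    exact div_le_div_of_nonneg_right e3 hx.le
  rw [tendsto_iff_norm_sub_tendsto_zero]
  have hz : Tendsto (fun x : ℝ => (|n 0 b| + |n 0 (-b)|) / x) atTop (𝓝 0) :=
    tendsto_const_nhds.div_atTop tendsto_id
  refine squeeze_zero' (Eventually.of_forall fun x => norm_nonneg _) ?_ hz
  filter_upwards [eventually_gt_atTop 0] with x hx
  rw [Real.norm_eq_abs]
  exact hC x hx

theorem nec2b_A {n : ℝ → ℝ → ℝ} (h : Sub n) {A B L : ℝ}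
    (e : Tendsto (fun x : ℝ => x * (n x 1 + n (-x) (-1) - (A * x + B))) atTop (𝓝 L)) : 0 < A := by
  have h1 : Tendsto (fun x : ℝ => n x 1 / x) atTop (𝓝 (n 1 0)) := by
    have := h.nec2b_growth 1 1
    simpa using this
  have h2 : Tendsto (fun x : ℝ => n (-x) (-1) / x) atTop (𝓝 (n (-1) 0)) := by
    have := h.nec2b_growth (-1) (-1)
    simpa using this
  have hinv : Tendsto (fun x : ℝ => x⁻¹) atTop (𝓝 0) := tendsto_inv_atTop_zero
  have h3 : Tendsto (fun x : ℝ => (n x 1 + n (-x) (-1) - (A * x + B)) / x) atTop (𝓝 0) := by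
    have h4 : Tendsto (fun x : ℝ => (x * (n x 1 + n (-x) (-1) - (A * x + B))) * (x⁻¹ * x⁻¹)) atTop
        (𝓝 (L * (0 * 0))) := e.mul (hinv.mul hinv)
    rw [mul_zero, mul_zero] at h4
    refine h4.congr' ?_
    filter_upwards [eventually_gt_atTop 0] with x hx
    field_simp
  have h5 : Tendsto (fun x : ℝ => n x 1 / x + n (-x) (-1) / x - B * x⁻¹
      - (n x 1 + n (-x) (-1) - (A * x + B)) / x) atTop
      (𝓝 (n 1 0 + n (-1) 0 - B * 0 - 0)) :=
    ((h1.add h2).sub (hinv.const_mul B)).sub h3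
  have h6 : Tendsto (fun x : ℝ => n x 1 / x + n (-x) (-1) / x - B * x⁻¹
      - (n x 1 + n (-x) (-1) - (A * x + B)) / x) atTop (𝓝 A) := by
    refine Tendsto.congr' ?_ tendsto_const_nhds
    filter_upwards [eventually_gt_atTop 0] with x hx
    field_simp
    ring
  have h7 := tendsto_nhds_unique h5 h6
  have h8 := h.pos 1 0 (Or.inl one_ne_zero)
  have h9 := h.pos (-1) 0 (Or.inl (by norm_num))
  linarith

/-- if `n₁ a b = ν > 0` then `n₂ (a - D ν) b = ν` -/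
theorem nec2b_shift {D : ℝ} {n₁ n₂ : ℝ → ℝ → ℝ} (h₁ : Sub n₁) (h₂ : Sub n₂)
    (rel : ∀ a b, n₁ a b = 1 → n₂ (a - D) b = 1) {a b ν : ℝ} (hν : 0 < ν) (h : n₁ a b = ν) :
    n₂ (a - D * ν) b = ν := by
  have h1 : n₁ (ν⁻¹ * a) (ν⁻¹ * b) = 1 := by
    rw [h₁.hom _ _ _ (inv_nonneg.2 hν.le), h, inv_mul_cancel₀ hν.ne']
  have h2 := rel _ _ h1
  have h3 := h₂.hom ν (ν⁻¹ * a - D) (ν⁻¹ * b) hν.le
  rw [h2, mul_one] at h3
  have e1 : ν * (ν⁻¹ * a - D) = a - D * ν := by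
    field_simp
  have e2 : ν * (ν⁻¹ * b) = b := by
    field_simp
  rw [e1, e2] at h3
  exact h3

/-- `n₁`, `n₂` are the gauges of `K - p₁`, `K - p₂` in the coordinates `(a, b) ↦ a u₀ + b w`,
`D = |p₂ - p₁|`.
Proof. Put `G x = D n₁(x,1) - x`, `H x = -D n₁(-x,-1) - x`, `F₂ y = D (n₂(-y,1) + n₂(y,-1))` and
use `nec_real` with `m = 1 - D n₁(1,0) > 0` (`hD1`), `α = D A₁`, `ℓ₁ = D L₁`, `α' = D A₂`, ...
`G x / x → -m`: `n₁(1,0) - n₁(0,-1)/x ≤ n₁(x,1)/x ≤ n₁(1,0) + n₁(0,1)/x`.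
`A₁ = n₁(1,0) + n₁(-1,0) > 0` (divide `e₁` by `x²`), same for `A₂`.
`inv`: by homogeneity and `rel`, with `ν = n₁(x,1) > 0`: `n₁(x/ν,1/ν) = 1`, so
`n₂(x/ν - D, 1/ν) = 1`, so `n₂(-G x, 1) = n₂(x - Dν, 1) = ν`. In the same way
`n₂(H x, -1) = n₁(-x,-1)`, and conversely `n₁(y + D n₂(-y... )...)`: with `μ = n₂(-y, 1)`,
`n₁(-y + D μ, 1) = μ`, i.e. `G (D μ - y) = y`.  Hence `x + F₂ (H x)` with `y = H x`:
`D n₂(y,-1) = D n₁(-x,-1) = -H x - x = -y - x`, so `x + F₂ y = D n₂(-y,1) - y`, and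
`G (x + F₂ y) = y`. -/
theorem nec_core {D : ℝ} (hD : 0 < D) {n₁ n₂ : ℝ → ℝ → ℝ} (h₁ : Sub n₁) (h₂ : Sub n₂)
    (hD1 : n₁ D 0 < 1) (hD2 : n₂ (-D) 0 < 1)
    (rel : ∀ a b, n₁ a b = 1 ↔ n₂ (a - D) b = 1)
    {A₁ B₁ L₁ A₂ B₂ L₂ : ℝ}
    (e₁ : Tendsto (fun x : ℝ => x * (n₁ x 1 + n₁ (-x) (-1) - (A₁ * x + B₁))) atTop (𝓝 L₁))
    (e₂ : Tendsto (fun x : ℝ => x * (n₂ x 1 + n₂ (-x) (-1) - (A₂ * x + B₂))) atTop (𝓝 L₂)) :
    L₁ = L₂ := by
  have hconv : ∀ (n : ℝ → ℝ → ℝ), Sub n → ∀ b x y s t : ℝ, 0 ≤ s → 0 ≤ t → s + t = 1 →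
      n (s * x + t * y) b ≤ s * n x b + t * n y b := by
    intro n hn b x y s t hs ht hst
    have h1 := hn.add (s * x) (s * b) (t * y) (t * b)
    rw [hn.hom s x b hs, hn.hom t y b ht, ← add_mul, hst, one_mul] at h1
    exact h1
  have hA1 := nec2b_A h₁ e₁
  have hA2 := nec2b_A h₂ e₂
  have hn1 : n₁ D 0 = D * n₁ 1 0 := by
    have := h₁.hom D 1 0 hD.le
    rw [mul_one, mul_zero] at this
    exact this
  have hm : 0 < 1 - D * n₁ 1 0 := by rw [← hn1]; linarith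
  have key := nec_real (G := fun x => D * n₁ x 1 - x) (H := fun x => -(D * n₁ (-x) (-1)) - x)
    (F₂ := fun y => D * (n₂ (-y) 1 + n₂ y (-1))) (α := D * A₁) (β := D * B₁) (ℓ₁ := D * L₁)
    (α' := D * A₂) (β' := D * B₂) (ℓ₂ := D * L₂) (m := 1 - D * n₁ 1 0) ?_ ?_ hm ?_
    (mul_pos hD hA1) (mul_pos hD hA2) ?_ ?_ ?_
  · exact mul_left_cancel₀ hD.ne' key
  · refine ⟨convex_univ, fun x _ y _ s t hs ht hst => ?_⟩
    simp only [smul_eq_mul]
    have h1 := hconv n₁ h₁ 1 x y s t hs ht hst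
    have h2 := mul_le_mul_of_nonneg_left h1 hD.le
    linarith
  · refine ⟨convex_univ, fun x _ y _ s t hs ht hst => ?_⟩
    simp only [smul_eq_mul]
    have h1 := hconv n₁ h₁ (-1) (-x) (-y) s t hs ht hst
    have h2 := mul_le_mul_of_nonneg_left h1 hD.le
    have e : s * -x + t * -y = -(s * x + t * y) := by ring
    rw [e] at h2
    linarith
  · have h1 := h₁.nec2b_growth 1 1
    have h2 : Tendsto (fun x : ℝ => D * (n₁ (1 * x) 1 / x) - 1) atTop (𝓝 (D * n₁ 1 0 - 1)) :=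
      (h1.const_mul D).sub tendsto_const_nhds
    have e : D * n₁ 1 0 - 1 = -(1 - D * n₁ 1 0) := by ring
    rw [e] at h2
    refine h2.congr' ?_
    filter_upwards [eventually_gt_atTop 0] with x hx
    rw [one_mul]
    field_simp
  · have h1 := e₁.const_mul D
    refine h1.congr' (Eventually.of_forall fun x => ?_)
    simp only
    ring
  · have h1 := e₂.const_mul D
    refine h1.congr' (Eventually.of_forall fun x => ?_)
    simp only [neg_neg]
    ring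
  · intro x
    show D * n₁ (x + D * (n₂ (-(-(D * n₁ (-x) (-1)) - x)) 1 + n₂ (-(D * n₁ (-x) (-1)) - x) (-1))) 1
      - (x + D * (n₂ (-(-(D * n₁ (-x) (-1)) - x)) 1 + n₂ (-(D * n₁ (-x) (-1)) - x) (-1)))
      = -(D * n₁ (-x) (-1)) - x
    obtain ⟨ν, hν⟩ : ∃ ν, ν = n₁ (-x) (-1) := ⟨_, rfl⟩
    have hν0 : 0 < ν := by
      rw [hν]
      exact h₁.pos _ _ (Or.inr (by norm_num))
    obtain ⟨y, hy⟩ : ∃ y, y = -(D * ν) - x := ⟨_, rfl⟩
    have h1 : n₂ y (-1) = ν := by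
      have := nec2b_shift (D := D) h₁ h₂ (fun a b => (rel a b).1) hν0 hν.symm
      have e : -x - D * ν = y := by rw [hy]; ring
      rw [e] at this
      exact this
    obtain ⟨μ, hμ⟩ : ∃ μ, μ = n₂ (-y) 1 := ⟨_, rfl⟩
    have hμ0 : 0 < μ := by
      rw [hμ]
      exact h₂.pos _ _ (Or.inr (by norm_num))
    have h2 : n₁ (-y + D * μ) 1 = μ := by
      have h3 := nec2b_shift (D := -D) h₂ h₁ (fun a b h => by
        have h4 := (rel (a + D) b).2 (by
          have e : a + D - D = a := by ring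
          rw [e]
          exact h)
        have e : a - -D = a + D := by ring
        rw [e]
        exact h4) hμ0 hμ.symm
      have e : -y - -D * μ = -y + D * μ := by ring
      rw [e] at h3
      exact h3
    rw [← hν, ← hy, ← hμ, h1]
    have e : x + D * (μ + ν) = -y + D * μ := by rw [hy]; ring
    rw [e, h2]
    ring

end CF
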