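import Pool.Agent.H.MP_1693ff_gt.Nec2b

/-!
# Part (A), step 3a: gauges of a convex body
-/

namespace CF

open Real Set Filter Topology

/-- the gauge of `K - p` in the direction `a u + b w`. -/
noncomputable def ngauge {E : Type*} [AddCommGroup E] [Module ℝ E] (K : Set E) (p u w : E)
    (a b : ℝ) : ℝ := gauge {x : E | p + x ∈ K} (a • u + b • w)

theorem nec3a_facts {E : Type*} [NormedAddCommGroup E] [NormedSpace ℝ E] {K : Set E}
    (hK : IsBody K) {p : E} (hp : p ∈ interior K) :
    Convex ℝ {x : E | p + x ∈ K} ∧ {x : E | p + x ∈ K} ∈ 𝓝 (0 : E) ∧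
      IsCompact {x : E | p + x ∈ K} := by
  refine ⟨hK.1.translate_preimage_right p, ?_, ?_⟩
  · have h1 : Tendsto (fun x : E => p + x) (𝓝 0) (𝓝 (p + 0)) :=
      (continuous_const.add continuous_id).tendsto 0
    rw [add_zero] at h1
    exact h1 (mem_interior_iff_mem_nhds.1 hp)
  · exact (Homeomorph.addLeft p).isCompact_preimage.2 hK.2.1

/-- For a convex body `K` and an interior point `p` the radial function is the inverse of the
gauge of `K - p` (`v ≠ 0`): `{c ≥ 0 : p + c v ∈ K} = [0, 1/gauge v]`, `K` closed. -/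
theorem radial_eq {E : Type*} [NormedAddCommGroup E] [NormedSpace ℝ E] {K : Set E}
    (hK : IsBody K) {p : E} (hp : p ∈ interior K) {v : E} (hv : v ≠ 0) :
    radial K p v = (gauge {x : E | p + x ∈ K} v)⁻¹ ∧ 0 < gauge {x : E | p + x ∈ K} v := by
  obtain ⟨hc, h0, hcomp⟩ := nec3a_facts hK hp
  set S : Set E := {x : E | p + x ∈ K} with hS
  have hpos : 0 < gauge S v :=
    (gauge_pos (absorbent_nhds_zero h0)
      ((NormedSpace.isVonNBounded_iff ℝ).2 hcomp.isBounded)).2 hv
  refine ⟨?_, hpos⟩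
  have hset : {c : ℝ | 0 ≤ c ∧ p + c • v ∈ K} = Icc 0 (gauge S v)⁻¹ := by
    ext c
    simp only [Set.mem_ofPred_eq, mem_Icc]
    refine and_congr_right fun hc0 => ?_
    have h1 : p + c • v ∈ K ↔ c • v ∈ closure S := by
      rw [hcomp.isClosed.closure_eq]; rfl
    rw [h1, ← gauge_le_one_iff_mem_closure hc h0, gauge_smul_of_nonneg hc0, smul_eq_mul,
      ← one_div, le_div_iff₀ hpos]
  unfold radial
  rw [hset, csSup_Icc (inv_nonneg.2 hpos.le)]

/-- `ngauge` is a positive sublinear function of `(a,b)` when `u`, `w` are linearly independent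
(here orthonormal). -/
theorem ngauge_sub {E : Type*} [NormedAddCommGroup E] [InnerProductSpace ℝ E] {K : Set E}
    (hK : IsBody K) {p : E} (hp : p ∈ interior K) {u w : E} (hu : ‖u‖ = 1) (hw : ‖w‖ = 1)
    (huw : inner ℝ w u = 0) : Sub (ngauge K p u w) := by
  obtain ⟨hc, h0, hcomp⟩ := nec3a_facts hK hp
  refine ⟨?_, ?_, ?_⟩
  · intro a b a' b'
    have h1 : (a + a') • u + (b + b') • w = (a • u + b • w) + (a' • u + b' • w) := by
      rw [add_smul, add_smul]; abel
    unfold ngauge
    rw [h1]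
    exact gauge_add_le hc (absorbent_nhds_zero h0) _ _
  · intro c a b hc0
    have h1 : (c * a) • u + (c * b) • w = c • (a • u + b • w) := by
      rw [smul_add, smul_smul, smul_smul]
    unfold ngauge
    rw [h1, gauge_smul_of_nonneg hc0, smul_eq_mul]
  · intro a b hab
    refine (radial_eq hK hp ?_).2
    intro h
    have hwu : inner ℝ u w = (0 : ℝ) := by rw [real_inner_comm]; exact huw
    have h1 : inner ℝ u (a • u + b • w) = (0 : ℝ) := by rw [h, inner_zero_right]
    have h2 : inner ℝ w (a • u + b • w) = (0 : ℝ) := by rw [h, inner_zero_right]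
    rw [inner_add_right, inner_smul_right, inner_smul_right, real_inner_self_eq_norm_sq, hu,
      hwu] at h1
    rw [inner_add_right, inner_smul_right, inner_smul_right, real_inner_self_eq_norm_sq, hw,
      huw] at h2
    rcases hab with h3 | h3
    · exact h3 (by linarith)
    · exact h3 (by linarith)

theorem nec3a_chord {E : Type*} [NormedAddCommGroup E] [InnerProductSpace ℝ E] {K : Set E}
    (hK : IsBody K) {p : E} (hp : p ∈ interior K) {v : E} (hv : v ≠ 0) :
    chord (-1) K p v = gauge {x : E | p + x ∈ K} v + gauge {x : E | p + x ∈ K} (-v) := by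
  have h1 := radial_eq hK hp hv
  have h2 := radial_eq hK hp (neg_ne_zero.2 hv)
  unfold chord
  rw [if_neg (by norm_num : (-1 : ℝ) ≠ 0), h1.1, h2.1, rpow_neg_one, rpow_neg_one, inv_inv,
    inv_inv]

/-- The chord function in the chart: for `x > 0`,
`n(x,1) + n(-x,-1) = √(1+x²) · chord(cos t u + sin t w)`, `t = arctan(1/x)`. -/
theorem ngauge_chord {E : Type*} [NormedAddCommGroup E] [InnerProductSpace ℝ E] {K : Set E}
    (hK : IsBody K) {p : E} (hp : p ∈ interior K) {u w : E} (hu : ‖u‖ = 1) (hw : ‖w‖ = 1)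
    (huw : inner ℝ w u = 0) {x : ℝ} (hx : 0 < x) :
    ngauge K p u w x 1 + ngauge K p u w (-x) (-1) =
      √(1 + x ^ 2) * chord (-1) K p (cos (arctan (1 / x)) • u + sin (arctan (1 / x)) • w) := by
  have hr : 0 < √(1 + x ^ 2) := by positivity
  have e1 : √(1 + (1 / x) ^ 2) = √(1 + x ^ 2) / x := by
    have : 1 + (1 / x) ^ 2 = (1 + x ^ 2) / x ^ 2 := by field_simp; ring
    rw [this, Real.sqrt_div' _ (by positivity), Real.sqrt_sq hx.le]
  have ec : √(1 + x ^ 2) * cos (arctan (1 / x)) = x := by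
    rw [cos_arctan, e1]; field_simp
  have es : √(1 + x ^ 2) * sin (arctan (1 / x)) = 1 := by
    rw [sin_arctan, e1]; field_simp
  set v : E := cos (arctan (1 / x)) • u + sin (arctan (1 / x)) • w with hv
  have h1 : √(1 + x ^ 2) • v = x • u + (1 : ℝ) • w := by
    rw [hv, smul_add, smul_smul, smul_smul, ec, es]
  have h2 : √(1 + x ^ 2) • (-v) = (-x) • u + (-1 : ℝ) • w := by
    rw [smul_neg, h1, neg_add, neg_smul, neg_smul]
  have hv0 : v ≠ 0 := by
    intro h
    have h3 := (ngauge_sub hK hp hu hw huw).pos x 1 (Or.inr one_ne_zero)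
    unfold ngauge at h3
    rw [← h1, h, smul_zero, gauge_zero] at h3
    exact lt_irrefl _ h3
  rw [nec3a_chord hK hp hv0]
  unfold ngauge
  rw [← h1, ← h2, gauge_smul_of_nonneg hr.le, gauge_smul_of_nonneg hr.le, smul_eq_mul,
    smul_eq_mul]
  ring

end CF
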