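import Pool.Agent.H.MP_1693ff_gt.PieceD

/-!
# Consistency: the staircase map and the fundamental arc
-/

namespace CF

open Real Set Filter Topology

theorem piece1_comp (f : ℝ → ℝ) {f' : ℝ} {g : ℝ → ℝ} {g' t : ℝ} (hf : HasDerivAt f f' (g t))
    (hg : HasDerivAt g g' t) : HasDerivAt (fun τ => f (g τ)) (f' * g') t := hf.comp t hg

theorem piece1_F (S : Setup) (q x : ℝ) : HasDerivAt (S.F q) (S.F₁ q x) x :=
  (S.P.d1 x).const_mul (S.dist q)

theorem piece1_F₁ (S : Setup) (q x : ℝ) : HasDerivAt (S.F₁ q) (S.F₂ q x) x :=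
  (S.P.d2 x).const_mul (S.dist q)

theorem piece1_E (S : Setup) (q x : ℝ) : HasDerivAt (S.E q) (S.E₁ q x) x :=
  (S.Q.d1 x).const_mul (S.dist q)

theorem piece1_E₁ (S : Setup) (q x : ℝ) : HasDerivAt (S.E₁ q) (S.E₂ q x) x :=
  (S.Q.d2 x).const_mul (S.dist q)

theorem piece1_yH (S : Setup) (q : ℝ) {a : ℝ → St} {t : ℝ} (h : Along a t) :
    HasDerivAt (fun τ => S.yH q (a τ)) (-(S.sH q (a t)) * (a t).v) t := by
  have h1 : HasDerivAt (fun τ => S.F q (a τ).x) (S.F₁ q (a t).x * (a t).v) t :=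
    piece1_comp (S.F q) (piece1_F S q (a t).x) h.dx
  refine (h.dy.sub h1).congr_deriv ?_
  unfold Setup.sH
  ring

theorem piece1_sH (S : Setup) (q : ℝ) {a : ℝ → St} {t : ℝ} (h : Along a t) :
    HasDerivAt (fun τ => S.sH q (a τ)) (S.hH q (a t) * (a t).v) t := by
  have h1 : HasDerivAt (fun τ => S.F₁ q (a τ).x) (S.F₂ q (a t).x * (a t).v) t :=
    piece1_comp (S.F₁ q) (piece1_F₁ S q (a t).x) h.dx
  refine (h.ds.add h1).congr_deriv ?_
  unfold Setup.hH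
  ring

/-- The staircase map preserves consistency.
`yH' = -sH v`, `sH' = hH v`, `x'' = v + E₁(yH)(-sH v) = v sH (1/sH - E₁ yH)`,
`(1/s_new)' = -hH v/sH² - E₂(yH)(-sH v)`. -/
theorem along_step (S : Setup) (q : ℝ) {a : ℝ → St} {t : ℝ} (h : Along a t)
    (hs : S.sH q (a t) ≠ 0) (hd : (S.sH q (a t))⁻¹ - S.E₁ q (S.yH q (a t)) ≠ 0) :
    Along (fun τ => S.step q (a τ)) t := by
  have hy := piece1_yH S q h
  have hsH := piece1_sH S q h
  have hE : HasDerivAt (fun τ => S.E q (S.yH q (a τ)))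
      (S.E₁ q (S.yH q (a t)) * (-(S.sH q (a t)) * (a t).v)) t :=
    piece1_comp (S.E q) (piece1_E S q (S.yH q (a t))) hy
  have hE₁ : HasDerivAt (fun τ => S.E₁ q (S.yH q (a τ)))
      (S.E₂ q (S.yH q (a t)) * (-(S.sH q (a t)) * (a t).v)) t :=
    piece1_comp (S.E₁ q) (piece1_E₁ S q (S.yH q (a t))) hy
  have hinv : HasDerivAt (fun τ => (S.sH q (a τ))⁻¹)
      (-(S.hH q (a t) * (a t).v) / S.sH q (a t) ^ 2) t := hsH.fun_inv hs
  have hden : HasDerivAt (fun τ => (S.sH q (a τ))⁻¹ - S.E₁ q (S.yH q (a τ)))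
      (-(S.hH q (a t) * (a t).v) / S.sH q (a t) ^ 2 -
        S.E₂ q (S.yH q (a t)) * (-(S.sH q (a t)) * (a t).v)) t := hinv.sub hE₁
  have hnew := hden.fun_inv hd
  refine ⟨?_, ?_, ?_⟩
  · refine (h.dx.add hE).congr_deriv ?_
    change (a t).v + _ = (a t).v * S.sH q (a t) * ((S.sH q (a t))⁻¹ - S.E₁ q (S.yH q (a t)))
    field_simp
    ring
  · refine hy.congr_deriv ?_
    change _ = -((S.sH q (a t))⁻¹ - S.E₁ q (S.yH q (a t)))⁻¹ *
      ((a t).v * S.sH q (a t) * ((S.sH q (a t))⁻¹ - S.E₁ q (S.yH q (a t))))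
    generalize (S.sH q (a t))⁻¹ - S.E₁ q (S.yH q (a t)) = D at hd
    field_simp
  · refine hnew.congr_deriv ?_
    change _ = -(((S.sH q (a t))⁻¹ - S.E₁ q (S.yH q (a t)))⁻¹ ^ 3 *
      (S.E₂ q (S.yH q (a t)) - S.hH q (a t) / S.sH q (a t) ^ 3)) *
      ((a t).v * S.sH q (a t) * ((S.sH q (a t))⁻¹ - S.E₁ q (S.yH q (a t))))
    generalize (S.sH q (a t))⁻¹ - S.E₁ q (S.yH q (a t)) = D at hd
    field_simp
    ring

/-- The two formulas of the fundamental arc are consistent. -/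
theorem along_base1 (S : Setup) (q t : ℝ) : Along (S.base1 q) t := by
  have h0 : HasDerivAt (fun τ : ℝ => q * (2 * τ + 1)) (2 * q) t := by
    refine (((hasDerivAt_id t).const_mul 2).add_const 1 |>.const_mul q).congr_deriv ?_
    ring
  have h1 : HasDerivAt (fun τ : ℝ => S.dist q * S.g (q * (2 * τ + 1)))
      (S.dist q * (S.g₁ (q * (2 * t + 1)) * (2 * q))) t :=
    ((S.M.d1 (q * (2 * t + 1))).comp t h0).const_mul (S.dist q)
  have h2 : HasDerivAt (fun τ : ℝ => S.dist q * S.g₁ (q * (2 * τ + 1)))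
      (S.dist q * (S.g₂ (q * (2 * t + 1)) * (2 * q))) t :=
    ((S.M.d2 (q * (2 * t + 1))).comp t h0).const_mul (S.dist q)
  refine ⟨h0, h1.congr_deriv ?_, h2.neg.congr_deriv ?_⟩
  · change _ = - -(S.dist q * S.g₁ (q * (2 * t + 1))) * (2 * q)
    ring
  · change _ = -(S.dist q * S.g₂ (q * (2 * t + 1))) * (2 * q)
    ring

theorem along_base2 (S : Setup) {q : ℝ} (hq : 0 < q) (t : ℝ) : Along (S.base2 q) t := by
  have hd : 0 < S.dist q := by
    unfold Setup.dist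
    have := S.P.R0
    positivity
  have hk := S.N.g1neg (q * (1 - 2 * t))
  have hne : -(S.dist q * S.k₁ (q * (1 - 2 * t))) ≠ 0 := by
    have := mul_neg_of_pos_of_neg hd hk
    exact (neg_pos.2 this).ne'
  have h0 : HasDerivAt (fun τ : ℝ => q * (1 - 2 * τ)) (-(2 * q)) t := by
    refine (((hasDerivAt_id t).const_mul 2).const_sub 1 |>.const_mul q).congr_deriv ?_
    ring
  have h1 : HasDerivAt (fun τ : ℝ => S.dist q * S.k (q * (1 - 2 * τ)))
      (S.dist q * (S.k₁ (q * (1 - 2 * t)) * -(2 * q))) t :=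
    ((S.N.d1 (q * (1 - 2 * t))).comp t h0).const_mul (S.dist q)
  have h2 : HasDerivAt (fun τ : ℝ => -(S.dist q * S.k₁ (q * (1 - 2 * τ))))
      (-(S.dist q * (S.k₂ (q * (1 - 2 * t)) * -(2 * q)))) t :=
    (((S.N.d2 (q * (1 - 2 * t))).comp t h0).const_mul (S.dist q)).neg
  refine ⟨h1.congr_deriv ?_, h0.congr_deriv ?_, (h2.fun_inv hne).congr_deriv ?_⟩
  · change _ = 2 * q * -(S.dist q * S.k₁ (q * (1 - 2 * t)))
    ring
  · change _ = -(-(S.dist q * S.k₁ (q * (1 - 2 * t))))⁻¹ *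
      (2 * q * -(S.dist q * S.k₁ (q * (1 - 2 * t))))
    generalize -(S.dist q * S.k₁ (q * (1 - 2 * t))) = D at hne
    field_simp
  · change _ = -(S.dist q * S.k₂ (q * (1 - 2 * t)) *
      (-(S.dist q * S.k₁ (q * (1 - 2 * t))))⁻¹ ^ 3) *
      (2 * q * -(S.dist q * S.k₁ (q * (1 - 2 * t))))
    generalize -(S.dist q * S.k₁ (q * (1 - 2 * t))) = D at hne
    field_simp

end CF
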