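import Pool.Agent.H.MP_1693ff_gt.Piece1

/-!
# Consistency and continuity of the iterates
-/

namespace CF

open Real Set Filter Topology

theorem Along.congr {a b : ℝ → St} {t : ℝ} (h : Along a t) (hab : b =ᶠ[𝓝 t] a) : Along b t := by
  have ht : b t = a t := hab.self_of_nhds
  refine ⟨?_, ?_, ?_⟩
  · rw [ht]; exact h.dx.congr_of_eventuallyEq (hab.mono fun τ hτ => by simp only [hτ])
  · rw [ht]; exact h.dy.congr_of_eventuallyEq (hab.mono fun τ hτ => by simp only [hτ])
  · rw [ht]; exact h.ds.congr_of_eventuallyEq (hab.mono fun τ hτ => by simp only [hτ])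

/-- `St` components of the iterates are consistent on the open pieces. -/
theorem along_st (S : Setup) {q : ℝ} (hq : 0 < q)
    (hG : ∀ t ∈ Icc (-1 : ℝ) 1, ∀ n : ℕ, S.Good q (S.st q t n)) (n : ℕ) {t : ℝ}
    (ht : t ∈ Ioo (-1 : ℝ) 0 ∨ t ∈ Ioo (0 : ℝ) 1) : Along (fun τ => S.st q τ n) t := by
  have htI : t ∈ Icc (-1 : ℝ) 1 := by
    rcases ht with h | h
    · exact ⟨h.1.le, by linarith [h.2]⟩
    · exact ⟨by linarith [h.1], h.2.le⟩
  induction n with
  | zero =>
    rcases ht with h | h
    · refine (along_base1 S q t).congr ?_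
      filter_upwards [Iio_mem_nhds h.2] with τ hτ
      simp only [Setup.st, Function.iterate_zero, id_eq, Setup.base]
      rw [if_pos (le_of_lt hτ)]
    · refine (along_base2 S hq t).congr ?_
      filter_upwards [Ioi_mem_nhds h.1] with τ hτ
      simp only [Setup.st, Function.iterate_zero, id_eq, Setup.base]
      rw [if_neg (not_le.2 hτ)]
  | succ n ih =>
    have h1 := hG t htI n
    have := along_step S q ih h1.sH0.ne' h1.den.ne'
    refine this.congr (Filter.Eventually.of_forall fun τ => ?_)
    simp only [Setup.st, Function.iterate_succ_apply']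

theorem Setup.contF (S : Setup) (q : ℝ) : Continuous (S.F q) :=
  continuous_const.mul (continuous_iff_continuousAt.2 fun x => (S.P.d1 x).continuousAt)
theorem Setup.contF₁ (S : Setup) (q : ℝ) : Continuous (S.F₁ q) :=
  continuous_const.mul (continuous_iff_continuousAt.2 fun x => (S.P.d2 x).continuousAt)
theorem Setup.contE (S : Setup) (q : ℝ) : Continuous (S.E q) :=
  continuous_const.mul (continuous_iff_continuousAt.2 fun x => (S.Q.d1 x).continuousAt)
theorem Setup.contE₁ (S : Setup) (q : ℝ) : Continuous (S.E₁ q) :=
  continuous_const.mul (continuous_iff_continuousAt.2 fun x => (S.Q.d2 x).continuousAt)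

/-- Continuity of a function defined by two formulas that agree at `0`. -/
theorem cont_two {u v w : ℝ → ℝ} (hu : Continuous u) (hv : Continuous v) (h0 : u 0 = v 0)
    (hw : ∀ τ, w τ = if τ ≤ 0 then u τ else v τ) : Continuous w := by
  have : w = fun τ => if τ ≤ 0 then u τ else v τ := funext hw
  rw [this]
  exact Continuous.if_le hu hv continuous_id continuous_const (by
    intro x hx
    try simp only [id_eq] at hx
    rw [hx, h0])

/-- The three main components of the iterates are continuous on `[-1,1]`
(at `t = 0` the two formulas of `base` agree: `x = y = q`, `s = 1`, as `X < q`). -/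
theorem cont_st (S : Setup) {q : ℝ} (hq : S.X < q)
    (hG : ∀ t ∈ Icc (-1 : ℝ) 1, ∀ n : ℕ, S.Good q (S.st q t n)) (n : ℕ) :
    ContinuousOn (fun τ => (S.st q τ n).x) (Icc (-1) 1) ∧
    ContinuousOn (fun τ => (S.st q τ n).y) (Icc (-1) 1) ∧
    ContinuousOn (fun τ => (S.st q τ n).s) (Icc (-1) 1) := by
  have hq0 : 0 < q := by linarith [S.M.X1]
  have hR := S.P.R0
  have hd : 0 < S.dist q := by unfold Setup.dist; positivity
  induction n with
  | zero =>
    have hg : Continuous S.g := continuous_iff_continuousAt.2 fun x => (S.M.d1 x).continuousAt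
    have hg₁ : Continuous S.g₁ := continuous_iff_continuousAt.2 fun x => (S.M.d2 x).continuousAt
    have hk : Continuous S.k := continuous_iff_continuousAt.2 fun x => (S.N.d1 x).continuousAt
    have hk₁ : Continuous S.k₁ := continuous_iff_continuousAt.2 fun x => (S.N.d2 x).continuousAt
    refine ⟨Continuous.continuousOn ?_, Continuous.continuousOn ?_, Continuous.continuousOn ?_⟩
    · refine cont_two (u := fun t => q * (2 * t + 1))
        (v := fun t => S.dist q * S.k (q * (1 - 2 * t))) (by fun_prop)
        (continuous_const.mul (hk.comp (by fun_prop))) ?_ ?_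
      · simp only [mul_zero, zero_add, sub_zero, mul_one]
        rw [S.N.tr q hq.le]
        unfold Setup.dist
        field_simp
      · intro τ
        simp only [Setup.st, Function.iterate_zero, id_eq, Setup.base]
        split_ifs <;> rfl
    · refine cont_two (u := fun t => S.dist q * S.g (q * (2 * t + 1)))
        (v := fun t => q * (1 - 2 * t)) (continuous_const.mul (hg.comp (by fun_prop)))
        (by fun_prop) ?_ ?_
      · simp only [mul_zero, zero_add, sub_zero, mul_one]
        rw [S.M.tr q hq.le]
        unfold Setup.dist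
        field_simp
      · intro τ
        simp only [Setup.st, Function.iterate_zero, id_eq, Setup.base]
        split_ifs <;> rfl
    · refine cont_two (u := fun t => -(S.dist q * S.g₁ (q * (2 * t + 1))))
        (v := fun t => (-(S.dist q * S.k₁ (q * (1 - 2 * t))))⁻¹)
        (continuous_const.mul (hg₁.comp (by fun_prop))).neg
        (Continuous.inv₀ (continuous_const.mul (hk₁.comp (by fun_prop))).neg ?_) ?_ ?_
      · intro τ
        have := S.N.g1neg (q * (1 - 2 * τ))
        have : 0 < -(S.dist q * S.k₁ (q * (1 - 2 * τ))) := by nlinarith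
        exact this.ne'
      · simp only [mul_zero, zero_add, sub_zero, mul_one]
        rw [S.M.tr1 q hq.le, S.N.tr1 q hq.le]
        unfold Setup.dist
        have : 4 * q ^ 2 / S.R₀ * -(S.R₀ / (4 * q ^ 2)) = -1 := by
          field_simp
        rw [this]
        norm_num
      · intro τ
        simp only [Setup.st, Function.iterate_zero, id_eq, Setup.base]
        split_ifs <;> rfl
  | succ n ih =>
    obtain ⟨hx, hy, hs⟩ := ih
    have hyH : ContinuousOn (fun τ => S.yH q (S.st q τ n)) (Icc (-1) 1) :=
      hy.sub ((S.contF q).comp_continuousOn hx)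
    have hsH : ContinuousOn (fun τ => S.sH q (S.st q τ n)) (Icc (-1) 1) :=
      hs.add ((S.contF₁ q).comp_continuousOn hx)
    have e : ∀ τ, S.st q τ (n + 1) = S.step q (S.st q τ n) := fun τ => by
      simp only [Setup.st, Function.iterate_succ_apply']
    refine ⟨?_, ?_, ?_⟩
    · simp only [e]
      exact hx.add ((S.contE q).comp_continuousOn hyH)
    · simp only [e]
      exact hyH
    · simp only [e]
      exact ((hsH.inv₀ fun τ hτ => (hG τ hτ n).sH0.ne').sub
        ((S.contE₁ q).comp_continuousOn hyH)).inv₀ fun τ hτ => (hG τ hτ n).den.ne'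

end CF
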