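import Pool.Agent.H.MP_1693ff_gt.Defs

/-!
# Relations between points, consistent families of 2-jets
-/

namespace CF

open Real Set Filter Topology

theorem RelG.trans {x y s x' y' s' x'' y'' s'' : ℝ} (h : RelG x y s x' y' s')
    (h' : RelG x' y' s' x'' y'' s'') : RelG x y s x'' y'' s'' := by
  obtain ⟨a, b, c, d⟩ := h
  obtain ⟨a', b', c', d'⟩ := h'
  refine ⟨by linarith, by linarith, ?_, ?_⟩
  · nlinarith [mul_nonneg (sub_nonneg.2 b) (sub_nonneg.2 a')]
  · nlinarith [mul_nonneg (sub_nonneg.2 b') (sub_nonneg.2 a)]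

theorem RelH.trans {x y s x' y' s' x'' y'' s'' : ℝ} (h : RelH x y s x' y' s')
    (h' : RelH x' y' s' x'' y'' s'') : RelH x y s x'' y'' s'' := by
  obtain ⟨a, b, c, d⟩ := h
  obtain ⟨a', b', c', d'⟩ := h'
  refine ⟨by linarith, by linarith, ?_, ?_⟩
  · nlinarith [mul_nonneg (sub_nonneg.2 b') (sub_nonneg.2 a)]
  · nlinarith [mul_nonneg (sub_nonneg.2 b) (sub_nonneg.2 a')]

/-- A family of 2-jets along a parameter is consistent at `t`: `x' = v`, `y' = -s v`,
`s' = -g v`. -/
structure Along (a : ℝ → St) (t : ℝ) : Prop where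
  dx : HasDerivAt (fun τ => (a τ).x) (a t).v t
  dy : HasDerivAt (fun τ => (a τ).y) (-(a t).s * (a t).v) t
  ds : HasDerivAt (fun τ => (a τ).s) (-(a t).g * (a t).v) t

end CF
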