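import Pool.Agent.H.MP_1693ff_gt.Defs

/-!
# The profile of a function on the circle: definitions
-/

namespace CF

open Real Set Filter Topology

noncomputable section

/-- `φ(x) = √(1+x²) f(arccot x)`. -/
def prof (f : ℝ → ℝ) (x : ℝ) : ℝ := √(1 + x ^ 2) * f (π / 2 - arctan x)

/-- its derivative, `f(θ) cos θ - f'(θ) sin θ`. -/
def prof1 (f : ℝ → ℝ) (x : ℝ) : ℝ :=
  x / √(1 + x ^ 2) * f (π / 2 - arctan x) - deriv f (π / 2 - arctan x) / √(1 + x ^ 2)

/-- its second derivative, `(f + f'')(θ) sin³ θ`. -/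
def prof2 (f : ℝ → ℝ) (x : ℝ) : ℝ := curv f (π / 2 - arctan x) / √(1 + x ^ 2) ^ 3

end

end CF
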