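import Pool.Agent.H.MP_1693ff_gt.Defs

/-!
# Bodies of revolution: definitions
-/

namespace CF

open Real Set Filter Topology

noncomputable section

/-- `K` is a convex body in `E` whose `(-1)`-chord functions at the interior points `p₁`, `p₂` are
`u ↦ f₁ (angle of e and u)`, `u ↦ f₂ (angle of e and u)` (`e` a unit vector). -/
def PairAx {E : Type*} [NormedAddCommGroup E] [InnerProductSpace ℝ E] (f₁ f₂ : ℝ → ℝ) (e : E)
    (K : Set E) (p₁ p₂ : E) : Prop :=
  IsBody K ∧ p₁ ∈ interior K ∧ p₂ ∈ interior K ∧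
    (∀ u, ‖u‖ = 1 → chord (-1) K p₁ u = f₁ (arccos (inner ℝ e u))) ∧
    ∀ u, ‖u‖ = 1 → chord (-1) K p₂ u = f₂ (arccos (inner ℝ e u))

/-- Axial coordinate and distance from the axis. -/
def rz {E : Type*} [NormedAddCommGroup E] [InnerProductSpace ℝ E] (e z : E) : Pl :=
  !₂[inner ℝ e z, ‖z - (inner ℝ e z : ℝ) • e‖]

/-- The body of revolution. -/
def rev {E : Type*} [NormedAddCommGroup E] [InnerProductSpace ℝ E] (e : E) (K : Set Pl) : Set E :=
  {z | rz e z ∈ K}

end

end CF
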